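import Pool.Agent.H417.PL.Wt
import Pool.Graph.R_pool_sql_team_seeded_620a6dc7.H651_Nov.Ext

/-!
The rational homology of the affine group `A ⋊ P` of an ordered group, where some element of `P` acts
by a rational number different from one.
-/

set_option autoImplicit false

namespace Pool.Agent.H417.PL

open Finsupp Pool.Agent.Y483 Pool.Agent.R942.NV Pool.Agent.H651.Nov Pool.Agent.R615.KU

/-- The affine maps `x ↦ b + p x`. -/
@[ext] structure Af (A P : Type) where
  /-- The translation. -/
  b : A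
  /-- The slope. -/
  p : P

section Def

variable {A P : Type} [AddCommGroup A] [CommGroup P] [DistribMulAction P A]

instance : Mul (Af A P) := ⟨fun g h => ⟨g.b + g.p • h.b, g.p * h.p⟩⟩
instance : One (Af A P) := ⟨⟨0, 1⟩⟩
instance : Inv (Af A P) := ⟨fun g => ⟨-(g.p⁻¹ • g.b), g.p⁻¹⟩⟩

theorem Af.mul_b (g h : Af A P) : (g * h).b = g.b + g.p • h.b := rfl
theorem Af.mul_p (g h : Af A P) : (g * h).p = g.p * h.p := rfl
theorem Af.one_b : (1 : Af A P).b = 0 := rfl
theorem Af.one_p : (1 : Af A P).p = 1 := rfl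
theorem Af.inv_b (g : Af A P) : (g⁻¹).b = -(g.p⁻¹ • g.b) := rfl
theorem Af.inv_p (g : Af A P) : (g⁻¹).p = g.p⁻¹ := rfl

instance : Group (Af A P) := Group.ofLeftAxioms
  (fun x y z => by
    apply Af.ext
    · simp only [Af.mul_b, Af.mul_p, smul_add, mul_smul, add_assoc]
    · simp only [Af.mul_p, mul_assoc])
  (fun x => by
    apply Af.ext
    · simp [Af.mul_b, Af.one_b, Af.one_p]
    · simp [Af.mul_p, Af.one_p])
  (fun x => by
    apply Af.ext
    · simp [Af.mul_b, Af.inv_b, Af.inv_p, Af.one_b]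
    · simp [Af.mul_p, Af.inv_p, Af.one_p])

/-- The action on `A`. -/
def Af.act : Af A P →* Equiv.Perm A where
  toFun g :=
    { toFun := fun x => g.b + g.p • x
      invFun := fun x => g.p⁻¹ • (x - g.b)
      left_inv := fun x => by simp
      right_inv := fun x => by simp }
  map_one' := by
    ext x
    change (0 : A) + (1 : P) • x = x
    simp
  map_mul' g h := by
    ext x
    change (g.b + g.p • h.b) + (g.p * h.p) • x = g.b + g.p • (h.b + h.p • x)
    rw [smul_add, mul_smul, add_assoc]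

theorem Af.act_apply (g : Af A P) (x : A) : Af.act g x = g.b + g.p • x := rfl

/-- The slope. -/
def Af.pr : Af A P →* P where
  toFun g := g.p
  map_one' := rfl
  map_mul' _ _ := rfl

/-- The linear maps. -/
def Af.lin : P →* Af A P where
  toFun p := ⟨0, p⟩
  map_one' := rfl
  map_mul' p q := by
    apply Af.ext
    · simp [Af.mul_b]
    · rfl

/-- The translations. -/
def Af.tra : Multiplicative A →* Af A P where
  toFun x := ⟨x.toAdd, 1⟩
  map_one' := rfl
  map_mul' x y := by
    apply Af.ext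
    · simp [Af.mul_b]
    · simp [Af.mul_p]

end Def

section Hom

variable {A P : Type} [AddCommGroup A] [IsAddTorsionFree A] [Nontrivial A] [CommGroup P]
  [DistribMulAction P A] (r : P) (m n : ℕ) (hm : m ≠ 0) (hn : n ≠ 0) (hmn : m ≠ n)
  (hr : ∀ x : A, n • (r • x) = m • x)

include hm hn hmn hr in
theorem r_inj : Function.Injective fun k : ℤ => r ^ k := by
  have h1 : ∀ (k : ℕ) (x : A), n ^ k • (r ^ k • x) = m ^ k • x := by
    intro k
    induction k with
    | zero => intro x; simp
    | succ k ih =>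
      intro x
      rw [pow_succ r, mul_smul, pow_succ n, mul_smul, smul_comm n (r ^ k), hr,
        smul_comm (r ^ k) m, smul_comm (n ^ k) m, ih, ← mul_smul, pow_succ' m]
  have h2 : ∀ k : ℕ, k ≠ 0 → r ^ k ≠ 1 := by
    intro k hk hrk
    obtain ⟨x, hx⟩ := exists_ne (0 : A)
    have h3 := h1 k x
    rw [hrk, one_smul] at h3
    have h4 : ((n ^ k : ℕ) : ℤ) • x = ((m ^ k : ℕ) : ℤ) • x := by
      rw [natCast_zsmul, natCast_zsmul]
      exact h3
    have h5 : ((n ^ k : ℕ) : ℤ) = ((m ^ k : ℕ) : ℤ) := by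
      by_contra h6
      have h7 : (((n ^ k : ℕ) : ℤ) - ((m ^ k : ℕ) : ℤ)) • x = 0 := by
        rw [sub_smul, h4, sub_self]
      rcases smul_eq_zero.mp h7 with h8 | h8
      · exact h6 (sub_eq_zero.mp h8)
      · exact hx h8
    have h6 : n ^ k = m ^ k := by exact_mod_cast h5
    exact hmn ((Nat.pow_left_injective hk) h6).symm
  intro k l hkl
  by_contra hne
  have h3 : r ^ (k - l) = 1 := by
    rw [zpow_sub]
    simp only at hkl
    rw [hkl, mul_inv_cancel]
  have h4 : r ^ (k - l).natAbs = 1 := by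
    rcases Int.natAbs_eq (k - l) with h5 | h5
    · rw [h5, zpow_natCast] at h3
      exact h3
    · rw [h5, zpow_neg, zpow_natCast, inv_eq_one] at h3
      exact h3
  exact h2 _ (by
    rw [Ne, Int.natAbs_eq_zero]
    exact sub_ne_zero.mpr hne) h4

/-- The projection of the affine group to the quotient of `P` by the powers of `r`. -/
def g1 (A : Type) {P : Type} [AddCommGroup A] [CommGroup P] [DistribMulAction P A] (r : P) :
    Af A P →* P ⧸ Subgroup.zpowers r := (QuotientGroup.mk' (Subgroup.zpowers r)).comp Af.pr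

theorem mem_g1 (g : Af A P) (hg : g ∈ (g1 A r).ker) : ∃ k : ℤ, r ^ k = g.p := by
  rw [MonoidHom.mem_ker] at hg
  have h : QuotientGroup.mk' (Subgroup.zpowers r) g.p = 1 := hg
  rw [← MonoidHom.mem_ker, QuotientGroup.ker_mk'] at h
  exact Subgroup.mem_zpowers_iff.mp h

theorem mem_g2 (g : P) (hg : g ∈ (QuotientGroup.mk' (Subgroup.zpowers r)).ker) :
    ∃ k : ℤ, r ^ k = g := by
  rw [QuotientGroup.ker_mk'] at hg
  exact Subgroup.mem_zpowers_iff.mp hg

include hm hn hmn hr in
/-- **The projection of the affine group to `P` is injective on rational homology.** -/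
theorem pr_inj (q : ℕ) : Function.Injective (hqMap (Af.pr : Af A P →* P) q) := by
  have hri := r_inj (A := A) r m n hm hn hmn hr
  set γ₂ := QuotientGroup.mk' (Subgroup.zpowers r) with hγ₂
  set γ₁ := g1 A r with hγ₁
  have hf : ∀ g, γ₂ (Af.pr g) = γ₁ g := fun _ => rfl
  let κ := kerMap γ₁ γ₂ (Af.pr : Af A P →* P) hf
  -- the section
  let sec : γ₂.ker →* γ₁.ker := (Af.lin.comp γ₂.ker.subtype).codRestrict γ₁.ker fun k => k.2
  have hsec : κ.comp sec = MonoidHom.id _ := rfl
  have hsur : ∀ q, Function.Surjective (hqMap κ q) := by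
    intro q x
    refine ⟨hqMap sec q x, ?_⟩
    rw [← hqMap_comp, hsec, hqMap_id]
  -- the homomorphism to the integers
  choose l₂ hl₂ using fun g : γ₂.ker => mem_g2 r g.1 g.2
  have hl₂a : ∀ g h, l₂ (g * h) = l₂ g + l₂ h := by
    intro g h
    apply hri
    change r ^ l₂ (g * h) = r ^ (l₂ g + l₂ h)
    rw [zpow_add, hl₂, hl₂, hl₂]
    rfl
  let l : γ₁.ker → ℤ := fun g => l₂ (κ g)
  have hl : ∀ g h, l (g * h) = l g + l h := fun g h => by
    change l₂ (κ (g * h)) = _
    rw [map_mul, hl₂a]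
  have hrk : (Af.lin r : Af A P) ∈ γ₁.ker := by
    rw [MonoidHom.mem_ker]
    exact (QuotientGroup.eq_one_iff (r : P)).mpr (Subgroup.mem_zpowers r)
  let t : γ₁.ker := ⟨Af.lin r, hrk⟩
  have ht : l t = 1 := by
    apply hri
    change r ^ l₂ (κ t) = r ^ (1 : ℤ)
    rw [hl₂, zpow_one]
    rfl
  let i : Multiplicative A →* γ₁.ker := Af.tra.codRestrict γ₁.ker fun x => by
    rw [MonoidHom.mem_ker]
    exact map_one (QuotientGroup.mk' (Subgroup.zpowers r))
  have hi : Function.Injective i := by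
    intro x y hxy
    have h1 := congrArg (fun g : γ₁.ker => g.1.b) hxy
    exact Multiplicative.toAdd.injective h1
  have hik : ∀ k, l (i k) = 0 := by
    intro k
    apply hri
    change r ^ l₂ (κ (i k)) = r ^ (0 : ℤ)
    rw [hl₂, zpow_zero]
    rfl
  have hex : ∀ g, l g = 0 → ∃ k, i k = g := by
    intro g hg
    have h1 := hl₂ (κ g)
    have h2 : l₂ (κ g) = 0 := hg
    rw [h2, zpow_zero] at h1
    refine ⟨Multiplicative.ofAdd g.1.b, ?_⟩
    apply Subtype.ext
    apply Af.ext
    · rfl
    · exact h1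
  let s : Multiplicative A →* Multiplicative A :=
    { toFun := fun x => Multiplicative.ofAdd (r⁻¹ • x.toAdd)
      map_one' := by
        change Multiplicative.ofAdd (r⁻¹ • (0 : A)) = 1
        rw [smul_zero]
        rfl
      map_mul' := fun x y => by
        change Multiplicative.ofAdd (r⁻¹ • (x.toAdd + y.toAdd)) = _
        rw [smul_add]
        rfl }
  have hs : ∀ k, t⁻¹ * i k * t = i (s k) := by
    intro k
    apply Subtype.ext
    change (Af.lin r)⁻¹ * Af.tra k * Af.lin r = Af.tra (s k)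
    apply Af.ext
    · simp [Af.mul_b, Af.mul_p, Af.inv_b, Af.inv_p, Af.lin, Af.tra, s]
    · simp [Af.mul_p, Af.inv_p, Af.lin, Af.tra]
  have hs2 : ∀ x, (s x) ^ m = x ^ n := by
    intro x
    apply Multiplicative.toAdd.injective
    change m • (r⁻¹ • x.toAdd) = n • x.toAdd
    have h1 := hr (r⁻¹ • x.toAdd)
    rw [smul_inv_smul] at h1
    exact h1.symm
  have hw : ∀ (q : ℕ), ∃ c : ℚ, c ≠ 1 ∧ ∀ y : T (q + 1) (Multiplicative A) ℚ,
      Cyc (trivR (Multiplicative A) ℚ) (q + 1) y →
        mp (q + 1) s LinearMap.id y - c • y ∈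
          LinearMap.range (dd (trivR (Multiplicative A) ℚ) (q + 1)) := by
    intro q
    refine ⟨(n / m : ℚ) ^ (q + 1), ?_, fun y hy => weight s m n hm hs2 (q + 1) y hy⟩
    intro h1
    have hm' : (0 : ℚ) < m := by exact_mod_cast Nat.pos_of_ne_zero hm
    have h2 : (0 : ℚ) ≤ n / m := div_nonneg (Nat.cast_nonneg n) hm'.le
    have h3 := (pow_eq_one_iff_of_nonneg h2 (Nat.succ_ne_zero q)).mp h1
    rw [div_eq_one_iff_eq hm'.ne'] at h3
    exact hmn (by exact_mod_cast h3.symm)
  refine compare_inj γ₁ γ₂ (fun x => ?_) (QuotientGroup.mk'_surjective _) Af.pr hf 1 ?_ ?_ q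
  · obtain ⟨p, rfl⟩ := QuotientGroup.mk'_surjective _ x
    exact ⟨Af.lin p, rfl⟩
  · intro q hq
    refine ⟨?_, hsur q⟩
    rw [injective_iff_map_eq_zero]
    intro x hx
    cases q with
    | zero => exact hq_zero_injective _ x hx
    | succ q =>
      obtain rfl : q = 0 := by omega
      obtain ⟨z, hz⟩ := exists_rpr (Rep.trivial ℚ γ₁.ker ℚ) (0 + 1) x
      rw [hz.eq_zero_iff]
      refine wangB l hl t ht i hi hik hex s hs hw 0 z ((cyc_succ _ _ _).mp hz.cyc) fun _ => ?_
      obtain ⟨v, hv⟩ := (hz.hq κ).eq_zero_iff.mp hx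
      have h1 : lam l 0 z = lam l₂ 0 (mp 1 κ LinearMap.id z) := by
        have h : lam l 0 = (lam l₂ 0) ∘ₗ (mp 1 κ LinearMap.id) := by
          apply T_ext
          intro x r
          rw [LinearMap.comp_apply, mp_single, lam_single, lam_single]
          rfl
        exact DFunLike.congr_fun h z
      have h2 : ∀ v : T 2 γ₂.ker ℚ, lam l₂ 0 (dd (trivR γ₂.ker ℚ) 1 v) = 0 := by
        intro v
        have h : (lam l₂ 0) ∘ₗ (dd (trivR γ₂.ker ℚ) 1) = 0 := by
          apply T_ext
          intro x r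
          rw [LinearMap.comp_apply, dd_single, map_add, map_sum, Fin.sum_univ_two, map_smul,
            map_smul, lam_single, lam_single, lam_single]
          have e1 : Fin.contractNth (0 : Fin 2) (fun a b => a * b) x 0 = x 0 * x 1 := by
            simp [Fin.contractNth]
          have e2 : Fin.contractNth (1 : Fin 2) (fun a b => a * b) x 0 = x 0 := by
            simp [Fin.contractNth]
          rw [e1, e2, hl₂a]
          simp
          ring
        exact DFunLike.congr_fun h v
      have hv' : dd (trivR γ₂.ker ℚ) 1 v = mp 1 κ LinearMap.id z := hv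
      rw [h1, ← hv', h2]
  · intro q hq x
    obtain ⟨k, rfl⟩ : ∃ k, q = k + 1 + 1 := ⟨q - 2, by omega⟩
    obtain ⟨z, hz⟩ := exists_rpr (Rep.trivial ℚ γ₁.ker ℚ) (k + 1 + 1) x
    rw [hz.eq_zero_iff]
    exact wangB l hl t ht i hi hik hex s hs hw (k + 1) z ((cyc_succ _ _ _).mp hz.cyc)
      fun h => absurd h (Nat.succ_ne_zero k)

include hm hn hmn hr in
/-- The inclusion of `P` in the affine group is bijective on rational homology. -/
theorem lin_bij (q : ℕ) : Function.Bijective (hqMap (Af.lin : P →* Af A P) q) := by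
  have h1 : (Af.pr : Af A P →* P).comp Af.lin = MonoidHom.id P := rfl
  refine ⟨hqMap_inj q _ _ h1, fun x => ⟨hqMap Af.pr q x, ?_⟩⟩
  apply pr_inj r m n hm hn hmn hr q
  rw [← hqMap_comp, h1, hqMap_id]

end Hom

end Pool.Agent.H417.PL
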