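import Pool.Agent.H417.PL.Wt
import Mathlib.Algebra.Polynomial.AlgebraMap

/-!
The rational homology of extensions of the integers by a group `K`, where the action on the homology
of `K` has no fixed vectors, in terms of polynomials.
-/

set_option autoImplicit false
set_option linter.unusedSectionVars false

namespace Pool.Agent.H417.PL

open Finsupp Pool.Agent.Y483 Pool.Agent.R942.NV Polynomial

section Poly

variable {V W : Type} [AddCommGroup V] [Module ℚ V] [AddCommGroup W] [Module ℚ W]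

/-- Polynomials in operators which are intertwined modulo a submodule. -/
theorem aeval_inter (S : Module.End ℚ V) (Z : Module.End ℚ W) (i : V →ₗ[ℚ] W)
    (N : Submodule ℚ W) (hN : ∀ w ∈ N, Z w ∈ N) (C : V → Prop) (hC : ∀ v, C v → C (S v))
    (h : ∀ v, C v → Z (i v) - i (S v) ∈ N) (g : ℚ[X]) (v : V) (hv : C v) :
    aeval Z g (i v) - i (aeval S g v) ∈ N := by
  have hp : ∀ (k : ℕ) (w : W), w ∈ N → (Z ^ k) w ∈ N := by
    intro k
    induction k with
    | zero => intro w hw; exact hw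
    | succ k ih =>
      intro w hw
      rw [pow_succ, Module.End.mul_apply]
      exact ih _ (hN w hw)
  have key : ∀ (k : ℕ) (v : V), C v → (Z ^ k) (i v) - i ((S ^ k) v) ∈ N := by
    intro k
    induction k with
    | zero =>
      intro v _
      rw [pow_zero, pow_zero]
      change i v - i v ∈ N
      rw [sub_self]
      exact zero_mem _
    | succ k ih =>
      intro v hv
      have h1 := hp k _ (h v hv)
      have h2 := ih (S v) (hC v hv)
      rw [map_sub] at h1
      rw [pow_succ, pow_succ, Module.End.mul_apply, Module.End.mul_apply]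
      have h3 := add_mem h1 h2
      rwa [sub_add_sub_cancel] at h3
  induction g using Polynomial.induction_on' with
  | add p q hp hq =>
    rw [map_add, map_add, LinearMap.add_apply, LinearMap.add_apply, map_add, add_sub_add_comm]
    exact add_mem hp hq
  | monomial n a =>
    rw [aeval_monomial, aeval_monomial, Module.End.mul_apply, Module.End.mul_apply]
    change a • ((Z ^ n) (i v)) - i (a • ((S ^ n) v)) ∈ N
    rw [map_smul, ← smul_sub]
    exact N.smul_mem _ (key n v hv)

theorem aeval_mem (Z : Module.End ℚ W) (N : Submodule ℚ W) (hN : ∀ w ∈ N, Z w ∈ N) (g : ℚ[X])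
    (w : W) (hw : w ∈ N) : aeval Z g w ∈ N := by
  have hp : ∀ (k : ℕ) (w : W), w ∈ N → (Z ^ k) w ∈ N := by
    intro k
    induction k with
    | zero => intro w hw; exact hw
    | succ k ih =>
      intro w hw
      rw [pow_succ, Module.End.mul_apply]
      exact ih _ (hN w hw)
  induction g using Polynomial.induction_on' with
  | add p q hp hq =>
    rw [map_add, LinearMap.add_apply]
    exact add_mem hp hq
  | monomial n a =>
    rw [aeval_monomial, Module.End.mul_apply]
    change a • ((Z ^ n) w) ∈ N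
    exact N.smul_mem _ (hp n w hw)

/-- The difference of `g(Z)` and `g(1)`. -/
theorem aeval_one (Z : Module.End ℚ W) (g : ℚ[X]) : ∃ h : Module.End ℚ W,
    (∀ (N : Submodule ℚ W), (∀ w ∈ N, Z w ∈ N) → ∀ w ∈ N, h w ∈ N) ∧
    (∀ w, aeval Z g w = h ((Z - 1) w) + g.eval 1 • w) ∧
    (∀ w, aeval Z g w = (Z - 1) (h w) + g.eval 1 • w) := by
  obtain ⟨h, hh⟩ := X_sub_C_dvd_sub_C_eval (a := (1 : ℚ)) (p := g)
  have e : g = (X - C 1) * h + C (g.eval 1) := by rw [← hh, sub_add_cancel]
  refine ⟨aeval Z h, fun N hN w hw => aeval_mem Z N hN h w hw, fun w => ?_, fun w => ?_⟩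
  · conv_lhs => rw [e]
    rw [mul_comm, map_add, map_mul, map_sub, aeval_X, aeval_C, aeval_C, map_one]
    rfl
  · conv_lhs => rw [e]
    rw [map_add, map_mul, map_sub, aeval_X, aeval_C, aeval_C, map_one]
    rfl

end Poly

section Wang

variable {B K : Type} [Group B] [Group K] (l : B → ℤ) (hl : ∀ g h, l (g * h) = l g + l h)

variable (t : B) (ht : l t = 1) (i : K →* B) (hi : Function.Injective i) (hik : ∀ k, l (i k) = 0)
  (hex : ∀ g, l g = 0 → ∃ k, i k = g) (s : K →* K) (hs : ∀ k, t⁻¹ * i k * t = i (s k))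
  (hw : ∀ (q : ℕ) (y : T (q + 1) K ℚ), Cyc (trivR K ℚ) (q + 1) y → ∃ g : ℚ[X], g.eval 1 ≠ 0 ∧
    aeval (mp (q + 1) s LinearMap.id : Module.End ℚ (T (q + 1) K ℚ)) g y ∈
      LinearMap.range (dd (trivR K ℚ) (q + 1)))

/-- The shift of the coefficients. -/
noncomputable def Zop (B : Type) (q : ℕ) : Module.End ℚ (T q B (ℤ →₀ ℚ)) := mp q id (DZ + LinearMap.id)

theorem Zop_eq (q : ℕ) (z : T q B (ℤ →₀ ℚ)) : Zop B q z = mp q id DZ z + z := by
  have h : Zop B q = mp q id DZ + LinearMap.id := by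
    apply T_ext
    intro x m
    rw [Zop, mp_single, LinearMap.add_apply, LinearMap.add_apply, mp_single, single_add]
    rfl
  rw [h]
  rfl

theorem Zop_range (q : ℕ) (z : T q B (ℤ →₀ ℚ))
    (hz : z ∈ LinearMap.range (dd (permRep (zA l hl)) q)) :
    Zop B q z ∈ LinearMap.range (dd (permRep (zA l hl)) q) := by
  rw [Zop_eq]
  exact Submodule.add_mem _ (range_id (ρ := permRep (zA l hl)) (τ := permRep (zA l hl)) DZ
    (sh_comm l hl) q _ hz) hz

include ht hi hik hex hs hw in
/-- Some polynomial in the shift annihilates the class of a cycle. -/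
theorem Z_poly (q : ℕ) (z : T (q + 1) B (ℤ →₀ ℚ)) (hz : Cyc (permRep (zA l hl)) (q + 1) z) :
    ∃ g : ℚ[X], g.eval 1 ≠ 0 ∧ aeval (Zop B (q + 1)) g z ∈
      LinearMap.range (dd (permRep (zA l hl)) (q + 1)) := by
  have hstab : ∀ k, zA l hl (i k) 0 = 0 := by
    intro k
    rw [zA_apply, hik, zero_add]
  have hex' : ∀ h, zA l hl h 0 = 0 → ∃ k, i k = h := by
    intro h hh
    rw [zA_apply, add_zero] at hh
    exact hex h hh
  obtain ⟨y, hy, hyz⟩ := shapiro (zA l hl) 0 (zA_trans l hl t ht) i hi hstab hex' (trivR K ℚ)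
    (fun _ => rfl) (q + 1) z hz
  obtain ⟨g, hg, hgy⟩ := hw q y hy
  have hφ : ∀ (a : ℤ) (g : K) (m : ℚ), (lsingle a : ℚ →ₗ[ℚ] (ℤ →₀ ℚ)) (trivR K ℚ g m) =
      permRep (zA l hl) (i g) ((lsingle a : ℚ →ₗ[ℚ] (ℤ →₀ ℚ)) m) := by
    intro a g m
    rw [lsingle_apply, lsingle_apply, permRep_single, zA_apply, hik, zero_add]
    rfl
  have hZr := fun w hw => Zop_range l hl (q + 1) w hw
  refine ⟨g, hg, ?_⟩
  have h1 := aeval_inter (mp (q + 1) s LinearMap.id : Module.End ℚ (T (q + 1) K ℚ))
    (Zop B (q + 1)) (mp (q + 1) i (lsingle (0 : ℤ))) _ hZr (Cyc (trivR K ℚ) (q + 1))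
    (fun v hv => cyc_mp (ρ := trivR K ℚ) (τ := trivR K ℚ) s LinearMap.id (fun _ _ => rfl) _ v hv)
    (fun v hv => by
      have h2 := plain (ρ := trivR K ℚ) (τ := permRep (zA l hl)) i (lsingle (1 : ℤ)) (hφ 1) t
        (q + 1) v hv
      have e1 : mp (q + 1) (fun x => t⁻¹ * i x * t)
          ((permRep (zA l hl) t⁻¹) ∘ₗ (lsingle (1 : ℤ))) v =
          mp (q + 1) i (lsingle (0 : ℤ)) (mp (q + 1) s LinearMap.id v) := by
        rw [mp_mp]
        have e2 : (permRep (zA l hl) t⁻¹) ∘ₗ (lsingle (1 : ℤ)) = lsingle (0 : ℤ) := by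
          apply LinearMap.ext
          intro m
          rw [LinearMap.comp_apply, lsingle_apply, permRep_single, zA_apply, map_inv_neg l hl, ht]
          rfl
        rw [e2]
        congr 2
        funext k
        exact hs k
      rw [e1] at h2
      have e3 : Zop B (q + 1) (mp (q + 1) i (lsingle (0 : ℤ)) v) =
          mp (q + 1) i (lsingle (1 : ℤ)) v := by
        rw [Zop, mp_mp]
        have e4 : (DZ + LinearMap.id) ∘ₗ (lsingle (0 : ℤ)) = (lsingle (1 : ℤ) : ℚ →ₗ[ℚ] _) := by
          apply LinearMap.ext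
          intro m
          change DZ (single 0 m) + single 0 m = single 1 m
          rw [DZ, LinearMap.sub_apply, shZ_single]
          simp
        rw [e4]
        rfl
      rw [e3]
      have h3 := Submodule.neg_mem _ h2
      rwa [neg_sub] at h3) g y hy
  have h2 := range_mp (ρ := trivR K ℚ) (τ := permRep (zA l hl)) i (lsingle (0 : ℤ)) (hφ 0) (q + 1)
    _ hgy
  have h3 := aeval_mem (Zop B (q + 1)) _ hZr g _ hyz
  have h4 := Submodule.add_mem _ (Submodule.add_mem _ h1 h2) h3
  rw [sub_add_cancel, map_sub] at h4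
  rwa [add_sub_cancel] at h4

include hl ht hi hik hex hs hw in
/-- A cycle of positive degree, of degree one only if the homomorphism vanishes on it, bounds. -/
theorem wangP (q : ℕ) (z : T (q + 1) B ℚ) (hz : dd (trivR B ℚ) q z = 0)
    (h0 : q = 0 → lam l q z = 0) : z ∈ LinearMap.range (dd (trivR B ℚ) (q + 1)) := by
  have haug : ∀ (g : B) (m : ℤ →₀ ℚ), sumC ℤ (permRep (zA l hl) g m) =
      trivR B ℚ g (sumC ℤ m) := by
    intro g m
    rw [sumC_permRep]; rfl
  set zt := mp (q + 1) (id : B → B) (lsingle (0 : ℤ)) z with hzt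
  have hzt' : mp (q + 1) (id : B → B) (sumC ℤ) zt = z := by
    rw [hzt, mp_mp]
    have e : (sumC ℤ) ∘ₗ (lsingle (0 : ℤ)) = LinearMap.id := by
      apply LinearMap.ext
      intro r
      simp
    rw [e]
    exact mp_id _ _
  set k := dd (permRep (zA l hl)) q zt with hk
  have hk0 : mp q (id : B → B) (sumC ℤ) k = 0 := by
    rw [hk, ← dd_id (ρ := permRep (zA l hl)) (τ := trivR B ℚ) (sumC ℤ) haug, hzt', hz]
  set u := mp q (id : B → B) RZ k with hu
  have hDu : mp q (id : B → B) DZ u = k := by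
    rw [hu, mp_mp]
    have e : DZ ∘ₗ RZ = LinearMap.id - (lsingle 0) ∘ₗ (sumC ℤ) := by
      apply LinearMap.ext
      intro m
      exact DZ_RZ m
    rw [e]
    have e2 : mp q ((id : B → B) ∘ id) (LinearMap.id - (lsingle (0 : ℤ)) ∘ₗ (sumC ℤ)) k =
        mp q (id : B → B) LinearMap.id k - mp q (id : B → B) ((lsingle (0 : ℤ)) ∘ₗ (sumC ℤ)) k :=
      mp_sub_coef _ _ _ _
    rw [e2, mp_id]
    have e3 : mp q (id : B → B) ((lsingle (0 : ℤ)) ∘ₗ (sumC ℤ)) k =
        mp q (id : B → B) (lsingle (0 : ℤ)) (mp q (id : B → B) (sumC ℤ) k) := by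
      rw [mp_mp]; rfl
    rw [e3, hk0, map_zero, sub_zero]
  have hkc : Cyc (permRep (zA l hl)) q k := cyc_dd _ _ _
  have huc : Cyc (permRep (zA l hl)) q u := by
    apply cyc_of_mp (τ := permRep (zA l hl)) (MonoidHom.id B) DZ (sh_comm l hl) (fun _ _ h => h)
      DZ_injective
    have : mp q (MonoidHom.id B) DZ u = k := hDu
    rw [this]
    exact hkc
  have hZ1 : ∀ (n : ℕ) (w : T n B (ℤ →₀ ℚ)), (Zop B n - 1) w = mp n (id : B → B) DZ w := by
    intro n w
    rw [LinearMap.sub_apply, Zop_eq]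
    exact add_sub_cancel_right _ _
  have hur : u ∈ LinearMap.range (dd (permRep (zA l hl)) q) := by
    cases q with
    | zero =>
      apply zero_range l hl t ht
      have h1 := h0 rfl
      have h2 : ∀ w : T 1 B ℚ, sumC ℤ ((mp 0 (id : B → B) RZ (dd (permRep (zA l hl)) 0
          (mp 1 (id : B → B) (lsingle (0 : ℤ)) w))) default) = - lam l 0 w := by
        intro w
        have h : (sumC ℤ) ∘ₗ (lapply default : T 0 B (ℤ →₀ ℚ) →ₗ[ℚ] (ℤ →₀ ℚ)) ∘ₗ
            (mp 0 (id : B → B) RZ) ∘ₗ (dd (permRep (zA l hl)) 0) ∘ₗ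
              (mp 1 (id : B → B) (lsingle (0 : ℤ))) = - lam l 0 := by
          apply T_ext
          intro x r
          rw [LinearMap.comp_apply, LinearMap.comp_apply, LinearMap.comp_apply,
            LinearMap.comp_apply, mp_single, dd_zero_eq, mp_single, D1_single, lapply_apply]
          have e5 : ((id : B → B) ∘ (default : Fin 0 → B)) = default := Subsingleton.elim _ _
          rw [e5, Finsupp.single_eq_same, sum_RZ, lsingle_apply, permRep_single, zA_apply,
            map_inv_neg l hl, LinearMap.neg_apply, lam_single, Finsupp.sum_sub_index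
              (fun _ _ _ => mul_sub _ _ _), Finsupp.sum_single_index (mul_zero _),
            Finsupp.sum_single_index (mul_zero _)]
          simp
        exact DFunLike.congr_fun h w
      rw [hu, hk, hzt, h2, h1, neg_zero]
    | succ q =>
      obtain ⟨g, hg, hgu⟩ := Z_poly l hl t ht i hi hik hex s hs hw q u huc
      obtain ⟨h, h1, h2, -⟩ := aeval_one (Zop B (q + 1)) g
      rw [h2, hZ1, hDu] at hgu
      have h3 := h1 _ (fun w hw => Zop_range l hl (q + 1) w hw) k ⟨zt, rfl⟩
      have h4 := Submodule.sub_mem _ hgu h3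
      rw [add_sub_cancel_left] at h4
      have h5 := Submodule.smul_mem _ (g.eval 1)⁻¹ h4
      rwa [smul_smul, inv_mul_cancel₀ hg, one_smul] at h5
  obtain ⟨v, hv⟩ := hur
  set ζ := zt - mp (q + 1) (id : B → B) DZ v with hζ
  have hζc : Cyc (permRep (zA l hl)) (q + 1) ζ := by
    rw [cyc_succ, hζ, map_sub, dd_id (ρ := permRep (zA l hl)) (τ := permRep (zA l hl)) DZ
      (sh_comm l hl), hv, hDu, ← hk, sub_self]
  obtain ⟨g, hg, hgζ⟩ := Z_poly l hl t ht i hi hik hex s hs hw q ζ hζc
  obtain ⟨h, -, -, h2⟩ := aeval_one (Zop B (q + 1)) g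
  have h1 := range_id (ρ := permRep (zA l hl)) (τ := trivR B ℚ) (sumC ℤ) haug (q + 1) _ hgζ
  have hsD : ∀ w : T (q + 1) B (ℤ →₀ ℚ), mp (q + 1) (id : B → B) (sumC ℤ)
      (mp (q + 1) (id : B → B) DZ w) = 0 := by
    intro w
    rw [mp_mp]
    have e : (sumC ℤ) ∘ₗ DZ = 0 := by
      apply lhom_ext
      intro a r
      simp [DZ]
    rw [e]
    exact mp_zero_coef _ _ _
  rw [h2, hZ1, map_add, hsD, zero_add, map_smul] at h1
  have h4 : mp (q + 1) (id : B → B) (sumC ℤ) ζ = z := by
    rw [hζ, map_sub, hzt', hsD, sub_zero]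
  rw [h4] at h1
  have h3 := Submodule.smul_mem _ (g.eval 1)⁻¹ h1
  rwa [smul_smul, inv_mul_cancel₀ hg, one_smul] at h3

end Wang

end Pool.Agent.H417.PL
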