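import Pool.Agent.H417.PL.Aff
import Pool.Agent.H417.PL.Wang2

/-!
The rational homology of the affine group `A ⋊ P`, where some element of `P` acts without fixed
vectors on the rational homology of `A` in positive degrees.
-/

set_option autoImplicit false

namespace Pool.Agent.H417.PL

open Finsupp Pool.Agent.Y483 Pool.Agent.R942.NV Pool.Agent.H651.Nov Pool.Agent.R615.KU Polynomial

section Scal

variable (A : Type) {P : Type} [AddCommGroup A] [CommGroup P] [DistribMulAction P A] (r : P)

/-- The inverse of an element of `P`, as an endomorphism of `A`. -/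
def scal : Multiplicative A →* Multiplicative A where
  toFun x := Multiplicative.ofAdd (r⁻¹ • x.toAdd)
  map_one' := by
    change Multiplicative.ofAdd (r⁻¹ • (0 : A)) = 1
    rw [smul_zero]
    rfl
  map_mul' x y := by
    change Multiplicative.ofAdd (r⁻¹ • (x.toAdd + y.toAdd)) = _
    rw [smul_add]
    rfl

/-- The powers of `r` are distinct and `r` has no fixed vectors in the rational homology of `A` in
positive degrees: every class of positive degree is killed by a polynomial in `r⁻¹` with nonzero
sum of coefficients. -/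
structure NoFix : Prop where
  inj : Function.Injective fun k : ℤ => r ^ k
  pol : ∀ (q : ℕ) (y : T (q + 1) (Multiplicative A) ℚ),
    Cyc (trivR (Multiplicative A) ℚ) (q + 1) y → ∃ g : ℚ[X], g.eval 1 ≠ 0 ∧
      aeval (mp (q + 1) (scal A r) LinearMap.id : Module.End ℚ (T (q + 1) (Multiplicative A) ℚ)) g
        y ∈ LinearMap.range (dd (trivR (Multiplicative A) ℚ) (q + 1))

end Scal

section Hom

variable {A P : Type} [AddCommGroup A] [CommGroup P]
  [DistribMulAction P A] (r : P) (hN : NoFix A r)

include hN in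
/-- **The projection of the affine group to `P` is injective on rational homology.** -/
theorem pr_inj' (q : ℕ) : Function.Injective (hqMap (Af.pr : Af A P →* P) q) := by
  have hri := hN.inj
  have hw := hN.pol
  set γ₂ := QuotientGroup.mk' (Subgroup.zpowers r) with hγ₂
  set γ₁ := g1 A r with hγ₁
  have hf : ∀ g, γ₂ (Af.pr g) = γ₁ g := fun _ => rfl
  let κ := kerMap γ₁ γ₂ (Af.pr : Af A P →* P) hf
  -- the section
  let sec : γ₂.ker →* γ₁.ker := (Af.lin.comp γ₂.ker.subtype).codRestrict γ₁.ker fun k => k.2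
  have hsec : κ.comp sec = MonoidHom.id _ := rfl
  have hsur : ∀ q, Function.Surjective (hqMap κ q) := by
    intro q x
    refine ⟨hqMap sec q x, ?_⟩
    rw [← hqMap_comp, hsec, hqMap_id]
  -- the homomorphism to the integers
  choose l₂ hl₂ using fun g : γ₂.ker => mem_g2 r g.1 g.2
  have hl₂a : ∀ g h, l₂ (g * h) = l₂ g + l₂ h := by
    intro g h
    apply hri
    change r ^ l₂ (g * h) = r ^ (l₂ g + l₂ h)
    rw [zpow_add, hl₂, hl₂, hl₂]
    rfl
  let l : γ₁.ker → ℤ := fun g => l₂ (κ g)
  have hl : ∀ g h, l (g * h) = l g + l h := fun g h => by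
    change l₂ (κ (g * h)) = _
    rw [map_mul, hl₂a]
  have hrk : (Af.lin r : Af A P) ∈ γ₁.ker := by
    rw [MonoidHom.mem_ker]
    exact (QuotientGroup.eq_one_iff (r : P)).mpr (Subgroup.mem_zpowers r)
  let t : γ₁.ker := ⟨Af.lin r, hrk⟩
  have ht : l t = 1 := by
    apply hri
    change r ^ l₂ (κ t) = r ^ (1 : ℤ)
    rw [hl₂, zpow_one]
    rfl
  let i : Multiplicative A →* γ₁.ker := Af.tra.codRestrict γ₁.ker fun x => by
    rw [MonoidHom.mem_ker]
    exact map_one (QuotientGroup.mk' (Subgroup.zpowers r))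
  have hi : Function.Injective i := by
    intro x y hxy
    have h1 := congrArg (fun g : γ₁.ker => g.1.b) hxy
    exact Multiplicative.toAdd.injective h1
  have hik : ∀ k, l (i k) = 0 := by
    intro k
    apply hri
    change r ^ l₂ (κ (i k)) = r ^ (0 : ℤ)
    rw [hl₂, zpow_zero]
    rfl
  have hex : ∀ g, l g = 0 → ∃ k, i k = g := by
    intro g hg
    have h1 := hl₂ (κ g)
    have h2 : l₂ (κ g) = 0 := hg
    rw [h2, zpow_zero] at h1
    refine ⟨Multiplicative.ofAdd g.1.b, ?_⟩
    apply Subtype.ext
    apply Af.ext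
    · rfl
    · exact h1
  have hs : ∀ k, t⁻¹ * i k * t = i (scal A r k) := by
    intro k
    apply Subtype.ext
    change (Af.lin r)⁻¹ * Af.tra k * Af.lin r = Af.tra (scal A r k)
    apply Af.ext
    · simp [Af.mul_b, Af.mul_p, Af.inv_b, Af.inv_p, Af.lin, Af.tra, scal]
    · simp [Af.mul_p, Af.inv_p, Af.lin, Af.tra]
  refine compare_inj γ₁ γ₂ (fun x => ?_) (QuotientGroup.mk'_surjective _) Af.pr hf 1 ?_ ?_ q
  · obtain ⟨p, rfl⟩ := QuotientGroup.mk'_surjective _ x
    exact ⟨Af.lin p, rfl⟩
  · intro q hq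
    refine ⟨?_, hsur q⟩
    rw [injective_iff_map_eq_zero]
    intro x hx
    cases q with
    | zero => exact hq_zero_injective _ x hx
    | succ q =>
      obtain rfl : q = 0 := by omega
      obtain ⟨z, hz⟩ := exists_rpr (Rep.trivial ℚ γ₁.ker ℚ) (0 + 1) x
      rw [hz.eq_zero_iff]
      refine wangP l hl t ht i hi hik hex (scal A r) hs hw 0 z ((cyc_succ _ _ _).mp hz.cyc) fun _ => ?_
      obtain ⟨v, hv⟩ := (hz.hq κ).eq_zero_iff.mp hx
      have h1 : lam l 0 z = lam l₂ 0 (mp 1 κ LinearMap.id z) := by
        have h : lam l 0 = (lam l₂ 0) ∘ₗ (mp 1 κ LinearMap.id) := by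
          apply T_ext
          intro x r
          rw [LinearMap.comp_apply, mp_single, lam_single, lam_single]
          rfl
        exact DFunLike.congr_fun h z
      have h2 : ∀ v : T 2 γ₂.ker ℚ, lam l₂ 0 (dd (trivR γ₂.ker ℚ) 1 v) = 0 := by
        intro v
        have h : (lam l₂ 0) ∘ₗ (dd (trivR γ₂.ker ℚ) 1) = 0 := by
          apply T_ext
          intro x r
          rw [LinearMap.comp_apply, dd_single, map_add, map_sum, Fin.sum_univ_two, map_smul,
            map_smul, lam_single, lam_single, lam_single]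
          have e1 : Fin.contractNth (0 : Fin 2) (fun a b => a * b) x 0 = x 0 * x 1 := by
            simp [Fin.contractNth]
          have e2 : Fin.contractNth (1 : Fin 2) (fun a b => a * b) x 0 = x 0 := by
            simp [Fin.contractNth]
          rw [e1, e2, hl₂a]
          simp
          ring
        exact DFunLike.congr_fun h v
      have hv' : dd (trivR γ₂.ker ℚ) 1 v = mp 1 κ LinearMap.id z := hv
      rw [h1, ← hv', h2]
  · intro q hq x
    obtain ⟨k, rfl⟩ : ∃ k, q = k + 1 + 1 := ⟨q - 2, by omega⟩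
    obtain ⟨z, hz⟩ := exists_rpr (Rep.trivial ℚ γ₁.ker ℚ) (k + 1 + 1) x
    rw [hz.eq_zero_iff]
    exact wangP l hl t ht i hi hik hex (scal A r) hs hw (k + 1) z ((cyc_succ _ _ _).mp hz.cyc)
      fun h => absurd h (Nat.succ_ne_zero k)

include hN in
/-- The inclusion of `P` in the affine group is bijective on rational homology. -/
theorem lin_bij' (q : ℕ) : Function.Bijective (hqMap (Af.lin : P →* Af A P) q) := by
  have h1 : (Af.pr : Af A P →* P).comp Af.lin = MonoidHom.id P := rfl
  refine ⟨hqMap_inj q _ _ h1, fun x => ⟨hqMap Af.pr q x, ?_⟩⟩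
  apply pr_inj' r hN q
  rw [← hqMap_comp, h1, hqMap_id]

end Hom

end Pool.Agent.H417.PL
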