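import Pool.Agent.H417.PL.Free

/-!
Functors for which every relation in a group holds in a subgroup generated by a finite set: unions of
detecting groups.
-/

set_option autoImplicit false

namespace Pool.Agent.H417.PL

open Finsupp Pool.Agent.Y483 Pool.Agent.R942.NV Pool.Agent.R615.KU CategoryTheory
  Pool.Agent.Y110.KW Pool.Agent.Y75.MQ Pool.Agent.R793.Mag DirectSum

/-- An element which vanishes in `G` vanishes in every subgroup of `G` which contains a certain finite
set. -/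
def Fty (E : GrpCat.{0} ⥤ ModuleCat.{0} ℚ) : Prop :=
  ∀ (G H : Type) [Group G] [Group H] (f : H →* G) (x : E.obj (GrpCat.of H)), emap E f x = 0 →
    ∃ S : Finset G, ∀ (K : Type) [Group K] (g : H →* K) (h : K →* G), h.comp g = f →
      Function.Injective h → (∀ s ∈ S, ∃ k, h k = s) → emap E g x = 0

section Lift

variable {P : Type} [Group P]

theorem hq_lift (j : ℕ) (x : HQ j P) : ∃ S : Finset P, ∀ L : Subgroup P, (∀ s ∈ S, s ∈ L) →
    ∃ y : HQ j L, hqMap L.subtype j y = x := by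
  classical
  obtain ⟨z, hz⟩ := exists_rpr (Rep.trivial ℚ P ℚ) j x
  refine ⟨entries z, fun L hL => ?_⟩
  obtain ⟨z', hz'⟩ := exists_sub L j z (fun x hx i => hL _ (mem_entries z x hx i))
  have h3 : Cyc (tQ L) j z' := cyc_of_mp (ρ := tQ L) (τ := tQ P) L.subtype LinearMap.id
    (fun _ _ => rfl) Subtype.val_injective (fun _ _ h => h) j z' (by
      rw [hz']
      exact hz.cyc)
  obtain ⟨y, hy⟩ := exists_class (A := Rep.trivial ℚ L ℚ) j z' h3
  refine ⟨y, ?_⟩
  have h4 := (hy.hq L.subtype).sub hz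
  rw [hz', sub_self] at h4
  exact sub_eq_zero.mp (h4.eq_zero_iff.mpr (Submodule.zero_mem _))

theorem hb_lift {B : Type} (d : B → ℕ) (x : HB d P) : ∃ S : Finset P, ∀ L : Subgroup P,
    (∀ s ∈ S, s ∈ L) → ∃ y : HB d L, hbMap d L.subtype y = x := by
  classical
  induction x using DirectSum.induction_on with
  | zero => exact ⟨∅, fun L _ => ⟨0, map_zero _⟩⟩
  | of b x =>
    obtain ⟨S, hS⟩ := hq_lift (d b) x
    refine ⟨S, fun L hL => ?_⟩
    obtain ⟨y, hy⟩ := hS L hL
    refine ⟨DirectSum.of (fun b : B => HQ (d b) L) b y, ?_⟩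
    rw [hbMap_of, hy]
  | add x y hx hy =>
    obtain ⟨S, hS⟩ := hx
    obtain ⟨S', hS'⟩ := hy
    refine ⟨S ∪ S', fun L hL => ?_⟩
    obtain ⟨a, ha⟩ := hS L (fun s hs => hL s (Finset.mem_union_left _ hs))
    obtain ⟨b, hb⟩ := hS' L (fun s hs => hL s (Finset.mem_union_right _ hs))
    exact ⟨a + b, by rw [map_add, ha, hb]⟩

end Lift

variable {E : GrpCat.{0} ⥤ ModuleCat.{0} ℚ}

/-- **Unions.** -/
theorem det_fty (hE : Fty E) (P : Type) [Group P]
    (h : ∀ S : Finset P, ∃ L : Subgroup P, (∀ s ∈ S, s ∈ L) ∧ Det E L) : Det E P := by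
  classical
  intro T _ I α hα
  change LinearMap.ker (tb (dg (I := I)) (fam α) P) = ⊥
  rw [eq_bot_iff]
  intro x hx
  rw [Submodule.mem_bot]
  obtain ⟨S₀, hS₀⟩ := hb_lift (dg (I := I)) x
  obtain ⟨L₀, hL₀⟩ : ∃ L₀ : Subgroup P, L₀ = Subgroup.closure (S₀ : Set P) := ⟨_, rfl⟩
  obtain ⟨x₀, hx₀⟩ := hS₀ L₀ (fun s hs => by
    rw [hL₀]
    exact Subgroup.subset_closure (Finset.mem_coe.mpr hs))
  have h1 : emap E (timesT L₀.subtype T) (tb (dg (I := I)) (fam α) L₀ x₀) = 0 := by
    have h2 := tb_nat (dg (I := I)) (fam α) L₀.subtype x₀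
    have h3 : tb (dg (I := I)) (fam α) P x = 0 := LinearMap.mem_ker.mp hx
    rw [← hx₀, ← h2] at h3
    exact h3
  obtain ⟨S, hS⟩ := hE _ _ _ _ h1
  obtain ⟨L₁, hL₁, hdet⟩ := h (S₀ ∪ S.image Prod.fst)
  have hle : L₀ ≤ L₁ := by
    rw [hL₀, Subgroup.closure_le]
    intro s hs
    exact hL₁ s (Finset.mem_union_left _ (Finset.mem_coe.mp hs))
  have h4 := hS (L₁ × T) (timesT (Subgroup.inclusion hle) T) (timesT L₁.subtype T) rfl
    (fun a b hab => Prod.ext (Subtype.ext (congrArg Prod.fst hab)) (congrArg Prod.snd hab :))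
    (fun s hs => ⟨(⟨s.1, hL₁ s.1 (Finset.mem_union_right _ (Finset.mem_image_of_mem _ hs))⟩, s.2),
      rfl⟩)
  have h5 := tb_nat (dg (I := I)) (fam α) (Subgroup.inclusion hle) x₀
  have h6 : tb (dg (I := I)) (fam α) L₁ (hbMap (dg (I := I)) (Subgroup.inclusion hle) x₀) = 0 :=
    h5.symm.trans h4
  have h7 : LinearMap.ker (tb (dg (I := I)) (fam α) L₁) = ⊥ := hdet T I α hα
  have h8 : hbMap (dg (I := I)) (Subgroup.inclusion hle) x₀ = 0 := by
    have h9 : hbMap (dg (I := I)) (Subgroup.inclusion hle) x₀ ∈ (⊥ : Submodule ℚ _) :=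
      h7 ▸ LinearMap.mem_ker.mpr h6
    exact (Submodule.mem_bot ℚ).mp h9
  have h9 : hbMap (dg (I := I)) L₁.subtype (hbMap (dg (I := I)) (Subgroup.inclusion hle) x₀) =
      x := by
    rw [← hx₀]
    apply DFunLike.ext
    intro b
    rw [hbMap_apply, hbMap_apply, hbMap_apply, ← hqMap_comp]
    rfl
  rw [← h9, h8, map_zero]

/-- **Torsion-free abelian groups.** -/
theorem det_tf (hE : Fty E) (P : Type) [CommGroup P] [IsMulTorsionFree P] : Det E P := by
  classical
  apply det_fty hE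
  intro S
  refine ⟨Subgroup.closure (S : Set P), fun s hs => Subgroup.subset_closure
    (Finset.mem_coe.mpr hs), ?_⟩
  have h0 : (Subgroup.closure (S : Set P)).FG := ⟨S, rfl⟩
  have h1 : Group.FG (Subgroup.closure (S : Set P)) := (Group.fg_iff_subgroup_fg _).mpr h0
  have h2 : AddGroup.FG (Additive (Subgroup.closure (S : Set P))) := inferInstance
  have h3 : Module.Finite ℤ (Additive (Subgroup.closure (S : Set P))) :=
    Module.Finite.iff_addGroup_fg.mpr h2
  have h4 : IsMulTorsionFree (Subgroup.closure (S : Set P)) := inferInstance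
  have h5 : Module.IsTorsionFree ℤ (Additive (Subgroup.closure (S : Set P))) := inferInstance
  have h6 : Module.Free ℤ (Additive (Subgroup.closure (S : Set P))) := inferInstance
  exact det_free _

end Pool.Agent.H417.PL
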