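import Pool.Agent.H417.PL.Main
import Pool.Agent.H417.PL.Fty

/-!
The groups of Bieri and Strebel of an arbitrary interval.
-/

set_option autoImplicit false
set_option linter.unusedSectionVars false

namespace Pool.Agent.H417.PL

open CategoryTheory Pool.Agent.Y483 Pool.Agent.R615.KU Pool.Agent.Y483.PW

variable {A : AddSubgroup ℝ} {P : Subgroup ℝˣ} [BSData A P]

/-- An automorphism which fixes all points below `b` fixes `b`. -/
theorem fix_end {g : ℝ ≃o ℝ} {b : ℝ} (h : ∀ x, x < b → g x = x) : g b = b := by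
  rcases lt_trichotomy (g b) b with h1 | h1 | h1
  · exact absurd (g.injective (h _ h1)) h1.ne
  · exact h1
  · exfalso
    obtain ⟨y, hy1, hy2⟩ := exists_between h1
    have h2 : g⁻¹ y < b := by
      rw [← g.lt_iff_lt, app_inv]
      exact hy2
    have h3 := h _ h2
    rw [app_inv] at h3
    rw [← h3] at h2
    exact lt_asymm h2 hy1

/-- Near an end point which is not in `A` the homeomorphisms are trivial. -/
theorem near_end (hd : Dense (A : Set ℝ)) {I : Set ℝ} {g : ℝ ≃o ℝ} (hg : g ∈ BS A P I) {b c : ℝ}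
    (hbc : b < c) (hb : ∀ x, x < b → g x = x) :
    ∃ b' ∈ A, b ≤ b' ∧ b' < c ∧ ∀ x, x ≤ b' → g x = x := by
  classical
  obtain ⟨-, -, F, hF1, hF2⟩ := hg
  have hb' : g b = b := fix_end hb
  by_cases hbA : b ∈ A
  · refine ⟨b, hbA, le_rfl, hbc, fun x hx => ?_⟩
    rcases hx.lt_or_eq with h | h
    · exact hb x h
    · rw [h, hb']
  · obtain ⟨u, v, hu, hv, huv⟩ : ∃ u v : ℝ, u < b ∧ b < v ∧ ∀ z ∈ F, z ≤ u ∨ v ≤ z := by
      clear hF2
      induction F using Finset.induction_on with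
      | empty =>
        exact ⟨b - 1, b + 1, sub_one_lt b, lt_add_one b, fun z hz =>
          absurd hz (Finset.notMem_empty z)⟩
      | insert a F ha ih =>
        obtain ⟨u, v, hu, hv, huv⟩ := ih (fun z hz => hF1 z (Finset.mem_insert_of_mem hz))
        have hab : a ≠ b := fun h => hbA (h ▸ hF1 a (Finset.mem_insert_self _ _))
        rcases hab.lt_or_gt with h | h
        · refine ⟨max u a, v, max_lt hu h, hv, fun z hz => ?_⟩
          rcases Finset.mem_insert.mp hz with rfl | hz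
          · exact Or.inl (le_max_right _ _)
          · exact (huv z hz).imp (fun h => h.trans (le_max_left _ _)) id
        · refine ⟨u, min v a, hu, lt_min hv h, fun z hz => ?_⟩
          rcases Finset.mem_insert.mp hz with rfl | hz
          · exact Or.inr (min_le_right _ _)
          · exact (huv z hz).imp id (fun h => (min_le_left _ _).trans h)
    obtain ⟨p, hp⟩ := hF2 u v (hu.trans hv) huv
    have hgu := hb u hu
    have h1 : ((p : ℝˣ) : ℝ) = 1 := by
      have h2 := hp b hu.le hv.le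
      rw [hb', hgu] at h2
      have h3 : ((p : ℝˣ) : ℝ) * (b - u) = 1 * (b - u) := by linarith
      exact mul_right_cancel₀ (sub_pos.mpr hu).ne' h3
    obtain ⟨b', hb'A, h2, h3⟩ := hd.exists_between (lt_min hv hbc)
    refine ⟨b', hb'A, h2.le, h3.trans_le (min_le_right _ _), fun x hx => ?_⟩
    rcases lt_or_ge x b with h | h
    · exact hb x h
    · rw [hp x (hu.le.trans h) ((hx.trans h3.le).trans (min_le_left _ _)), hgu, h1]
      ring

/-- The lower end points. -/
def EndPt (A : AddSubgroup ℝ) (b : EReal) : Prop := b = ⊥ ∨ b = ⊤ ∨ ∃ a ∈ A, b = (a : ℝ)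

/-- The open interval with the end points `b` and `c`. -/
def Ie (b c : EReal) : Set ℝ := {x | b < (x : EReal) ∧ (x : EReal) < c}

theorem isInt_Ie {b c : EReal} (hb : EndPt A b) (hc : EndPt A c) (hbc : b < c) :
    IsInt A (Ie b c) := by
  rcases hb with rfl | rfl | ⟨b, hb, rfl⟩
  · rcases hc with rfl | rfl | ⟨c, hc, rfl⟩
    · exact absurd hbc (lt_irrefl _)
    · left
      ext x
      exact ⟨fun _ => trivial, fun _ => ⟨EReal.bot_lt_coe x, EReal.coe_lt_top x⟩⟩
    · right; right; left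
      refine ⟨c, hc, ?_⟩
      ext x
      exact ⟨fun h => EReal.coe_lt_coe_iff.mp h.2, fun h => ⟨EReal.bot_lt_coe x,
        EReal.coe_lt_coe_iff.mpr h⟩⟩
  · exact absurd hbc not_top_lt
  · rcases hc with rfl | rfl | ⟨c, hc, rfl⟩
    · exact absurd hbc not_lt_bot
    · right; left
      refine ⟨b, hb, ?_⟩
      ext x
      exact ⟨fun h => EReal.coe_lt_coe_iff.mp h.1, fun h => ⟨EReal.coe_lt_coe_iff.mpr h,
        EReal.coe_lt_top x⟩⟩
    · right; right; right
      refine ⟨b, hb, c, hc, EReal.coe_lt_coe_iff.mp hbc, ?_⟩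
      ext x
      exact ⟨fun h => ⟨EReal.coe_lt_coe_iff.mp h.1, EReal.coe_lt_coe_iff.mp h.2⟩,
        fun h => ⟨EReal.coe_lt_coe_iff.mpr h.1, EReal.coe_lt_coe_iff.mpr h.2⟩⟩

theorem EndPt.min {b c : EReal} (hb : EndPt A b) (hc : EndPt A c) : EndPt A (min b c) := by
  rcases min_choice b c with h | h
  · rwa [h]
  · rwa [h]

theorem EndPt.max {b c : EReal} (hb : EndPt A b) (hc : EndPt A c) : EndPt A (max b c) := by
  rcases max_choice b c with h | h
  · rwa [h]
  · rwa [h]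

/-- Every element is supported in an interval with good end points. -/
theorem low_end (hd : Dense (A : Set ℝ)) {I : Set ℝ} {g : ℝ ≃o ℝ} (hg : g ∈ BS A P I) (b : EReal)
    (hb : ∀ x : ℝ, (x : EReal) < b → g x = x) :
    ∃ b' : EReal, EndPt A b' ∧ b ≤ b' ∧ ∀ x : ℝ, (x : EReal) ≤ b' → g x = x := by
  induction b using EReal.rec with
  | bot => exact ⟨⊥, Or.inl rfl, le_rfl, fun x hx => absurd hx (not_le.mpr (EReal.bot_lt_coe x))⟩
  | coe b =>
    obtain ⟨b', h1, h2, -, h3⟩ := near_end hd hg (lt_add_one b)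
      (fun x hx => hb x (EReal.coe_lt_coe_iff.mpr hx))
    exact ⟨b', Or.inr (Or.inr ⟨b', h1, rfl⟩), EReal.coe_le_coe_iff.mpr h2,
      fun x hx => h3 x (EReal.coe_le_coe_iff.mp hx)⟩
  | top => exact ⟨⊤, Or.inr (Or.inl rfl), le_rfl, fun x _ => hb x (EReal.coe_lt_top x)⟩

theorem endPt_neg {b : EReal} (hb : EndPt A b) : EndPt A (-b) := by
  rcases hb with rfl | rfl | ⟨b, hb, rfl⟩
  · exact Or.inr (Or.inl EReal.neg_bot)
  · exact Or.inl EReal.neg_top
  · exact Or.inr (Or.inr ⟨-b, A.neg_mem hb, by rw [EReal.coe_neg]⟩)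

theorem up_end (hd : Dense (A : Set ℝ)) {I : Set ℝ} {g : ℝ ≃o ℝ} (hg : g ∈ BS A P I) (c : EReal)
    (hc : ∀ x : ℝ, c < (x : EReal) → g x = x) :
    ∃ c' : EReal, EndPt A c' ∧ c' ≤ c ∧ ∀ x : ℝ, c' ≤ (x : EReal) → g x = x := by
  have h1 : mir g ∈ BS A P {x | -x ∈ I} := mir_mem A P (fun x hx => hx) hg
  obtain ⟨b', h2, h3, h4⟩ := low_end hd h1 (-c) (fun x hx => by
    rw [mir_apply, hc (-x) (by
      rw [EReal.coe_neg]
      exact EReal.lt_neg_comm.mp hx), neg_neg])
  refine ⟨-b', endPt_neg h2, EReal.neg_le.mp h3, fun x hx => ?_⟩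
  have h5 := h4 (-x) (by
    rw [EReal.coe_neg]
    exact EReal.neg_le.mp hx)
  rw [mir_apply, neg_neg] at h5
  exact neg_injective h5

theorem BS_mono {I J : Set ℝ} (h : I ⊆ J) : BS A P I ≤ BS A P J :=
  fun _ hg => ⟨hg.1, fun x hx => hg.2.1 x (fun h' => hx (h h')), hg.2.2⟩

/-- The end points of an interval. -/
theorem ends_of (hd : Dense (A : Set ℝ)) {I : Set ℝ} (S : Finset (BS A P I)) :
    ∃ b c : EReal, EndPt A b ∧ EndPt A c ∧ (Ie b c : Set ℝ) ⊆ Ie (sInf ((↑) '' I)) (sSup ((↑) '' I)) ∧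
      ∀ g ∈ S, g.1 ∈ BS A P (Ie b c) := by
  classical
  have key : ∃ b c : EReal, EndPt A b ∧ EndPt A c ∧ sInf ((↑) '' I) ≤ b ∧ c ≤ sSup ((↑) '' I) ∧
      ∀ g ∈ S, g.1 ∈ BS A P (Ie b c) := by
    induction S using Finset.induction_on with
    | empty =>
      exact ⟨⊤, ⊥, Or.inr (Or.inl rfl), Or.inl rfl, le_top, bot_le,
        fun g hg => absurd hg (Finset.notMem_empty g)⟩
    | insert g S hg ih =>
      obtain ⟨b, c, hb, hc, hbI, hcI, hS⟩ := ih
      obtain ⟨b', h1, h2, h3⟩ := low_end hd g.2 (sInf ((↑) '' I)) (fun x hx => g.2.2.1 x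
        (fun hxI => absurd (sInf_le (Set.mem_image_of_mem _ hxI)) (not_le.mpr hx)))
      obtain ⟨c', h4, h5, h6⟩ := up_end hd g.2 (sSup ((↑) '' I)) (fun x hx => g.2.2.1 x
        (fun hxI => absurd (le_sSup (Set.mem_image_of_mem _ hxI)) (not_le.mpr hx)))
      refine ⟨min b b', max c c', hb.min h1, hc.max h4, le_min hbI h2, max_le hcI h5, ?_⟩
      intro h hh
      rcases Finset.mem_insert.mp hh with rfl | hh
      · refine ⟨h.2.1, fun x hx => ?_, h.2.2.2⟩
        change x ∉ Ie (min b b') (max c c') at hx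
        by_cases h7 : (x : EReal) ≤ b'
        · exact h3 x h7
        · by_cases h8 : c' ≤ (x : EReal)
          · exact h6 x h8
          · exact absurd (show x ∈ Ie (min b b') (max c c') from
              ⟨(min_le_right _ _).trans_lt (not_le.mp h7),
                (not_le.mp h8).trans_le (le_max_right _ _)⟩) hx
      · exact BS_mono (show Ie b c ⊆ Ie (min b b') (max c c') from
          fun x hx => ⟨(min_le_left _ _).trans_lt hx.1, hx.2.trans_le (le_max_left _ _)⟩) (hS h hh)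
  obtain ⟨b, c, hb, hc, hbI, hcI, hS⟩ := key
  exact ⟨b, c, hb, hc, fun x hx => ⟨hbI.trans_lt hx.1, hx.2.trans_le hcI⟩, hS⟩

theorem Ie_sub {I : Set ℝ} (hI : I.OrdConnected) :
    Ie (sInf ((↑) '' I)) (sSup ((↑) '' I)) ⊆ I := by
  intro x hx
  obtain ⟨y, ⟨y', hy', rfl⟩, hy⟩ := sInf_lt_iff.mp hx.1
  obtain ⟨z, ⟨z', hz', rfl⟩, hz⟩ := lt_sSup_iff.mp hx.2
  exact hI.out hy' hz' ⟨(EReal.coe_lt_coe_iff.mp hy).le, (EReal.coe_lt_coe_iff.mp hz).le⟩

variable {E : GrpCat.{0} ⥤ ModuleCat.{0} ℚ}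

theorem det_sub {G : Type} [Group G] [Subsingleton G] : Det E G := by
  have h : Det E (Multiplicative (PUnit : Type)) :=
    det_free (E := E) (Multiplicative (PUnit : Type))
  exact h.congr
    { toFun := fun _ => Multiplicative.ofAdd PUnit.unit
      invFun := fun _ => 1
      left_inv := fun _ => Subsingleton.elim _ _
      right_inv := fun _ => rfl
      map_mul' := fun _ _ => rfl }

/-- **The groups of Bieri and Strebel** of all intervals. -/
theorem det_itv (hE : HasPT E) (hF : Fty E) (hP : Det E P) [Nontrivial A] {p : ℝˣ} (hp : p ∈ P)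
    {s : ℚ} (hps : (p : ℝ) = s) (h1 : s ≠ 1) {I : Set ℝ} (hI : I.OrdConnected) :
    Det E (BS A P I) := by
  have hp1 : p ≠ 1 := by
    rintro rfl
    apply h1
    have h2 : ((1 : ℚ) : ℝ) = s := by
      rw [← hps]
      simp
    exact_mod_cast h2.symm
  obtain ⟨r, hr⟩ := exists_gt_one A P hp hp1
  have hd := dense_of A P hr
  apply det_fty hF
  intro S
  obtain ⟨b, c, hb, hc, hsub, hS⟩ := ends_of hd S
  refine ⟨(BS A P (Ie b c)).subgroupOf (BS A P I), fun s hs => hS s hs, ?_⟩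
  have e : (BS A P (Ie b c)).subgroupOf (BS A P I) ≃* BS A P (Ie b c) :=
    Subgroup.subgroupOfEquivOfLe (BS_mono (hsub.trans (Ie_sub hI)))
  by_cases hbc : b < c
  · exact (det_BS A P hE hP hp hps h1 (isInt_Ie hb hc hbc)).congr e
  · have : Subsingleton (BS A P (Ie b c)) := by
      refine ⟨fun g h => Subtype.ext (RelIso.ext fun x => ?_)⟩
      have hx : x ∉ Ie b c := fun hx => hbc (hx.1.trans hx.2)
      rw [g.2.2.1 x hx, h.2.2.1 x hx]
    exact det_sub.congr e

/-- Groups of positive numbers have no torsion. -/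
theorem tf_pos {P : Subgroup ℝˣ} (hP : ∀ p ∈ P, 0 < ((p : ℝˣ) : ℝ)) : IsMulTorsionFree P := by
  refine ⟨fun n hn x y hxy => ?_⟩
  apply Subtype.ext
  apply Units.ext
  have h1 : ((x.1 : ℝˣ) : ℝ) ^ n = ((y.1 : ℝˣ) : ℝ) ^ n := by
    have h2 := congrArg (fun z : P => ((z.1 : ℝˣ) : ℝ)) hxy
    simpa using h2
  exact (pow_left_inj₀ (hP _ x.2).le (hP _ y.2).le hn).mp h1

/-- **The groups of Bieri and Strebel** of all intervals, for finitary functors. -/
theorem det_all (hE : HasPT E) (hF : Fty E) (A : AddSubgroup ℝ) (hA : A ≠ ⊥) (P : Subgroup ℝˣ)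
    (hpos : ∀ p ∈ P, 0 < ((p : ℝˣ) : ℝ)) (hmul : ∀ p ∈ P, ∀ a ∈ A, ((p : ℝˣ) : ℝ) * a ∈ A)
    (hs : ∃ p ∈ P, ∃ s : ℚ, s ≠ 1 ∧ ((p : ℝˣ) : ℝ) = s) (I : Set ℝ) (hI : I.OrdConnected) :
    Det E (BS A P I) := by
  have : BSData A P := ⟨hpos, hmul⟩
  have : Nontrivial A := (AddSubgroup.nontrivial_iff_ne_bot A).mpr hA
  have : IsMulTorsionFree P := tf_pos hpos
  obtain ⟨p, hp, s, h1, hps⟩ := hs
  exact det_itv hE hF (det_tf hF P) hp hps h1 hI

end Pool.Agent.H417.PL
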