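import Pool.Agent.H417.PL.Nrm
import Pool.Agent.H417.PL.Itv

/-!
The groups of Bieri and Strebel with algebraic slopes.
-/

set_option autoImplicit false
set_option linter.unusedSectionVars false

namespace Pool.Agent.H417.PL

open CategoryTheory Pool.Agent.Y483 Pool.Agent.R615.KU Pool.Agent.Y483.PW Polynomial

section Real

variable {P : Subgroup ℝˣ} {M : Type} [AddCommGroup M] [DistribMulAction P M] (ι : M →+ ℝ)
  (hι : Function.Injective ι) (hs : ∀ (p : P) (x : M), ι (p • x) = ((p : ℝˣ) : ℝ) * ι x)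

include hs in
theorem act_pow (p : P) (k : ℕ) (x : M) : ι (p ^ k • x) = ((p : ℝˣ) : ℝ) ^ k * ι x := by
  rw [hs]
  push_cast
  rfl

include hι hs in
/-- An integral relation. -/
theorem kill_real (p : P) (F : ℚ[X]) (hF : aeval ((p : ℝˣ) : ℝ) F = 0) (φ : M →+ ℚ) (x : M) :
    (F.sum fun k a => a * φ (p ^ k • x)) = 0 := by
  classical
  obtain ⟨b, hb⟩ := IsLocalization.exist_integer_multiples_of_finset (nonZeroDivisors ℤ)
    (F.support.image F.coeff)
  have h1 : ∀ k ∈ F.support, ∃ c : ℤ, (c : ℚ) = ((b : ℤ) : ℚ) * F.coeff k := by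
    intro k hk
    obtain ⟨c, hc⟩ := hb (F.coeff k) (Finset.mem_image_of_mem _ hk)
    refine ⟨c, ?_⟩
    rw [← zsmul_eq_mul]
    exact hc
  choose c hc using h1
  have hb0 : ((b : ℤ) : ℚ) ≠ 0 := by
    exact_mod_cast nonZeroDivisors.ne_zero b.2
  have h2 : (∑ k ∈ F.support.attach, c k.1 k.2 • (p ^ k.1 • x)) = 0 := by
    apply hι
    rw [map_zero, map_sum]
    have h3 : ∀ k ∈ F.support.attach, ι (c k.1 k.2 • (p ^ k.1 • x)) =
        ((b : ℤ) : ℝ) * ι x * (algebraMap ℚ ℝ (F.coeff k.1) * ((p : ℝˣ) : ℝ) ^ k.1) := by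
      intro k _
      rw [map_zsmul, act_pow ι hs, zsmul_eq_mul]
      have h4 : ((c k.1 k.2 : ℤ) : ℝ) = ((b : ℤ) : ℝ) * algebraMap ℚ ℝ (F.coeff k.1) := by
        have h5 := congrArg (algebraMap ℚ ℝ) (hc k.1 k.2)
        rw [map_mul] at h5
        simpa using h5
      rw [h4]
      ring
    rw [Finset.sum_congr rfl h3, ← Finset.mul_sum,
      Finset.sum_attach F.support (fun k => algebraMap ℚ ℝ (F.coeff k) * ((p : ℝˣ) : ℝ) ^ k)]
    rw [aeval_def, eval₂_eq_sum, Polynomial.sum] at hF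
    rw [hF, mul_zero]
  have h3 := congrArg φ h2
  rw [map_zero, map_sum] at h3
  rw [Polynomial.sum, ← Finset.sum_attach]
  apply mul_left_cancel₀ hb0
  rw [mul_zero, Finset.mul_sum, ← h3]
  refine Finset.sum_congr rfl fun k _ => ?_
  rw [map_zsmul, zsmul_eq_mul, hc k.1 k.2, mul_assoc]

/-- The powers of a positive number different from one. -/
theorem inj_pow {p : P} (hp : 0 < ((p : ℝˣ) : ℝ)) (h1 : ((p : ℝˣ) : ℝ) ≠ 1) :
    Function.Injective fun k : ℤ => p ^ k := by
  intro k l hkl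
  apply zpow_right_injective₀ hp h1
  have h2 := congrArg (fun z : P => ((z : ℝˣ) : ℝ)) hkl
  simpa using h2

include hι hs in
/-- **Algebraic numbers of norm different from one and minus one.** -/
theorem nofix_norm [IsAddTorsionFree M] {p : P} (hp : 0 < ((p : ℝˣ) : ℝ))
    (hi : IsIntegral ℚ ((p : ℝˣ) : ℝ)) (hN : |(minpoly ℚ ((p : ℝˣ) : ℝ)).coeff 0| ≠ 1) :
    NoFix M p⁻¹ := by
  have h1 : ((p : ℝˣ) : ℝ) ≠ 1 := by
    intro h
    apply hN
    rw [h, minpoly.one]
    simp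
  set F := minpoly ℚ ((p : ℝˣ) : ℝ) with hF
  have hm : F.Monic := minpoly.monic hi
  have hirr : Irreducible F := minpoly.irreducible hi
  have hsp : (F.map (algebraMap ℚ F.SplittingField)).Splits := SplittingField.splits F
  have hpol : PolK M p⁻¹ := by
    apply polK_roots (L := F.SplittingField) p⁻¹ F hm hirr.separable hsp
    · intro φ x
      rw [inv_inv]
      exact kill_real ι hι hs p F (minpoly.aeval ℚ _) φ x
    · exact prod_ne_one F hm hirr hsp hN
  apply nofix_of p⁻¹ (AddMonoidHom.id M) (fun _ _ h => h) (fun _ => rfl) _ hpol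
  intro k l hkl
  have h2 : p ^ (-k) = p ^ (-l) := by
    simpa using hkl
  exact neg_injective (inj_pow hp h1 h2)

end Real

variable {A : AddSubgroup ℝ} {P : Subgroup ℝˣ} [BSData A P]

variable {E : GrpCat.{0} ⥤ ModuleCat.{0} ℚ}

/-- **The groups of Bieri and Strebel** with a slope without fixed vectors. -/
theorem det_BS_nofix (hE : HasPT E) (hP : Det E P) [Nontrivial A] {p : P}
    (hp : (p : ℝˣ) ≠ 1) {r r' : P} (h1 : NoFix (IPA A P) r) (h2 : NoFix A r') {I : Set ℝ}
    (hI : IsInt A I) : Det E (BS A P I) := by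
  obtain ⟨u, hu⟩ := exists_gt_one A P p.2 hp
  exact det_BS' A P hE hP hu (fun q => lin_bij' r h1 q) hI (fun _ q => pr_inj' r' h2 q)

/-- The functors which satisfy the assumption. -/
theorem det_itv_nofix (hE : HasPT E) (hF : Fty E) (hP : Det E P) [Nontrivial A] {p : P}
    (hp : (p : ℝˣ) ≠ 1) {r r' : P} (h1 : NoFix (IPA A P) r) (h2 : NoFix A r') {I : Set ℝ}
    (hI : I.OrdConnected) : Det E (BS A P I) := by
  obtain ⟨u, hu⟩ := exists_gt_one A P p.2 hp
  have hd := dense_of A P hu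
  apply det_fty hF
  intro S
  obtain ⟨b, c, hb, hc, hsub, hS⟩ := ends_of hd S
  refine ⟨(BS A P (Ie b c)).subgroupOf (BS A P I), fun s hs => hS s hs, ?_⟩
  have e : (BS A P (Ie b c)).subgroupOf (BS A P I) ≃* BS A P (Ie b c) :=
    Subgroup.subgroupOfEquivOfLe (BS_mono (hsub.trans (Ie_sub hI)))
  by_cases hbc : b < c
  · exact (det_BS_nofix hE hP hp h1 h2 (isInt_Ie hb hc hbc)).congr e
  · have : Subsingleton (BS A P (Ie b c)) := by
      refine ⟨fun g h => Subtype.ext (RelIso.ext fun x => ?_)⟩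
      have hx : x ∉ Ie b c := fun hx => hbc (hx.1.trans hx.2)
      rw [g.2.2.1 x hx, h.2.2.1 x hx]
    exact det_sub.congr e

end Pool.Agent.H417.PL
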