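import Pool.Agent.H417.PL.Alg

/-!
The groups of Bieri and Strebel with irrational algebraic slopes.
-/

set_option autoImplicit false
set_option linter.unusedSectionVars false

namespace Pool.Agent.H417.PL

open CategoryTheory Pool.Agent.Y483 Pool.Agent.R615.KU Pool.Agent.Y483.PW Polynomial

/-- A subgroup of a finite-dimensional space has finite rank. -/
theorem rank_of_dim (A : AddSubgroup ℝ) (V : Submodule ℚ ℝ) (hV : Module.Finite ℚ V)
    (hAV : ∀ a ∈ A, a ∈ V) : ∃ S : Finset A, ∀ a : A, ∃ n : ℤ, n ≠ 0 ∧ n • a ∈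
      AddSubgroup.closure (S : Set A) := by
  classical
  have h1 : (Submodule.span ℚ (A : Set ℝ)).FG := by
    have h2 : Submodule.span ℚ (A : Set ℝ) ≤ V := Submodule.span_le.mpr hAV
    have h3 : Module.Finite ℚ (Submodule.span ℚ (A : Set ℝ)) := Submodule.finiteDimensional_of_le h2
    exact Module.Finite.iff_fg.mp h3
  obtain ⟨S, hS, hspan⟩ := (Submodule.fg_span_iff_fg_span_finset_subset (A : Set ℝ)).mp h1
  let T : Finset A := S.attach.image fun x => ⟨x.1, hS x.2⟩
  have hT : ∀ x : A, x.1 ∈ S → x ∈ T := fun x hx =>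
    Finset.mem_image.mpr ⟨⟨x.1, hx⟩, Finset.mem_attach _ _, rfl⟩
  refine ⟨T, fun a => ?_⟩
  have key : ∀ y ∈ Submodule.span ℚ (S : Set ℝ), ∃ n : ℤ, n ≠ 0 ∧ ∃ b ∈ AddSubgroup.closure
      (T : Set A), n • y = b.1 := by
    intro y hy
    induction hy using Submodule.span_induction with
    | mem y hy =>
      exact ⟨1, one_ne_zero, ⟨y, hS hy⟩, AddSubgroup.subset_closure (hT _ hy), one_smul _ _⟩
    | zero => exact ⟨1, one_ne_zero, 0, zero_mem _, smul_zero _⟩
    | add y z _ _ hy hz =>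
      obtain ⟨n, hn, b, hb, hyb⟩ := hy
      obtain ⟨m, hm, c, hc, hzc⟩ := hz
      refine ⟨m * n, mul_ne_zero hm hn, m • b + n • c, add_mem (AddSubgroup.zsmul_mem _ hb _)
        (AddSubgroup.zsmul_mem _ hc _), ?_⟩
      rw [smul_add, mul_smul, hyb, mul_comm m n, mul_smul, hzc]
      rfl
    | smul s y _ hy =>
      obtain ⟨n, hn, b, hb, hyb⟩ := hy
      refine ⟨s.den * n, mul_ne_zero (Int.natCast_ne_zero.mpr s.den_nz) hn, s.num • b,
        AddSubgroup.zsmul_mem _ hb _, ?_⟩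
      have h3 : ((s.num • b : A) : ℝ) = s.num • (b : ℝ) := rfl
      rw [h3, ← hyb]
      have h4 : ((s.den : ℤ) : ℝ) * ((s : ℚ) : ℝ) = ((s.num : ℤ) : ℝ) := by
        have h5 := Rat.den_mul_eq_num s
        exact_mod_cast h5
      rw [zsmul_eq_mul, zsmul_eq_mul, zsmul_eq_mul, Algebra.smul_def]
      push_cast
      rw [← h4]
      change ((s.den : ℝ) * n) * ((s : ℝ) * y) = _
      push_cast
      ring
  obtain ⟨n, hn, b, hb, hab⟩ := key a.1 (hspan ▸ Submodule.subset_span a.2)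
  refine ⟨n, hn, ?_⟩
  have h3 : n • a = b := Subtype.ext hab
  rw [h3]
  exact hb

variable {A : AddSubgroup ℝ} {P : Subgroup ℝˣ} [BSData A P]

/-- **Subgroups of finite rank.** -/
theorem nofix_finite [Nontrivial A] (hA : ∃ S : Finset A, ∀ a : A, ∃ n : ℤ, n ≠ 0 ∧ n • a ∈
    AddSubgroup.closure (S : Set A)) {p : P} (h1 : (p : ℝˣ) ≠ 1)
    (hf : ∀ (q : ℕ) (ω : A [⋀^Fin (q + 1)]→ₗ[ℤ] ℚ), (∀ x, ω (fun i => p • x i) = ω x) → ω = 0) :
    NoFix A p ∧ NoFix (IPA A P) p := by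
  have hpol := polK_finite p hA hf
  have hinj := inj_pow (BSData.pos (A := A) _ p.2) (fun h => h1 (Units.ext h))
  exact ⟨nofix_of p (AddMonoidHom.id A) (fun _ _ h => h) (fun _ => rfl) hinj hpol,
    nofix_of p (AddSubgroup.subtype (IPA A P)) Subtype.val_injective (fun _ => rfl) hinj hpol⟩

theorem nofix_alg [Nontrivial A] {p : P} (hi : IsIntegral ℚ ((p : ℝˣ) : ℝ))
    (hN : |(minpoly ℚ ((p : ℝˣ) : ℝ)).coeff 0| ≠ 1) :
    NoFix A p⁻¹ ∧ NoFix (IPA A P) p⁻¹ := by
  have hp := BSData.pos (A := A) _ p.2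
  exact ⟨nofix_norm (AddSubgroup.subtype A) Subtype.val_injective (fun _ _ => rfl) hp hi hN,
    nofix_norm ((AddSubgroup.subtype A).comp (AddSubgroup.subtype (IPA A P)))
      (fun x y h => Subtype.ext (Subtype.ext h)) (fun _ _ => rfl) hp hi hN⟩

variable {E : GrpCat.{0} ⥤ ModuleCat.{0} ℚ}

/-- **The groups of Bieri and Strebel** with irrational slopes, for finitary functors. -/
theorem det_irr (hE : HasPT E) (hF : Fty E) (A : AddSubgroup ℝ) (hA : A ≠ ⊥) (P : Subgroup ℝˣ)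
    (hpos : ∀ p ∈ P, 0 < ((p : ℝˣ) : ℝ)) (hmul : ∀ p ∈ P, ∀ a ∈ A, ((p : ℝˣ) : ℝ) * a ∈ A)
    (p : ℝˣ) (hp : p ∈ P) (hp1 : p ≠ 1)
    (hs : (IsAlgebraic ℚ (p : ℝ) ∧ |(minpoly ℚ (p : ℝ)).coeff 0| ≠ 1) ∨
      ((∃ V : Submodule ℚ ℝ, Module.Finite ℚ V ∧ ∀ a ∈ A, a ∈ V) ∧
        ∀ (q : ℕ) (ω : A [⋀^Fin (q + 1)]→ₗ[ℤ] ℚ),
          (∀ x : Fin (q + 1) → A, ω (fun i => ⟨(p : ℝ) * x i, hmul p hp _ (x i).2⟩) = ω x) →
            ω = 0))
    (I : Set ℝ) (hI : I.OrdConnected) : Det E (BS A P I) := by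
  have : BSData A P := ⟨hpos, hmul⟩
  have : Nontrivial A := (AddSubgroup.nontrivial_iff_ne_bot A).mpr hA
  have : IsMulTorsionFree P := tf_pos hpos
  rcases hs with ⟨hi, hN⟩ | ⟨⟨V, hV, hAV⟩, hf⟩
  · obtain ⟨h1, h2⟩ := nofix_alg (A := A) (p := ⟨p, hp⟩) hi.isIntegral hN
    exact det_itv_nofix hE hF (det_tf hF P) (p := ⟨p, hp⟩) hp1 h2 h1 hI
  · obtain ⟨h1, h2⟩ := nofix_finite (rank_of_dim A V hV hAV) (p := ⟨p, hp⟩) hp1 hf
    exact det_itv_nofix hE hF (det_tf hF P) (p := ⟨p, hp⟩) hp1 h2 h1 hI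

/-- Invariant forms of an endomorphism of trace `n ≠ 0` and determinant `-1`. -/
theorem metal_abs {A : Type} [AddCommGroup A] (n : ℤ) (hn : n ≠ 0) (e1 e2 : A)
    (hcl : ∀ a : A, a ∈ AddSubgroup.closure ({e1, e2} : Set A)) (σ : A → A) (m1 : σ e1 = e2)
    (m2 : σ e2 = n • e2 + e1) (q : ℕ) (ω : Frm A (q + 1))
    (hω : ∀ x : Fin (q + 1) → A, ω (fun i => σ (x i)) = ω x) : ω = 0 := by
  classical
  apply AlternatingMap.ext
  intro x
  refine multi_zero ({e1, e2} : Set A) ω ?_ x (fun i => hcl (x i))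
  clear x
  intro y hy
  rcases q with _ | _ | q
  · have k1 : ω (fun _ => e2) = ω (fun _ => e1) := by
      have h3 := hω (fun _ => e1)
      rw [m1] at h3
      exact h3
    have k2 : ω (fun _ => n • e2 + e1) = ω (fun _ => e2) := by
      have h3 := hω (fun _ => e2)
      rw [m2] at h3
      exact h3
    have k3 : ∀ a b : A, ω (fun _ => a + b) = ω (fun _ => a) + ω (fun _ => b) := by
      intro a b
      have h3 := ω.map_update_add (fun _ => 0) 0 a b
      have h4 : ∀ c : A, Function.update (fun _ : Fin (0 + 1) => (0 : A)) 0 c = fun _ => c := by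
        intro c
        funext i
        have h5 : i = 0 := Fin.eq_zero i
        rw [h5, Function.update_self]
      rwa [h4, h4, h4] at h3
    have k4 : ∀ (m : ℤ) (a : A), ω (fun _ => m • a) = m * ω (fun _ => a) := by
      intro m a
      have h3 := ω.map_smul_univ (fun _ => m) (fun _ => a)
      rw [Finset.prod_const, Finset.card_univ, Fintype.card_fin, pow_succ, pow_zero, one_mul,
        zsmul_eq_mul] at h3
      exact h3
    rw [k3, k4, k1] at k2
    have k5 : ω (fun _ => e1) = 0 := by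
      have h3 : (n : ℚ) * ω (fun _ => e1) = 0 := by linarith
      rcases mul_eq_zero.mp h3 with h4 | h4
      · exact absurd (by exact_mod_cast h4) hn
      · exact h4
    have h3 : y = fun _ => y 0 := by
      funext i
      have h5 : i = 0 := Fin.eq_zero i
      rw [h5]
    rw [h3]
    rcases hy 0 with h4 | h4
    · rw [h4, k5]
    · rw [h4, k1, k5]
  · have u : ∀ a b c d : A, Function.update (![a, b] : Fin (0 + 1 + 1) → A) 1 (c + d) =
        ![a, c + d] ∧ Function.update (![a, b] : Fin (0 + 1 + 1) → A) 1 c = ![a, c] ∧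
        Function.update (![a, b] : Fin (0 + 1 + 1) → A) 1 d = ![a, d] := by
      intro a b c d
      refine ⟨?_, ?_, ?_⟩ <;>
      · funext i
        fin_cases i <;> rfl
    have k1 : ω ![e2, n • e2 + e1] = ω ![e1, e2] := by
      have h3 := hω ![e1, e2]
      have h4 : (fun i : Fin (0 + 1 + 1) => σ ((![e1, e2] : Fin (0 + 1 + 1) → A) i)) =
          ![e2, n • e2 + e1] := by
        funext i
        fin_cases i
        · exact m1
        · exact m2
      rw [h4] at h3
      exact h3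
    have k2 : ω ![e2, n • e2 + e1] = ω ![e2, n • e2] + ω ![e2, e1] := by
      have h3 := ω.map_update_add ![e2, e1] 1 (n • e2) e1
      obtain ⟨h4, h5, h6⟩ := u e2 e1 (n • e2) e1
      rwa [h4, h5, h6] at h3
    have k3 : ω ![e2, n • e2] = 0 := by
      have h3 := ω.map_update_smul ![e2, e1] 1 n e2
      obtain ⟨-, h5, -⟩ := u e2 e1 (n • e2) e2
      obtain ⟨-, h6, -⟩ := u e2 e1 e2 e2
      rw [h5, h6] at h3
      rw [h3, ω.map_eq_zero_of_eq ![e2, e2] (i := 0) (j := 1) rfl (by decide), smul_zero]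
    have k4 : ω ![e2, e1] = - ω ![e1, e2] := by
      have h3 := ω.map_swap ![e1, e2] (i := 0) (j := 1) (by decide)
      rw [← h3]
      congr 1
      funext i
      fin_cases i <;> rfl
    have k5 : ω ![e1, e2] = 0 := by
      rw [k2, k3, zero_add, k4] at k1
      linarith
    have h3 : y = ![y 0, y 1] := by
      funext i
      fin_cases i <;> rfl
    rw [h3]
    rcases hy 0 with h4 | h4 <;> rcases hy 1 with h5 | h5
    · rw [h4, h5]
      exact ω.map_eq_zero_of_eq ![e1, e1] (i := 0) (j := 1) rfl (by decide)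
    · rw [h4, h5, k5]
    · rw [h4, h5, k4, k5, neg_zero]
    · rw [h4, h5]
      exact ω.map_eq_zero_of_eq ![e2, e2] (i := 0) (j := 1) rfl (by decide)
  · have h3 : ¬ Function.Injective y := by
      intro h
      have h4 : Fintype.card (Fin (q + 1 + 1 + 1)) ≤ Finset.card ({e1, e2} : Finset A) := by
        rw [← Finset.card_univ, ← Finset.card_image_of_injective Finset.univ h]
        apply Finset.card_le_card
        intro z hz
        obtain ⟨i, -, rfl⟩ := Finset.mem_image.mp hz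
        rcases hy i with h5 | h5
        · rw [h5]
          exact Finset.mem_insert_self _ _
        · rw [h5]
          exact Finset.mem_insert_of_mem (Finset.mem_singleton_self _)
      have h5 := h4.trans Finset.card_le_two
      rw [Fintype.card_fin] at h5
      omega
    exact ω.map_eq_zero_of_not_injective y h3

/-- Invariant forms on `ℤ + ℤ p`, `p ^ 2 = n p + 1`. -/
theorem metal (n : ℤ) (hn : n ≠ 0) (p : ℝ) (hp : p ^ 2 = n * p + 1)
    (hmul : ∀ a ∈ AddSubgroup.closure ({1, p} : Set ℝ), p * a ∈ AddSubgroup.closure ({1, p} : Set ℝ))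
    (q : ℕ) (ω : (AddSubgroup.closure ({1, p} : Set ℝ)) [⋀^Fin (q + 1)]→ₗ[ℤ] ℚ)
    (hω : ∀ x : Fin (q + 1) → AddSubgroup.closure ({1, p} : Set ℝ),
      ω (fun i => ⟨p * x i, hmul _ (x i).2⟩) = ω x) : ω = 0 := by
  have h1 : (1 : ℝ) ∈ AddSubgroup.closure ({1, p} : Set ℝ) :=
    AddSubgroup.subset_closure (Or.inl rfl)
  have h2 : p ∈ AddSubgroup.closure ({1, p} : Set ℝ) := AddSubgroup.subset_closure (Or.inr rfl)
  refine metal_abs n hn (⟨1, h1⟩ : AddSubgroup.closure ({1, p} : Set ℝ)) ⟨p, h2⟩ ?_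
    (fun a => ⟨p * a, hmul _ a.2⟩) (Subtype.ext (mul_one p)) (Subtype.ext ?_) q ω hω
  · intro a
    have h3 : AddSubgroup.map (AddSubgroup.subtype (AddSubgroup.closure ({1, p} : Set ℝ)))
        (AddSubgroup.closure ({⟨1, h1⟩, ⟨p, h2⟩} : Set (AddSubgroup.closure ({1, p} : Set ℝ)))) =
        AddSubgroup.closure ({1, p} : Set ℝ) := by
      rw [AddMonoidHom.map_closure, Set.image_pair]
      rfl
    have h4 : a.1 ∈ AddSubgroup.map (AddSubgroup.subtype (AddSubgroup.closure ({1, p} : Set ℝ)))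
        (AddSubgroup.closure ({⟨1, h1⟩, ⟨p, h2⟩} : Set (AddSubgroup.closure ({1, p} : Set ℝ)))) := by
      rw [h3]
      exact a.2
    obtain ⟨b, hb, hba⟩ := h4
    have h5 : b = a := Subtype.ext hba
    rwa [← h5]
  · change p * p = n • p + 1
    rw [← sq, hp, zsmul_eq_mul]

theorem metal_mul (n : ℤ) (p : ℝˣ) (hp : (p : ℝ) ^ 2 = n * p + 1) :
    ∀ u ∈ Subgroup.zpowers p, ∀ a ∈ AddSubgroup.closure ({1, (p : ℝ)} : Set ℝ),
      (u : ℝ) * a ∈ AddSubgroup.closure ({1, (p : ℝ)} : Set ℝ) := by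
  set A := AddSubgroup.closure ({1, (p : ℝ)} : Set ℝ) with hA
  have h1 : (1 : ℝ) ∈ A := AddSubgroup.subset_closure (Or.inl rfl)
  have h2 : (p : ℝ) ∈ A := AddSubgroup.subset_closure (Or.inr rfl)
  have key : ∀ c : ℝ, c ∈ A → c * p ∈ A → ∀ a ∈ A, c * a ∈ A := by
    intro c hc hcp a ha
    induction ha using AddSubgroup.closure_induction with
    | mem a ha =>
      rcases ha with rfl | ha
      · rwa [mul_one]
      · rw [Set.mem_singleton_iff] at ha
        rw [ha]
        exact hcp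
    | zero =>
      rw [mul_zero]
      exact A.zero_mem
    | add a b _ _ ha hb =>
      rw [mul_add]
      exact A.add_mem ha hb
    | neg a _ ha =>
      rw [mul_neg]
      exact A.neg_mem ha
  have hinv : ((p⁻¹ : ℝˣ) : ℝ) = p - n := by
    rw [Units.val_inv_eq_inv_val]
    apply inv_eq_of_mul_eq_one_right
    rw [mul_sub, ← sq, hp]
    ring
  have hnA : ∀ m : ℤ, ((m : ℤ) : ℝ) ∈ A := by
    intro m
    have h := A.zsmul_mem h1 m
    rwa [zsmul_one] at h
  have hk1 : ∀ a ∈ A, (p : ℝ) * a ∈ A := key p h2 (by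
    rw [← sq, hp, ← zsmul_eq_mul]
    exact A.add_mem (A.zsmul_mem h2 n) h1)
  have hk2 : ∀ a ∈ A, ((p⁻¹ : ℝˣ) : ℝ) * a ∈ A := key _ (by
    rw [hinv]
    exact A.sub_mem h2 (hnA n)) (by
    rw [Units.inv_mul]
    exact h1)
  intro u hu
  obtain ⟨k, rfl⟩ := Subgroup.mem_zpowers_iff.mp hu
  induction k using Int.induction_on with
  | zero =>
    intro a ha
    rw [zpow_zero, Units.val_one, one_mul]
    exact ha
  | succ k ih =>
    intro a ha
    rw [zpow_add_one, Units.val_mul, mul_assoc]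
    exact ih (Subgroup.zpow_mem_zpowers p _) _ (hk1 a ha)
  | pred k ih =>
    intro a ha
    rw [zpow_sub_one, Units.val_mul, mul_assoc]
    exact ih (Subgroup.zpow_mem_zpowers p _) _ (hk2 a ha)

/-- **Metallic means.** -/
theorem det_metal (hE : HasPT E) (hF : Fty E) (n : ℤ) (hn : n ≠ 0) (p : ℝˣ) (h0 : 0 < (p : ℝ))
    (hp : (p : ℝ) ^ 2 = n * p + 1) (I : Set ℝ) (hI : I.OrdConnected) :
    Det E (BS (AddSubgroup.closure ({1, (p : ℝ)} : Set ℝ)) (Subgroup.zpowers p) I) := by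
  have hp1 : p ≠ 1 := by
    rintro rfl
    rw [Units.val_one, one_pow, mul_one] at hp
    have h1 : (n : ℝ) = 0 := by linarith
    exact hn (by exact_mod_cast h1)
  refine det_irr hE hF _ ?_ _ ?_ (metal_mul n p hp) p (Subgroup.mem_zpowers p) hp1
    (Or.inr ⟨⟨Submodule.span ℚ {1, (p : ℝ)}, ?_, ?_⟩, ?_⟩) I hI
  · intro h
    have h1 : (1 : ℝ) ∈ AddSubgroup.closure ({1, (p : ℝ)} : Set ℝ) :=
      AddSubgroup.subset_closure (Or.inl rfl)
    rw [h] at h1
    exact one_ne_zero (AddSubgroup.mem_bot.mp h1)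
  · intro u hu
    obtain ⟨k, rfl⟩ := Subgroup.mem_zpowers_iff.mp hu
    rw [Units.val_zpow_eq_zpow_val]
    exact zpow_pos h0 k
  · exact Module.Finite.span_of_finite ℚ (Set.toFinite _)
  · intro a ha
    have h1 : AddSubgroup.closure ({1, (p : ℝ)} : Set ℝ) ≤
        (Submodule.span ℚ {1, (p : ℝ)}).toAddSubgroup := by
      rw [AddSubgroup.closure_le]
      exact Submodule.subset_span
    exact h1 ha
  · intro q ω hω
    exact metal n hn p hp _ q ω hω

end Pool.Agent.H417.PL
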