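import Pool.Agent.H417.PL.Alg2

/-!
The groups of Bieri and Strebel with irrational algebraic slopes, for functors which are not finitary.
-/

set_option autoImplicit false
set_option linter.unusedSectionVars false

namespace Pool.Agent.H417.PL

open CategoryTheory Pool.Agent.Y483 Pool.Agent.R615.KU Pool.Agent.Y483.PW Polynomial

variable {E : GrpCat.{0} ⥤ ModuleCat.{0} ℚ}

/-- **The groups of Bieri and Strebel** with irrational slopes, for all functors. -/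
theorem det_irr_int (hE : HasPT E) (A : AddSubgroup ℝ) (hA : A ≠ ⊥) (P : Subgroup ℝˣ)
    [Module.Free ℤ (Additive P)]
    (hpos : ∀ p ∈ P, 0 < ((p : ℝˣ) : ℝ)) (hmul : ∀ p ∈ P, ∀ a ∈ A, ((p : ℝˣ) : ℝ) * a ∈ A)
    (p : ℝˣ) (hp : p ∈ P) (hp1 : p ≠ 1)
    (hs : (IsAlgebraic ℚ (p : ℝ) ∧ |(minpoly ℚ (p : ℝ)).coeff 0| ≠ 1) ∨
      ((∃ V : Submodule ℚ ℝ, Module.Finite ℚ V ∧ ∀ a ∈ A, a ∈ V) ∧
        ∀ (q : ℕ) (ω : A [⋀^Fin (q + 1)]→ₗ[ℤ] ℚ),
          (∀ x : Fin (q + 1) → A, ω (fun i => ⟨(p : ℝ) * x i, hmul p hp _ (x i).2⟩) = ω x) →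
            ω = 0))
    (I : Set ℝ) (hI : IsInt A I) : Det E (BS A P I) := by
  have : BSData A P := ⟨hpos, hmul⟩
  have : Nontrivial A := (AddSubgroup.nontrivial_iff_ne_bot A).mpr hA
  rcases hs with ⟨hi, hN⟩ | ⟨⟨V, hV, hAV⟩, hf⟩
  · obtain ⟨h1, h2⟩ := nofix_alg (A := A) (p := ⟨p, hp⟩) hi.isIntegral hN
    exact det_BS_nofix hE (det_free (E := E) P) (p := ⟨p, hp⟩) hp1 h2 h1 hI
  · obtain ⟨h1, h2⟩ := nofix_finite (rank_of_dim A V hV hAV) (p := ⟨p, hp⟩) hp1 hf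
    exact det_BS_nofix hE (det_free (E := E) P) (p := ⟨p, hp⟩) hp1 h2 h1 hI

/-- **Metallic means.** -/
theorem det_metal_int (hE : HasPT E) (n : ℤ) (hn : n ≠ 0) (p : ℝˣ) (h0 : 0 < (p : ℝ))
    (hp : (p : ℝ) ^ 2 = n * p + 1) (I : Set ℝ)
    (hI : IsInt (AddSubgroup.closure ({1, (p : ℝ)} : Set ℝ)) I) :
    Det E (BS (AddSubgroup.closure ({1, (p : ℝ)} : Set ℝ)) (Subgroup.zpowers p) I) := by
  have hp1 : p ≠ 1 := by
    rintro rfl
    rw [Units.val_one, one_pow, mul_one] at hp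
    have h1 : (n : ℝ) = 0 := by linarith
    exact hn (by exact_mod_cast h1)
  have hpos : ∀ u ∈ Subgroup.zpowers p, 0 < ((u : ℝˣ) : ℝ) := by
    intro u hu
    obtain ⟨k, rfl⟩ := Subgroup.mem_zpowers_iff.mp hu
    rw [Units.val_zpow_eq_zpow_val]
    exact zpow_pos h0 k
  have : IsMulTorsionFree (Subgroup.zpowers p) := tf_pos hpos
  have h2 : AddGroup.FG (Additive (Subgroup.zpowers p)) := by
    have : Group.FG (Subgroup.zpowers p) := (Group.fg_iff_subgroup_fg _).mpr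
      ⟨{p}, by rw [Finset.coe_singleton, Subgroup.zpowers_eq_closure]⟩
    infer_instance
  have h3 : Module.Finite ℤ (Additive (Subgroup.zpowers p)) := Module.Finite.iff_addGroup_fg.mpr h2
  have h5 : Module.IsTorsionFree ℤ (Additive (Subgroup.zpowers p)) := inferInstance
  have h6 : Module.Free ℤ (Additive (Subgroup.zpowers p)) := inferInstance
  refine det_irr_int hE _ ?_ _ hpos (metal_mul n p hp) p (Subgroup.mem_zpowers p) hp1
    (Or.inr ⟨⟨Submodule.span ℚ {1, (p : ℝ)}, ?_, ?_⟩, ?_⟩) I hI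
  · intro h
    have h1 : (1 : ℝ) ∈ AddSubgroup.closure ({1, (p : ℝ)} : Set ℝ) :=
      AddSubgroup.subset_closure (Or.inl rfl)
    rw [h] at h1
    exact one_ne_zero (AddSubgroup.mem_bot.mp h1)
  · exact Module.Finite.span_of_finite ℚ (Set.toFinite _)
  · intro a ha
    have h1 : AddSubgroup.closure ({1, (p : ℝ)} : Set ℝ) ≤
        (Submodule.span ℚ {1, (p : ℝ)}).toAddSubgroup := by
      rw [AddSubgroup.closure_le]
      exact Submodule.subset_span
    exact h1 ha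
  · intro q ω hω
    exact metal n hn p hp _ q ω hω

end Pool.Agent.H417.PL
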