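import Pool.Graph.R_pool_sql_team_seeded_47a924f7.T6.H32.NC.Vis
import Pool.Graph.R_pool_sql_team_seeded_620a6dc7.H651_Nov.Ext

/-!
Detection by induction on the degree, along a pair of cocycles whose values differ by elements of the
kernel of a truncation.
-/

set_option autoImplicit false

namespace Pool.Agent.H417.PL

open Finsupp Pool.Agent.Y483 CategoryTheory Pool.Agent.Y483.PW Pool.Agent.R615.KU
  Pool.Agent.Y75.MQ Pool.Agent.Y110.KW Pool.Agent.R793.Mag Pool.Agent.T6.H32.NC DirectSum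

theorem hq_zero_sur {K G : Type} [Group K] [Group G] (f : K →* G) (x : HQ 0 G) :
    ∃ y, hqMap f 0 y = x := by
  obtain ⟨z, hz⟩ := exists_rpr (Rep.trivial ℚ G ℚ) 0 x
  obtain ⟨y, hy⟩ := exists_class (A := Rep.trivial ℚ K ℚ) 0
    (single default (z default)) (Cyc.zero _ _)
  refine ⟨y, ?_⟩
  have h1 := (hy.hq f).sub hz
  have h2 : mp 0 f LinearMap.id (single default (z default) : T 0 K ℚ) - z = 0 := by
    rw [mp_single, sub_eq_zero]
    conv_rhs => rw [Finsupp.unique_single z]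
    congr 1
    exact Subsingleton.elim _ _
  rw [h2] at h1
  rw [← sub_eq_zero, h1.eq_zero_iff]
  exact Submodule.zero_mem _

section Low

variable {I : ℕ → Type} {G₁ G₂ : Type} [Group G₁] [Group G₂]

/-- The cross product with a class of degree zero. -/
theorem cr_zero_mem (a n : ℕ) (x : HQ a G₁) (w : HQ 0 G₂) :
    ∃ v, cr a 0 n x w = hqMap (MonoidHom.inl G₁ G₂) n v := by
  obtain ⟨w', rfl⟩ := hq_zero_sur (1 : Unit →* G₂) w
  have h1 := cr_nat a 0 n (MonoidHom.id G₁) (1 : Unit →* G₂) x w'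
  rw [hqMap_id] at h1
  refine ⟨hqMap (MonoidHom.fst G₁ Unit) n (cr a 0 n x w'), ?_⟩
  rw [← h1, ← hqMap_comp]
  rfl

/-- The component of smallest degree of a sum of cross products. -/
theorem crs_low (n : ℕ) (w : HB (dg (I := IX I G₂)) G₁)
    (h : ∀ a < n, ∀ q : IX I G₂ a, w ⟨a, q⟩ = 0) (i : I n) :
    ∃ v : HQ n G₁, (crs I G₁ G₂ w) ⟨n, i⟩ = hqMap (MonoidHom.inl G₁ G₂) n v := by
  classical
  have h1 : crs I G₁ G₂ w = ∑ p ∈ DFinsupp.support w,
      crs I G₁ G₂ (DirectSum.of (fun p : (Σ a, IX I G₂ a) => HQ p.1 G₁) p (w p)) := by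
    rw [← map_sum]
    congr 1
    exact (DirectSum.sum_support_of w).symm
  have h2 : ∀ p ∈ DFinsupp.support w, ∃ v : HQ n G₁,
      (crs I G₁ G₂ (DirectSum.of (fun p : (Σ a, IX I G₂ a) => HQ p.1 G₁) p (w p))) ⟨n, i⟩ =
        hqMap (MonoidHom.inl G₁ G₂) n v := by
    rintro ⟨a, ⟨b, i'⟩, k⟩ hp
    have hp' : w ⟨a, ⟨b, i'⟩, k⟩ ≠ 0 := (DFinsupp.mem_support_toFun _ _).mp hp
    have han : n ≤ a := by
      by_contra hlt
      exact hp' (h a (not_le.mp hlt) _)
    rw [crs_of]
    by_cases hq : (⟨a + b, i'⟩ : Σ j, I j) = ⟨n, i⟩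
    · obtain ⟨hab, hi⟩ := Sigma.mk.inj_iff.mp hq
      obtain rfl : b = 0 := by omega
      obtain rfl : a = n := by omega
      have hi' : i' = i := eq_of_heq hi
      subst hi'
      obtain ⟨v, hv⟩ := cr_zero_mem (G₂ := G₂) a a (w ⟨a, ⟨0, i'⟩, k⟩)
        (Module.Basis.ofVectorSpace ℚ (HQ 0 G₂) k)
      refine ⟨v, ?_⟩
      rw [← hv]
      exact DirectSum.of_eq_same _ _
    · refine ⟨0, ?_⟩
      rw [map_zero]
      exact DirectSum.of_eq_of_ne _ _ _ (fun h => hq h.symm)
  choose! v hv using h2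
  refine ⟨∑ p ∈ DFinsupp.support w, v p, ?_⟩
  rw [h1, map_sum, ← Finset.sum_congr rfl hv]
  exact DFinsupp.finsetSum_apply _ _ _

end Low

section Main

variable {E : GrpCat.{0} ⥤ ModuleCat.{0} ℚ}

/-- **Detection by induction on the degree.** -/
theorem det_step (hE : HasPT E) {Ω : Type} {K P : Type} {S Q X : Ω → Type} [Group K]
    [∀ ω, Group (S ω)] [∀ ω, Group (Q ω)] [Group P]
    (hQ : ∀ ω, Det E (Q ω)) (hP : Det E P) (κ : ∀ ω, FinPair K (X ω) (S ω))
    (τ : ∀ ω, S ω →* K) (s : ∀ ω, S ω →* Q ω) (g : K →* P)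
    (hinj : ∀ ω n, Function.Injective (hqMap ((τ ω).prod (s ω)) n))
    (hτ : ∀ (ω : Ω) (n : ℕ) (x : HQ n K), hqMap (τ ω) n (trH (κ ω) n x) = 0)
    (hv : ∀ (n : ℕ) (x : HQ n K), (∀ ω, trH (κ ω) n x = 0) → hqMap g n x = 0 → x = 0) :
    Det E K := by
  have claim : ∀ n : ℕ, ∀ (T : Type) [Group T] (I : ℕ → Type)
      (α : ∀ j : ℕ, I j → (hq j ⟶ timesF T ⋙ E)), Indep α → ∀ x : HB (dg (I := I)) K,
      tb (dg (I := I)) (fam α) K x = 0 → ∀ j < n, ∀ i : I j, x ⟨j, i⟩ = 0 := by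
    intro n
    induction n with
    | zero =>
      intro T _ I α _ x _ j hj
      exact absurd hj (Nat.not_lt_zero _)
    | succ n ih =>
      intro T _ I α hα x hx j hj i
      rcases Nat.lt_succ_iff_lt_or_eq.mp hj with hj | rfl
      · exact ih T I α hα x hx j hj i
      apply hv j
      · intro ω
        have hy := ker_tr (κ ω) (dg (I := I)) (hE.times T) _ hx
        have hx' := tb_map (dg (I := I)) (fam α) ((τ ω).prod (s ω)) hy
        obtain ⟨w, hw⟩ := crs_surjective (I := I)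
          (hbMap (dg (I := I)) ((τ ω).prod (s ω)) (hbTr (κ ω) (dg (I := I)) x))
        have h1 := tb_crs (T := T) (α := α) w
        have h2 : tb (dg (I := I)) (fam α) (K × Q ω) (crs I K (Q ω) w) = 0 := by
          rw [hw]
          exact hx'
        have h2' : tb (dg (I := IX I (Q ω))) (fam (gam α (Q ω))) K w = 0 :=
          h1.symm.trans ((congrArg (fun v => emap E (psi K (Q ω) T) v) h2).trans
            (map_zero (emap E (psi K (Q ω) T))))
        obtain ⟨v, hv1⟩ := crs_low j w (fun a ha q => ih (Q ω × T) (IX I (Q ω)) (gam α (Q ω))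
          (indep_gam hα (hQ ω)) w h2' a ha q) i
        rw [hw, hbMap_apply, hbTr_apply] at hv1
        have h3 : hqMap (MonoidHom.fst K (Q ω)) j
            (hqMap ((τ ω).prod (s ω)) j (trH (κ ω) j (x ⟨j, i⟩))) = 0 := by
          rw [← hqMap_comp]
          exact hτ ω j _
        have h4 : hqMap (MonoidHom.fst K (Q ω)) j (hqMap (MonoidHom.inl K (Q ω)) j v) = v := by
          rw [← hqMap_comp]
          exact hqMap_id K j v
        have h5 : hqMap ((τ ω).prod (s ω)) j (trH (κ ω) j (x ⟨j, i⟩)) =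
            hqMap (MonoidHom.inl K (Q ω)) j v := hv1
        rw [h5, h4] at h3
        rw [h3, map_zero] at h5
        exact (injective_iff_map_eq_zero _).mp (hinj ω j) _ h5
      · have h7 := tb_map (dg (I := I)) (fam α) g hx
        have h8 := hP T I α hα
        rw [kerFam_eq] at h8
        have h9 : hbMap (dg (I := I)) g x = 0 := by
          have h10 : hbMap (dg (I := I)) g x ∈ (⊥ : Submodule ℚ _) :=
            h8 ▸ LinearMap.mem_ker.mpr h7
          exact (Submodule.mem_bot ℚ).mp h10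
        have h10 := hbMap_apply (dg (I := I)) g x ⟨j, i⟩
        rw [h9] at h10
        exact h10.symm
  intro T _ I α hα
  change LinearMap.ker (tb (dg (I := I)) (fam α) K) = ⊥
  rw [eq_bot_iff]
  intro x hx
  rw [Submodule.mem_bot]
  apply DFunLike.ext
  rintro ⟨j, i⟩
  exact claim (j + 1) T I α hα x (LinearMap.mem_ker.mp hx) j (Nat.lt_succ_self j) i

end Main

end Pool.Agent.H417.PL
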