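import Pool.Agent.H417.PL.SSE
import Pool.Agent.H417.PL.Step

/-!
The groups of the piecewise linear automorphisms which are trivial outside of an interval, and of a
half line, are detecting.
-/

set_option autoImplicit false
set_option linter.unusedSectionVars false

namespace Pool.Agent.H417.PL

open Filter Pool.Agent.Y483 Pool.Agent.T6.H32.NC Finsupp Pool.Agent.R615.KU CategoryTheory
  Pool.Agent.Y483.PW

variable {A P : Type} [AddCommGroup A] [LinearOrder A] [IsOrderedAddMonoid A] [CommGroup P]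
  [DistribMulAction P A] [Slopes A P] [Nontrivial A] {r : P} (hr : Arch A r)
  (hl : ∀ q, Function.Bijective (hqMap (Af.lin : P →* Af (IPA A P) P) q))

/-- The pair of cocycles of the elements trivial near infinity. -/
noncomputable def kK (e : Pos A) : FinPair (KK A P) (XX A P e) (SS (A := A) (P := P) e.1) :=
  compP (kS hr e) (KK A P).subtype

theorem trunc_conj (e : Pos A) (g : GP A P) (a : XX A P e) (p q : P) :
    trunc e.2 ⟨_, conj_mem hr e g a p⟩ = trunc e.2 ⟨_, conj_mem hr e g a q⟩ := by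
  apply Subtype.ext
  apply Subtype.ext
  apply RelIso.ext
  intro x
  have key : ∀ (p : P) (x : A), x ≤ e.1 →
      ((nn hr e ((kF e).σ g a))⁻¹ * cutG g a.1.1 a.1.2.le p * nn hr e a).1 x =
        (nn hr e ((kF e).σ g a)).1⁻¹ (g.1 ((nn hr e a).1 x)) := by
    intro p x hx
    change (nn hr e ((kF e).σ g a)).1⁻¹ (cut g.1 a.1.1 p ((nn hr e a).1 x)) = _
    have h1 : (nn hr e a).1 x ≤ a.1.1 := by
      have h2 := (nn hr e a).1.monotone hx
      rwa [nn_e] at h2
    rw [cut_le _ _ _ h1]
  change cut _ e.1 (1 : P) x = cut _ e.1 (1 : P) x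
  rcases le_total x e.1 with hx | hx
  · rw [cut_le _ _ _ hx, cut_le _ _ _ hx, key p x hx, key q x hx]
  · rw [cut_ge _ _ _ hx, cut_ge _ _ _ hx, key p e.1 le_rfl, key q e.1 le_rfl]

theorem tau_zero (e : Pos A) (q : ℕ) (x : HQ q (KK A P)) :
    hqMap (trunc e.2) q (trH (kK (P := P) hr e) q x) = 0 := by
  rw [← trH_compL]
  apply trH_same
  funext g a
  exact trunc_conj hr e g.1 a _ _

include hr in
theorem swap_inj (e : Pos A) (q : ℕ) :
    Function.Injective (hqMap ((trunc e.2).prod (sl A P e.1)) q) := by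
  have h1 := SS_inj e.2 hr q
  rw [injective_iff_map_eq_zero] at h1 ⊢
  intro x hx
  apply h1
  have e1 : (sl A P e.1).prod (trunc e.2) = ((MonoidHom.snd (KK A P) (P × P)).prod
      (MonoidHom.fst (KK A P) (P × P))).comp ((trunc e.2).prod (sl A P e.1)) := rfl
  rw [e1, hqMap_comp, hx, map_zero]

include hl in
theorem kK_zero (q : ℕ) (x : HQ q (KK A P)) (h1 : ∀ e, trH (kK (P := P) hr e) q x = 0)
    (h2 : hqMap ((g0 (A := A) (P := P)).comp (KK A P).subtype) q x = 0) : x = 0 := by
  obtain ⟨e, he⟩ := exists_pos' (A := A)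
  apply (injective_iff_map_eq_zero _).mp (KK_inj he hr hl q)
  apply tel_zero hr q
  · intro e
    rw [← trH_comp]
    exact h1 e
  · rw [← hqMap_comp]
    exact h2

variable {E : GrpCat.{0} ⥤ ModuleCat.{0} ℚ}

include hr hl in
/-- The group of the elements which are trivial near infinity. -/
theorem det_KK (hE : HasPT E) (hP : Det E P) : Det E (KK A P) :=
  det_step hE (fun _ : Pos A => hP.prod hP) hP (kK hr) (fun e => trunc e.2)
    (fun e => sl A P e.1) ((g0 (A := A) (P := P)).comp (KK A P).subtype) (swap_inj hr)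
    (tau_zero hr) (kK_zero hr hl)

include hr hl in
theorem det_SS (hE : HasPT E) (hP : Det E P) (e : Pos A) : Det E (SS (A := A) (P := P) e.1) :=
  Pool.Agent.H651.Nov.Det.of_hq_inj ((hP.prod hP).prod (det_KK hr hl hE hP)) _ (SS_inj e.2 hr)

/-- The inclusion of the group of an interval. -/
def iGI (e : A) : GI A P e →* SS (A := A) (P := P) e where
  toFun g := ⟨⟨g.1, g.2.1, g.2.2.1⟩, g.2.2.2 e le_rfl, 1, fun x hx => by
    change g.1 x = _
    rw [g.2.2.2 x hx, one_smul]
    abel⟩
  map_one' := rfl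
  map_mul' _ _ := rfl

/-- The retraction to the group of an interval. -/
noncomputable def rGI {e : A} (he : 0 < e) : SS (A := A) (P := P) e →* GI A P e where
  toFun h := ⟨cut h.1.1 e 1, h.1.2.1.cut e 1, fun x hx => by
    rw [cut_le _ _ _ (hx.trans he.le), h.1.2.2 x hx], fun x hx => by
    have h1 : h.1.1 e = e := h.2.1
    rw [cut_ge _ _ _ hx, h1, one_smul]
    abel⟩
  map_one' := Subtype.ext (cut_one e)
  map_mul' g h := by
    apply Subtype.ext
    change cut (g.1.1 * h.1.1) e 1 = cut g.1.1 e 1 * cut h.1.1 e 1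
    have h1 : h.1.1 e = e := h.2.1
    have h2 := cut_mul g.1.1 h.1.1 e (1 : P) 1
    rw [mul_one, h1] at h2
    exact h2

theorem rGI_iGI {e : A} (he : 0 < e) : (rGI (P := P) he).comp (iGI e) = MonoidHom.id _ := by
  apply MonoidHom.ext
  intro g
  apply Subtype.ext
  change cut g.1 e (1 : P) = g.1
  apply cut_self
  intro x hx
  rw [g.2.2.2 x hx, g.2.2.2 e le_rfl, one_smul]
  abel

include hr hl in
/-- **The groups of the intervals.** -/
theorem det_GI (hE : HasPT E) (hP : Det E P) {e : A} (he : 0 < e) : Det E (GI A P e) :=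
  Pool.Agent.H651.Nov.Det.of_hq_inj (det_SS hr hl hE hP ⟨e, he⟩) (iGI e)
    (fun n => hqMap_inj n _ (rGI he) (rGI_iGI he))

include hr hl in
/-- **The group of the half line.** -/
theorem det_GP (hE : HasPT E) (hP : Det E P) : Det E (GP A P) := by
  apply Det.visible hE
  intro j x hx
  by_cases h0 : hqMap (g0 (A := A) (P := P)) j x = 0
  · by_cases h1 : ∀ e, trH (kS hr e) j x = 0
    · exact absurd (tel_zero hr j x h1 h0) hx
    · rw [not_forall] at h1
      obtain ⟨e, he⟩ := h1
      exact Visible.transfer _ _ _ (kS hr e) x (Visible.base _ (det_SS hr hl hE hP e) _ he)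
  · exact Visible.map _ _ g0 x (Visible.base _ hP _ h0)

end Pool.Agent.H417.PL
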