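import Pool.Agent.H417.PL.Wt
import Pool.Graph.R_seed8.R615.KU.Cls2

/-!
Free abelian groups of any rank are detecting.
-/

set_option autoImplicit false

namespace Pool.Agent.H417.PL

open Finsupp Pool.Agent.Y483 Pool.Agent.R942.NV Pool.Agent.R615.KU CategoryTheory

variable {E : GrpCat.{0} ⥤ ModuleCat.{0} ℚ}

theorem det_int : Det E (Multiplicative ℤ) :=
  (Det.zn 1).of_retract
    { toFun := fun x => Multiplicative.ofAdd (fun _ => x.toAdd)
      map_one' := rfl
      map_mul' := fun _ _ => rfl }
    { toFun := fun x => Multiplicative.ofAdd (x.toAdd 0)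
      map_one' := rfl
      map_mul' := fun _ _ => rfl } rfl

/-- **Free abelian groups.** -/
theorem det_free (P : Type) [CommGroup P] [Module.Free ℤ (Additive P)] : Det E P := by
  classical
  let b := Module.Free.chooseBasis ℤ (Additive P)
  apply Det.detect
  intro j x hx
  obtain ⟨z, hz⟩ := exists_rpr (Rep.trivial ℚ P ℚ) j x
  set S : Finset _ := (entries z).biUnion fun g => (b.repr (Additive.ofMul g)).support with hS
  let f : P →* (S → Multiplicative ℤ) :=
    { toFun := fun x i => Multiplicative.ofAdd (b.repr (Additive.ofMul x) i.1)
      map_one' := by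
        funext i
        change Multiplicative.ofAdd (b.repr (0 : Additive P) i.1) = 1
        rw [map_zero]
        rfl
      map_mul' := fun x y => by
        funext i
        change Multiplicative.ofAdd (b.repr (Additive.ofMul x + Additive.ofMul y) i.1) = _
        rw [map_add]
        rfl }
  let g : (S → Multiplicative ℤ) →* P :=
    { toFun := fun y => Additive.toMul (∑ i : S, (y i).toAdd • b i.1)
      map_one' := by
        have h : ∑ i : S, ((1 : S → Multiplicative ℤ) i).toAdd • b i.1 = 0 := by
          apply Finset.sum_eq_zero
          intro i _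
          change (0 : ℤ) • b i.1 = 0
          rw [zero_smul]
        rw [h]
        rfl
      map_mul' := fun y y' => by
        rw [← toMul_add, ← Finset.sum_add_distrib]
        congr 1
        apply Finset.sum_congr rfl
        intro i _
        rw [← add_smul]
        rfl }
  refine ⟨_, inferInstance, f, Det.pi _ (fun _ => det_int), fun h0 => hx ?_⟩
  have h1 : ∀ y ∈ entries z, g (f y) = y := by
    intro y hy
    have h2 : (b.repr (Additive.ofMul y)).support ⊆ S :=
      Finset.subset_biUnion_of_mem (fun g => (b.repr (Additive.ofMul g)).support) hy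
    have h3 : (∑ i : S, (f y i).toAdd • b i.1) = Additive.ofMul y := by
      have h4 := b.linearCombination_repr (Additive.ofMul y)
      rw [Finsupp.linearCombination_apply, Finsupp.sum_of_support_subset _ h2 _ (fun i _ => by
        rw [zero_smul])] at h4
      conv_rhs => rw [← h4]
      exact Finset.sum_coe_sort S (fun i => (b.repr (Additive.ofMul y)) i • b i)
    change Additive.toMul (∑ i : S, (f y i).toAdd • b i.1) = y
    rw [h3]
    rfl
  have h5 : hqMap (g.comp f) j x = x := by
    have h6 := (hz.hq (g.comp f)).sub hz
    have h7 : mp j (g.comp f) LinearMap.id z = z := by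
      conv_rhs => rw [← mp_id j z]
      apply mp_congr
      intro x hx i
      exact h1 _ (mem_entries z x hx i)
    rw [h7, sub_self] at h6
    exact sub_eq_zero.mp (h6.eq_zero_iff.mpr (Submodule.zero_mem _))
  rw [← h5, hqMap_comp, h0, map_zero]

end Pool.Agent.H417.PL
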