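import Pool.Agent.H417.PL.FtyR
import Pool.Agent.H417.PL.Fty
import Pool.Graph.R_seed8.R615.KU.DetK

/-!
The functor `G ↦ ℚ ⊗ K₁(R[G])`: relations hold in finitely generated subgroups.
-/

set_option autoImplicit false

namespace Pool.Agent.H417.PL

open Pool.Agent.Y483 Pool.Agent.Y477.IW Matrix

section K1

/-- The set of the invertible matrices. -/
abbrev GLs (R : Type) [Ring R] : Type := Σ n : ℕ, (Matrix (Fin n) (Fin n) R)ˣ

/-- The map on invertible matrices. -/
noncomputable def mapX {R S : Type} [Ring R] [Ring S] (φ : R →ₙ+* S) (x : GLs R) : GLs S :=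
  ⟨x.1, unzU (mapR (Fin x.1) φ) x.2⟩

theorem k1_map_mk {R S : Type} [Ring R] [Ring S] (φ : R →ₙ+* S) (x : FreeAbelianGroup (GLs R)) :
    K1.map φ (QuotientAddGroup.mk x : K1 R) =
      (QuotientAddGroup.mk (FreeAbelianGroup.map (mapX φ) x) : K1 S) := by
  induction x using FreeAbelianGroup.induction_on with
  | zero => rw [map_zero]; exact map_zero _
  | of x => exact K1.map_mk φ x.2
  | neg x hx =>
    rw [map_neg]
    exact (map_neg (K1.map φ) _).trans (congrArg Neg.neg hx)
  | add x y hx hy =>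
    rw [map_add]
    exact (map_add (K1.map φ) _ _).trans (congrArg₂ (· + ·) hx hy)

theorem mapX_inj {R S : Type} [Ring R] [Ring S] (φ : R →ₙ+* S) (hφ : Function.Injective φ) :
    Function.Injective (mapX φ) := by
  rintro ⟨n, M⟩ ⟨m, N⟩ h
  obtain ⟨h1, h2⟩ := Sigma.mk.inj_iff.mp h
  subst h1
  have h3 := eq_of_heq h2
  congr 1
  apply Units.ext
  have h4 := congrArg (fun u : (Matrix (Fin n) (Fin n) S)ˣ => u.val) h3
  simp only [unzU_val] at h4
  have h5 := add_right_cancel h4
  apply Matrix.ext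
  intro i j
  exact hφ (congrFun (congrFun h5 i) j)

theorem free_inj {X Y : Type} {f : X → Y} (hf : Function.Injective f) :
    Function.Injective (FreeAbelianGroup.map f) := by
  rcases isEmpty_or_nonempty X with hX | hX
  · intro a b _
    have : ∀ a : FreeAbelianGroup X, a = 0 := by
      intro a
      induction a using FreeAbelianGroup.induction_on with
      | zero => rfl
      | of x => exact hX.elim x
      | neg x _ => exact hX.elim x
      | add x y hx hy => rw [hx, hy, add_zero]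
    rw [this a, this b]
  · obtain ⟨g, hg⟩ := hf.hasLeftInverse
    apply Function.LeftInverse.injective (g := FreeAbelianGroup.map g)
    intro a
    rw [← FreeAbelianGroup.map_comp_apply]
    have h : g ∘ f = id := funext hg
    rw [h, FreeAbelianGroup.map_id_apply]

variable {R : Type} [Ring R]

theorem gl_lift {G K : Type} [Group G] [Group K] (h : K →* G) (hh : Function.Injective h) {n : ℕ}
    (M : (Matrix (Fin n) (Fin n) (MonoidAlgebra R G))ˣ)
    (hM : ∀ g ∈ msup M.val, ∃ k, h k = g) (hM' : ∀ g ∈ msup M.inv, ∃ k, h k = g) :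
    ∃ M' : (Matrix (Fin n) (Fin n) (MonoidAlgebra R K))ˣ, unzU (mapR (Fin n) (gm R h)) M' = M := by
  obtain ⟨A, hA⟩ := mat_lift h M.val hM
  obtain ⟨B, hB⟩ := mat_lift h M.inv hM'
  have h1 : (1 : Matrix (Fin n) (Fin n) (MonoidAlgebra R K)).map (gm R h) = 1 := by
    apply Matrix.ext
    intro i j
    rw [Matrix.map_apply]
    by_cases hij : i = j
    · rw [hij, Matrix.one_apply_eq, Matrix.one_apply_eq, gm_one]
    · rw [Matrix.one_apply_ne hij, Matrix.one_apply_ne hij, map_zero]
  refine ⟨⟨A, B, ?_, ?_⟩, ?_⟩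
  · apply mat_inj h hh
    rw [Matrix.map_mul, hA, hB, h1]
    exact M.val_inv
  · apply mat_inj h hh
    rw [Matrix.map_mul, hA, hB, h1]
    exact M.inv_val
  · apply Units.ext
    rw [unzU_val]
    change A.map (gm R h) + (1 - (1 : Matrix _ _ _).map (gm R h)) = M.val
    rw [h1, sub_self, add_zero, hA]

theorem rel_lift {G : Type} [Group G] (y : FreeAbelianGroup (GLs (MonoidAlgebra R G)))
    (hy : y ∈ AddSubgroup.closure (K1Rel (MonoidAlgebra R G))) :
    ∃ S : Finset G, ∀ (K : Type) [Group K] (h : K →* G), Function.Injective h →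
      (∀ s ∈ S, ∃ k, h k = s) → ∃ y' ∈ AddSubgroup.closure (K1Rel (MonoidAlgebra R K)),
        FreeAbelianGroup.map (mapX (gm R h)) y' = y := by
  classical
  induction hy using AddSubgroup.closure_induction with
  | mem y hy =>
    rcases hy with ⟨n, M, N, rfl⟩ | ⟨n, m, f, M, rfl⟩
    · refine ⟨(msup M.val ∪ msup M.inv) ∪ (msup N.val ∪ msup N.inv), fun K _ h hh hS => ?_⟩
      obtain ⟨M', hM'⟩ := gl_lift h hh M
        (fun g hg => hS g (Finset.mem_union_left _ (Finset.mem_union_left _ hg)))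
        (fun g hg => hS g (Finset.mem_union_left _ (Finset.mem_union_right _ hg)))
      obtain ⟨N', hN'⟩ := gl_lift h hh N
        (fun g hg => hS g (Finset.mem_union_right _ (Finset.mem_union_left _ hg)))
        (fun g hg => hS g (Finset.mem_union_right _ (Finset.mem_union_right _ hg)))
      refine ⟨_, AddSubgroup.subset_closure (Or.inl ⟨n, M', N', rfl⟩), ?_⟩
      rw [map_sub, map_add, FreeAbelianGroup.map_of_apply, FreeAbelianGroup.map_of_apply,
        FreeAbelianGroup.map_of_apply]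
      unfold mapX
      rw [map_mul, hM', hN']
    · refine ⟨msup M.val ∪ msup M.inv, fun K _ h hh hS => ?_⟩
      obtain ⟨M', hM'⟩ := gl_lift h hh M (fun g hg => hS g (Finset.mem_union_left _ hg))
        (fun g hg => hS g (Finset.mem_union_right _ hg))
      refine ⟨_, AddSubgroup.subset_closure (Or.inr ⟨n, m, f, M', rfl⟩), ?_⟩
      rw [map_sub, FreeAbelianGroup.map_of_apply, FreeAbelianGroup.map_of_apply]
      unfold mapX
      rw [hM', ← unzU_comp, mapR_injR, unzU_comp, hM']
  | zero => exact ⟨∅, fun K _ h _ _ => ⟨0, zero_mem _, map_zero _⟩⟩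
  | add y z _ _ hy hz =>
    obtain ⟨S, hS⟩ := hy
    obtain ⟨S', hS'⟩ := hz
    refine ⟨S ∪ S', fun K _ h hh hU => ?_⟩
    obtain ⟨y', hy', e1⟩ := hS K h hh (fun s hs => hU s (Finset.mem_union_left _ hs))
    obtain ⟨z', hz', e2⟩ := hS' K h hh (fun s hs => hU s (Finset.mem_union_right _ hs))
    exact ⟨y' + z', add_mem hy' hz', by rw [map_add, e1, e2]⟩
  | neg y _ hy =>
    obtain ⟨S, hS⟩ := hy
    refine ⟨S, fun K _ h hh hU => ?_⟩
    obtain ⟨y', hy', e1⟩ := hS K h hh hU
    exact ⟨-y', neg_mem hy', by rw [map_neg, e1]⟩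

theorem mapX_comp {H K G : Type} [Group H] [Group K] [Group G] (g : H →* K) (h : K →* G) :
    mapX (gm R h) ∘ mapX (gm R g) = mapX (gm R (h.comp g)) := by
  funext ⟨n, M⟩
  change (⟨n, unzU (mapR (Fin n) (gm R h)) (unzU (mapR (Fin n) (gm R g)) M)⟩ : GLs _) =
    ⟨n, unzU (mapR (Fin n) (gm R (h.comp g))) M⟩
  rw [← unzU_comp, ← mapR_comp, grm_comp]
  rfl

theorem k1_fty {G H : Type} [Group G] [Group H] (f : H →* G) (x : K1 (MonoidAlgebra R H))
    (hx : K1.map (gm R f) x = 0) : ∃ S : Finset G, ∀ (K : Type) [Group K] (g : H →* K)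
      (h : K →* G), h.comp g = f → Function.Injective h → (∀ s ∈ S, ∃ k, h k = s) →
        K1.map (gm R g) x = 0 := by
  obtain ⟨x, rfl⟩ := QuotientAddGroup.mk_surjective x
  rw [k1_map_mk] at hx
  have h1 := (QuotientAddGroup.eq_zero_iff _).mp hx
  obtain ⟨S, hS⟩ := rel_lift _ h1
  refine ⟨S, fun K _ g h hgf hh hU => ?_⟩
  obtain ⟨y', hy', e1⟩ := hS K h hh hU
  rw [k1_map_mk]
  apply (QuotientAddGroup.eq_zero_iff _).mpr
  have h2 : FreeAbelianGroup.map (mapX (gm R g)) x = y' := by
    apply free_inj (mapX_inj (gm R h) (gm_inj h hh))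
    rw [e1, ← hgf, ← FreeAbelianGroup.map_comp_apply, mapX_comp]
  rw [h2]
  exact hy'

end K1

end Pool.Agent.H417.PL
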