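import Pool.Agent.H417.PL.FtyK

/-!
The functor `G ↦ ℚ ⊗ K₁(R[G])` is finitary.
-/

set_option autoImplicit false

namespace Pool.Agent.H417.PL

open Pool.Agent.Y483 Pool.Agent.Y477.IW Pool.Agent.R615.K1 Pool.Agent.R942.NV
  Pool.Agent.R793.Mag CategoryTheory TensorProduct

theorem rat_one {A : Type} [AddCommGroup A] (x : ℚ ⊗[ℤ] A) :
    ∃ n : ℤ, n ≠ 0 ∧ ∃ y : A, (n : ℚ) • x = (1 : ℚ) ⊗ₜ[ℤ] y := by
  induction x using TensorProduct.induction_on with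
  | zero => exact ⟨1, one_ne_zero, 0, by rw [smul_zero, tmul_zero]⟩
  | tmul q y =>
    refine ⟨q.den, Int.natCast_ne_zero.mpr q.den_nz, q.num • y, ?_⟩
    rw [← TensorProduct.smul_tmul, TensorProduct.smul_tmul']
    congr 1
    rw [smul_eq_mul, zsmul_eq_mul, mul_one, mul_comm]
    exact_mod_cast Rat.mul_den_eq_num q
  | add x y hx hy =>
    obtain ⟨n, hn, a, ha⟩ := hx
    obtain ⟨m, hm, b, hb⟩ := hy
    refine ⟨n * m, mul_ne_zero hn hm, m • a + n • b, ?_⟩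
    rw [tmul_add, smul_add]
    congr 1
    · rw [Int.cast_mul, mul_comm, mul_smul, ha, ← TensorProduct.smul_tmul,
        TensorProduct.smul_tmul', smul_eq_mul, zsmul_eq_mul]
    · rw [Int.cast_mul, mul_smul, hb, ← TensorProduct.smul_tmul,
        TensorProduct.smul_tmul', smul_eq_mul, zsmul_eq_mul]

theorem one_tmul_zero {A : Type} [AddCommGroup A] (y : A) (h : (1 : ℚ) ⊗ₜ[ℤ] y = 0) :
    ∃ m : ℤ, m ≠ 0 ∧ m • y = 0 := by
  have h1 : (TensorProduct.mk ℤ ℚ A 1) y = 0 := h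
  rw [IsLocalizedModule.eq_zero_iff (nonZeroDivisors ℤ)] at h1
  obtain ⟨m, hm⟩ := h1
  exact ⟨m, nonZeroDivisors.ne_zero m.2, hm⟩

theorem ratMap_fty {A B : Type} [AddCommGroup A] [AddCommGroup B] (f : A →+ B) (x : ℚ ⊗[ℤ] A)
    (hx : ratMap f x = 0) : ∃ y : A, f y = 0 ∧
      ∀ (C : Type) [AddCommGroup C] (g : A →+ C), g y = 0 → ratMap g x = 0 := by
  obtain ⟨n, hn, y, hy⟩ := rat_one x
  have h1 : (1 : ℚ) ⊗ₜ[ℤ] f y = 0 := by
    rw [← ratMap_tmul, ← hy, map_smul, hx, smul_zero]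
  obtain ⟨m, hm, h2⟩ := one_tmul_zero _ h1
  refine ⟨m • y, by rw [map_zsmul, h2], fun C _ g hg => ?_⟩
  have h3 : ((m : ℚ) * n) • ratMap g x = 0 := by
    rw [← map_smul, mul_smul, hy]
    have : (m : ℚ) • ((1 : ℚ) ⊗ₜ[ℤ] y) = (1 : ℚ) ⊗ₜ[ℤ] (m • y) := by
      rw [← TensorProduct.smul_tmul, TensorProduct.smul_tmul', smul_eq_mul, zsmul_eq_mul]
    rw [this, ratMap_tmul, hg, tmul_zero]
  have h4 : ((m : ℚ) * n) ≠ 0 := mul_ne_zero (Int.cast_ne_zero.mpr hm) (Int.cast_ne_zero.mpr hn)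
  exact (smul_eq_zero.mp h3).resolve_left h4

theorem fty_K (R : Type) [Ring R] : Fty (rat (kgr R)) := by
  intro G H _ _ f x hx
  obtain ⟨y, hy, hy2⟩ := ratMap_fty (kf R f) x hx
  obtain ⟨S, hS⟩ := k1_fty f y hy
  exact ⟨S, fun K _ g h hgf hh hU => hy2 (KG R K) (kf R g) (hS K g h hgf hh hU)⟩

end Pool.Agent.H417.PL
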