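import Pool.Agent.H417.PL.FtyR
import Pool.Agent.H417.PL.Fty
import Pool.Graph.R_pool_sql_team_seeded_620a6dc7.H694.LCl.Def

/-!
The functor `G ↦ L₀(A[G]; ε) ⊗ ℚ`: relations hold in finitely generated subgroups.
-/

set_option autoImplicit false

namespace Pool.Agent.H417.PL

open Pool.Agent.Y483 Pool.Agent.Y477.IW Matrix Pool.Agent.H694.LCl Pool.Agent.R942.NV
  Pool.Agent.R793.Mag CategoryTheory

variable {A : Type} [Ring A] [StarRing A] {ε : ℤˣ}

section Lift

variable {G K : Type} [Group G] [Group K] (h : K →* G) (hh : Function.Injective h)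

theorem sm_eq (x : MonoidAlgebra A K) : grMap A h x = gm A h x :=
  DFunLike.congr_fun (grm_star (R := A) h) x

theorem sm_map {ι κ : Type} (M : Matrix ι κ (MonoidAlgebra A K)) :
    M.map (grMap A h) = M.map (gm A h) := by
  ext i j
  exact congrArg (fun z : MonoidAlgebra A G => z.coeff _) (sm_eq h (M i j))

theorem smat_lift {ι κ : Type} [Fintype ι] [Fintype κ] (M : Matrix ι κ (MonoidAlgebra A G))
    (hM : ∀ g ∈ msup M, ∃ k, h k = g) : ∃ N : Matrix ι κ (MonoidAlgebra A K),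
      N.map (grMap A h) = M := by
  obtain ⟨N, hN⟩ := mat_lift h M hM
  exact ⟨N, (sm_map h N).trans hN⟩

include hh in
theorem smat_inj {ι κ : Type} [Fintype ι] [Fintype κ] {M N : Matrix ι κ (MonoidAlgebra A K)}
    (hMN : M.map (grMap A h) = N.map (grMap A h)) : M = N := by
  rw [sm_map, sm_map] at hMN
  exact mat_inj h hh hMN

theorem sm_H {ι κ : Type} (M : Matrix ι κ (MonoidAlgebra A K)) :
    Mᴴ.map (grMap A h) = (M.map (grMap A h))ᴴ := by
  ext i j
  exact congrArg (fun z : MonoidAlgebra A G => z.coeff _) (map_star (grMap A h) (M j i))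

include hh in
theorem qf_inj {ι : Type} [Fintype ι] {x y : QForm (MonoidAlgebra A K) ε ι}
    (hxy : x.map (grMap A h) = y.map (grMap A h)) : x = y := by
  apply QForm.ext
  · exact smat_inj h hh (congrArg QForm.θ hxy)
  · exact smat_inj h hh (congrArg QForm.ψ hxy)

open Classical in
/-- The group elements in the matrices of a form. -/
noncomputable def qsup {ι : Type} [Fintype ι] (x : QForm (MonoidAlgebra A G) ε ι) : Finset G :=
  msup x.θ ∪ msup x.ψ

include hh in
theorem qf_lift {ι : Type} [Fintype ι] (x : QForm (MonoidAlgebra A G) ε ι)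
    (hx : ∀ g ∈ qsup x, ∃ k, h k = g) : ∃ x' : QForm (MonoidAlgebra A K) ε ι,
      x'.map (grMap A h) = x := by
  classical
  obtain ⟨θ, hθ⟩ := smat_lift h x.θ (fun g hg => hx g (Finset.mem_union_left _ hg))
  obtain ⟨ψ, hψ⟩ := smat_lift h x.ψ (fun g hg => hx g (Finset.mem_union_right _ hg))
  refine ⟨⟨θ, ψ, ?_, ?_, ?_⟩, ?_⟩
  · apply smat_inj h hh
    rw [← dag_map, hψ, x.dag_psi]
  · apply smat_inj h hh
    rw [Matrix.map_mul, Matrix.map_mul, Matrix.map_add _ (map_add _), ← dag_map, hψ, hθ]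
    exact x.psi_phi_psi
  · apply smat_inj h hh
    rw [Matrix.map_mul, Matrix.map_mul, Matrix.map_mul, Matrix.map_mul,
      Matrix.map_add _ (map_add _), ← dag_map, hψ, hθ]
    exact x.compress
  · exact QForm.ext hθ hψ

include hh in
theorem isom_lift {ι κ : Type} [Fintype ι] [Fintype κ] (x : QForm (MonoidAlgebra A K) ε ι)
    (y : QForm (MonoidAlgebra A K) ε κ) (u : Matrix κ ι (MonoidAlgebra A G))
    (χ : Matrix ι ι (MonoidAlgebra A G)) (h1 : u * (x.map (grMap A h)).ψ * uᴴ =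
      (y.map (grMap A h)).ψ) (h2 : uᴴ * (y.map (grMap A h)).θ * u =
        (x.map (grMap A h)).θ + (χ - dag ε χ)) (hu : ∀ g ∈ msup u, ∃ k, h k = g)
    (hχ : ∀ g ∈ msup χ, ∃ k, h k = g) : Isometric x y := by
  obtain ⟨u', rfl⟩ := smat_lift h u hu
  obtain ⟨χ', rfl⟩ := smat_lift h χ hχ
  refine ⟨u', ?_, χ', ?_⟩
  · apply smat_inj h hh
    rw [Matrix.map_mul, Matrix.map_mul, sm_H]
    exact h1
  · apply smat_inj h hh
    rw [Matrix.map_mul, Matrix.map_mul, sm_H, Matrix.map_add _ (map_add _),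
      Matrix.map_sub _ (map_sub _), ← dag_map]
    exact h2

include hh in
theorem hyp_lift {ι : Type} [Fintype ι] (x : QForm (MonoidAlgebra A K) ε ι)
    (l χ : Matrix ι ι (MonoidAlgebra A G)) (h1 : l * l = l)
    (h2 : l * (x.map (grMap A h)).e = l) (h3 : (x.map (grMap A h)).e * l = l)
    (h4 : (x.map (grMap A h)).θ = lᴴ * (x.map (grMap A h)).φ + (χ - dag ε χ))
    (hl : ∀ g ∈ msup l, ∃ k, h k = g) (hχ : ∀ g ∈ msup χ, ∃ k, h k = g) : IsHyp x := by
  obtain ⟨l', rfl⟩ := smat_lift h l hl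
  obtain ⟨χ', rfl⟩ := smat_lift h χ hχ
  rw [QForm.map_e] at h2 h3
  rw [QForm.map_phi] at h4
  refine ⟨l', ?_, ?_, ?_, χ', ?_⟩
  · apply smat_inj h hh
    rw [Matrix.map_mul]
    exact h1
  · apply smat_inj h hh
    rw [Matrix.map_mul]
    exact h2
  · apply smat_inj h hh
    rw [Matrix.map_mul]
    exact h3
  · apply smat_inj h hh
    rw [Matrix.map_add _ (map_add _), Matrix.map_mul, sm_H, Matrix.map_sub _ (map_sub _),
      ← dag_map]
    exact h4

include hh in
theorem formsMap_inj : Function.Injective (formsMap ε (grMap A h)) := by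
  rintro ⟨n, x⟩ ⟨m, y⟩ hxy
  obtain ⟨h1, h2⟩ := Sigma.mk.inj_iff.mp hxy
  subst h1
  congr 1
  exact qf_inj h hh (eq_of_heq h2)

end Lift

theorem lrel_lift {G : Type} [Group G] (y : Forms (MonoidAlgebra A G) ε →₀ ℚ)
    (hy : y ∈ LSpan (MonoidAlgebra A G) ε) :
    ∃ S : Finset G, ∀ (K : Type) [Group K] (h : K →* G), Function.Injective h →
      (∀ s ∈ S, ∃ k, h k = s) → ∃ y' ∈ LSpan (MonoidAlgebra A K) ε,
        Finsupp.mapDomain (formsMap ε (grMap A h)) y' = y := by
  classical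
  induction hy using Submodule.span_induction with
  | mem y hy =>
    rcases hy with ⟨x, y, ⟨u, h1, χ, h2⟩, rfl⟩ | ⟨n, x, y, z, h1, h2, h3, h4, rfl⟩ |
      ⟨x, ⟨l, h1, h2, h3, χ, h4⟩, rfl⟩
    · obtain ⟨n, x⟩ := x
      obtain ⟨m, y⟩ := y
      refine ⟨(qsup x ∪ qsup y) ∪ (msup u ∪ msup χ), fun K _ h hh hS => ?_⟩
      obtain ⟨x', rfl⟩ := qf_lift h hh x
        (fun g hg => hS g (Finset.mem_union_left _ (Finset.mem_union_left _ hg)))
      obtain ⟨y', rfl⟩ := qf_lift h hh y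
        (fun g hg => hS g (Finset.mem_union_left _ (Finset.mem_union_right _ hg)))
      refine ⟨_, Submodule.subset_span (Or.inl ⟨⟨n, x'⟩, ⟨m, y'⟩, isom_lift h hh x' y' u χ h1 h2
        (fun g hg => hS g (Finset.mem_union_right _ (Finset.mem_union_left _ hg)))
        (fun g hg => hS g (Finset.mem_union_right _ (Finset.mem_union_right _ hg))), rfl⟩), ?_⟩
      rw [Finsupp.mapDomain_sub, Finsupp.mapDomain_single, Finsupp.mapDomain_single]
      rfl
    · refine ⟨(qsup x ∪ qsup y) ∪ qsup z, fun K _ h hh hS => ?_⟩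
      obtain ⟨x', rfl⟩ := qf_lift h hh x
        (fun g hg => hS g (Finset.mem_union_left _ (Finset.mem_union_left _ hg)))
      obtain ⟨y', rfl⟩ := qf_lift h hh y
        (fun g hg => hS g (Finset.mem_union_left _ (Finset.mem_union_right _ hg)))
      obtain ⟨z', rfl⟩ := qf_lift h hh z (fun g hg => hS g (Finset.mem_union_right _ hg))
      refine ⟨_, Submodule.subset_span (Or.inr (Or.inl ⟨n, x', y', z', ?_, ?_, ?_, ?_, rfl⟩)), ?_⟩
      · apply smat_inj h hh
        rw [Matrix.map_add _ (map_add _)]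
        exact h1
      · apply smat_inj h hh
        rw [Matrix.map_add _ (map_add _)]
        exact h2
      · apply smat_inj h hh
        rw [Matrix.map_mul, ← QForm.map_phi, Matrix.map_zero _ (map_zero _)]
        exact h3
      · apply smat_inj h hh
        rw [Matrix.map_mul, ← QForm.map_phi, Matrix.map_zero _ (map_zero _)]
        exact h4
      · rw [Finsupp.mapDomain_sub, Finsupp.mapDomain_sub, Finsupp.mapDomain_single,
          Finsupp.mapDomain_single, Finsupp.mapDomain_single]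
        rfl
    · obtain ⟨n, x⟩ := x
      refine ⟨qsup x ∪ (msup l ∪ msup χ), fun K _ h hh hS => ?_⟩
      obtain ⟨x', rfl⟩ := qf_lift h hh x (fun g hg => hS g (Finset.mem_union_left _ hg))
      refine ⟨_, Submodule.subset_span (Or.inr (Or.inr ⟨⟨n, x'⟩, hyp_lift h hh x' l χ h1 h2 h3 h4
        (fun g hg => hS g (Finset.mem_union_right _ (Finset.mem_union_left _ hg)))
        (fun g hg => hS g (Finset.mem_union_right _ (Finset.mem_union_right _ hg))), rfl⟩)), ?_⟩
      rw [Finsupp.mapDomain_single]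
      rfl
  | zero => exact ⟨∅, fun K _ h _ _ => ⟨0, zero_mem _, Finsupp.mapDomain_zero⟩⟩
  | add y z _ _ hy hz =>
    obtain ⟨S, hS⟩ := hy
    obtain ⟨S', hS'⟩ := hz
    refine ⟨S ∪ S', fun K _ h hh hU => ?_⟩
    obtain ⟨y', hy', e1⟩ := hS K h hh (fun s hs => hU s (Finset.mem_union_left _ hs))
    obtain ⟨z', hz', e2⟩ := hS' K h hh (fun s hs => hU s (Finset.mem_union_right _ hs))
    exact ⟨y' + z', add_mem hy' hz', by rw [Finsupp.mapDomain_add, e1, e2]⟩
  | smul q y _ hy =>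
    obtain ⟨S, hS⟩ := hy
    refine ⟨S, fun K _ h hh hU => ?_⟩
    obtain ⟨y', hy', e1⟩ := hS K h hh hU
    exact ⟨q • y', Submodule.smul_mem _ _ hy', by rw [Finsupp.mapDomain_smul, e1]⟩

theorem fty_L (A : Type) [Ring A] [StarRing A] (ε : ℤˣ) : Fty (lqr A ε) := by
  intro G H _ _ f x hx
  have hx' : LQ.map ε (grMap A f) x = 0 := hx
  obtain ⟨r, rfl⟩ := Submodule.mkQ_surjective (LSpan (MonoidAlgebra A H) ε) x
  have h1 : Finsupp.mapDomain (formsMap ε (grMap A f)) r ∈ LSpan (MonoidAlgebra A G) ε :=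
    (Submodule.Quotient.mk_eq_zero _).mp hx'
  obtain ⟨S, hS⟩ := lrel_lift _ h1
  refine ⟨S, fun K _ g h hgf hh hU => ?_⟩
  obtain ⟨y', hy', e1⟩ := hS K h hh hU
  have h2 : Finsupp.mapDomain (formsMap ε (grMap A g)) r = y' := by
    apply Finsupp.mapDomain_injective (formsMap_inj h hh)
    rw [e1, ← hgf, ← Finsupp.mapDomain_comp, grMap_comp]
    rfl
  have h3 : Finsupp.mapDomain (formsMap ε (grMap A g)) r ∈ LSpan (MonoidAlgebra A K) ε := by
    rw [h2]
    exact hy'
  exact (Submodule.Quotient.mk_eq_zero _).mpr h3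

end Pool.Agent.H417.PL
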