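import Pool.Graph.R_seed8.Y477.IW.KRing

/-!
Elements and matrices over group rings, and subgroups.
-/

set_option autoImplicit false

namespace Pool.Agent.H417.PL

open Pool.Agent.Y483 Pool.Agent.Y477.IW

section Ring

variable {R : Type} [Ring R] {G K : Type} [Group G] [Group K] (h : K →* G)

/-- The map of group rings. -/
noncomputable abbrev gm (R : Type) [Ring R] {G K : Type} [Group G] [Group K] (h : K →* G) :
    MonoidAlgebra R K →ₙ+* MonoidAlgebra R G := grm (NonUnitalRingHom.id R) h

theorem gm_coeff (z : MonoidAlgebra R K) :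
    (gm R h z).coeff = Finsupp.mapDomain h z.coeff := by
  have e := MonoidAlgebra.sum_coeff_single z
  rw [Finsupp.sum] at e
  conv_lhs => rw [← e]
  rw [map_sum]
  have h1 : ∀ (s : Finset K) (f : K → MonoidAlgebra R G),
      (∑ g ∈ s, f g).coeff = ∑ g ∈ s, (f g).coeff := by
    intro s f
    classical
    induction s using Finset.induction_on with
    | empty => rfl
    | insert a s ha ih =>
      rw [Finset.sum_insert ha, Finset.sum_insert ha, ← ih]
      rfl
  rw [h1]
  change _ = Finsupp.sum z.coeff _
  rw [Finsupp.sum]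
  apply Finset.sum_congr rfl
  intro g _
  rw [grm_single]
  rfl

theorem gm_inj (hh : Function.Injective h) : Function.Injective (gm R h) := by
  intro x y hxy
  have h1 := congrArg MonoidAlgebra.coeff hxy
  rw [gm_coeff, gm_coeff] at h1
  have h2 := Finsupp.mapDomain_injective hh h1
  have e1 := MonoidAlgebra.sum_coeff_single x
  have e2 := MonoidAlgebra.sum_coeff_single y
  rw [← e1, ← e2, h2]

theorem gm_lift (x : MonoidAlgebra R G) (hx : ∀ g ∈ x.coeff.support, ∃ k, h k = g) :
    ∃ y, gm R h y = x := by
  choose! k hk using hx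
  refine ⟨∑ g ∈ x.coeff.support, MonoidAlgebra.single (k g) (x.coeff g), ?_⟩
  have e := MonoidAlgebra.sum_coeff_single x
  rw [Finsupp.sum] at e
  conv_rhs => rw [← e]
  rw [map_sum]
  apply Finset.sum_congr rfl
  intro g hg
  rw [grm_single, hk g hg]
  rfl

variable {ι κ : Type} [Fintype ι] [Fintype κ]

open Classical in
/-- The group elements in the entries of a matrix. -/
noncomputable def msup (M : Matrix ι κ (MonoidAlgebra R G)) : Finset G :=
  Finset.univ.biUnion fun i => Finset.univ.biUnion fun j => (M i j).coeff.support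

theorem mat_lift (M : Matrix ι κ (MonoidAlgebra R G)) (hM : ∀ g ∈ msup M, ∃ k, h k = g) :
    ∃ N : Matrix ι κ (MonoidAlgebra R K), N.map (gm R h) = M := by
  classical
  have h1 : ∀ i j, ∃ y, gm R h y = M i j := by
    intro i j
    apply gm_lift
    intro g hg
    apply hM
    unfold msup
    rw [Finset.mem_biUnion]
    refine ⟨i, Finset.mem_univ _, ?_⟩
    rw [Finset.mem_biUnion]
    exact ⟨j, Finset.mem_univ _, hg⟩
  choose y hy using h1
  exact ⟨Matrix.of y, by
    ext i j
    exact congrArg (fun z : MonoidAlgebra R G => z.coeff _) (hy i j)⟩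

theorem mat_inj (hh : Function.Injective h) {M N : Matrix ι κ (MonoidAlgebra R K)}
    (hMN : M.map (gm R h) = N.map (gm R h)) : M = N := by
  apply Matrix.ext
  intro i j
  exact gm_inj h hh (congrFun (congrFun hMN i) j)

theorem gm_one : gm R h 1 = 1 := by
  rw [MonoidAlgebra.one_def, grm_single, map_one]
  rfl

end Ring

end Pool.Agent.H417.PL
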