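import Pool.Agent.H417.PL.Tel

/-!
Decomposition of the transfer along a pair with respect to an invariant function.
-/

set_option autoImplicit false

namespace Pool.Agent.H417.PL

open Finsupp Pool.Agent.Y483 Pool.Agent.T6.H32.NC

section Split

variable {G A K Ω : Type} [Group G] [Group K] (κ : FinPair G A K) (w : A → Ω)
  (hw : ∀ g a, w (κ.σ g a) = w a)

/-- The restriction of a pair to a fibre of an invariant function. -/
def fib (ω : Ω) : FinPair G {a // w a = ω} K where
  σ := {
    toFun := fun g =>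
      { toFun := fun a => ⟨κ.σ g a.1, (hw g a.1).trans a.2⟩
        invFun := fun a => ⟨(κ.σ g)⁻¹ a.1, by
          have h := hw g ((κ.σ g)⁻¹ a.1)
          rw [perm_apply_inv] at h
          exact h.symm.trans a.2⟩
        left_inv := fun a => Subtype.ext ((κ.σ g).symm_apply_apply a.1)
        right_inv := fun a => Subtype.ext ((κ.σ g).apply_symm_apply a.1) }
    map_one' := by
      ext a
      exact congrArg (fun f : Equiv.Perm A => f a.1) κ.σ.map_one
    map_mul' := fun g h => by
      ext a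
      exact congrArg (fun f : Equiv.Perm A => f a.1) (κ.σ.map_mul g h) }
  c g a := κ.c g a.1
  d g a := κ.d g a.1
  mul_c g h a := κ.mul_c g h a.1
  mul_d g h a := κ.mul_d g h a.1
  fin g := (κ.fin g).preimage (f := fun a : {a // w a = ω} => a.1) Subtype.val_injective.injOn

theorem bv_fib (n : ℕ) (x : Fin n → G) : ∃ F₀ : Finset Ω, ∀ F, F₀ ⊆ F →
    bv κ n x = ∑ ω ∈ F, bv (fib κ w hw ω) n x := by
  classical
  set f : A → T n K ℚ := fun a =>
    (single (fun i => κ.c (x i) ((κ.σ (Fin.partialProd x i.succ))⁻¹ a)) (1 : ℚ) -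
      single (fun i => κ.d (x i) ((κ.σ (Fin.partialProd x i.succ))⁻¹ a)) (1 : ℚ)) with hf
  have hfin : (Function.support f).Finite := by
    refine (dis_finite κ (n + 1) (Fin.partialProd x)).subset ?_
    intro a ha
    by_contra h
    apply ha
    change single _ (1 : ℚ) - single _ (1 : ℚ) = 0
    rw [← hs_partialProd κ.mul_c, ← hs_partialProd κ.mul_d, hs_eq_of_notMem κ n _ a h, sub_self]
  refine ⟨hfin.toFinset.image w, fun F hF => ?_⟩
  have h1 : ∀ ω, bv (fib κ w hw ω) n x = ∑ a ∈ hfin.toFinset.filter (fun a => w a = ω), f a := by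
    intro ω
    have h2 : bv (fib κ w hw ω) n x = ∑ᶠ a : {a // w a = ω}, f a.1 := rfl
    rw [h2, finsum_subtype_eq_finsum_cond]
    exact finsum_mem_eq_sum_filter f {a | w a = ω} hfin
  have h3 : bv κ n x = ∑ a ∈ hfin.toFinset, f a :=
    finsum_eq_sum_of_support_subset f (by rw [Set.Finite.coe_toFinset])
  rw [h3, Finset.sum_congr rfl fun ω _ => h1 ω]
  exact (Finset.sum_fiberwise_of_maps_to
    (fun a ha => hF (Finset.mem_image_of_mem w ha)) f).symm

theorem Fc_fib (n : ℕ) (z : T n G ℚ) : ∃ F₀ : Finset Ω, ∀ F, F₀ ⊆ F →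
    Fc κ n z = ∑ ω ∈ F, Fc (fib κ w hw ω) n z := by
  classical
  induction z using Finsupp.induction_linear with
  | zero => exact ⟨∅, fun F _ => by simp⟩
  | add z z' h h' =>
    obtain ⟨F₀, h₀⟩ := h
    obtain ⟨F₁, h₁⟩ := h'
    refine ⟨F₀ ∪ F₁, fun F hF => ?_⟩
    rw [map_add, h₀ F (Finset.subset_union_left.trans hF),
      h₁ F (Finset.subset_union_right.trans hF), ← Finset.sum_add_distrib]
    apply Finset.sum_congr rfl
    intro ω _
    rw [map_add]
  | single x r =>
    obtain ⟨F₀, h₀⟩ := bv_fib κ w hw n x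
    refine ⟨F₀, fun F hF => ?_⟩
    rw [Fc_single, h₀ F hF, Finset.smul_sum]
    apply Finset.sum_congr rfl
    intro ω _
    rw [Fc_single]

/-- If the transfers along all restrictions vanish, then the transfer vanishes. -/
theorem trH_fib (n : ℕ) (y : HQ n G) (h : ∀ ω, trH (fib κ w hw ω) n y = 0) :
    trH κ n y = 0 := by
  obtain ⟨z, hz⟩ := exists_rpr (Rep.trivial ℚ G ℚ) n y
  rw [(Rpr.trH κ hz).eq_zero_iff]
  obtain ⟨F₀, h₀⟩ := Fc_fib κ w hw n z
  rw [h₀ F₀ subset_rfl]
  apply Submodule.sum_mem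
  intro ω _
  exact (Rpr.trH (fib κ w hw ω) hz).eq_zero_iff.mp (h ω)

end Split

end Pool.Agent.H417.PL
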