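import Pool.Agent.H417.PL.Trans
import Pool.Agent.H417.PL.Split

/-!
The group of the piecewise linear automorphisms which are the identity on the negative elements: the
telescoping formula.
-/

set_option autoImplicit false
set_option linter.unusedSectionVars false

namespace Pool.Agent.H417.PL

open Filter Pool.Agent.Y483 Pool.Agent.T6.H32.NC Finsupp

variable {A P : Type} [AddCommGroup A] [LinearOrder A] [IsOrderedAddMonoid A] [CommGroup P]
  [DistribMulAction P A] [Slopes A P] [Nontrivial A]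

theorem sR_one (a : A) : sR P (1 : A ≃o A) a = 1 := by
  obtain ⟨e, he⟩ := exists_pos' (A := A)
  exact sR_eq (lt_add_of_pos_right a he) (AffOn.one _ _)

theorem sL_one (a : A) : sL P (1 : A ≃o A) a = 1 := by
  obtain ⟨e, he⟩ := exists_pos' (A := A)
  exact sL_eq (sub_lt_self a he) (AffOn.one _ _)

variable (A P) in
/-- The positive elements. -/
abbrev Pos : Type := {a : A // 0 < a}

theorem GP.zero (g : GP A P) : g.1 0 = 0 := g.2.2 0 le_rfl

theorem GP.pos (g : GP A P) {a : A} (ha : 0 < a) : 0 < g.1 a := by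
  have h := g.1.lt_iff_lt.mpr ha
  rwa [GP.zero] at h

/-- The action on the positive elements. -/
def sX : GP A P →* Equiv.Perm (Pos A) where
  toFun g :=
    { toFun := fun a => ⟨g.1 a.1, GP.pos g a.2⟩
      invFun := fun a => ⟨g.1⁻¹ a.1, GP.pos g⁻¹ a.2⟩
      left_inv := fun a => Subtype.ext (inv_app g.1 a.1)
      right_inv := fun a => Subtype.ext (app_inv g.1 a.1) }
  map_one' := rfl
  map_mul' _ _ := rfl

theorem sX_inv (g : GP A P) (a : Pos A) : ((sX g)⁻¹ a).1 = g.1⁻¹ a.1 := rfl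

/-- The cut of an element at a nonnegative point. -/
def cutG (g : GP A P) (a : A) (ha : 0 ≤ a) (p : P) : GP A P :=
  ⟨cut g.1 a p, g.2.1.cut a p, fun x hx => by
    rw [cut_le _ _ _ (hx.trans ha), g.2.2 x hx]⟩

/-- The pair of cocycles given by the cuts. -/
noncomputable def kP (A P : Type) [AddCommGroup A] [LinearOrder A] [IsOrderedAddMonoid A]
    [CommGroup P] [DistribMulAction P A] [Slopes A P] [Nontrivial A] :
    FinPair (GP A P) (Pos A) (GP A P) where
  σ := sX
  c g a := cutG g a.1 a.2.le (sR P g.1 a.1)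
  d g a := cutG g a.1 a.2.le (sL P g.1 a.1)
  mul_c g h a := by
    apply Subtype.ext
    change cut (g.1 * h.1) a.1 (sR P (g.1 * h.1) a.1) = _
    rw [sR_mul g.2.1 h.2.1, cut_mul]
    rfl
  mul_d g h a := by
    apply Subtype.ext
    change cut (g.1 * h.1) a.1 (sL P (g.1 * h.1) a.1) = _
    rw [sL_mul g.2.1 h.2.1, cut_mul]
    rfl
  fin g := by
    obtain ⟨F, hF⟩ := g.2.1
    refine (F.finite_toSet.preimage (f := (fun a : Pos A => a.1))
      Subtype.val_injective.injOn).subset ?_
    intro a ha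
    by_contra h
    apply ha
    rw [s_eq hF (fun h' => h h')]

/-- The maps which are linear to the right of `a`. -/
def lam0 (a : A) (ha : 0 ≤ a) : P →* GP A P where
  toFun p := cutG 1 a ha p
  map_one' := Subtype.ext (cut_one a)
  map_mul' p q := by
    apply Subtype.ext
    change cut (1 : A ≃o A) a (p * q) = cut 1 a p * cut 1 a q
    have h := cut_mul (1 : A ≃o A) 1 a p q
    rw [mul_one] at h
    exact h

/-- The slope at zero. -/
noncomputable def g0 : GP A P →* P where
  toFun g := sR P g.1 0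
  map_one' := sR_one 0
  map_mul' g h := by
    change sR P (g.1 * h.1) 0 = _
    rw [sR_mul g.2.1 h.2.1, GP.zero]

/-- The endomorphism given by the germ at zero. -/
noncomputable def rho0 : GP A P →* GP A P := (lam0 0 le_rfl).comp g0

theorem lab_c (g : GP A P) (a : Pos A) : (lab (kP A P).σ (kP A P).c g a).1 =
    cut g.1 (g.1⁻¹ a.1) (sR P g.1 (g.1⁻¹ a.1)) := rfl

theorem lab_d (g : GP A P) (a : Pos A) : (lab (kP A P).σ (kP A P).d g a).1 =
    cut g.1 (g.1⁻¹ a.1) (sL P g.1 (g.1⁻¹ a.1)) := rfl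

theorem tele_kP : Tele (kP A P) rho0 where
  top a := by
    obtain ⟨e, he⟩ := exists_pos' (A := A)
    exact ⟨⟨a.1 + e, add_pos a.2 he⟩, Subtype.coe_lt_coe.mp (lt_add_of_pos_right _ he)⟩
  tel g := by
    classical
    obtain ⟨F, hF⟩ := g.2.1
    -- the images of the positive breaks
    have hpos : ∀ z : {z // z ∈ F.filter (0 < ·)}, 0 < g.1 z.1 := fun z =>
      GP.pos g (Finset.mem_filter.mp z.2).2
    set F' : Finset (Pos A) := (F.filter (0 < ·)).attach.image
      (fun z => (⟨g.1 z.1, hpos z⟩ : Pos A)) with hF'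
    have hmem : ∀ z ∈ F, (hz : 0 < z) → (⟨g.1 z, GP.pos g hz⟩ : Pos A) ∈ F' := by
      intro z hz hz0
      rw [hF', Finset.mem_image]
      exact ⟨⟨z, Finset.mem_filter.mpr ⟨hz, hz0⟩⟩, Finset.mem_attach _ _, rfl⟩
    have hginv : ∀ a : Pos A, 0 < g.1⁻¹ a.1 := fun a => GP.pos g⁻¹ a.2
    refine ⟨F', ?_, ?_, ?_, ?_⟩
    · intro a b hab hc
      have h1 : g.1⁻¹ a.1 < g.1⁻¹ b.1 := (g.1⁻¹).lt_iff_lt.mpr hab
      obtain ⟨p, hp⟩ := hF _ _ h1 (fun z hz => by
        rcases le_or_gt z 0 with h0 | h0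
        · exact Or.inl (h0.trans (hginv a).le)
        · rcases hc _ (hmem z hz h0) with h2 | h2
          · exact Or.inl ((le_inv_iff g.1 a.1 z).mpr h2)
          · exact Or.inr ((inv_le_iff g.1 b.1 z).mpr h2))
      apply Subtype.ext
      rw [lab_c, lab_d, sR_eq h1 hp, sL_eq h1 hp]
      exact cut_eq h1.le hp
    · intro a hc
      have h1 : (0 : A) < g.1⁻¹ a.1 := hginv a
      obtain ⟨p, hp⟩ := hF _ _ h1 (fun z hz => by
        rcases le_or_gt z 0 with h0 | h0
        · exact Or.inl h0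
        · exact Or.inr ((inv_le_iff g.1 a.1 z).mpr (hc _ (hmem z hz h0))))
      apply Subtype.ext
      rw [lab_d, sL_eq h1 hp]
      change _ = cut (1 : A ≃o A) 0 (sR P g.1 0)
      rw [sR_eq h1 hp, ← cut_eq h1.le hp]
      ext x
      rcases le_total x 0 with hx | hx
      · rw [cut_le _ _ _ hx, cut_le _ _ _ hx, g.2.2 x hx]
        rfl
      · rw [cut_ge _ _ _ hx, cut_ge _ _ _ hx, GP.zero]
        rfl
    · intro a hc
      obtain ⟨N, hN0, hN⟩ := exists_ub (F.filter (· < g.1⁻¹ a.1)) 0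
      -- all breaks are smaller than `g⁻¹ a`
      have hlt : ∀ z ∈ F, z < g.1⁻¹ a.1 := by
        intro z hz
        rcases le_or_gt z 0 with h0 | h0
        · exact h0.trans_lt (hginv a)
        · have h2 := hc _ (hmem z hz h0)
          rw [← g.1.lt_iff_lt, app_inv]
          exact h2
      obtain ⟨b, hb, hb2⟩ := gap_left F (g.1⁻¹ a.1)
      have hb3 : ∀ z ∈ F, z ≤ b := fun z hz => by
        rcases hb2 z hz with h | h
        · exact h
        · exact absurd (hlt z hz) (not_lt.mpr h)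
      obtain ⟨p, hp⟩ := aff_beyond hF b hb3
      apply Subtype.ext
      rw [lab_d, sL_eq hb (hp _)]
      apply cut_self
      intro x hx
      exact ((hp x).sub hb.le le_rfl) x hx le_rfl
    · intro a ha
      apply Subtype.ext
      rw [lab_c, lab_d]
      have h1 : g.1⁻¹ a.1 ∉ F := by
        intro h
        apply ha
        have h2 := hmem _ h (hginv a)
        have e : (⟨g.1 (g.1⁻¹ a.1), GP.pos g (hginv a)⟩ : Pos A) = a :=
          Subtype.ext (app_inv g.1 a.1)
        rwa [e] at h2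
      rw [s_eq hF h1]

instance : Nonempty (Pos A) := by
  obtain ⟨e, he⟩ := exists_pos' (A := A)
  exact ⟨⟨e, he⟩⟩

/-- The group of the elements which fix `e` and are linear to the right of `e`. -/
def SS (e : A) : Subgroup (GP A P) where
  carrier := {h | h.1 e = e ∧ ∃ p : P, ∀ x, e ≤ x → h.1 x = e + p • (x - e)}
  one_mem' := ⟨rfl, 1, fun x _ => by
    change x = _
    rw [one_smul]
    abel⟩
  mul_mem' := fun {g h} hg hh => by
    obtain ⟨hg1, p, hp⟩ := hg
    obtain ⟨hh1, q, hq⟩ := hh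
    refine ⟨?_, p * q, fun x hx => ?_⟩
    · change g.1 (h.1 e) = e
      rw [hh1, hg1]
    · change g.1 (h.1 x) = _
      have h1 : e ≤ h.1 x := by
        have h2 := h.1.monotone hx
        rwa [hh1] at h2
      rw [hp _ h1, hq x hx, add_sub_cancel_left, mul_smul]
  inv_mem' := fun {g} hg => by
    obtain ⟨hg1, p, hp⟩ := hg
    have h0 : g.1⁻¹ e = e := by
      conv_lhs => rw [← hg1]
      exact inv_app g.1 e
    refine ⟨h0, p⁻¹, fun x hx => ?_⟩
    change g.1⁻¹ x = _
    have h1 : e ≤ g.1⁻¹ x := by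
      have h2 := (g.1⁻¹).monotone hx
      rwa [h0] at h2
    have h2 := hp _ h1
    rw [app_inv] at h2
    have h3 : x - e = p • (g.1⁻¹ x - e) := sub_eq_iff_eq_add'.mpr h2
    rw [h3, inv_smul_smul]
    abel

/-- The coset of a positive element. -/
def ww (A P : Type) [AddCommGroup A] [LinearOrder A] [CommGroup P] [DistribMulAction P A]
    (a : Pos A) : A ⧸ IPA A P := QuotientAddGroup.mk a.1

theorem ww_eq {a b : Pos A} (h : a.1 - b.1 ∈ IPA A P) : ww A P a = ww A P b := by
  apply QuotientAddGroup.eq.mpr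
  have h1 := neg_mem h
  rwa [neg_sub, sub_eq_neg_add] at h1

theorem ww_mem {a b : Pos A} (h : ww A P a = ww A P b) : a.1 - b.1 ∈ IPA A P := by
  have h1 := QuotientAddGroup.eq.mp h
  have h2 := neg_mem h1
  rwa [neg_add, neg_neg, ← sub_eq_add_neg] at h2

theorem ww_sX (g : GP A P) (a : Pos A) : ww A P (sX g a) = ww A P a := ww_eq (GP.diff g.2 a.1)

/-- The positive elements of the coset of `e`. -/
abbrev XX (A P : Type) [AddCommGroup A] [LinearOrder A] [CommGroup P] [DistribMulAction P A]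
    (e : Pos A) : Type := {a : Pos A // ww A P a = ww A P e}

section Good

variable {r : P} (hr : Arch A r) (e : Pos A)

/-- Elements which move `e` to `a`. -/
noncomputable def nn (a : XX A P e) : GP A P :=
  ⟨(exists_n hr e.2 a.1.2 (ww_mem a.2)).choose, (exists_n hr e.2 a.1.2 (ww_mem a.2)).choose_spec.1⟩

theorem nn_e (a : XX A P e) : (nn hr e a).1 e.1 = a.1.1 :=
  (exists_n hr e.2 a.1.2 (ww_mem a.2)).choose_spec.2.1

theorem nn_ge (a : XX A P e) {x : A} (hx : e.1 ≤ x) : (nn hr e a).1 x = a.1.1 + (x - e.1) :=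
  (exists_n hr e.2 a.1.2 (ww_mem a.2)).choose_spec.2.2 x hx

theorem nn_inv_ge (a : XX A P e) {x : A} (hx : 0 ≤ x) :
    (nn hr e a).1⁻¹ (a.1.1 + x) = e.1 + x := by
  have h1 := nn_ge hr e a (le_add_of_nonneg_right hx : e.1 ≤ e.1 + x)
  rw [add_sub_cancel_left] at h1
  rw [← h1]
  exact inv_app _ _

/-- The pair of the cuts at the points of the coset of `e`. -/
noncomputable def kF : FinPair (GP A P) (XX A P e) (GP A P) :=
  fib (kP A P) (ww A P) ww_sX (ww A P e)

theorem conj_mem (g : GP A P) (a : XX A P e) (p : P) :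
    (nn hr e ((kF e).σ g a))⁻¹ * cutG g a.1.1 a.1.2.le p * nn hr e a ∈ SS (P := P) e.1 := by
  have key : ∀ x, e.1 ≤ x →
      ((nn hr e ((kF e).σ g a))⁻¹ * cutG g a.1.1 a.1.2.le p * nn hr e a).1 x =
      e.1 + p • (x - e.1) := by
    intro x hx
    have h0 := smul_le p (sub_nonneg.mpr hx)
    rw [smul_zero] at h0
    change (nn hr e ((kF e).σ g a)).1⁻¹ (cut g.1 a.1.1 p ((nn hr e a).1 x)) = _
    rw [nn_ge hr e a hx, cut_ge _ _ _ (le_add_of_nonneg_right (sub_nonneg.mpr hx)),
      add_sub_cancel_left]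
    exact nn_inv_ge hr e ((kF e).σ g a) h0
  refine ⟨?_, p, key⟩
  rw [key e.1 le_rfl, sub_self, smul_zero, add_zero]

/-- The pair of cocycles with values in the group `SS`. -/
noncomputable def kS : FinPair (GP A P) (XX A P e) (SS (P := P) e.1) where
  σ := (kF e).σ
  c g a := ⟨_, conj_mem hr e g a (sR P g.1 a.1.1)⟩
  d g a := ⟨_, conj_mem hr e g a (sL P g.1 a.1.1)⟩
  mul_c g h a := Subtype.ext ((twist (kF e) (nn hr e)).mul_c g h a)
  mul_d g h a := Subtype.ext ((twist (kF e) (nn hr e)).mul_d g h a)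
  fin g := by
    refine ((twist (kF e) (nn hr e)).fin g).subset ?_
    intro a ha h
    exact ha (Subtype.ext h)

theorem kS_tr (q : ℕ) (y : HQ q (GP A P)) :
    hqMap (SS (P := P) e.1).subtype q (trH (kS hr e) q y) = trH (kF e) q y := by
  rw [← trH_compL]
  have h : compL (kS hr e) (SS (P := P) e.1).subtype = twist (kF e) (nn hr e) := rfl
  rw [h, trH_twist]

/-- **The telescoping formula.** -/
theorem tel_zero (q : ℕ) (y : HQ q (GP A P)) (h : ∀ e, trH (kS hr e) q y = 0)
    (h0 : hqMap (g0 (A := A) (P := P)) q y = 0) : y = 0 := by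
  have h1 : trH (kP A P) q y = 0 := by
    apply trH_fib (kP A P) (ww A P) ww_sX
    intro ω
    obtain ⟨x, rfl⟩ := QuotientAddGroup.mk_surjective ω
    obtain ⟨s, hs⟩ := exists_pos' (A := A)
    obtain ⟨y₀, hy0, -, hy2⟩ := hr.dense x hs
    have h2 : (QuotientAddGroup.mk x : A ⧸ IPA A P) = ww A P ⟨y₀, hy0⟩ := by
      apply QuotientAddGroup.eq.mpr
      rwa [sub_eq_neg_add] at hy2
    rw [h2]
    have h3 := kS_tr hr ⟨y₀, hy0⟩ q y
    rw [h, map_zero] at h3
    exact h3.symm
  rw [tele_kP.trH] at h1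
  have h2 : hqMap (rho0 (A := A) (P := P)) q y = 0 := by
    have e1 : (rho0 (A := A) (P := P)) = (lam0 0 le_rfl).comp g0 := rfl
    rw [e1, hqMap_comp, h0, map_zero]
  rwa [h2, sub_zero] at h1

end Good

end Pool.Agent.H417.PL
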