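import Pool.Agent.H417.PL.Wt

/-!
Subgroups into which every finite subset can be conjugated, fixing a given finite subset.
-/

set_option autoImplicit false

namespace Pool.Agent.H417.PL

open Finsupp Pool.Agent.Y483 Pool.Agent.R942.NV

section Loc

variable {N K : Type} [Group N] [Group K]

open Classical in
/-- The inverse image of the conjugates. -/
noncomputable def lft (j : N →* K) (k : K) (g : K) : N :=
  if h : ∃ s, j s = k * g * k⁻¹ then h.choose else 1

theorem lft_spec (j : N →* K) (k g : K) (h : ∃ s, j s = k * g * k⁻¹) :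
    j (lft j k g) = k * g * k⁻¹ := by
  unfold lft
  rw [dif_pos h]
  exact h.choose_spec

variable (j : N →* K) (hj : Function.Injective j)
  (h : ∀ (S : Finset N) (T : Finset K), ∃ k : K, (∀ t ∈ T, ∃ s, j s = k * t * k⁻¹) ∧
    ∀ s ∈ S, k * j s * k⁻¹ = j s)

include hj h in
theorem loc_bij (n : ℕ) : Function.Bijective (hqMap j n) := by
  classical
  constructor
  · rw [injective_iff_map_eq_zero]
    intro x hx
    obtain ⟨z, hz⟩ := exists_rpr (Rep.trivial ℚ N ℚ) n x
    rw [hz.eq_zero_iff]
    obtain ⟨w, hw⟩ := (hz.hq j).eq_zero_iff.mp hx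
    obtain ⟨k, hk1, hk2⟩ := h (entries z) (entries w)
    set w' := mp (n + 1) (lft j k) LinearMap.id w with hw'
    have h1 : mp (n + 1) j LinearMap.id w' = mp (n + 1) (MulAut.conj k).toMonoidHom LinearMap.id
        w := by
      rw [hw', mp_mp]
      apply mp_congr
      intro x hx i
      exact lft_spec j k _ (hk1 _ (mem_entries w x hx i))
    have h2 : mp n (MulAut.conj k).toMonoidHom LinearMap.id (mp n j LinearMap.id z) =
        mp n j LinearMap.id z := by
      rw [mp_mp]
      apply mp_congr
      intro x hx i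
      exact hk2 _ (mem_entries z x hx i)
    refine ⟨w', ?_⟩
    apply mp_injective (M := ℚ) n hj (φ := LinearMap.id) (fun _ _ h => h)
    have h3 : mp n j LinearMap.id (dd (tQ N) n w') = dd (tQ K) n (mp (n + 1) j LinearMap.id w') :=
      (dd_mp (ρ := tQ N) (τ := tQ K) j LinearMap.id (fun _ _ => rfl) n w').symm
    have h4 : mp n (MulAut.conj k).toMonoidHom LinearMap.id (dd (tQ K) n w) =
        dd (tQ K) n (mp (n + 1) (MulAut.conj k).toMonoidHom LinearMap.id w) :=
      (dd_mp (ρ := tQ K) (τ := tQ K) (MulAut.conj k).toMonoidHom LinearMap.id (fun _ _ => rfl) n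
        w).symm
    change mp n j LinearMap.id (dd (tQ N) n w') = mp n j LinearMap.id z
    rw [h3, h1, ← h4]
    have h5 : dd (tQ K) n w = mp n j LinearMap.id z := hw
    rw [h5, h2]
  · intro x
    obtain ⟨z, hz⟩ := exists_rpr (Rep.trivial ℚ K ℚ) n x
    obtain ⟨k, hk1, -⟩ := h ∅ (entries z)
    set z' := mp n (lft j k) LinearMap.id z with hz'
    have h1 : mp n j LinearMap.id z' = mp n (MulAut.conj k).toMonoidHom LinearMap.id z := by
      rw [hz', mp_mp]
      apply mp_congr
      intro x hx i
      exact lft_spec j k _ (hk1 _ (mem_entries z x hx i))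
    have h2 : Cyc (tQ K) n (mp n j LinearMap.id z') := by
      rw [h1]
      exact cyc_mp (ρ := tQ K) (τ := tQ K) (MulAut.conj k).toMonoidHom LinearMap.id
        (fun _ _ => rfl) n z hz.cyc
    have h3 : Cyc (tQ N) n z' := cyc_of_mp (ρ := tQ N) (τ := tQ K) j LinearMap.id
      (fun _ _ => rfl) hj (fun _ _ h => h) n z' h2
    obtain ⟨x', hx'⟩ := exists_class (A := Rep.trivial ℚ N ℚ) n z' h3
    refine ⟨x', ?_⟩
    have h4 := (hx'.hq j).sub (hz.hq (conjHom (MonoidHom.id K) k))
    rw [hqMap_conj, hqMap_id] at h4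
    have h5 : mp n j LinearMap.id z' - mp n (conjHom (MonoidHom.id K) k) LinearMap.id z = 0 := by
      rw [h1]
      exact sub_self _
    rw [h5] at h4
    exact sub_eq_zero.mp (h4.eq_zero_iff.mpr (Submodule.zero_mem _))

end Loc

end Pool.Agent.H417.PL
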