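import Pool.Agent.H417.PL.Van
import Pool.Graph.R_pool_sql_team_seeded_620a6dc7.H651_Nov.Ext

/-!
Let `Q` be a quotient of `G` by a subgroup on which `G` acts locally by inner automorphisms, and let
`P` be a subgroup of `Q` with the same rational homology. Then the rational homology of the inverse
image of `P` in `G` injects in that of `G`.
-/

set_option autoImplicit false

namespace Pool.Agent.H417.PL

open Finsupp Pool.Agent.Y483 Pool.Agent.R942.NV Pool.Agent.H651.Nov

section JJ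

variable {A : Type}

/-- The kernel of the sum of the coefficients. -/
noncomputable abbrev JJ (A : Type) := LinearMap.ker (sumC A)

variable {Q : Type} [Group Q]

/-- The representation on the kernel of the sum of the coefficients. -/
noncomputable def jRep (σ : Q →* Equiv.Perm A) : Representation ℚ Q (JJ A) where
  toFun g := (permRep σ g).restrict (fun p hp => by
    rw [LinearMap.mem_ker] at *
    rw [sumC_permRep, hp])
  map_one' := by
    apply LinearMap.ext
    intro p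
    apply Subtype.ext
    simp
  map_mul' g h := by
    apply LinearMap.ext
    intro p
    apply Subtype.ext
    simp

/-- The retraction. -/
noncomputable def jretr (a₀ : A) : (A →₀ ℚ) →ₗ[ℚ] JJ A :=
  LinearMap.codRestrict (JJ A) (LinearMap.id - (lsingle a₀) ∘ₗ (sumC A)) (fun p => by
    rw [LinearMap.mem_ker, LinearMap.sub_apply, map_sub, LinearMap.comp_apply, lsingle_apply,
      sumC_single, LinearMap.id_apply, sub_self])

theorem lift_J {X : Type} (a₀ : A) (n : ℕ) (z : T n X (A →₀ ℚ)) (hz : mp n id (sumC A) z = 0) :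
    mp n id (JJ A).subtype (mp n id (jretr a₀) z) = z := by
  have h : mp n id ((JJ A).subtype) ∘ₗ mp n id (jretr a₀) =
      (LinearMap.id : T n X (A →₀ ℚ) →ₗ[ℚ] _) -
        (mp n id (lsingle a₀)) ∘ₗ (mp n id (sumC A)) := by
    apply T_ext
    intro x p
    rw [LinearMap.comp_apply, mp_single, mp_single, LinearMap.sub_apply, LinearMap.comp_apply,
      mp_single, mp_single, LinearMap.id_apply]
    change single x (p - single a₀ (sumC A p)) = _
    rw [single_sub]
    rfl
  have h2 := DFunLike.congr_fun h z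
  rw [LinearMap.comp_apply, LinearMap.sub_apply, LinearMap.comp_apply, hz, map_zero, sub_zero,
    LinearMap.id_apply] at h2
  exact h2

theorem sum_sub {X : Type} (n : ℕ) (y : T n X (JJ A)) :
    mp n id (sumC A) (mp n id (JJ A).subtype y) = 0 := by
  rw [mp_mp]
  have e : (sumC A) ∘ₗ (JJ A).subtype = 0 := by
    apply LinearMap.ext
    intro p
    exact p.2
  rw [e]
  exact mp_zero_coef _ _ _

theorem sum_lsingle (a₀ : A) : (sumC A) ∘ₗ (lsingle a₀) = LinearMap.id := by
  apply LinearMap.ext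
  intro r
  simp

variable {P : Type} [Group P]

/-- The homology of `Q` with coefficients in `JJ A` vanishes. -/
theorem jvan (σ : Q →* Equiv.Perm A) (a₀ : A) (ht : ∀ a, ∃ h, σ h a₀ = a) (j : P →* Q)
    (hj : Function.Injective j) (hstab : ∀ k, σ (j k) a₀ = a₀)
    (hex : ∀ h, σ h a₀ = a₀ → ∃ k, j k = h) (hb : ∀ n, Function.Bijective (hqMap j n))
    (k : ℕ) (y : T k Q (JJ A)) (hy : Cyc (jRep σ) k y) :
    y ∈ LinearMap.range (dd (jRep σ) k) := by
  have hsum : ∀ g m, sumC A (permRep σ g m) = trivR Q ℚ g (sumC A m) := by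
    intro g m
    rw [sumC_permRep]
    rfl
  have hsingle : ∀ (g : P) (m : ℚ), (lsingle a₀ : ℚ →ₗ[ℚ] (A →₀ ℚ)) (trivR P ℚ g m) =
      permRep σ (j g) ((lsingle a₀ : ℚ →ₗ[ℚ] (A →₀ ℚ)) m) := by
    intro g m
    rw [lsingle_apply, lsingle_apply, permRep_single, hstab]
    rfl
  have h1 : Cyc (permRep σ) k (mp k id (JJ A).subtype y) :=
    cyc_id (ρ := jRep σ) (τ := permRep σ) (JJ A).subtype (fun g p => rfl) k y hy
  obtain ⟨z, hz, hz2⟩ := shapiro σ a₀ ht j hj hstab hex (trivR P ℚ) (fun _ => rfl) k _ h1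
  have h2 := range_id (ρ := permRep σ) (τ := trivR Q ℚ) (sumC A) hsum k _ hz2
  rw [map_sub, sum_sub, zero_sub, mp_mp, sum_lsingle] at h2
  have h3 : mp k j LinearMap.id z ∈ LinearMap.range (dd (trivR Q ℚ) k) := by
    have h4 := Submodule.neg_mem _ h2
    rw [neg_neg] at h4
    exact h4
  have h4 := in_of_hq j k (hb k).1 z hz h3
  have h5 := range_mp (ρ := trivR P ℚ) (τ := permRep σ) j (lsingle a₀) hsingle k z h4
  have h6 := Submodule.add_mem _ hz2 h5
  rw [sub_add_cancel] at h6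
  obtain ⟨u, hu⟩ := h6
  have h7 : Cyc (trivR Q ℚ) (k + 1) (mp (k + 1) id (sumC A) u) := by
    rw [cyc_succ, dd_id (ρ := permRep σ) (τ := trivR Q ℚ) (sumC A) hsum, hu, sum_sub]
  obtain ⟨z', hz', v, hv⟩ := sur_of_hq j (k + 1) (hb (k + 1)).2 _ h7
  set u2 := u - mp (k + 1) j (lsingle a₀) z' -
    dd (permRep σ) (k + 1) (mp (k + 2) id (lsingle a₀) v) with hu2
  have h8 : mp (k + 1) id (sumC A) u2 = 0 := by
    rw [hu2, map_sub, map_sub, ← dd_id (ρ := permRep σ) (τ := trivR Q ℚ) (sumC A) hsum, mp_mp,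
      mp_mp, sum_lsingle]
    have e : mp (k + 2) ((id : Q → Q) ∘ id) (LinearMap.id : ℚ →ₗ[ℚ] ℚ) v = v := mp_id _ _
    rw [e, hv]
    exact sub_self _
  have h9 := lift_J a₀ (k + 1) u2 h8
  refine ⟨mp (k + 1) id (jretr a₀) u2, ?_⟩
  apply mp_injective (M := JJ A) k (f := (id : Q → Q)) (fun _ _ h => h)
    (φ := (JJ A).subtype) (Subtype.val_injective)
  rw [← dd_id (ρ := jRep σ) (τ := permRep σ) (JJ A).subtype (fun g p => rfl), h9, hu2, map_sub,
    map_sub, dd_dd, sub_zero, hu, dd_mp (ρ := trivR P ℚ) (τ := permRep σ) j (lsingle a₀) hsingle,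
    (cyc_succ _ _ _).mp hz', map_zero, sub_zero]

end JJ

section Pull

variable {G N Q A P Λ : Type} [Group G] [Group N] [Group Q] [Group P] [Group Λ]

/-- **The inverse image of a subgroup with the same rational homology.** -/
theorem pull_inj (π : G →* Q) (i : N →* G) (hπ : Function.Surjective π)
    (hi : Function.Injective i) (hk : ∀ k, π (i k) = 1) (hx : ∀ g, π g = 1 → ∃ k, i k = g)
    (hl : LocInner i) (σ : Q →* Equiv.Perm A) (a₀ : A) (ht : ∀ a, ∃ h, σ h a₀ = a) (j : P →* Q)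
    (hj : Function.Injective j) (hstab : ∀ k, σ (j k) a₀ = a₀)
    (hex : ∀ h, σ h a₀ = a₀ → ∃ k, j k = h) (hb : ∀ n, Function.Bijective (hqMap j n))
    (f : Λ →* G) (hf : Function.Injective f) (hfs : ∀ l, σ (π (f l)) a₀ = a₀)
    (hfx : ∀ g, σ (π g) a₀ = a₀ → ∃ l, f l = g) (n : ℕ) : Function.Injective (hqMap f n) := by
  rw [injective_iff_map_eq_zero]
  intro x hx0
  obtain ⟨z, hz⟩ := exists_rpr (Rep.trivial ℚ Λ ℚ) n x
  rw [hz.eq_zero_iff]
  obtain ⟨w, hw⟩ := (hz.hq f).eq_zero_iff.mp hx0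
  have hsum : ∀ g m, sumC A ((permRep (σ.comp π)) g m) = trivR G ℚ g (sumC A m) := by
    intro g m
    rw [sumC_permRep]
    rfl
  have hsingle : ∀ (g : Λ) (m : ℚ), (lsingle a₀ : ℚ →ₗ[ℚ] (A →₀ ℚ)) (trivR Λ ℚ g m) =
      permRep (σ.comp π) (f g) ((lsingle a₀ : ℚ →ₗ[ℚ] (A →₀ ℚ)) m) := by
    intro g m
    have e := hfs g
    rw [lsingle_apply, lsingle_apply, permRep_single, MonoidHom.comp_apply, e]
    rfl
  have hjr : ∀ (g : G) (p : JJ A), (JJ A).subtype (((jRep σ).comp π) g p) =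
      permRep (σ.comp π) g ((JJ A).subtype p) := fun _ _ => rfl
  set z1 := mp n f (lsingle a₀) z with hz1
  set w1 := mp (n + 1) (id : G → G) (lsingle a₀) w with hw1
  have hz1c : Cyc (permRep (σ.comp π)) n z1 :=
    cyc_mp (ρ := trivR Λ ℚ) (τ := permRep (σ.comp π)) f (lsingle a₀) hsingle n z hz.cyc
  have h1 : mp n id (sumC A) (z1 - dd (permRep (σ.comp π)) n w1) = 0 := by
    rw [map_sub, ← dd_id (ρ := permRep (σ.comp π)) (τ := trivR G ℚ) (sumC A) hsum, hz1, hw1, mp_mp,
      mp_mp, sum_lsingle]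
    have e : mp (n + 1) ((id : G → G) ∘ id) (LinearMap.id : ℚ →ₗ[ℚ] ℚ) w = w := mp_id _ _
    rw [e]
    change mp n f LinearMap.id z - dd (tQ G) n w = 0
    have hw' : dd (tQ G) n w = mp n f LinearMap.id z := hw
    rw [hw', sub_self]
  have h2 := lift_J a₀ n _ h1
  have hδ : Cyc (permRep (σ.comp π)) n (z1 - dd (permRep (σ.comp π)) n w1) :=
    cyc_sub hz1c (cyc_dd _ _ _)
  have h3 : Cyc ((jRep σ).comp π) n (mp n id (jretr a₀) (z1 - dd (permRep (σ.comp π)) n w1)) := by
    apply cyc_of_mp (τ := permRep (σ.comp π)) (MonoidHom.id G) (JJ A).subtype hjr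
      (fun _ _ h => h) Subtype.val_injective
    have h4 : mp n (MonoidHom.id G) (JJ A).subtype
      (mp n id (jretr a₀) (z1 - dd (permRep (σ.comp π)) n w1)) =
        z1 - dd (permRep (σ.comp π)) n w1 := h2
    rw [h4]
    exact hδ
  have hv := jvan σ a₀ ht j hj hstab hex hb
  have h4 := vanish π i hπ hi hk hx hl (jRep σ) (fun k y hy => hv (k + 1) y ((cyc_succ _ _ _).mpr hy))
    (fun m => by
      obtain ⟨u, hu⟩ := hv 0 (single default m) (Cyc.zero _ _)
      refine ⟨u, ?_⟩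
      rw [dd_zero_eq] at hu
      exact Finsupp.single_injective _ hu) n _ h3
  have h5 := range_id (ρ := (jRep σ).comp π) (τ := permRep (σ.comp π)) (JJ A).subtype hjr n _ h4
  rw [h2] at h5
  have h6 := Submodule.add_mem _ h5 ⟨w1, rfl⟩
  rw [sub_add_cancel] at h6
  exact shapiro_inj (σ.comp π) a₀ (fun a => by
    obtain ⟨h, hh⟩ := ht a
    obtain ⟨g, rfl⟩ := hπ h
    exact ⟨g, hh⟩) f hf hfs hfx n z h6

end Pull

end Pool.Agent.H417.PL
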