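import Pool.Agent.H417.PL.Grp
import Pool.Agent.H417.PL.Pull
import Pool.Agent.H417.PL.Loc

/-!
The subgroup of the elements which are trivial near infinity injects on rational homology.
-/

set_option autoImplicit false
set_option linter.unusedSectionVars false

namespace Pool.Agent.H417.PL

open Filter Pool.Agent.Y483 Pool.Agent.T6.H32.NC Finsupp

variable {A P : Type} [AddCommGroup A] [LinearOrder A] [IsOrderedAddMonoid A] [CommGroup P]
  [DistribMulAction P A] [Slopes A P] [Nontrivial A]

/-- An element which is trivial before `t` commutes with an element which is trivial beyond `t`. -/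
theorem comm_of {a b : A ≃o A} (t : A) (ha : ∀ x ≤ t, a x = x) (hb : ∀ x, t ≤ x → b x = x) :
    a * b = b * a := by
  ext x
  rw [mul_app, mul_app]
  rcases le_total x t with hx | hx
  · have h1 : b x ≤ t := by
      have h2 := b.monotone hx
      rwa [hb t le_rfl] at h2
    rw [ha x hx, ha _ h1]
  · have h1 : t ≤ a x := by
      have h2 := a.monotone hx
      rwa [ha t le_rfl] at h2
    rw [hb x hx, hb _ h1]

theorem conj_of {a b : A ≃o A} (t : A) (ha : ∀ x ≤ t, a x = x) (hb : ∀ x, t ≤ x → b x = x) :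
    a * b * a⁻¹ = b := by
  rw [comm_of t ha hb, mul_inv_cancel_right]

variable (A P) in
/-- The germ at infinity. -/
noncomputable def gI : GP A P →* Af A P where
  toFun g := g.2.1.germ_top.choose
  map_one' := Germ.unique_top ((1 : GP A P).2.1.germ_top.choose_spec) (Germ.one _)
  map_mul' g h := Germ.unique_top ((g * h).2.1.germ_top.choose_spec)
    (Germ.mul h.1.tendsto_atTop g.2.1.germ_top.choose_spec h.2.1.germ_top.choose_spec)

theorem gI_spec (g : GP A P) : ∃ N, ∀ x, N ≤ x → g.1 x = aff (gI A P g) x :=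
  eventually_atTop.mp g.2.1.germ_top.choose_spec

theorem gI_eq {g : GP A P} {α : Af A P} {N : A} (h : ∀ x, N ≤ x → g.1 x = aff α x) :
    gI A P g = α :=
  Germ.unique_top g.2.1.germ_top.choose_spec (eventually_atTop.mpr ⟨N, h⟩)

variable (A P) in
/-- The elements which are trivial near infinity. -/
noncomputable def KK : Subgroup (GP A P) := (gI A P).ker

theorem mem_KK {g : GP A P} : g ∈ KK A P ↔ ∃ N, ∀ x, N ≤ x → g.1 x = x := by
  constructor
  · intro h
    obtain ⟨N, hN⟩ := gI_spec g
    have h1 : gI A P g = 1 := h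
    rw [h1, map_one] at hN
    exact ⟨N, hN⟩
  · rintro ⟨N, hN⟩
    change gI A P g = 1
    apply gI_eq (N := N)
    intro x hx
    rw [map_one, hN x hx]
    rfl

variable (A P) in
/-- The elements which are trivial near `e` and beyond. -/
def KE (e : A) : Subgroup (GP A P) where
  carrier := {g | ∃ t, 0 ≤ t ∧ t < e ∧ ∀ x, t ≤ x → g.1 x = x} ∪ {1}
  one_mem' := Or.inr rfl
  mul_mem' := fun {g h} hg hh => by
    rcases hg with hg | hg
    · rcases hh with hh | hh
      · obtain ⟨t, ht0, hte, ht⟩ := hg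
        obtain ⟨s, hs0, hse, hs⟩ := hh
        refine Or.inl ⟨max t s, ht0.trans (le_max_left _ _), max_lt hte hse, fun x hx => ?_⟩
        change g.1 (h.1 x) = x
        rw [hs x ((le_max_right _ _).trans hx), ht x ((le_max_left _ _).trans hx)]
      · have h1 : h = 1 := hh
        rw [h1, mul_one]
        exact Or.inl hg
    · have h1 : g = 1 := hg
      rw [h1, one_mul]
      exact hh
  inv_mem' := fun {g} hg => by
    rcases hg with hg | hg
    · obtain ⟨t, ht0, hte, ht⟩ := hg
      refine Or.inl ⟨t, ht0, hte, fun x hx => ?_⟩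
      change g.1⁻¹ x = x
      conv_lhs => rw [← ht x hx]
      exact inv_app g.1 x
    · have h1 : g = 1 := hg
      rw [h1, inv_one]
      exact Or.inr rfl

theorem mem_KE {e : A} (he : 0 < e) {g : GP A P} :
    g ∈ KE A P e ↔ ∃ t, 0 ≤ t ∧ t < e ∧ ∀ x, t ≤ x → g.1 x = x := by
  constructor
  · rintro (h | h)
    · exact h
    · have h1 : g = 1 := h
      rw [h1]
      exact ⟨0, le_rfl, he, fun _ _ => rfl⟩
  · exact Or.inl

theorem KE_le {e : A} : KE A P e ≤ KK A P := by
  rintro g (h | h)
  · obtain ⟨t, -, -, ht⟩ := h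
    exact mem_KK.mpr ⟨t, ht⟩
  · have h1 : g = 1 := h
    rw [h1]
    exact one_mem _

/-- The inclusion. -/
noncomputable def jE (A P : Type) [AddCommGroup A] [LinearOrder A] [IsOrderedAddMonoid A]
    [CommGroup P] [DistribMulAction P A] [Slopes A P] [Nontrivial A] (e : A) :
    KE A P e →* KK A P := Subgroup.inclusion KE_le

section Good

variable {r : P} (hr : Arch A r) {e : A} (he : 0 < e)

include hr he in
theorem loc_KK : LocInner ((KK A P).subtype) := by
  classical
  intro g S
  have h1 : ∃ T, 0 ≤ T ∧ ∀ s ∈ S, ∀ x, T ≤ x → s.1.1 x = x := by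
    induction S using Finset.induction_on with
    | empty => exact ⟨0, le_rfl, fun s hs => absurd hs (Finset.notMem_empty _)⟩
    | insert s S _ ih =>
      obtain ⟨T, hT0, hT⟩ := ih
      obtain ⟨T', hT'⟩ := mem_KK.mp s.2
      refine ⟨max T T', hT0.trans (le_max_left _ _), fun s' hs' x hx => ?_⟩
      rcases Finset.mem_insert.mp hs' with rfl | h
      · exact hT' x ((le_max_right _ _).trans hx)
      · exact hT s' h x ((le_max_left _ _).trans hx)
  obtain ⟨T, hT0, hT⟩ := h1
  obtain ⟨k, hk, hk2, hk3⟩ := exists_loc hr he g.2 hT0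
  refine ⟨⟨⟨k, hk⟩, mem_KK.mpr hk3⟩, fun s hs => ?_⟩
  apply Subtype.ext
  change g.1 * s.1.1 * g.1⁻¹ = k * s.1.1 * k⁻¹
  have h2 : k⁻¹ * g.1 * s.1.1 = s.1.1 * (k⁻¹ * g.1) := by
    apply comm_of T _ (hT s hs)
    intro x hx
    rw [mul_app, ← hk2 x hx]
    exact inv_app k x
  calc g.1 * s.1.1 * g.1⁻¹ = k * (k⁻¹ * g.1 * s.1.1) * g.1⁻¹ := by group
    _ = k * s.1.1 * k⁻¹ := by
      rw [h2]
      group

theorem gI_b (g : GP A P) : (gI A P g).b ∈ IPA A P := by
  obtain ⟨N, hN⟩ := gI_spec g
  have h1 := hN N le_rfl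
  rw [aff_apply] at h1
  have h2 : (gI A P g).b = (g.1 N - N) - ((gI A P g).p • N - N) := by
    rw [h1]
    abel
  rw [h2]
  exact sub_mem (GP.diff g.2 N) (mem_IPA _ _)

variable (A P) in
/-- The germ at infinity, in the affine group of `IPA`. -/
noncomputable def gB : GP A P →* Af (IPA A P) P where
  toFun g := ⟨⟨(gI A P g).b, gI_b g⟩, (gI A P g).p⟩
  map_one' := Af.ext (Subtype.ext (congrArg Af.b (map_one (gI A P))))
    (congrArg Af.p (map_one (gI A P)) :)
  map_mul' g h := Af.ext (Subtype.ext (congrArg Af.b (map_mul (gI A P) g h)))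
    (congrArg Af.p (map_mul (gI A P) g h) :)

include hr he in
theorem gB_surj : Function.Surjective (gB A P) := by
  intro α
  obtain ⟨g, hg, c, hc⟩ := exists_germ hr e he (⟨α.b.1, α.p⟩ : Af A P) α.b.2
  have h := gI_eq (g := (⟨g, hg⟩ : GP A P)) hc
  exact ⟨⟨g, hg⟩, Af.ext (Subtype.ext (congrArg Af.b h)) (congrArg Af.p h :)⟩

include hr he in
/-- The elements which are trivial near `e` carry the homology. -/
theorem jE_bij (q : ℕ) : Function.Bijective (hqMap (jE A P e) q) := by
  classical
  apply loc_bij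
  · exact Subgroup.inclusion_injective _
  · intro S T
    have h1 : ∃ t, 0 ≤ t ∧ t < e ∧ ∀ s ∈ S, ∀ x, t ≤ x → s.1.1 x = x := by
      induction S using Finset.induction_on with
      | empty => exact ⟨0, le_rfl, he, fun s hs => absurd hs (Finset.notMem_empty _)⟩
      | insert s S _ ih =>
        obtain ⟨t, ht0, hte, ht⟩ := ih
        obtain ⟨t', -, hte', ht'⟩ := (mem_KE he).mp s.2
        refine ⟨max t t', ht0.trans (le_max_left _ _), max_lt hte hte', fun s' hs' x hx => ?_⟩
        rcases Finset.mem_insert.mp hs' with rfl | h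
        · exact ht' x ((le_max_right _ _).trans hx)
        · exact ht s' h x ((le_max_left _ _).trans hx)
    have h2 : ∃ t, ∀ s ∈ T, ∀ x, t ≤ x → s.1.1 x = x := by
      induction T using Finset.induction_on with
      | empty => exact ⟨0, fun s hs => absurd hs (Finset.notMem_empty _)⟩
      | insert s S _ ih =>
        obtain ⟨t, ht⟩ := ih
        obtain ⟨t', ht'⟩ := mem_KK.mp s.2
        refine ⟨max t t', fun s' hs' x hx => ?_⟩
        rcases Finset.mem_insert.mp hs' with rfl | h
        · exact ht' x ((le_max_right _ _).trans hx)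
        · exact ht s' h x ((le_max_left _ _).trans hx)
    obtain ⟨t, ht0, hte, ht⟩ := h1
    obtain ⟨T', hT'⟩ := h2
    obtain ⟨h, hh, hh1, hh2, hh3⟩ := exists_h hr ht0 hte (max T' 0)
    refine ⟨⟨⟨h, hh⟩, mem_KK.mpr hh3⟩, fun s hs => ?_, fun s hs => ?_⟩
    · have h4 : (⟨h, hh⟩ : GP A P) * s.1 * (⟨h, hh⟩ : GP A P)⁻¹ ∈ KE A P e := by
        rw [mem_KE he]
        refine ⟨h (max T' 0), ?_, hh2, fun x hx => ?_⟩
        · have h5 := h.monotone (le_max_right T' 0)
          rwa [hh.2 0 le_rfl] at h5
        · change h (s.1.1 (h⁻¹ x)) = x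
          have h6 : max T' 0 ≤ h⁻¹ x := (le_inv_iff h x _).mpr hx
          rw [hT' s hs _ ((le_max_left _ _).trans h6), app_inv]
      exact ⟨⟨_, h4⟩, rfl⟩
    · apply Subtype.ext
      apply Subtype.ext
      change h * s.1.1 * h⁻¹ = s.1.1
      exact conj_of t hh1 (ht s hs)

end Good

section Lambda

variable (A P) in
/-- The elements whose germ at infinity fixes `e`. -/
noncomputable def LL (e : A) : Subgroup (GP A P) where
  carrier := {g | aff (gI A P g) e = e}
  one_mem' := by
    change aff (gI A P 1) e = e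
    rw [map_one, map_one]
    rfl
  mul_mem' := fun {g h} hg hh => by
    change aff (gI A P (g * h)) e = e
    rw [map_mul, map_mul, mul_app]
    have h1 : aff (gI A P h) e = e := hh
    have h2 : aff (gI A P g) e = e := hg
    rw [h1, h2]
  inv_mem' := fun {g} hg => by
    change aff (gI A P g⁻¹) e = e
    have h2 : aff (gI A P g) e = e := hg
    rw [map_inv, map_inv]
    conv_lhs => rw [← h2]
    exact inv_app _ e

theorem lam0_le (a : A) (ha : 0 ≤ a) (p : P) {x : A} (hx : x ≤ a) : (lam0 a ha p).1 x = x :=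
  cut_le _ _ _ hx

theorem lam0_ge (a : A) (ha : 0 ≤ a) (p : P) {x : A} (hx : a ≤ x) :
    (lam0 a ha p).1 x = a + p • (x - a) := cut_ge _ _ _ hx

variable {e : A} (he : 0 < e)

/-- The product of the elements trivial near `e` and of the maps which are linear to the right of
`e`. -/
noncomputable def fL : KE A P e × P →* LL A P e where
  toFun x := ⟨x.1.1 * lam0 e he.le x.2, by
    obtain ⟨t, ht0, hte, ht⟩ := (mem_KE he).mp x.1.2
    have h1 : gI A P (x.1.1 * lam0 e he.le x.2) = ⟨e - x.2 • e, x.2⟩ := by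
      apply gI_eq (N := e)
      intro y hy
      change x.1.1.1 ((lam0 e he.le x.2).1 y) = _
      rw [lam0_ge e he.le x.2 hy]
      have h2 : e ≤ e + x.2 • (y - e) := by
        have h3 := smul_le x.2 (sub_nonneg.mpr hy)
        rw [smul_zero] at h3
        exact le_add_of_nonneg_right h3
      rw [ht _ (hte.le.trans h2), aff_apply, smul_sub]
      change e + (x.2 • y - x.2 • e) = e - x.2 • e + x.2 • y
      abel
    change aff (gI A P (x.1.1 * lam0 e he.le x.2)) e = e
    rw [h1, aff_apply]
    change e - x.2 • e + x.2 • e = e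
    abel⟩
  map_one' := by
    apply Subtype.ext
    change (1 : GP A P) * lam0 e he.le 1 = 1
    rw [map_one, mul_one]
  map_mul' x y := by
    apply Subtype.ext
    change x.1.1 * y.1.1 * lam0 e he.le (x.2 * y.2) =
      x.1.1 * lam0 e he.le x.2 * (y.1.1 * lam0 e he.le y.2)
    obtain ⟨t, ht0, hte, ht⟩ := (mem_KE he).mp y.1.2
    have h1 : lam0 e he.le x.2 * y.1.1 = y.1.1 * lam0 e he.le x.2 := by
      apply Subtype.ext
      exact comm_of e (fun z hz => lam0_le e he.le x.2 hz)
        (fun z hz => ht z (hte.le.trans hz))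
    rw [map_mul]
    calc x.1.1 * y.1.1 * (lam0 e he.le x.2 * lam0 e he.le y.2) =
        x.1.1 * (y.1.1 * lam0 e he.le x.2) * lam0 e he.le y.2 := by group
      _ = _ := by
        rw [← h1]
        group

theorem gI_fL (x : KE A P e × P) : (gI A P (fL he x).1).p = x.2 := by
  obtain ⟨t, ht0, hte, ht⟩ := (mem_KE he).mp x.1.2
  have h1 : gI A P (x.1.1 * lam0 e he.le x.2) = ⟨e - x.2 • e, x.2⟩ := by
    apply gI_eq (N := e)
    intro y hy
    change x.1.1.1 ((lam0 e he.le x.2).1 y) = _
    rw [lam0_ge e he.le x.2 hy]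
    have h2 : e ≤ e + x.2 • (y - e) := by
      have h3 := smul_le x.2 (sub_nonneg.mpr hy)
      rw [smul_zero] at h3
      exact le_add_of_nonneg_right h3
    rw [ht _ (hte.le.trans h2), aff_apply, smul_sub]
    change e + (x.2 • y - x.2 • e) = e - x.2 • e + x.2 • y
    abel
  change (gI A P (x.1.1 * lam0 e he.le x.2)).p = x.2
  rw [h1]

variable {r : P} (hr : Arch A r)

/-- The inclusion of the elements trivial near infinity. -/
noncomputable def kL (e : A) : KK A P →* LL A P e where
  toFun k := ⟨k.1, by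
    have h1 : gI A P k.1 = 1 := k.2
    change aff (gI A P k.1) e = e
    rw [h1, map_one]
    rfl⟩
  map_one' := rfl
  map_mul' _ _ := rfl

include hr in
theorem fL_bij (q : ℕ) : Function.Bijective (hqMap (fL (P := P) he) q) := by
  have hj := jE_bij hr he
  apply Pool.Agent.R942.NV.over_bij (MonoidHom.snd (KE A P e) P)
    (((Af.pr (A := A) (P := P)).comp (gI A P)).comp (LL A P e).subtype)
    (fun p => ⟨(1, p), rfl⟩) (fun p => ⟨fL he (1, p), gI_fL he (1, p)⟩) (fL he)
    (fun x => gI_fL he x) (MonoidHom.inl (KE A P e) P) (kL e)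
    (fun x y hxy => congrArg Prod.fst hxy)
    (fun x y hxy => by
      apply Subtype.ext
      exact congrArg (fun z => z.1) hxy)
    (fun _ => rfl)
    (fun k => by
      have h1 : gI A P k.1 = 1 := k.2
      change (gI A P k.1).p = 1
      rw [h1]
      rfl)
    (fun g hg => ⟨g.1, by
      obtain ⟨x, p⟩ := g
      have h1 : p = 1 := hg
      rw [h1]
      rfl⟩)
    (fun g hg => by
      have h1 : (gI A P g.1).p = 1 := hg
      have h2 : aff (gI A P g.1) e = e := g.2
      rw [aff_apply, h1, one_smul] at h2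
      have h3 : gI A P g.1 = 1 := Af.ext (add_eq_right.mp h2) h1
      exact ⟨⟨g.1, h3⟩, rfl⟩)
    (jE A P e)
    (fun k => by
      apply Subtype.ext
      change k.1 * lam0 e he.le 1 = k.1
      rw [map_one, mul_one])
    (fun q y hy => Pool.Agent.H651.Nov.sur_of_hq _ q (hj q).2 y hy)
    (fun q y hy h => Pool.Agent.H651.Nov.in_of_hq _ q (hj q).1 y hy h)

/-- The maps of the affine group which fix `e`. -/
def jB (e : A) : P →* Af (IPA A P) P where
  toFun p := ⟨⟨e - p • e, by
    have h := neg_mem (mem_IPA p e)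
    rwa [neg_sub] at h⟩, p⟩
  map_one' := Af.ext (Subtype.ext (by
    change e - (1 : P) • e = 0
    rw [one_smul, sub_self])) rfl
  map_mul' p q := Af.ext (Subtype.ext (by
    change e - (p * q) • e = (e - p • e) + p • (e - q • e)
    rw [smul_sub, mul_smul]
    abel)) rfl

/-- The action on a coset of `IPA`. -/
def oAct (e : A) : Af (IPA A P) P →* Equiv.Perm {x : A // x - e ∈ IPA A P} where
  toFun g :=
    { toFun := fun x => ⟨g.b.1 + g.p • x.1, by
        have h1 : g.b.1 + g.p • x.1 - e = g.b.1 + (g.p • x.1 - x.1) + (x.1 - e) := by abel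
        rw [h1]
        exact add_mem (add_mem g.b.2 (mem_IPA _ _)) x.2⟩
      invFun := fun x => ⟨g.p⁻¹ • (x.1 - g.b.1), by
        have h1 : g.p⁻¹ • (x.1 - g.b.1) - e =
            (g.p⁻¹ • (x.1 - g.b.1) - (x.1 - g.b.1)) - g.b.1 + (x.1 - e) := by abel
        rw [h1]
        exact add_mem (sub_mem (mem_IPA _ _) g.b.2) x.2⟩
      left_inv := fun x => by simp
      right_inv := fun x => by simp }
  map_one' := by
    ext x
    change (0 : A) + (1 : P) • x.1 = x.1
    simp
  map_mul' g h := by
    ext x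
    change (g.b.1 + g.p • h.b.1) + (g.p * h.p) • x.1 = g.b.1 + g.p • (h.b.1 + h.p • x.1)
    rw [smul_add, mul_smul, add_assoc]

theorem oAct_apply (e : A) (g : Af (IPA A P) P) (x : {x : A // x - e ∈ IPA A P}) :
    (oAct e g x).1 = g.b.1 + g.p • x.1 := rfl

variable (hl : ∀ q, Function.Bijective (hqMap (Af.lin : P →* Af (IPA A P) P) q))

include hl in
theorem jB_bij (e : A) (q : ℕ) : Function.Bijective (hqMap (jB (P := P) e) q) := by
  have h1 : ∀ x : HQ q (Af (IPA A P) P), hqMap (Af.pr) q x = 0 → x = 0 := by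
    intro x hx
    obtain ⟨y, rfl⟩ := (hl q).2 x
    rw [← hqMap_comp] at hx
    have h2 : (Af.pr (A := IPA A P) (P := P)).comp Af.lin = MonoidHom.id P := rfl
    rw [h2, hqMap_id] at hx
    rw [hx, map_zero]
  have h2 : ∀ y : HQ q P, hqMap Af.pr q (hqMap (jB (P := P) e) q y) = y := by
    intro y
    rw [← hqMap_comp]
    exact hqMap_id P q y
  constructor
  · exact Function.LeftInverse.injective h2
  · intro x
    refine ⟨hqMap Af.pr q x, ?_⟩
    apply sub_eq_zero.mp
    apply h1
    rw [map_sub, h2, sub_self]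

include hr he hl in
theorem LL_inj (q : ℕ) : Function.Injective (hqMap (LL A P e).subtype q) := by
  apply pull_inj (gB A P) (KK A P).subtype (gB_surj hr he) Subtype.val_injective
    (fun k => by
      have h1 : gI A P k.1 = 1 := k.2
      exact Af.ext (Subtype.ext (congrArg Af.b h1)) (congrArg Af.p h1 :))
    (fun g hg => ⟨⟨g, Af.ext (congrArg (fun a => a.b.1) hg) (congrArg Af.p hg :)⟩, rfl⟩)
    (loc_KK hr he) (oAct e) ⟨e, by
      rw [sub_self]
      exact zero_mem _⟩
    (fun a => ⟨⟨⟨a.1 - e, a.2⟩, 1⟩, Subtype.ext (by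
      rw [oAct_apply, one_smul]
      change a.1 - e + e = a.1
      abel)⟩)
    (jB e)
    (fun p q hpq => congrArg Af.p hpq)
    (fun p => Subtype.ext (by
      rw [oAct_apply]
      change e - p • e + p • e = e
      abel))
    (fun h hh => ⟨h.p, by
      have h1 := congrArg Subtype.val hh
      rw [oAct_apply] at h1
      exact Af.ext (Subtype.ext (by
        change e - h.p • e = h.b.1
        rw [sub_eq_iff_eq_add]
        exact h1.symm)) rfl⟩)
    (jB_bij hl e)
    (LL A P e).subtype Subtype.val_injective (fun l => Subtype.ext l.2)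
    (fun g hg => ⟨⟨g, congrArg Subtype.val hg⟩, rfl⟩)

include hr he hl in
/-- **The elements which are trivial near infinity inject on rational homology.** -/
theorem KK_inj (q : ℕ) : Function.Injective (hqMap (KK A P).subtype q) := by
  rw [injective_iff_map_eq_zero]
  intro x hx
  obtain ⟨y, rfl⟩ := (jE_bij hr he q).2 x
  have h1 : ((LL A P e).subtype.comp (fL he)).comp (MonoidHom.inl (KE A P e) P) =
      (KK A P).subtype.comp (jE A P e) := by
    apply MonoidHom.ext
    intro k
    change (k.1 * lam0 e he.le 1 : GP A P) = k.1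
    rw [map_one, mul_one]
  rw [← hqMap_comp, ← h1, hqMap_comp, hqMap_comp] at hx
  have h2 := (injective_iff_map_eq_zero _).mp (LL_inj he hr hl q) _ hx
  have h3 := (injective_iff_map_eq_zero _).mp (fL_bij he hr q).1 _ h2
  have h4 := (injective_iff_map_eq_zero _).mp (Pool.Agent.R615.KU.hqMap_inj q
    (MonoidHom.inl (KE A P e) P) (MonoidHom.fst (KE A P e) P) rfl) _ h3
  rw [h4, map_zero]

end Lambda

end Pool.Agent.H417.PL
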