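import Pool.Agent.H417.PL.DetKK

/-!
The group of all piecewise linear automorphisms is detecting.
-/

set_option autoImplicit false
set_option linter.unusedSectionVars false

namespace Pool.Agent.H417.PL

open Filter Pool.Agent.Y483 Pool.Agent.T6.H32.NC Finsupp Pool.Agent.R615.KU CategoryTheory
  Pool.Agent.Y483.PW

variable {A P : Type} [AddCommGroup A] [LinearOrder A] [IsOrderedAddMonoid A] [CommGroup P]
  [DistribMulAction P A] [Slopes A P] [Nontrivial A]

variable (A P) in
/-- The germ at minus infinity. -/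
noncomputable def gBot : PLine A P →* Af A P where
  toFun g := (IsPL.germ_bot g.2).choose
  map_one' := Germ.unique_bot ((IsPL.germ_bot (1 : PLine A P).2).choose_spec) (Germ.one _)
  map_mul' g h := Germ.unique_bot ((IsPL.germ_bot (g * h).2).choose_spec)
    (Germ.mul h.1.tendsto_atBot (IsPL.germ_bot g.2).choose_spec (IsPL.germ_bot h.2).choose_spec)

theorem gBot_eq {g : PLine A P} {α : Af A P} {N : A} (h : ∀ x, x ≤ N → g.1 x = aff α x) :
    gBot A P g = α :=
  Germ.unique_bot (IsPL.germ_bot g.2).choose_spec (eventually_atBot.mpr ⟨N, h⟩)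

/-- The affine maps. -/
def affL : Af A P →* PLine A P where
  toFun α := ⟨aff α, IsPL.aff α⟩
  map_one' := Subtype.ext (map_one aff)
  map_mul' α β := Subtype.ext (map_mul aff α β)

/-- The cut of an element. -/
def cutL (g : PLine A P) (a : A) (p : P) : PLine A P := ⟨cut g.1 a p, IsPL.cut g.2 _ _⟩

/-- The action on `A`. -/
def lX : PLine A P →* Equiv.Perm A where
  toFun g := g.1.toEquiv
  map_one' := rfl
  map_mul' _ _ := rfl

theorem lX_inv (g : PLine A P) (a : A) : (lX g)⁻¹ a = g.1⁻¹ a := rfl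

/-- The pair of cocycles given by the cuts. -/
noncomputable def kLine (A P : Type) [AddCommGroup A] [LinearOrder A] [IsOrderedAddMonoid A]
    [CommGroup P] [DistribMulAction P A] [Slopes A P] [Nontrivial A] :
    FinPair (PLine A P) A (PLine A P) where
  σ := lX
  c g a := cutL g a (sR P g.1 a)
  d g a := cutL g a (sL P g.1 a)
  mul_c g h a := by
    apply Subtype.ext
    change cut (g.1 * h.1) a (sR P (g.1 * h.1) a) = _
    rw [sR_mul g.2 h.2, cut_mul]
    rfl
  mul_d g h a := by
    apply Subtype.ext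
    change cut (g.1 * h.1) a (sL P (g.1 * h.1) a) = _
    rw [sL_mul g.2 h.2, cut_mul]
    rfl
  fin g := by
    obtain ⟨F, hF⟩ := g.2
    refine F.finite_toSet.subset ?_
    intro a ha
    by_contra h
    apply ha
    apply Subtype.ext
    change cut g.1 a (sR P g.1 a) = cut g.1 a (sL P g.1 a)
    rw [s_eq hF (fun h' => h h')]

theorem tele_kLine : Tele (kLine A P) ((affL (A := A) (P := P)).comp (gBot A P)) where
  top a := by
    obtain ⟨e, he⟩ := exists_pos' (A := A)
    exact ⟨a + e, lt_add_of_pos_right _ he⟩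
  tel g := by
    classical
    obtain ⟨F, hF⟩ := g.2
    have hc : ∀ a, (lab (kLine A P).σ (kLine A P).c g a).1 =
      cut g.1 (g.1⁻¹ a) (sR P g.1 (g.1⁻¹ a)) := fun _ => rfl
    have hd : ∀ a, (lab (kLine A P).σ (kLine A P).d g a).1 =
      cut g.1 (g.1⁻¹ a) (sL P g.1 (g.1⁻¹ a)) := fun _ => rfl
    refine ⟨F.image g.1, ?_, ?_, ?_, ?_⟩
    · intro a b hab hz
      have h1 : g.1⁻¹ a < g.1⁻¹ b := (g.1⁻¹).lt_iff_lt.mpr hab
      obtain ⟨p, hp⟩ := hF _ _ h1 (fun z hz' => by
        rcases hz _ (Finset.mem_image_of_mem _ hz') with h2 | h2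
        · exact Or.inl ((le_inv_iff g.1 a z).mpr h2)
        · exact Or.inr ((inv_le_iff g.1 b z).mpr h2))
      apply Subtype.ext
      rw [hc, hd, sR_eq h1 hp, sL_eq h1 hp]
      exact cut_eq h1.le hp
    · intro a hz
      have h1 : ∀ z ∈ F, g.1⁻¹ a ≤ z := fun z hz' =>
        (inv_le_iff g.1 a z).mpr (hz _ (Finset.mem_image_of_mem _ hz'))
      obtain ⟨p, hp⟩ := aff_before hF (g.1⁻¹ a) h1
      obtain ⟨e, he⟩ := exists_pos' (A := A)
      have h2 : sL P g.1 (g.1⁻¹ a) = p := sL_eq (sub_lt_self _ he) (hp _)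
      have h3 : ∀ x ≤ g.1⁻¹ a, g.1 x = g.1 (g.1⁻¹ a) + p • (x - g.1⁻¹ a) := by
        intro x hx
        have h4 := hp x (g.1⁻¹ a) hx le_rfl
        rw [h4, ← neg_sub (g.1⁻¹ a) x, smul_neg p]
        abel
      have h4 : gBot A P g = ⟨g.1 (g.1⁻¹ a) - p • g.1⁻¹ a, p⟩ := by
        apply gBot_eq (N := g.1⁻¹ a)
        intro x hx
        rw [h3 x hx, aff_apply, smul_sub]
        change _ = g.1 (g.1⁻¹ a) - p • g.1⁻¹ a + p • x
        abel
      apply Subtype.ext
      rw [hd, h2]
      change _ = aff (gBot A P g)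
      rw [h4]
      ext x
      rw [aff_apply]
      change _ = g.1 (g.1⁻¹ a) - p • g.1⁻¹ a + p • x
      rcases le_total x (g.1⁻¹ a) with hx | hx
      · rw [cut_le _ _ _ hx, h3 x hx, smul_sub]
        abel
      · rw [cut_ge _ _ _ hx, smul_sub]
        abel
    · intro a hz
      have hlt : ∀ z ∈ F, z < g.1⁻¹ a := by
        intro z hz'
        have h2 := hz _ (Finset.mem_image_of_mem _ hz')
        rw [← g.1.lt_iff_lt, app_inv]
        exact h2
      obtain ⟨b, hb, hb2⟩ := gap_left F (g.1⁻¹ a)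
      have hb3 : ∀ z ∈ F, z ≤ b := fun z hz => by
        rcases hb2 z hz with h | h
        · exact h
        · exact absurd (hlt z hz) (not_lt.mpr h)
      obtain ⟨p, hp⟩ := aff_beyond hF b hb3
      apply Subtype.ext
      rw [hd, sL_eq hb (hp _)]
      apply cut_self
      intro x hx
      exact ((hp x).sub hb.le le_rfl) x hx le_rfl
    · intro a ha
      apply Subtype.ext
      rw [hc, hd]
      have h1 : g.1⁻¹ a ∉ F := by
        intro h
        apply ha
        have h2 := Finset.mem_image_of_mem g.1 h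
        rwa [app_inv] at h2
      rw [s_eq hF h1]

/-- The group of the elements which fix zero and are linear to the right of zero. -/
def SL (A P : Type) [AddCommGroup A] [LinearOrder A] [CommGroup P] [DistribMulAction P A] :
    Subgroup (PLine A P) where
  carrier := {h | h.1 0 = 0 ∧ ∃ p : P, ∀ x, 0 ≤ x → h.1 x = p • x}
  one_mem' := ⟨rfl, 1, fun x _ => by
    change x = _
    rw [one_smul]⟩
  mul_mem' := fun {g h} hg hh => by
    obtain ⟨hg1, p, hp⟩ := hg
    obtain ⟨hh1, q, hq⟩ := hh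
    refine ⟨?_, p * q, fun x hx => ?_⟩
    · change g.1 (h.1 0) = 0
      rw [hh1, hg1]
    · change g.1 (h.1 x) = _
      have h1 : 0 ≤ h.1 x := by
        have h2 := h.1.monotone hx
        rwa [hh1] at h2
      rw [hp _ h1, hq x hx, mul_smul]
  inv_mem' := fun {g} hg => by
    obtain ⟨hg1, p, hp⟩ := hg
    have h0 : g.1⁻¹ 0 = 0 := by
      conv_lhs => rw [← hg1]
      exact inv_app g.1 0
    refine ⟨h0, p⁻¹, fun x hx => ?_⟩
    change g.1⁻¹ x = _
    have h1 : 0 ≤ g.1⁻¹ x := by
      have h2 := (g.1⁻¹).monotone hx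
      rwa [h0] at h2
    have h2 := hp _ h1
    rw [app_inv] at h2
    calc g.1⁻¹ x = p⁻¹ • (p • g.1⁻¹ x) := (inv_smul_smul p _).symm
      _ = p⁻¹ • x := by rw [← h2]

/-- The translation by `a`. -/
def tau (a : A) : PLine A P := affL ⟨a, 1⟩

theorem tau_apply (a x : A) : (tau (P := P) a).1 x = a + x := by
  change a + (1 : P) • x = a + x
  rw [one_smul]

theorem tau_inv (a x : A) : (tau (P := P) a).1⁻¹ x = x - a := by
  have h := inv_app (tau (P := P) a).1 (x - a)
  rwa [tau_apply, add_sub_cancel] at h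

theorem conj_SL (g : PLine A P) (a : A) (p : P) :
    (tau (P := P) (g.1 a))⁻¹ * cutL g a p * tau a ∈ SL A P := by
  have key : ∀ x : A, 0 ≤ x →
      ((tau (P := P) (g.1 a))⁻¹ * cutL g a p * tau a).1 x = p • x := by
    intro x hx
    change (tau (P := P) (g.1 a)).1⁻¹ (cut g.1 a p ((tau (P := P) a).1 x)) = _
    rw [tau_apply, cut_ge _ _ _ (le_add_of_nonneg_right hx), tau_inv]
    simp
  refine ⟨?_, p, key⟩
  rw [key 0 le_rfl, smul_zero]

/-- The pair of cocycles with values in `SL`. -/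
noncomputable def kSL (A P : Type) [AddCommGroup A] [LinearOrder A] [IsOrderedAddMonoid A]
    [CommGroup P] [DistribMulAction P A] [Slopes A P] [Nontrivial A] :
    FinPair (PLine A P) A (SL A P) where
  σ := lX
  c g a := ⟨_, conj_SL g a (sR P g.1 a)⟩
  d g a := ⟨_, conj_SL g a (sL P g.1 a)⟩
  mul_c g h a := Subtype.ext ((twist (kLine A P) tau).mul_c g h a)
  mul_d g h a := Subtype.ext ((twist (kLine A P) tau).mul_d g h a)
  fin g := by
    refine ((twist (kLine A P) tau).fin g).subset ?_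
    intro a ha h
    exact ha (Subtype.ext h)

theorem tel_line (q : ℕ) (y : HQ q (PLine A P)) (h : trH (kSL A P) q y = 0)
    (h0 : hqMap (gBot A P) q y = 0) : y = 0 := by
  have h1 : trH (kLine A P) q y = 0 := by
    rw [← trH_twist tau]
    have h2 : twist (kLine A P) tau = compL (kSL A P) (SL A P).subtype := rfl
    rw [h2, trH_compL, h, map_zero]
  rw [tele_kLine.trH, hqMap_comp, h0, map_zero, sub_zero] at h1
  exact h1

section Mirror

/-- The conjugate with the negation. -/
def mir : (A ≃o A) →* (A ≃o A) where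
  toFun g := StrictMono.orderIsoOfRightInverse (fun x => -g (-x))
    (fun _ _ h => neg_lt_neg (g.strictMono (neg_lt_neg h))) (fun x => -g⁻¹ (-x))
    (fun x => by
      change -g (- -g⁻¹ (-x)) = x
      rw [neg_neg, app_inv, neg_neg])
  map_one' := by
    ext x
    exact neg_neg x
  map_mul' g h := by
    ext x
    change -g (h (-x)) = -g (- -h (-x))
    rw [neg_neg]

theorem mir_apply (g : A ≃o A) (x : A) : mir g x = -g (-x) := rfl

theorem mir_mir (g : A ≃o A) : mir (mir g) = g := by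
  ext x
  rw [mir_apply, mir_apply, neg_neg, neg_neg]

theorem AffOn.mir {g : A ≃o A} {p : P} {x y : A} (h : AffOn g p (-y) (-x)) :
    AffOn (mir g) p x y := by
  intro z hz1 hz2
  have h1 := h (-z) (neg_le_neg hz2) (neg_le_neg hz1)
  have h2 := h (-x) (neg_le_neg (hz1.trans hz2)) le_rfl
  rw [mir_apply, mir_apply, h1, h2]
  simp only [smul_sub, smul_neg]
  abel

theorem IsPL.mir {g : A ≃o A} (hg : IsPL P g) : IsPL P (mir g) := by
  classical
  obtain ⟨F, hF⟩ := hg
  refine ⟨F.image (fun z => -z), fun x y hxy hz => ?_⟩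
  obtain ⟨p, hp⟩ := hF (-y) (-x) (neg_lt_neg hxy) (fun z hz' => by
    rcases hz (-z) (Finset.mem_image_of_mem _ hz') with h | h
    · exact Or.inr (neg_le.mp h)
    · exact Or.inl (le_neg.mp h))
  exact ⟨p, hp.mir⟩

end Mirror

/-- The isomorphism with the product. -/
noncomputable def fSL (A P : Type) [AddCommGroup A] [LinearOrder A] [IsOrderedAddMonoid A]
    [CommGroup P] [DistribMulAction P A] [Slopes A P] [Nontrivial A] :
    SL A P →* GP A P × P where
  toFun h := (⟨mir (cut h.1.1 0 1), ((IsPL.cut h.1.2 _ _) : IsPL P _).mir, fun x hx => by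
    have h0 : h.1.1 0 = 0 := h.2.1
    rw [mir_apply, cut_ge _ _ _ (neg_nonneg.mpr hx), h0, one_smul]
    simp⟩, sR P h.1.1 0)
  map_one' := Prod.ext (Subtype.ext (by
    change mir (cut (1 : A ≃o A) 0 (1 : P)) = 1
    rw [cut_one, map_one])) (sR_one 0)
  map_mul' g h := Prod.ext (Subtype.ext (by
    have h0 : h.1.1 0 = 0 := h.2.1
    change mir (cut (g.1.1 * h.1.1) 0 (1 : P)) =
      mir (cut g.1.1 0 (1 : P)) * mir (cut h.1.1 0 (1 : P))
    have h2 := cut_mul g.1.1 h.1.1 0 (1 : P) 1
    rw [mul_one, h0] at h2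
    rw [h2, map_mul])) (by
    have h0 : h.1.1 0 = 0 := h.2.1
    change sR P (g.1.1 * h.1.1) 0 = sR P g.1.1 0 * sR P h.1.1 0
    rw [sR_mul g.1.2 h.1.2, h0])

theorem mir_zero (g : GP A P) : mir g.1 0 = 0 := by
  rw [mir_apply, neg_zero, GP.zero, neg_zero]

/-- The inverse. -/
noncomputable def gSL (A P : Type) [AddCommGroup A] [LinearOrder A] [IsOrderedAddMonoid A]
    [CommGroup P] [DistribMulAction P A] [Slopes A P] [Nontrivial A] :
    GP A P × P →* SL A P where
  toFun x := ⟨⟨cut (mir x.1.1) 0 x.2, x.1.2.1.mir.cut _ _⟩, by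
    refine ⟨?_, x.2, fun y hy => ?_⟩
    · change cut (mir x.1.1) 0 x.2 0 = 0
      rw [cut_le _ _ _ le_rfl, mir_zero]
    · change cut (mir x.1.1) 0 x.2 y = _
      rw [cut_ge _ _ _ hy, mir_zero, zero_add, sub_zero]⟩
  map_one' := by
    apply Subtype.ext
    apply Subtype.ext
    change cut (mir 1) 0 (1 : P) = 1
    rw [map_one, cut_one]
  map_mul' x y := by
    apply Subtype.ext
    apply Subtype.ext
    change cut (mir (x.1.1 * y.1.1)) 0 (x.2 * y.2) =
      cut (mir x.1.1) 0 x.2 * cut (mir y.1.1) 0 y.2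
    rw [map_mul, cut_mul, mir_zero]

theorem gSL_fSL : (gSL A P).comp (fSL A P) = MonoidHom.id _ := by
  apply MonoidHom.ext
  intro h
  apply Subtype.ext
  apply Subtype.ext
  change cut (mir (mir (cut h.1.1 0 (1 : P)))) 0 (sR P h.1.1 0) = h.1.1
  obtain ⟨h0, p, hp⟩ := h.2
  obtain ⟨e, he⟩ := exists_pos' (A := A)
  have h1 : sR P h.1.1 0 = p := by
    apply sR_eq he
    intro z hz _
    rw [hp z hz, h0, zero_add, sub_zero]
  rw [mir_mir, h1]
  ext x
  rcases le_total x 0 with hx | hx
  · rw [cut_le _ _ _ hx, cut_le _ _ _ hx]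
  · rw [cut_ge _ _ _ hx, cut_le _ _ _ le_rfl, h0, hp x hx, zero_add, sub_zero]

variable {r : P} (hr : Arch A r)
  (hl : ∀ q, Function.Bijective (hqMap (Af.lin : P →* Af (IPA A P) P) q))
  {E : GrpCat.{0} ⥤ ModuleCat.{0} ℚ}

include hr hl in
theorem det_SL (hE : HasPT E) (hP : Det E P) : Det E (SL A P) :=
  Pool.Agent.H651.Nov.Det.of_hq_inj ((det_GP hr hl hE hP).prod hP) (fSL A P)
    (fun n => hqMap_inj n _ (gSL A P) gSL_fSL)

include hr hl in
/-- **The group of all piecewise linear automorphisms.** -/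
theorem det_PLine (hE : HasPT E) (hP : Det E P)
    (hA : ∀ q, Function.Injective (hqMap (Af.pr : Af A P →* P) q)) : Det E (PLine A P) := by
  have hAf : Det E (Af A P) := Pool.Agent.H651.Nov.Det.of_hq_inj hP _ hA
  apply Det.visible hE
  intro j x hx
  by_cases h0 : hqMap (gBot A P) j x = 0
  · by_cases h1 : trH (kSL A P) j x = 0
    · exact absurd (tel_line j x h1 h0) hx
    · exact Visible.transfer _ _ _ (kSL A P) x (Visible.base _ (det_SL hr hl hE hP) _ h1)
  · exact Visible.map _ _ (gBot A P) x (Visible.base _ hAf _ h0)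

end Pool.Agent.H417.PL
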