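import Pool.Agent.H417.PL.Real

/-!
The groups of Bieri and Strebel are detecting.
-/

set_option autoImplicit false
set_option linter.unusedSectionVars false

namespace Pool.Agent.H417.PL

open CategoryTheory Pool.Agent.Y483 Pool.Agent.R615.KU Pool.Agent.Y483.PW

variable (A : AddSubgroup ℝ) (P : Subgroup ℝˣ) [BSData A P]

/-- The conjugate with the negation. -/
theorem mir_mem {g : ℝ ≃o ℝ} {I J : Set ℝ} (hIJ : ∀ x, x ∉ J → -x ∉ I)
    (hg : g ∈ BS A P I) : mir g ∈ BS A P J := by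
  classical
  have hS := slopesR A P
  obtain ⟨h1, h2, F, hF1, hF2⟩ := hg
  refine ⟨fun x => ?_, fun x hx => ?_, F.image (fun z => -z), fun z hz => ?_,
    fun x y hxy hz => ?_⟩
  · rw [mir_apply, A.neg_mem_iff, h1, A.neg_mem_iff]
  · rw [mir_apply, h2 _ (hIJ x hx), neg_neg]
  · obtain ⟨w, hw, rfl⟩ := Finset.mem_image.mp hz
    exact A.neg_mem (hF1 w hw)
  · obtain ⟨p, hp⟩ := hF2 (-y) (-x) (neg_lt_neg hxy) (fun z hz' => by
      rcases hz (-z) (Finset.mem_image_of_mem _ hz') with h | h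
      · exact Or.inr (neg_le.mp h)
      · exact Or.inl (le_neg.mp h))
    exact ⟨p, AffOn.mir (P := P) (show AffOn g p (-y) (-x) from hp)⟩

/-- The mirror image. -/
noncomputable def mirE (b : ℝ) : BS A P (Set.Iio b) ≃* BS A P (Set.Ioi (-b)) where
  toFun g := ⟨mir g.1, mir_mem A P (fun x hx h => hx (by
    have h' : -x < b := h
    exact neg_lt.mp h')) g.2⟩
  invFun g := ⟨mir g.1, mir_mem A P (fun x hx h => hx (by
    have h' : -b < -x := h
    exact neg_lt_neg_iff.mp h')) g.2⟩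
  left_inv g := Subtype.ext (mir_mir g.1)
  right_inv g := Subtype.ext (mir_mir g.1)
  map_mul' g h := Subtype.ext (map_mul mir g.1 h.1)

/-- The open intervals whose finite end points are in `A`. -/
def IsInt (A : AddSubgroup ℝ) (I : Set ℝ) : Prop :=
  I = Set.univ ∨ (∃ b ∈ A, I = Set.Ioi b) ∨ (∃ b ∈ A, I = Set.Iio b) ∨
    ∃ b ∈ A, ∃ c ∈ A, b < c ∧ I = Set.Ioo b c

variable {E : GrpCat.{0} ⥤ ModuleCat.{0} ℚ}

/-- **The groups of Bieri and Strebel**, in terms of the homology of the affine groups. -/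
theorem det_BS' (hE : HasPT E) (hP : Det E P) [Nontrivial A] {r : P}
    (hr : 1 < ((r : ℝˣ) : ℝ))
    (hl : ∀ q, Function.Bijective (hqMap (Af.lin : P →* Af (IPA A P) P) q)) {I : Set ℝ}
    (hI : IsInt A I)
    (hA : I = Set.univ → ∀ q, Function.Injective (hqMap (Af.pr : Af A P →* P) q)) :
    Det E (BS A P I) := by
  have hd := dense_of A P hr
  have ha := arch_of A P hr
  rcases hI with hI | ⟨b, hb, rfl⟩ | ⟨b, hb, rfl⟩ | ⟨b, hb, c, hc, hbc, rfl⟩
  · subst hI
    obtain ⟨e⟩ := bs_line (P := P) hd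
    exact (det_PLine ha hl hE hP (hA rfl)).congr e
  · obtain ⟨e⟩ := bs_half (P := P) hd ⟨b, hb⟩
    exact (det_GP ha hl hE hP).congr e
  · obtain ⟨e⟩ := bs_half (P := P) hd ⟨-b, A.neg_mem hb⟩
    exact (det_GP ha hl hE hP).congr ((mirE A P b).trans e)
  · obtain ⟨e⟩ := bs_interval (P := P) hd ⟨b, hb⟩ ⟨c, hc⟩
    have h0 : (0 : A) < ⟨c, hc⟩ - ⟨b, hb⟩ := by
      change (0 : ℝ) < c - b
      exact sub_pos.mpr hbc
    exact (det_GI ha hl hE hP h0).congr e

/-- **The groups of Bieri and Strebel** with a rational slope. -/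
theorem det_BS (hE : HasPT E) (hP : Det E P) [Nontrivial A] {p : ℝˣ} (hp : p ∈ P) {s : ℚ}
    (hps : (p : ℝ) = s) (h1 : s ≠ 1) {I : Set ℝ} (hI : IsInt A I) : Det E (BS A P I) := by
  have hp0 := BSData.pos (A := A) _ hp
  have hs0 : (0 : ℚ) < s := by
    rw [hps] at hp0
    exact_mod_cast hp0
  have hp1 : p ≠ 1 := by
    rintro rfl
    apply h1
    have h2 : ((1 : ℚ) : ℝ) = s := by
      rw [← hps]
      simp
    exact_mod_cast h2.symm
  obtain ⟨r, hr⟩ := exists_gt_one A P hp hp1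
  have ht : Nontrivial (IPA A P) := by
    obtain ⟨a, ha⟩ := exists_pos' (A := A)
    refine ⟨⟨⟨r • a - a, mem_IPA r a⟩, 0, fun h => ?_⟩⟩
    have h2 : r • a - a = 0 := congrArg Subtype.val h
    exact ((arch_of A P hr).lt ha).ne' (sub_eq_zero.mp h2)
  have htf : IsAddTorsionFree (IPA A P) := inferInstance
  apply det_BS' A P hE hP hr (fun q => (lin_of_rat P
    ((AddSubgroup.subtype A).comp (AddSubgroup.subtype (IPA A P)))
    (fun x y h => Subtype.ext (Subtype.ext h)) (fun _ _ => rfl) (p := ⟨p, hp⟩) hps hs0 h1 q).1) hI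
  intro _ q
  exact (lin_of_rat P (AddSubgroup.subtype A) Subtype.val_injective (fun _ _ => rfl)
    (p := ⟨p, hp⟩) hps hs0 h1 q).2

end Pool.Agent.H417.PL
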