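import Pool.Agent.H417.PL.Spec
import Mathlib.LinearAlgebra.Lagrange
import Mathlib.FieldTheory.SplittingField.Construction
import Mathlib.RingTheory.Norm.Transitivity
import Mathlib.FieldTheory.Galois.Basic

/-!
Algebraic numbers of norm different from one and minus one have no fixed vectors.
-/

set_option autoImplicit false

namespace Pool.Agent.H417.PL

open Polynomial

section Seq

variable {L : Type} [Field L] [Algebra ℚ L]

/-- Linear recurrent sequences are combinations of powers of the roots. -/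
theorem seq_roots [DecidableEq L] (F : ℚ[X]) (hF : F.Monic) (hsep : F.Separable)
    (hsp : (F.map (algebraMap ℚ L)).Splits) (a : ℕ → ℚ)
    (ha : ∀ m, (F.sum fun k c => c * a (k + m)) = 0) :
    ∃ c : L → L, ∀ k, algebraMap ℚ L (a k) =
      ∑ l ∈ (F.map (algebraMap ℚ L)).roots.toFinset, c l * l ^ k := by
  set F' := F.map (algebraMap ℚ L) with hF'
  have hm : F'.Monic := hF.map _
  let Ψ : L[X] →ₗ[L] L := Polynomial.lsum fun k => (algebraMap ℚ L (a k)) • LinearMap.id
  have hΨm : ∀ (k : ℕ) (b : L), Ψ (monomial k b) = b * algebraMap ℚ L (a k) := by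
    intro k b
    change (monomial k b).sum (fun k c => algebraMap ℚ L (a k) * c) = _
    rw [sum_monomial_index b (fun (k : ℕ) (c : L) => algebraMap ℚ L (a k) * c) (mul_zero _),
      mul_comm]
  have h1 : ∀ m : ℕ, Ψ (monomial m 1 * F') = 0 := by
    intro m
    have e : F' = ∑ k ∈ F.support, monomial k (algebraMap ℚ L (F.coeff k)) := by
      rw [hF']
      conv_lhs => rw [F.as_sum_support]
      rw [Polynomial.map_sum]
      exact Finset.sum_congr rfl fun k _ => map_monomial _
    rw [e, Finset.mul_sum, map_sum]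
    have h2 := ha m
    rw [Polynomial.sum] at h2
    rw [← map_zero (algebraMap ℚ L), ← h2, map_sum]
    refine Finset.sum_congr rfl fun k _ => ?_
    rw [monomial_mul_monomial, hΨm, one_mul, map_mul, add_comm m k]
  have h2 : ∀ h : L[X], Ψ (h * F') = 0 := by
    intro h
    induction h using Polynomial.induction_on' with
    | add p q hp hq => rw [add_mul, map_add, hp, hq, add_zero]
    | monomial m b =>
      have e : (monomial m b : L[X]) = b • monomial m 1 := by
        rw [smul_monomial, smul_eq_mul, mul_one]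
      rw [e, smul_mul_assoc, map_smul, h1, smul_zero]
  set Rt := F'.roots.toFinset with hRt
  refine ⟨fun l => Ψ (Lagrange.basis Rt id l), fun k => ?_⟩
  set D := X ^ k - Lagrange.interpolate Rt id (fun l => l ^ k) with hD
  have hDr : ∀ l ∈ Rt, D.eval l = 0 := by
    intro l hl
    have h3 := Lagrange.eval_interpolate_at_node (r := fun l : L => l ^ k)
      (Function.injective_id.injOn (s := (Rt : Set L))) hl
    rw [hD, eval_sub, eval_pow, eval_X]
    exact sub_eq_zero.mpr h3.symm
  have hdvd : F' ∣ D := by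
    by_cases h0 : D = 0
    · rw [h0]
      exact dvd_zero _
    · rw [hsp.eq_prod_roots_of_monic hm]
      apply (Multiset.prod_X_sub_C_dvd_iff_le_roots h0 _).mpr
      rw [Multiset.le_iff_subset (nodup_roots (hsep.map))]
      intro l hl
      rw [mem_roots h0]
      exact hDr l (Multiset.mem_toFinset.mpr hl)
  obtain ⟨h, hh⟩ := hdvd
  have h3 : Ψ D = 0 := by
    rw [hh, mul_comm, h2]
  rw [hD, map_sub, Lagrange.interpolate_apply, map_sum, sub_eq_zero, ← monomial_one_right_eq_X_pow,
    hΨm, one_mul] at h3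
  rw [h3]
  refine Finset.sum_congr rfl fun l _ => ?_
  rw [← smul_eq_C_mul, map_smul, smul_eq_mul, mul_comm]

theorem kill (Rt : Finset L) (n : ℕ) (c : Fin n → L → L) (a : Fin n → ℕ → ℚ)
    (h : ∀ i k, algebraMap ℚ L (a i k) = ∑ l ∈ Rt, c i l * l ^ k) (g : ℚ[X])
    (hg : ∀ p ∈ Fintype.piFinset (fun _ : Fin n => Rt), aeval (∏ i, p i) g = 0) :
    (g.sum fun k b => b * ∏ i, a i k) = 0 := by
  apply (algebraMap ℚ L).injective
  rw [map_zero, Polynomial.sum, map_sum]
  have h1 : ∀ k ∈ g.support, algebraMap ℚ L (g.coeff k * ∏ i, a i k) =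
      ∑ p ∈ Fintype.piFinset (fun _ : Fin n => Rt), (∏ i, c i (p i)) *
        (algebraMap ℚ L (g.coeff k) * (∏ i, p i) ^ k) := by
    intro k _
    rw [map_mul, map_prod]
    simp only [h]
    rw [Finset.prod_univ_sum, Finset.mul_sum]
    refine Finset.sum_congr rfl fun p _ => ?_
    rw [Finset.prod_mul_distrib, Finset.prod_pow]
    ring
  rw [Finset.sum_congr rfl h1, Finset.sum_comm]
  apply Finset.sum_eq_zero
  intro p hp
  rw [← Finset.mul_sum]
  have h2 := hg p hp
  rw [aeval_def, eval₂_eq_sum, Polynomial.sum] at h2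
  rw [h2, mul_zero]

end Seq

section Crit

variable {A : Type} {P : Type} [AddCommGroup A] [CommGroup P] [DistribMulAction P A] (r : P)

/-- The criterion in terms of the roots. -/
theorem polK_roots {L : Type} [Field L] [Algebra ℚ L] (F : ℚ[X]) (hF : F.Monic)
    (hsep : F.Separable) (hsp : (F.map (algebraMap ℚ L)).Splits)
    (hkill : ∀ (φ : A →+ ℚ) (x : A), (F.sum fun k a => a * φ ((r⁻¹) ^ k • x)) = 0)
    (hprod : ∀ (q : ℕ) (l : Fin (q + 1) → L), (∀ i, (F.map (algebraMap ℚ L)).IsRoot (l i)) →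
      ∏ i, l i ≠ 1) : PolK A r := by
  classical
  set Rt := (F.map (algebraMap ℚ L)).roots.toFinset with hRt
  have hF0 : F.map (algebraMap ℚ L) ≠ 0 := (hF.map _).ne_zero
  have hroot : ∀ l ∈ Rt, (F.map (algebraMap ℚ L)).IsRoot l := fun l hl =>
    (mem_roots hF0).mp (Multiset.mem_toFinset.mp hl)
  have hint : ∀ l ∈ Rt, IsIntegral ℚ l := by
    intro l hl
    refine ⟨F, hF, ?_⟩
    have h1 := hroot l hl
    rw [IsRoot.def, eval_map] at h1
    exact h1
  intro q
  have hint2 : ∀ p ∈ Fintype.piFinset (fun _ : Fin (q + 1) => Rt), IsIntegral ℚ (∏ i, p i) :=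
    fun p hp => IsIntegral.prod _ fun i _ => hint _ (Fintype.mem_piFinset.mp hp i)
  refine ⟨∏ p ∈ Fintype.piFinset (fun _ : Fin (q + 1) => Rt), minpoly ℚ (∏ i, p i), ?_, ?_⟩
  · rw [eval_prod, Finset.prod_ne_zero_iff]
    intro p hp h1
    apply hprod q p fun i => hroot _ (Fintype.mem_piFinset.mp hp i)
    rw [← minpoly.root (hint2 p hp) (y := 1) h1, map_one]
  · intro φ x
    choose c hc using fun (φ : A →+ ℚ) (x : A) => seq_roots (L := L) F hF hsep hsp
      (fun k => φ ((r⁻¹) ^ k • x)) (fun m => by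
        have h1 := hkill φ ((r⁻¹) ^ m • x)
        rw [Polynomial.sum] at h1 ⊢
        refine Eq.trans (Finset.sum_congr rfl fun k _ => ?_) h1
        rw [← mul_smul, ← pow_add])
    have h2 : ∀ σ : Equiv.Perm (Fin (q + 1)),
        ((∏ p ∈ Fintype.piFinset (fun _ : Fin (q + 1) => Rt), minpoly ℚ (∏ i, p i)).sum
          fun k b => b * ∏ i, φ i ((r⁻¹) ^ k • x (σ i))) = 0 := by
      intro σ
      apply kill (L := L) Rt (q + 1) (fun i => c (φ i) (x (σ i)))
        (fun i k => φ i ((r⁻¹) ^ k • x (σ i))) (fun i k => hc (φ i) (x (σ i)) k)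
      intro p hp
      rw [map_prod]
      exact Finset.prod_eq_zero hp (minpoly.aeval ℚ _)
    generalize (∏ p ∈ Fintype.piFinset (fun _ : Fin (q + 1) => Rt), minpoly ℚ (∏ i, p i)) = g at h2
    rw [Polynomial.sum]
    have h3 : ∀ k ∈ g.support, g.coeff k * Matrix.det (Matrix.of fun i j =>
        φ j ((r⁻¹) ^ k • x i)) = ∑ σ : Equiv.Perm (Fin (q + 1)),
          ((Equiv.Perm.sign σ : ℤ) : ℚ) * (g.coeff k * ∏ i, φ i ((r⁻¹) ^ k • x (σ i))) := by
      intro k _
      rw [Matrix.det_apply', Finset.mul_sum]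
      refine Finset.sum_congr rfl fun σ _ => ?_
      simp only [Matrix.of_apply]
      ring
    rw [Finset.sum_congr rfl h3, Finset.sum_comm]
    apply Finset.sum_eq_zero
    intro σ _
    rw [← Finset.mul_sum]
    have h4 := h2 σ
    rw [Polynomial.sum] at h4
    rw [h4, mul_zero]

/-- Products of conjugates of an algebraic number of norm different from one and minus one. -/
theorem prod_ne_one {L : Type} [Field L] [Algebra ℚ L] [FiniteDimensional ℚ L] (F : ℚ[X])
    (hF : F.Monic) (hirr : Irreducible F) (hsp : (F.map (algebraMap ℚ L)).Splits)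
    (hN : |F.coeff 0| ≠ 1) (q : ℕ) (l : Fin (q + 1) → L)
    (hl : ∀ i, (F.map (algebraMap ℚ L)).IsRoot (l i)) : ∏ i, l i ≠ 1 := by
  intro h1
  have hmin : ∀ i, minpoly ℚ (l i) = F := by
    intro i
    symm
    apply minpoly.eq_of_irreducible_of_monic hirr _ hF
    have h2 := hl i
    rw [IsRoot.def, eval_map] at h2
    exact h2
  have hnorm : ∀ i, ∃ m : ℕ, m ≠ 0 ∧ |Algebra.norm ℚ (l i)| = |F.coeff 0| ^ m := by
    intro i
    refine ⟨Module.finrank (IntermediateField.adjoin ℚ {l i}) L, Module.finrank_pos.ne', ?_⟩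
    have h2 := Algebra.norm_eq_prod_roots (K := ℚ) (L := L) (F := L) (x := l i) (by
      rw [hmin i]
      exact hsp)
    have h3 := hsp.coeff_zero_eq_prod_roots_of_monic (hF.map _)
    rw [hmin i] at h2
    have h4 : (F.aroots L).prod = algebraMap ℚ L ((-1) ^ F.natDegree * F.coeff 0) := by
      rw [map_mul, map_pow, map_neg, map_one, ← coeff_map, h3, ← mul_assoc, natDegree_map,
        ← mul_pow, neg_one_mul, neg_neg, one_pow, one_mul]
    rw [h4, ← map_pow] at h2
    have h5 := (algebraMap ℚ L).injective h2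
    rw [h5, abs_pow, abs_mul, abs_pow, abs_neg, abs_one, one_pow, one_mul]
  choose m hm hmn using hnorm
  have h2 : |F.coeff 0| ^ (∑ i, m i) = 1 := by
    rw [← Finset.prod_pow_eq_pow_sum, ← Finset.prod_congr rfl fun i _ => hmn i,
      ← Finset.abs_prod, ← map_prod, h1, map_one, abs_one]
  have h3 : ∑ i, m i ≠ 0 := by
    intro h
    exact hm 0 (Finset.sum_eq_zero_iff.mp h 0 (Finset.mem_univ _))
  exact hN ((pow_eq_one_iff_of_nonneg (abs_nonneg _) h3).mp h2)

end Crit

end Pool.Agent.H417.PL
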