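import Pool.Agent.H417.PL.Aff

/-!
Groups of piecewise linear automorphisms of an ordered abelian group.
-/

set_option autoImplicit false

namespace Pool.Agent.H417.PL

/-- The group `P` acts on the ordered group `A` by order preserving automorphisms, freely on the
positive elements. -/
class Slopes (A P : Type) [AddCommGroup A] [LinearOrder A] [CommGroup P] [DistribMulAction P A] :
    Prop where
  pos : ∀ (p : P) (a : A), 0 < a → 0 < p • a
  free : ∀ (p : P) (a : A), 0 < a → p • a = a → p = 1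

section Ord

variable {A P : Type} [AddCommGroup A] [LinearOrder A] [IsOrderedAddMonoid A] [CommGroup P]
  [DistribMulAction P A] [Slopes A P]

theorem smul_lt (p : P) {x y : A} (h : x < y) : p • x < p • y := by
  have h1 := Slopes.pos p (y - x) (sub_pos.mpr h)
  rw [smul_sub] at h1
  exact sub_pos.mp h1

theorem smul_le (p : P) {x y : A} (h : x ≤ y) : p • x ≤ p • y := by
  rcases h.lt_or_eq with h | rfl
  · exact (smul_lt p h).le
  · exact le_rfl

omit [IsOrderedAddMonoid A] in
theorem smul_cancel {p q : P} {a : A} (ha : 0 < a) (h : p • a = q • a) : p = q := by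
  have h1 : (q⁻¹ * p) • a = a := by rw [mul_smul, h, inv_smul_smul]
  have h2 := Slopes.free (q⁻¹ * p) a ha h1
  exact (inv_mul_eq_one.mp h2).symm

/-- The affine maps as order automorphisms. -/
def aff : Af A P →* (A ≃o A) where
  toFun g := StrictMono.orderIsoOfRightInverse (fun x => g.b + g.p • x)
    (fun _ _ h => add_lt_add_right (smul_lt g.p h) _) (fun x => g.p⁻¹ • (x - g.b))
    (fun x => by simp)
  map_one' := by
    ext x
    change (0 : A) + (1 : P) • x = x
    simp
  map_mul' g h := by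
    ext x
    change (g.b + g.p • h.b) + (g.p * h.p) • x = g.b + g.p • (h.b + h.p • x)
    rw [smul_add, mul_smul, add_assoc]

theorem aff_apply (g : Af A P) (x : A) : aff g x = g.b + g.p • x := rfl

end Ord

section Glue

variable {A : Type} [LinearOrder A]

theorem inv_app (g : A ≃o A) (x : A) : g⁻¹ (g x) = x := g.symm_apply_apply x

theorem app_inv (g : A ≃o A) (x : A) : g (g⁻¹ x) = x := g.apply_symm_apply x

theorem mul_app (g h : A ≃o A) (x : A) : (g * h) x = g (h x) := rfl

theorem inv_le_iff (g : A ≃o A) (x y : A) : g⁻¹ x ≤ y ↔ x ≤ g y := by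
  rw [← g.le_iff_le, app_inv]

theorem inv_lt_iff (g : A ≃o A) (x y : A) : g⁻¹ x < y ↔ x < g y := by
  rw [← g.lt_iff_lt, app_inv]

theorem le_inv_iff (g : A ≃o A) (x y : A) : y ≤ g⁻¹ x ↔ g y ≤ x := by
  rw [← g.le_iff_le, app_inv]

/-- The automorphism which is `g` to the left of `a` and `h` to the right of `a`. -/
def glue (g h : A ≃o A) (a : A) (H : g a = h a) : A ≃o A :=
  StrictMono.orderIsoOfRightInverse (fun x => if x ≤ a then g x else h x)
    (fun x y hxy => by
      by_cases hx : x ≤ a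
      · by_cases hy : y ≤ a
        · simp only [if_pos hx, if_pos hy]
          exact g.lt_iff_lt.mpr hxy
        · simp only [if_pos hx, if_neg hy]
          refine (g.le_iff_le.mpr hx).trans_lt ?_
          rw [H]
          exact h.lt_iff_lt.mpr (not_le.mp hy)
      · have hy : ¬ y ≤ a := fun hy => hx (hxy.le.trans hy)
        simp only [if_neg hx, if_neg hy]
        exact h.lt_iff_lt.mpr hxy)
    (fun y => if y ≤ g a then g⁻¹ y else h⁻¹ y)
    (fun y => by
      by_cases hy : y ≤ g a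
      · have h1 : g⁻¹ y ≤ a := (inv_le_iff g y a).mpr hy
        simp only [if_pos hy, if_pos h1]
        exact app_inv g y
      · have h1 : ¬ h⁻¹ y ≤ a := fun h1 => hy (by
          rw [H]
          exact (inv_le_iff h y a).mp h1)
        simp only [if_neg hy, if_neg h1]
        exact app_inv h y)

theorem glue_le {g h : A ≃o A} {a : A} (H : g a = h a) {x : A} (hx : x ≤ a) :
    glue g h a H x = g x := if_pos hx

theorem glue_ge {g h : A ≃o A} {a : A} (H : g a = h a) {x : A} (hx : a ≤ x) :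
    glue g h a H x = h x := by
  rcases hx.lt_or_eq with hx | rfl
  · exact if_neg (not_le.mpr hx)
  · rw [← H]
    exact if_pos le_rfl

end Glue

section PL

variable {A P : Type} [AddCommGroup A] [LinearOrder A] [CommGroup P] [DistribMulAction P A]

/-- The map `g` is affine with slope `p` on the interval `[x, y]`. -/
def AffOn (g : A ≃o A) (p : P) (x y : A) : Prop := ∀ z, x ≤ z → z ≤ y → g z = g x + p • (z - x)

/-- The map `g` is piecewise affine with finitely many breaks and slopes in `P`. -/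
def IsPL (P : Type) [CommGroup P] [DistribMulAction P A] (g : A ≃o A) : Prop :=
  ∃ F : Finset A, ∀ x y, x < y → (∀ z ∈ F, z ≤ x ∨ y ≤ z) → ∃ p : P, AffOn g p x y

theorem AffOn.sub {g : A ≃o A} {p : P} {x y x' y' : A} (h : AffOn g p x y) (h1 : x ≤ x')
    (h2 : y' ≤ y) : AffOn g p x' y' := by
  intro z hz1 hz2
  have h3 : x' ≤ y := hz1.trans (hz2.trans h2)
  rw [h z (h1.trans hz1) (hz2.trans h2), h x' h1 h3, add_assoc, ← smul_add]
  congr 2
  abel

theorem AffOn.mul {g h : A ≃o A} {p q : P} {x y : A} (hh : AffOn h q x y)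
    (hg : AffOn g p (h x) (h y)) : AffOn (g * h) (p * q) x y := by
  intro z hz1 hz2
  rw [mul_app, mul_app, hg (h z) (h.le_iff_le.mpr hz1) (h.le_iff_le.mpr hz2), hh z hz1 hz2,
    add_sub_cancel_left, mul_smul]

theorem AffOn.inv {g : A ≃o A} {p : P} {x y : A} (h : AffOn g p (g⁻¹ x) (g⁻¹ y)) :
    AffOn g⁻¹ p⁻¹ x y := by
  intro z hz1 hz2
  have h1 := h (g⁻¹ z) (by rw [OrderIso.le_iff_le]; exact hz1) (by
    rw [OrderIso.le_iff_le]; exact hz2)
  rw [app_inv, app_inv] at h1
  have h2 : z - x = p • (g⁻¹ z - g⁻¹ x) := sub_eq_iff_eq_add'.mpr h1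
  rw [h2, inv_smul_smul]
  abel

theorem AffOn.one (x y : A) : AffOn (1 : A ≃o A) (1 : P) x y := by
  intro z _ _
  change z = x + (1 : P) • (z - x)
  rw [one_smul]
  abel

theorem IsPL.one : IsPL P (1 : A ≃o A) := ⟨∅, fun x y _ _ => ⟨1, AffOn.one x y⟩⟩

theorem IsPL.mul {g h : A ≃o A} (hg : IsPL P g) (hh : IsPL P h) : IsPL P (g * h) := by
  classical
  obtain ⟨F, hF⟩ := hg
  obtain ⟨F', hF'⟩ := hh
  refine ⟨F' ∪ F.image (fun z => h⁻¹ z), fun x y hxy hz => ?_⟩
  obtain ⟨q, hq⟩ := hF' x y hxy (fun z hz' => hz z (Finset.mem_union_left _ hz'))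
  obtain ⟨p, hp⟩ := hF (h x) (h y) (h.lt_iff_lt.mpr hxy) (fun z hz' => by
    rcases hz (h⁻¹ z) (Finset.mem_union_right _ (Finset.mem_image_of_mem _ hz')) with h1 | h1
    · exact Or.inl ((inv_le_iff h z x).mp h1)
    · exact Or.inr ((le_inv_iff h z y).mp h1))
  exact ⟨p * q, hq.mul hp⟩

theorem IsPL.inv {g : A ≃o A} (hg : IsPL P g) : IsPL P g⁻¹ := by
  classical
  obtain ⟨F, hF⟩ := hg
  refine ⟨F.image g, fun x y hxy hz => ?_⟩
  obtain ⟨p, hp⟩ := hF (g⁻¹ x) (g⁻¹ y) ((g⁻¹).lt_iff_lt.mpr hxy) (fun z hz' => by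
    rcases hz (g z) (Finset.mem_image_of_mem _ hz') with h1 | h1
    · exact Or.inl ((le_inv_iff g x z).mpr h1)
    · exact Or.inr ((inv_le_iff g y z).mpr h1))
  exact ⟨p⁻¹, hp.inv⟩

theorem IsPL.glue {g h : A ≃o A} (hg : IsPL P g) (hh : IsPL P h) (a : A) (H : g a = h a) :
    IsPL P (glue g h a H) := by
  classical
  obtain ⟨F, hF⟩ := hg
  obtain ⟨F', hF'⟩ := hh
  refine ⟨insert a (F ∪ F'), fun x y hxy hz => ?_⟩
  rcases hz a (Finset.mem_insert_self _ _) with h1 | h1
  · obtain ⟨p, hp⟩ := hF' x y hxy (fun z hz' => hz z (Finset.mem_insert_of_mem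
      (Finset.mem_union_right _ hz')))
    refine ⟨p, fun z hz1 hz2 => ?_⟩
    rw [glue_ge H (h1.trans hz1), glue_ge H h1]
    exact hp z hz1 hz2
  · obtain ⟨p, hp⟩ := hF x y hxy (fun z hz' => hz z (Finset.mem_insert_of_mem
      (Finset.mem_union_left _ hz')))
    refine ⟨p, fun z hz1 hz2 => ?_⟩
    rw [glue_le H (hz2.trans h1), glue_le H (hxy.le.trans h1)]
    exact hp z hz1 hz2

variable [IsOrderedAddMonoid A] [Slopes A P]

theorem IsPL.aff (α : Af A P) : IsPL P (aff α) := by
  refine ⟨∅, fun x y _ _ => ⟨α.p, fun z _ _ => ?_⟩⟩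
  rw [aff_apply, aff_apply, smul_sub]
  abel

theorem AffOn.unique_right {g : A ≃o A} {p q : P} {a b c : A} (hb : a < b) (hc : a < c)
    (h : AffOn g p a b) (h' : AffOn g q a c) : p = q := by
  have h1 := h (min b c) (le_min hb.le hc.le) (min_le_left _ _)
  have h2 := h' (min b c) (le_min hb.le hc.le) (min_le_right _ _)
  rw [h1] at h2
  exact smul_cancel (sub_pos.mpr (lt_min hb hc)) (add_left_cancel h2)

theorem AffOn.unique_left {g : A ≃o A} {p q : P} {a b c : A} (hb : b < a) (hc : c < a)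
    (h : AffOn g p b a) (h' : AffOn g q c a) : p = q := by
  have hm : max b c < a := max_lt hb hc
  exact AffOn.unique_right hm hm (h.sub (le_max_left _ _) le_rfl) (h'.sub (le_max_right _ _) le_rfl)

open Classical in
/-- The slope to the right of `a`. -/
noncomputable def sR (P : Type) [CommGroup P] [DistribMulAction P A] (g : A ≃o A) (a : A) : P :=
  if h : ∃ (p : P) (b : A), a < b ∧ AffOn g p a b then h.choose else 1

open Classical in
/-- The slope to the left of `a`. -/
noncomputable def sL (P : Type) [CommGroup P] [DistribMulAction P A] (g : A ≃o A) (a : A) : P :=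
  if h : ∃ (p : P) (b : A), b < a ∧ AffOn g p b a then h.choose else 1

theorem sR_eq {g : A ≃o A} {p : P} {a b : A} (hb : a < b) (h : AffOn g p a b) : sR P g a = p := by
  have h1 : ∃ (p : P) (b : A), a < b ∧ AffOn g p a b := ⟨p, b, hb, h⟩
  unfold sR
  rw [dif_pos h1]
  obtain ⟨c, hc, h2⟩ := h1.choose_spec
  exact AffOn.unique_right hc hb h2 h

theorem sL_eq {g : A ≃o A} {p : P} {a b : A} (hb : b < a) (h : AffOn g p b a) : sL P g a = p := by
  have h1 : ∃ (p : P) (b : A), b < a ∧ AffOn g p b a := ⟨p, b, hb, h⟩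
  unfold sL
  rw [dif_pos h1]
  obtain ⟨c, hc, h2⟩ := h1.choose_spec
  exact AffOn.unique_left hc hb h2 h

variable [Nontrivial A]

omit [CommGroup P] [DistribMulAction P A] [Slopes A P] in
theorem exists_pos' : ∃ e : A, 0 < e := by
  obtain ⟨x, hx⟩ := exists_ne (0 : A)
  rcases lt_or_gt_of_ne hx with h | h
  · exact ⟨-x, neg_pos.mpr h⟩
  · exact ⟨x, h⟩

omit [CommGroup P] [DistribMulAction P A] [Slopes A P] in
/-- There are no points of a finite set in a small interval to the right. -/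
theorem gap_right (F : Finset A) (a : A) : ∃ b, a < b ∧ ∀ z ∈ F, z ≤ a ∨ b ≤ z := by
  classical
  obtain ⟨e, he⟩ := exists_pos' (A := A)
  set S := insert (a + e) (F.filter (a < ·)) with hS
  have hne : S.Nonempty := ⟨a + e, Finset.mem_insert_self _ _⟩
  refine ⟨S.min' hne, ?_, fun z hz => ?_⟩
  · have h1 : S.min' hne = a + e ∨ S.min' hne ∈ F.filter (a < ·) :=
      Finset.mem_insert.mp (Finset.min'_mem S hne)
    rcases h1 with h1 | h1
    · rw [h1]
      exact lt_add_of_pos_right a he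
    · exact (Finset.mem_filter.mp h1).2
  · rcases le_or_gt z a with h1 | h1
    · exact Or.inl h1
    · exact Or.inr (Finset.min'_le _ _ (Finset.mem_insert_of_mem (Finset.mem_filter.mpr ⟨hz, h1⟩)))

omit [CommGroup P] [DistribMulAction P A] [Slopes A P] in
/-- There are no points of a finite set in a small interval to the left. -/
theorem gap_left (F : Finset A) (a : A) : ∃ b, b < a ∧ ∀ z ∈ F, z ≤ b ∨ a ≤ z := by
  classical
  obtain ⟨e, he⟩ := exists_pos' (A := A)
  set S := insert (a - e) (F.filter (· < a)) with hS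
  have hne : S.Nonempty := ⟨a - e, Finset.mem_insert_self _ _⟩
  refine ⟨S.max' hne, ?_, fun z hz => ?_⟩
  · have h1 : S.max' hne = a - e ∨ S.max' hne ∈ F.filter (· < a) :=
      Finset.mem_insert.mp (Finset.max'_mem S hne)
    rcases h1 with h1 | h1
    · rw [h1]
      exact sub_lt_self a he
    · exact (Finset.mem_filter.mp h1).2
  · rcases lt_or_ge z a with h1 | h1
    · exact Or.inl (Finset.le_max' _ _ (Finset.mem_insert_of_mem (Finset.mem_filter.mpr ⟨hz, h1⟩)))
    · exact Or.inr h1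

theorem IsPL.sR {g : A ≃o A} (hg : IsPL P g) (a : A) : ∃ b, a < b ∧ AffOn g (sR P g a) a b := by
  obtain ⟨F, hF⟩ := hg
  obtain ⟨b, hb, h1⟩ := gap_right F a
  obtain ⟨p, hp⟩ := hF a b hb h1
  rw [sR_eq hb hp]
  exact ⟨b, hb, hp⟩

theorem IsPL.sL {g : A ≃o A} (hg : IsPL P g) (a : A) : ∃ b, b < a ∧ AffOn g (sL P g a) b a := by
  obtain ⟨F, hF⟩ := hg
  obtain ⟨b, hb, h1⟩ := gap_left F a
  obtain ⟨p, hp⟩ := hF b a hb h1
  rw [sL_eq hb hp]
  exact ⟨b, hb, hp⟩

theorem sR_mul {g h : A ≃o A} (hg : IsPL P g) (hh : IsPL P h) (a : A) :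
    Pool.Agent.H417.PL.sR P (g * h) a =
      Pool.Agent.H417.PL.sR P g (h a) * Pool.Agent.H417.PL.sR P h a := by
  obtain ⟨b, hb, h1⟩ := hh.sR a
  obtain ⟨c, hc, h2⟩ := hg.sR (h a)
  have h3 : a < min b (h⁻¹ c) := lt_min hb (by
    rw [← h.lt_iff_lt, app_inv]
    exact hc)
  apply sR_eq h3
  refine (h1.sub le_rfl (min_le_left _ _)).mul (h2.sub le_rfl ?_)
  rw [← le_inv_iff]
  exact min_le_right _ _

theorem sL_mul {g h : A ≃o A} (hg : IsPL P g) (hh : IsPL P h) (a : A) :
    Pool.Agent.H417.PL.sL P (g * h) a =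
      Pool.Agent.H417.PL.sL P g (h a) * Pool.Agent.H417.PL.sL P h a := by
  obtain ⟨b, hb, h1⟩ := hh.sL a
  obtain ⟨c, hc, h2⟩ := hg.sL (h a)
  have h3 : max b (h⁻¹ c) < a := max_lt hb ((inv_lt_iff h c a).mpr hc)
  apply sL_eq h3
  refine (h1.sub (le_max_left _ _) le_rfl).mul (h2.sub ?_ le_rfl)
  rw [← inv_le_iff]
  exact le_max_right _ _

theorem s_eq {g : A ≃o A} {F : Finset A}
    (hF : ∀ x y, x < y → (∀ z ∈ F, z ≤ x ∨ y ≤ z) → ∃ p : P, AffOn g p x y) {a : A}
    (ha : a ∉ F) : Pool.Agent.H417.PL.sR P g a = Pool.Agent.H417.PL.sL P g a := by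
  obtain ⟨b, hb, h1⟩ := gap_right F a
  obtain ⟨c, hc, h2⟩ := gap_left F a
  obtain ⟨p, hp⟩ := hF c b (hc.trans hb) (fun z hz => by
    rcases h1 z hz with h3 | h3
    · rcases h2 z hz with h4 | h4
      · exact Or.inl h4
      · exact absurd (le_antisymm h3 h4 ▸ hz) ha
    · exact Or.inr h3)
  rw [sR_eq hb (hp.sub hc.le le_rfl), sL_eq hc (hp.sub le_rfl hb.le)]

end PL

section Cut

variable {A P : Type} [AddCommGroup A] [LinearOrder A] [IsOrderedAddMonoid A] [CommGroup P]
  [DistribMulAction P A] [Slopes A P]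

/-- The map which is `g` to the left of `a`, and affine with slope `p` to the right of `a`. -/
def cut (g : A ≃o A) (a : A) (p : P) : A ≃o A :=
  glue g (aff ⟨g a - p • a, p⟩) a (by rw [aff_apply]; simp)

theorem cut_le (g : A ≃o A) (a : A) (p : P) {x : A} (hx : x ≤ a) : cut g a p x = g x :=
  glue_le _ hx

theorem cut_ge (g : A ≃o A) (a : A) (p : P) {x : A} (hx : a ≤ x) :
    cut g a p x = g a + p • (x - a) := by
  have h1 : cut g a p x = aff ⟨g a - p • a, p⟩ x := glue_ge _ hx
  rw [h1, aff_apply, smul_sub]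
  change g a - p • a + p • x = g a + (p • x - p • a)
  abel

theorem IsPL.cut {g : A ≃o A} (hg : IsPL P g) (a : A) (p : P) : IsPL P (cut g a p) :=
  hg.glue (IsPL.aff _) _ _

theorem cut_mul (g h : A ≃o A) (a : A) (p q : P) :
    cut (g * h) a (p * q) = cut g (h a) p * cut h a q := by
  ext x
  rcases le_total x a with hx | hx
  · rw [mul_app, cut_le _ _ _ hx, cut_le _ _ _ hx, cut_le _ _ _ (h.le_iff_le.mpr hx), mul_app]
  · have h1 : h a ≤ h a + q • (x - a) := by
      have h2 := smul_le q (sub_nonneg.mpr hx)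
      rw [smul_zero] at h2
      exact le_add_of_nonneg_right h2
    rw [mul_app, cut_ge _ _ _ hx, cut_ge _ _ _ hx, cut_ge _ _ _ h1, mul_app, add_sub_cancel_left,
      mul_smul]

/-- The cut does not change inside of an interval on which the map is affine. -/
theorem cut_eq {g : A ≃o A} {p : P} {a b : A} (hab : a ≤ b) (h : AffOn g p a b) :
    cut g a p = cut g b p := by
  ext x
  rcases le_total x a with hx | hx
  · rw [cut_le _ _ _ hx, cut_le _ _ _ (hx.trans hab)]
  · rcases le_total x b with hx' | hx'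
    · rw [cut_ge _ _ _ hx, cut_le _ _ _ hx', h x hx hx']
    · rw [cut_ge _ _ _ hx, cut_ge _ _ _ hx', h b hab le_rfl, add_assoc, ← smul_add]
      congr 2
      abel

theorem cut_self {g : A ≃o A} {p : P} {a : A} (h : ∀ x, a ≤ x → g x = g a + p • (x - a)) :
    cut g a p = g := by
  ext x
  rcases le_total x a with hx | hx
  · rw [cut_le _ _ _ hx]
  · rw [cut_ge _ _ _ hx, h x hx]

theorem cut_one (a : A) : cut (1 : A ≃o A) a (1 : P) = 1 := by
  apply cut_self
  intro x _
  change x = a + (1 : P) • (x - a)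
  rw [one_smul]
  abel

end Cut

end Pool.Agent.H417.PL
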