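import Pool.Agent.H417.PL.Line
import Pool.Agent.H417.PL.Free

/-!
The groups of Bieri and Strebel of piecewise linear homeomorphisms of the real line.
-/

set_option autoImplicit false
set_option linter.unusedSectionVars false

namespace Pool.Agent.H417.PL

section Ind

variable {A P : Type} [AddCommGroup A] [LinearOrder A] [IsOrderedAddMonoid A] [CommGroup P]
  [DistribMulAction P A] [Slopes A P] [Nontrivial A]

/-- The piecewise linear automorphisms are products of affine maps and of maps with one break. -/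
theorem pl_ind {C : (A ≃o A) → Prop} (haff : ∀ α : Af A P, C (aff α))
    (hcut : ∀ (a : A) (p : P) (g : A ≃o A), C g → C (cut 1 a p * g)) (g : A ≃o A)
    (hg : IsPL P g) : C g := by
  classical
  obtain ⟨F, hF⟩ := hg
  have key : ∀ (n : ℕ) (g : A ≃o A) (F : Finset A), F.card = n →
      (∀ x y, x < y → (∀ z ∈ F, z ≤ x ∨ y ≤ z) → ∃ p : P, AffOn g p x y) → C g := by
    intro n
    induction n with
    | zero =>
      intro g F hn hF
      rw [Finset.card_eq_zero] at hn
      subst hn
      obtain ⟨e, he⟩ := exists_pos' (A := A)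
      obtain ⟨p, hp⟩ := hF 0 e he (fun z hz => absurd hz (Finset.notMem_empty z))
      have h1 : g = aff (⟨g 0, p⟩ : Af A P) := by
        ext z
        rw [aff_apply]
        change g z = g 0 + p • z
        have h2 : min 0 z < max e z := (min_le_left _ _).trans_lt (he.trans_le (le_max_left _ _))
        obtain ⟨q, hq⟩ := hF (min 0 z) (max e z) h2 (fun z hz => absurd hz (Finset.notMem_empty z))
        have h3 : q = p := AffOn.unique_right he he
          (hq.sub (min_le_left _ _) (le_max_left _ _)) hp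
        have h4 := hq z (min_le_right _ _) (le_max_right _ _)
        have h5 := hq 0 (min_le_left _ _) (he.le.trans (le_max_left _ _))
        rw [h4, h5, h3]
        simp only [smul_sub, smul_zero]
        abel
      rw [h1]
      exact haff _
    | succ n ih =>
      intro g F hn hF
      have hne : F.Nonempty := by
        rw [← Finset.card_pos, hn]
        omega
      set a := F.max' hne with ha
      have haF : a ∈ F := Finset.max'_mem _ _
      have hle : ∀ z ∈ F, z ≤ a := fun z hz => Finset.le_max' _ _ hz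
      obtain ⟨p, hp⟩ := aff_beyond hF a hle
      have hgPL : IsPL P g := ⟨F, hF⟩
      obtain ⟨b, hb, hq⟩ := hgPL.sL a
      set q := sL P g a with hqd
      have h1 : C (cut g a q) := by
        apply ih (cut g a q) (F.erase a) (by
          rw [Finset.card_erase_of_mem haF, hn]
          rfl)
        intro x y hxy hz
        rcases le_total y a with hya | hya
        · obtain ⟨p', hp'⟩ := hF x y hxy (fun z hz' => by
            by_cases hza : z = a
            · exact Or.inr (hza ▸ hya)
            · exact hz z (Finset.mem_erase.mpr ⟨hza, hz'⟩))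
          refine ⟨p', fun z hz1 hz2 => ?_⟩
          rw [cut_le _ _ _ (hz2.trans hya), cut_le _ _ _ (hxy.le.trans hya)]
          exact hp' z hz1 hz2
        · refine ⟨q, fun z hz1 hz2 => ?_⟩
          rcases le_total a x with hax | hax
          · rw [cut_ge _ _ _ (hax.trans hz1), cut_ge _ _ _ hax]
            simp only [smul_sub]
            abel
          · have h2 : AffOn g q x a := by
              rcases hax.lt_or_eq with hax | rfl
              · obtain ⟨p', hp'⟩ := hF x a hax (fun w hw => by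
                  by_cases hwa : w = a
                  · exact Or.inr hwa.ge
                  · rcases hz w (Finset.mem_erase.mpr ⟨hwa, hw⟩) with h | h
                    · exact Or.inl h
                    · exact Or.inr (hya.trans h))
                have h3 : p' = q := AffOn.unique_left hax hb hp' hq
                rw [← h3]
                exact hp'
              · intro w hw1 hw2
                have h3 := le_antisymm hw2 hw1
                rw [h3, sub_self, smul_zero, add_zero]
            rw [cut_le _ _ _ hax]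
            rcases le_total z a with hza | hza
            · rw [cut_le _ _ _ hza]
              exact h2 z hz1 hza
            · rw [cut_ge _ _ _ hza, h2 a hax le_rfl]
              simp only [smul_sub]
              abel
      have h2 : g = cut 1 (g a) (p * q⁻¹) * cut g a q := by
        ext x
        rw [mul_app]
        rcases le_total x a with hx | hx
        · rw [cut_le g _ _ hx, cut_le _ _ _ (g.le_iff_le.mpr hx)]
          rfl
        · have h3 : g a ≤ g a + q • (x - a) := by
            have h4 := smul_le q (sub_nonneg.mpr hx)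
            rw [smul_zero] at h4
            exact le_add_of_nonneg_right h4
          rw [cut_ge g _ _ hx, cut_ge _ _ _ h3, add_sub_cancel_left, mul_smul, inv_smul_smul,
            hp x x hx le_rfl]
          rfl
      rw [h2]
      exact hcut _ _ _ h1
  exact key _ g F rfl hF

end Ind

/-- The slopes are positive, and they preserve `A`. -/
class BSData (A : AddSubgroup ℝ) (P : Subgroup ℝˣ) : Prop where
  pos : ∀ p ∈ P, 0 < ((p : ℝˣ) : ℝ)
  mul : ∀ p ∈ P, ∀ a ∈ A, ((p : ℝˣ) : ℝ) * a ∈ A

/-- **The groups of Bieri and Strebel**: the group of the order preserving homeomorphisms `g` of the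
real line which preserve `A`, are trivial outside of `I`, and for which there is a finite subset `F` of
`A` such that `g` is affine with slope in `P` on every interval which has no element of `F` in its
interior. -/
def BS (A : AddSubgroup ℝ) (P : Subgroup ℝˣ) (I : Set ℝ) : Subgroup (ℝ ≃o ℝ) where
  carrier := {g | (∀ x, g x ∈ A ↔ x ∈ A) ∧ (∀ x, x ∉ I → g x = x) ∧
    ∃ F : Finset ℝ, (∀ z ∈ F, z ∈ A) ∧ ∀ x y, x < y → (∀ z ∈ F, z ≤ x ∨ y ≤ z) →
      ∃ p : P, ∀ z, x ≤ z → z ≤ y → g z = g x + ((p : ℝˣ) : ℝ) * (z - x)}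
  one_mem' := ⟨fun _ => Iff.rfl, fun _ _ => rfl, ∅, fun z hz => absurd hz (Finset.notMem_empty z),
    fun x y _ _ => ⟨1, fun z _ _ => AffOn.one (P := P) x y z ‹_› ‹_›⟩⟩
  mul_mem' := fun {g h} hg hh => by
    classical
    obtain ⟨hg1, hg2, F, hF1, hF2⟩ := hg
    obtain ⟨hh1, hh2, F', hF'1, hF'2⟩ := hh
    refine ⟨fun x => (hg1 _).trans (hh1 x), fun x hx => ?_, F' ∪ F.image (fun z => h⁻¹ z), ?_, ?_⟩
    · rw [mul_app, hh2 x hx, hg2 x hx]
    · intro z hz
      rcases Finset.mem_union.mp hz with hz | hz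
      · exact hF'1 z hz
      · obtain ⟨w, hw, rfl⟩ := Finset.mem_image.mp hz
        rw [← hh1, app_inv]
        exact hF1 w hw
    · intro x y hxy hz
      obtain ⟨q, hq⟩ := hF'2 x y hxy (fun z hz' => hz z (Finset.mem_union_left _ hz'))
      obtain ⟨p, hp⟩ := hF2 (h x) (h y) (h.lt_iff_lt.mpr hxy) (fun z hz' => by
        rcases hz (h⁻¹ z) (Finset.mem_union_right _ (Finset.mem_image_of_mem _ hz')) with h1 | h1
        · exact Or.inl ((inv_le_iff h z x).mp h1)
        · exact Or.inr ((le_inv_iff h z y).mp h1))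
      exact ⟨p * q, AffOn.mul (P := P) (show AffOn h q x y from hq)
        (show AffOn g p (h x) (h y) from hp)⟩
  inv_mem' := fun {g} hg => by
    classical
    obtain ⟨hg1, hg2, F, hF1, hF2⟩ := hg
    refine ⟨fun x => ?_, fun x hx => ?_, F.image g, ?_, ?_⟩
    · rw [← hg1, app_inv]
    · conv_lhs => rw [← hg2 x hx]
      exact inv_app g x
    · intro z hz
      obtain ⟨w, hw, rfl⟩ := Finset.mem_image.mp hz
      exact (hg1 w).mpr (hF1 w hw)
    · intro x y hxy hz
      obtain ⟨p, hp⟩ := hF2 (g⁻¹ x) (g⁻¹ y) ((g⁻¹).lt_iff_lt.mpr hxy) (fun z hz' => by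
        rcases hz (g z) (Finset.mem_image_of_mem _ hz') with h1 | h1
        · exact Or.inl ((le_inv_iff g x z).mpr h1)
        · exact Or.inr ((inv_le_iff g y z).mpr h1))
      exact ⟨p⁻¹, AffOn.inv (P := P) (show AffOn g p (g⁻¹ x) (g⁻¹ y) from hp)⟩

section Data

variable {A : AddSubgroup ℝ} {P : Subgroup ℝˣ} [BSData A P]

instance : DistribMulAction P A where
  smul p a := ⟨((p : ℝˣ) : ℝ) * a.1, BSData.mul _ p.2 _ a.2⟩
  one_smul a := Subtype.ext (one_mul a.1)
  mul_smul p q a := Subtype.ext (mul_assoc _ _ _)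
  smul_zero p := Subtype.ext (mul_zero _)
  smul_add p a b := Subtype.ext (mul_add _ _ _)

theorem smul_val (p : P) (a : A) : (p • a).1 = ((p : ℝˣ) : ℝ) * a.1 := rfl

theorem smulR (p : P) (x : ℝ) : p • x = ((p : ℝˣ) : ℝ) * x := rfl

theorem slopesR (A : AddSubgroup ℝ) (P : Subgroup ℝˣ) [BSData A P] : Slopes ℝ P where
  pos p a ha := mul_pos (BSData.pos (A := A) _ p.2) ha
  free p a ha h := by
    have h1 : ((p : ℝˣ) : ℝ) * a = 1 * a := by
      rw [one_mul]
      exact h
    have h2 := mul_right_cancel₀ ha.ne' h1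
    exact Subtype.ext (Units.ext h2)

instance : Slopes A P where
  pos p a ha := by
    have h := (slopesR A P).pos p a.1 ha
    exact h
  free p a ha h := (slopesR A P).free p a.1 ha (congrArg Subtype.val h)

/-- The restriction to `A`. -/
noncomputable def res (A : AddSubgroup ℝ) (P : Subgroup ℝˣ) (I : Set ℝ) : BS A P I →* (A ≃o A) where
  toFun g := StrictMono.orderIsoOfRightInverse (fun a => (⟨g.1 a.1, (g.2.1 a.1).mpr a.2⟩ : A))
    (fun _ _ h => g.1.strictMono h)
    (fun a => ⟨g.1⁻¹ a.1, (g.2.1 _).mp (by rw [app_inv]; exact a.2)⟩)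
    (fun a => Subtype.ext (app_inv g.1 a.1))
  map_one' := rfl
  map_mul' _ _ := rfl

theorem res_apply {I : Set ℝ} (g : BS A P I) (a : A) : (res A P I g a).1 = g.1 a.1 := rfl

theorem res_pl {I : Set ℝ} (g : BS A P I) : IsPL P (res A P I g) := by
  classical
  obtain ⟨-, -, F, hF1, hF2⟩ := g.2
  refine ⟨F.attach.image (fun z => ⟨z.1, hF1 z.1 z.2⟩), fun x y hxy hz => ?_⟩
  obtain ⟨p, hp⟩ := hF2 x.1 y.1 hxy (fun z hz' => hz ⟨z, hF1 z hz'⟩
    (Finset.mem_image.mpr ⟨⟨z, hz'⟩, Finset.mem_attach _ _, rfl⟩))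
  exact ⟨p, fun z hz1 hz2 => Subtype.ext (hp z.1 hz1 hz2)⟩

end Data

section Dense

variable {A : AddSubgroup ℝ} {P : Subgroup ℝˣ} [BSData A P] (hd : Dense (A : Set ℝ))

include hd in
/-- An automorphism which is trivial on the elements of `A` near `x` fixes `x`. -/
theorem fix_of_dense {φ : ℝ ≃o ℝ} {x b c : ℝ} (hb : b < x) (hc : x < c)
    (h : ∀ a ∈ A, b < a → a < c → φ a = a) : φ x = x := by
  rcases lt_trichotomy (φ x) x with h1 | h1 | h1
  · exfalso
    obtain ⟨a, ha, h2, h3⟩ := hd.exists_between (max_lt h1 hb)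
    have h4 := h a ha ((le_max_right _ _).trans_lt h2) (h3.trans hc)
    have h5 := φ.lt_iff_lt.mpr h3
    rw [h4] at h5
    exact lt_asymm h5 ((le_max_left _ _).trans_lt h2)
  · exact h1
  · exfalso
    obtain ⟨a, ha, h2, h3⟩ := hd.exists_between (lt_min h1 hc)
    have h4 := h a ha (hb.trans h2) (h3.trans_le (min_le_right _ _))
    have h5 := φ.lt_iff_lt.mpr h2
    rw [h4] at h5
    exact lt_asymm h5 (h3.trans_le (min_le_left _ _))

include hd in
theorem res_inj (I : Set ℝ) : Function.Injective (res A P I) := by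
  rw [injective_iff_map_eq_one]
  intro g hg
  apply Subtype.ext
  apply RelIso.ext
  intro x
  apply fix_of_dense hd (sub_one_lt x) (lt_add_one x)
  intro a ha _ _
  have h := congrArg (fun f : A ≃o A => (f ⟨a, ha⟩).1) hg
  exact h

/-- Every piecewise linear automorphism of `A` extends. -/
theorem res_surj [Nontrivial A] (g : A ≃o A) (hg : IsPL P g) :
    ∃ φ, res A P Set.univ φ = g := by
  classical
  have := slopesR A P
  refine pl_ind (P := P) (C := fun g => ∃ φ, res A P Set.univ φ = g) ?_ ?_ g hg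
  · intro α
    have hmem : aff (⟨α.b.1, α.p⟩ : Af ℝ P) ∈ BS A P Set.univ := by
      refine ⟨fun x => ?_, fun x hx => absurd (Set.mem_univ x) hx, ∅,
        fun z hz => absurd hz (Finset.notMem_empty z), fun x y _ _ => ⟨α.p, fun z _ _ => ?_⟩⟩
      · rw [aff_apply]
        change α.b.1 + ((α.p : ℝˣ) : ℝ) * x ∈ A ↔ x ∈ A
        rw [A.add_mem_cancel_left α.b.2]
        constructor
        · intro h
          have h1 := BSData.mul (A := A) (P := P) _ (α.p⁻¹).2 _ h
          rwa [← mul_assoc, InvMemClass.coe_inv, Units.inv_mul, one_mul] at h1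
        · exact fun h => BSData.mul _ α.p.2 _ h
      · rw [aff_apply, aff_apply]
        change α.b.1 + ((α.p : ℝˣ) : ℝ) * z = α.b.1 + ((α.p : ℝˣ) : ℝ) * x + _
        ring
    exact ⟨⟨_, hmem⟩, rfl⟩
  · rintro a p g ⟨φ, rfl⟩
    have hmem : cut (1 : ℝ ≃o ℝ) a.1 p ∈ BS A P Set.univ := by
      refine ⟨fun x => ?_, fun x hx => absurd (Set.mem_univ x) hx, {a.1},
        fun z hz => by rw [Finset.mem_singleton.mp hz]; exact a.2, fun x y hxy hz => ?_⟩
      · rcases le_total x a.1 with hx | hx
        · rw [cut_le _ _ _ hx]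
          exact Iff.rfl
        · rw [cut_ge _ _ _ hx]
          change a.1 + ((p : ℝˣ) : ℝ) * (x - a.1) ∈ A ↔ x ∈ A
          rw [A.add_mem_cancel_left a.2]
          constructor
          · intro h
            have h1 := BSData.mul (A := A) (P := P) _ (p⁻¹).2 _ h
            rw [← mul_assoc, InvMemClass.coe_inv, Units.inv_mul, one_mul] at h1
            have h2 := add_mem h1 a.2
            rwa [sub_add_cancel] at h2
          · exact fun h => BSData.mul _ p.2 _ (sub_mem h a.2)
      · rcases hz a.1 (Finset.mem_singleton_self _) with h | h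
        · refine ⟨p, fun z hz1 hz2 => ?_⟩
          rw [cut_ge _ _ _ (h.trans hz1), cut_ge _ _ _ h]
          change a.1 + ((p : ℝˣ) : ℝ) * (z - a.1) = a.1 + ((p : ℝˣ) : ℝ) * (x - a.1) + _
          ring
        · refine ⟨1, fun z hz1 hz2 => ?_⟩
          rw [cut_le _ _ _ (hz2.trans h), cut_le _ _ _ (hxy.le.trans h)]
          exact AffOn.one (P := P) x y z hz1 hz2
    refine ⟨⟨_, hmem⟩ * φ, ?_⟩
    rw [map_mul]
    congr 1
    apply RelIso.ext
    intro x
    apply Subtype.ext
    rw [res_apply]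
    change cut (1 : ℝ ≃o ℝ) a.1 p x.1 = _
    rcases le_total x a with hx | hx
    · rw [cut_le _ _ _ (show x.1 ≤ a.1 from hx), cut_le _ _ _ hx]
      rfl
    · rw [cut_ge _ _ _ (show a.1 ≤ x.1 from hx), cut_ge _ _ _ hx]
      rfl

/-- The translation by `b`. -/
noncomputable def trA (b : A) : A ≃o A := aff (⟨b, 1⟩ : Af A P)

theorem trA_apply (b x : A) : trA (P := P) b x = b + x := by
  change b + (1 : P) • x = b + x
  rw [one_smul]

theorem trA_inv (b x : A) : (trA (P := P) b)⁻¹ x = x - b := by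
  have h := inv_app (trA (P := P) b) (x - b)
  rwa [trA_apply, add_sub_cancel] at h

/-- The restriction, conjugated with a translation. -/
noncomputable def resT (P : Subgroup ℝˣ) [BSData A P] (I : Set ℝ) (b : A) :
    BS A P I →* (A ≃o A) where
  toFun g := (trA (P := P) b)⁻¹ * res A P I g * trA (P := P) b
  map_one' := by
    rw [map_one, mul_one, inv_mul_cancel]
  map_mul' g h := by
    rw [map_mul]
    group

theorem resT_val {I : Set ℝ} (b : A) (g : BS A P I) (x : A) :
    (resT P I b g x).1 = g.1 (b.1 + x.1) - b.1 := by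
  change ((trA (P := P) b)⁻¹ (res A P I g (trA (P := P) b x))).1 = _
  rw [trA_inv, trA_apply]
  rfl

theorem resT_pl {I : Set ℝ} (b : A) (g : BS A P I) : IsPL P (resT P I b g) :=
  ((IsPL.aff _).inv.mul (res_pl g)).mul (IsPL.aff _)

include hd in
/-- The identification with a group of automorphisms of `A`. -/
theorem bs_iso [Nontrivial A] (I : Set ℝ) (H : Subgroup (A ≃o A)) (b : A)
    (hH : ∀ h ∈ H, IsPL P h) (h1 : ∀ g : BS A P I, resT P I b g ∈ H)
    (h2 : ∀ (φ : BS A P Set.univ) (h : A ≃o A), h ∈ H →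
      (∀ x : A, φ.1 x.1 = (h (x - b)).1 + b.1) → ∀ x, x ∉ I → φ.1 x = x) :
    Nonempty (BS A P I ≃* H) := by
  refine ⟨MulEquiv.ofBijective ((resT P I b).codRestrict H h1) ⟨?_, ?_⟩⟩
  · rw [injective_iff_map_eq_one]
    intro g hg
    have h3 : (trA (P := P) b)⁻¹ * res A P I g * trA (P := P) b = 1 := congrArg Subtype.val hg
    have h4 : res A P I g = 1 := by
      have h5 : res A P I g = trA (P := P) b * ((trA (P := P) b)⁻¹ * res A P I g *
          trA (P := P) b) * (trA (P := P) b)⁻¹ := by group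
      rw [h5, h3]
      group
    exact (injective_iff_map_eq_one _).mp (res_inj hd I) g h4
  · rintro ⟨h, hh⟩
    obtain ⟨φ, hφ⟩ := res_surj (P := P) (trA (P := P) b * h * (trA (P := P) b)⁻¹)
      (((IsPL.aff _).mul (hH h hh)).mul (IsPL.aff _).inv)
    have h3 : ∀ x : A, φ.1 x.1 = (h (x - b)).1 + b.1 := by
      intro x
      have h4 := congrArg (fun f : A ≃o A => (f x).1) hφ
      have h5 : (trA (P := P) b (h ((trA (P := P) b)⁻¹ x))).1 = (h (x - b)).1 + b.1 := by
        rw [trA_inv, trA_apply, add_comm]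
        rfl
      exact h4.trans h5
    have h4 := h2 φ h hh h3
    refine ⟨⟨φ.1, φ.2.1, h4, φ.2.2.2⟩, ?_⟩
    apply Subtype.ext
    change (trA (P := P) b)⁻¹ * res A P I ⟨φ.1, φ.2.1, h4, φ.2.2.2⟩ * trA (P := P) b = h
    have h5 : res A P I ⟨φ.1, φ.2.1, h4, φ.2.2.2⟩ = trA (P := P) b * h * (trA (P := P) b)⁻¹ := hφ
    rw [h5]
    group

include hd in
theorem bs_line [Nontrivial A] : Nonempty (BS A P Set.univ ≃* PLine A P) :=
  bs_iso hd Set.univ (PLine A P) 0 (fun _ h => h) (fun g => resT_pl 0 g)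
    (fun _ _ _ _ x hx => absurd (Set.mem_univ x) hx)

include hd in
theorem bs_half [Nontrivial A] (b : A) : Nonempty (BS A P (Set.Ioi b.1) ≃* GP A P) := by
  apply bs_iso hd (Set.Ioi b.1) (GP A P) b (fun _ h => h.1)
  · intro g
    refine ⟨resT_pl b g, fun x hx => Subtype.ext ?_⟩
    have hx' : x.1 ≤ 0 := hx
    rw [resT_val, g.2.2.1 _ (fun h => by
      have h' : b.1 < b.1 + x.1 := h
      linarith)]
    ring
  · intro φ h hh h3 x hx
    have hxb : x ≤ b.1 := not_lt.mp hx
    have h4 : ∀ a : A, a ≤ b → φ.1 a.1 = a.1 := by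
      intro a hab
      rw [h3, hh.2 (a - b) (sub_nonpos.mpr hab)]
      change a.1 - b.1 + b.1 = a.1
      ring
    rcases hxb.lt_or_eq with h5 | h5
    · exact fix_of_dense hd (sub_one_lt x) h5 (fun a ha _ hab => h4 ⟨a, ha⟩ hab.le)
    · rw [h5]
      exact h4 b le_rfl

include hd in
theorem bs_interval [Nontrivial A] (b c : A) :
    Nonempty (BS A P (Set.Ioo b.1 c.1) ≃* GI A P (c - b)) := by
  apply bs_iso hd (Set.Ioo b.1 c.1) (GI A P (c - b)) b (fun _ h => h.1)
  · intro g
    refine ⟨resT_pl b g, fun x hx => Subtype.ext ?_, fun x hx => Subtype.ext ?_⟩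
    · have hx' : x.1 ≤ 0 := hx
      rw [resT_val, g.2.2.1 _ (fun h => by
        have h' : b.1 < b.1 + x.1 := h.1
        linarith)]
      ring
    · have hx' : c.1 - b.1 ≤ x.1 := hx
      rw [resT_val, g.2.2.1 _ (fun h => by
        have h' : b.1 + x.1 < c.1 := h.2
        linarith)]
      ring
  · intro φ h hh h3 x hx
    have h4 : ∀ a : A, a ≤ b → φ.1 a.1 = a.1 := by
      intro a hab
      rw [h3, hh.2.1 (a - b) (sub_nonpos.mpr hab)]
      change a.1 - b.1 + b.1 = a.1
      ring
    have h4' : ∀ a : A, c ≤ a → φ.1 a.1 = a.1 := by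
      intro a hab
      rw [h3, hh.2.2 (a - b) (sub_le_sub_right hab b)]
      change a.1 - b.1 + b.1 = a.1
      ring
    rcases le_or_gt x b.1 with hxb | hxb
    · rcases hxb.lt_or_eq with h5 | h5
      · exact fix_of_dense hd (sub_one_lt x) h5 (fun a ha _ hab => h4 ⟨a, ha⟩ hab.le)
      · rw [h5]
        exact h4 b le_rfl
    · have hxc : c.1 ≤ x := not_lt.mp (fun h => hx ⟨hxb, h⟩)
      rcases hxc.lt_or_eq with h5 | h5
      · exact fix_of_dense hd h5 (lt_add_one x) (fun a ha hab _ => h4' ⟨a, ha⟩ hab.le)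
      · rw [← h5]
        exact h4' c le_rfl

end Dense

section Main

open CategoryTheory Pool.Agent.Y483 Pool.Agent.R615.KU Pool.Agent.Y483.PW

variable (A : AddSubgroup ℝ) (P : Subgroup ℝˣ) [BSData A P]

include A in
theorem exists_gt_one {p : ℝˣ} (hp : p ∈ P) (h1 : p ≠ 1) :
    ∃ r : P, 1 < ((r : ℝˣ) : ℝ) := by
  have h0 := BSData.pos (A := A) _ hp
  rcases lt_trichotomy (p : ℝ) 1 with h | h | h
  · refine ⟨⟨p⁻¹, inv_mem hp⟩, ?_⟩
    change 1 < ((p⁻¹ : ℝˣ) : ℝ)
    rw [Units.val_inv_eq_inv_val]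
    exact (one_lt_inv₀ h0).mpr h
  · exact absurd (Units.ext h) h1
  · exact ⟨⟨p, hp⟩, h⟩

theorem arch_of {r : P} (hr : 1 < ((r : ℝˣ) : ℝ)) : Arch A r := by
  intro a b ha
  have ha' : (0 : ℝ) < a.1 := ha
  obtain ⟨k, hk⟩ := pow_unbounded_of_one_lt (b.1 / a.1) hr
  refine ⟨k, ?_⟩
  change b.1 < (((r ^ k : P) : ℝˣ) : ℝ) * a.1
  rw [div_lt_iff₀ ha'] at hk
  rw [SubmonoidClass.coe_pow, Units.val_pow_eq_pow_val]
  exact hk

theorem dense_of [hn : Nontrivial A] {r : P} (hr : 1 < ((r : ℝˣ) : ℝ)) :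
    Dense (A : Set ℝ) := by
  apply AddSubgroup.dense_of_no_min
  · obtain ⟨x, hx⟩ := exists_ne (0 : A)
    intro h
    apply hx
    apply Subtype.ext
    have h1 : x.1 ∈ (⊥ : AddSubgroup ℝ) := h ▸ x.2
    exact h1
  · rintro ⟨a, ⟨ha, ha0⟩, hmin⟩
    have h1 := (arch_of A P hr).inv_lt (a := ⟨a, ha⟩) ha0
    have h2 := hmin ⟨(r⁻¹ • (⟨a, ha⟩ : A)).2, Slopes.pos r⁻¹ (⟨a, ha⟩ : A) ha0⟩
    exact absurd h1 (not_lt.mpr h2)

instance [Nontrivial A] : Nontrivial (⊤ : AddSubgroup A) := inferInstance

/-- A rational slope different from one. -/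
theorem lin_of_rat {M : Type} [AddCommGroup M] [IsAddTorsionFree M] [Nontrivial M]
    [DistribMulAction P M] (ι : M →+ ℝ) (hι : Function.Injective ι)
    (hs : ∀ (p : P) (x : M), ι (p • x) = ((p : ℝˣ) : ℝ) * ι x) {p : P} {s : ℚ}
    (hps : ((p : ℝˣ) : ℝ) = s) (h0 : 0 < s) (h1 : s ≠ 1) (q : ℕ) :
    Function.Bijective (hqMap (Af.lin : P →* Af M P) q) ∧
      Function.Injective (hqMap (Af.pr : Af M P →* P) q) := by
  have hnum : (0 : ℤ) < s.num := Rat.num_pos.mpr h0
  have hm : s.num.toNat ≠ 0 := by omega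
  have hmn : s.num.toNat ≠ s.den := by
    intro h
    apply h1
    have h2 : s.num = (s.den : ℤ) := by omega
    have h3 := Rat.num_div_den s
    rw [h2] at h3
    rw [← h3]
    have h4 : ((s.den : ℤ) : ℚ) = (s.den : ℚ) := rfl
    rw [h4]
    exact div_self (Nat.cast_ne_zero.mpr s.den_nz)
  have hr : ∀ x : M, s.den • (p • x) = s.num.toNat • x := by
    intro x
    apply hι
    rw [map_nsmul, map_nsmul, hs, hps, nsmul_eq_mul, nsmul_eq_mul, ← mul_assoc]
    congr 1
    have h2 : (s.num.toNat : ℤ) = s.num := Int.toNat_of_nonneg hnum.le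
    have h3 : (s.num.toNat : ℝ) = ((s.num : ℚ) : ℝ) := by
      rw [← h2]
      norm_cast
    rw [h3]
    have h4 : (s.den : ℚ) * s = s.num := Rat.den_mul_eq_num s
    exact_mod_cast h4
  exact ⟨lin_bij p _ _ hm s.den_nz hmn hr q, pr_inj p _ _ hm s.den_nz hmn hr q⟩

end Main

end Pool.Agent.H417.PL
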