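import Pool.Agent.H417.PL.Inj
import Pool.Graph.R_pool_sql_team_seeded_620a6dc7.H651_Nov.LHM

/-!
The group of the elements which fix `e` and are linear to the right of `e`: its rational homology is
detected by the slopes at `e` and by the truncation.
-/

set_option autoImplicit false
set_option linter.unusedSectionVars false

namespace Pool.Agent.H417.PL

open Filter Pool.Agent.Y483 Pool.Agent.T6.H32.NC Finsupp

variable {A P : Type} [AddCommGroup A] [LinearOrder A] [IsOrderedAddMonoid A] [CommGroup P]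
  [DistribMulAction P A] [Slopes A P] [Nontrivial A] {e : A}

/-- The slopes at `e`. -/
noncomputable def sl (A P : Type) [AddCommGroup A] [LinearOrder A] [IsOrderedAddMonoid A]
    [CommGroup P] [DistribMulAction P A] [Slopes A P] [Nontrivial A] (e : A) :
    SS (A := A) (P := P) e →* P × P where
  toFun g := (sL P g.1.1 e, sR P g.1.1 e)
  map_one' := Prod.ext (sL_one e) (sR_one e)
  map_mul' g h := by
    have h1 : h.1.1 e = e := h.2.1
    apply Prod.ext
    · change sL P (g.1.1 * h.1.1) e = sL P g.1.1 e * sL P h.1.1 e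
      rw [sL_mul g.1.2.1 h.1.2.1, h1]
    · change sR P (g.1.1 * h.1.1) e = sR P g.1.1 e * sR P h.1.1 e
      rw [sR_mul g.1.2.1 h.1.2.1, h1]

theorem SS_cut (h : SS (A := A) (P := P) e) : cut h.1.1 e (sR P h.1.1 e) = h.1.1 := by
  obtain ⟨h1, p, hp⟩ := h.2
  obtain ⟨d, hd⟩ := exists_pos' (A := A)
  have h2 : sR P h.1.1 e = p := by
    apply sR_eq (lt_add_of_pos_right e hd)
    intro z hz1 _
    rw [hp z hz1, h1]
  rw [h2]
  apply cut_self
  intro x hx
  rw [hp x hx, h1]

variable (he : 0 < e)

/-- The truncation. -/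
noncomputable def trunc : SS (A := A) (P := P) e →* KK A P where
  toFun h := ⟨cutG h.1 e he.le 1, by
    rw [mem_KK]
    refine ⟨e, fun x hx => ?_⟩
    change cut h.1.1 e 1 x = x
    have h1 : h.1.1 e = e := h.2.1
    rw [cut_ge _ _ _ hx, h1, one_smul]
    abel⟩
  map_one' := by
    apply Subtype.ext
    apply Subtype.ext
    exact cut_one e
  map_mul' g h := by
    apply Subtype.ext
    apply Subtype.ext
    change cut (g.1.1 * h.1.1) e 1 = cut g.1.1 e 1 * cut h.1.1 e 1
    have h1 : h.1.1 e = e := h.2.1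
    have h2 := cut_mul g.1.1 h.1.1 e (1 : P) 1
    rw [mul_one, h1] at h2
    exact h2

/-- The inclusion of the elements which are trivial near `e` and beyond. -/
noncomputable def iE : KE A P e →* SS (A := A) (P := P) e where
  toFun k := ⟨k.1, by
    obtain ⟨t, ht0, hte, ht⟩ := (mem_KE he).mp k.2
    refine ⟨ht e hte.le, 1, fun x hx => ?_⟩
    rw [ht x (hte.le.trans hx), one_smul]
    abel⟩
  map_one' := rfl
  map_mul' _ _ := rfl

theorem trunc_iE : (trunc he).comp (iE he) = jE A P e := by
  apply MonoidHom.ext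
  intro k
  apply Subtype.ext
  apply Subtype.ext
  change cut k.1.1 e (1 : P) = k.1.1
  obtain ⟨t, ht0, hte, ht⟩ := (mem_KE he).mp k.2
  apply cut_self
  intro x hx
  rw [ht x (hte.le.trans hx), ht e hte.le, one_smul]
  abel

variable {r : P} (hr : Arch A r)

include hr he in
theorem sl_surj : Function.Surjective (sl A P e) := by
  rintro ⟨p, q⟩
  have h0 : (0 : A) < min e (p⁻¹ • e) := lt_min he (Slopes.pos _ _ he)
  obtain ⟨d, hd0, hd⟩ := hr.between h0
  have hde : d < e := hd.trans_le (min_le_left _ _)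
  have hpd : p • d < e := by
    have h1 := smul_lt p (hd.trans_le (min_le_right _ _))
    rwa [smul_inv_smul] at h1
  have hc : 0 < e - d := sub_pos.mpr hde
  have hc' : 0 < e - p • d := sub_pos.mpr hpd
  obtain ⟨φ, h1, h2, h3⟩ := trans_pos hr hc hc' (by
    have h4 : e - p • d - (e - d) = -(p • d - d) := by abel
    rw [h4]
    exact neg_mem (mem_IPA p d))
  have H1 : aff (⟨e - p • e, p⟩ : Af A P) e = aff (⟨e - q • e, q⟩ : Af A P) e := by
    rw [aff_apply, aff_apply]
    change e - p • e + p • e = e - q • e + q • e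
    abel
  set u := glue (aff (⟨e - p • e, p⟩ : Af A P)) (aff (⟨e - q • e, q⟩ : Af A P)) e H1 with hu
  have hue : u e = e := by
    rw [hu, glue_le H1 le_rfl, aff_apply]
    change e - p • e + p • e = e
    abel
  have hul : ∀ x ≤ e, u x = e - p • e + p • x := fun x hx => by
    rw [hu, glue_le H1 hx]
    rfl
  have hur : ∀ x, e ≤ x → u x = e - q • e + q • x := fun x hx => by
    rw [hu, glue_ge H1 hx]
    rfl
  have H2 : φ (e - d) = u (e - d) := by
    rw [h3, hul _ (sub_le_self _ hd0.le), smul_sub]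
    abel
  set v := glue φ u (e - d) H2 with hv
  have H3 : (1 : A ≃o A) 0 = v 0 := by
    rw [hv, glue_le H2 hc.le, h2]
    rfl
  set w := glue 1 v 0 H3 with hw
  have hwu : ∀ x, e - d ≤ x → w x = u x := fun x hx => by
    rw [hw, glue_ge H3 (hc.le.trans hx), hv, glue_ge H2 hx]
  have hde' : e - d ≤ e := sub_le_self _ hd0.le
  have hwe : w e = e := by rw [hwu e hde', hue]
  have hwG : w ∈ GP A P := ⟨IsPL.one.glue (h1.glue ((IsPL.aff _).glue (IsPL.aff _) _ _) _ _) _ _,
    fun x hx => by
      rw [hw, glue_le H3 hx]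
      rfl⟩
  refine ⟨⟨⟨w, hwG⟩, hwe, q, fun x hx => ?_⟩, ?_⟩
  · change w x = _
    rw [hwu x (hde'.trans hx), hur x hx, smul_sub]
    abel
  · apply Prod.ext
    · apply sL_eq (sub_lt_self e hd0)
      intro z hz1 hz2
      change w z = w (e - d) + p • (z - (e - d))
      rw [hwu z hz1, hwu _ le_rfl, hul z hz2, hul _ hde']
      simp only [smul_sub]
      abel
    · apply sR_eq (lt_add_of_pos_right e he)
      intro z hz1 hz2
      change w z = w e + q • (z - e)
      rw [hwu z (hde'.trans hz1), hwe, hur z hz1]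
      simp only [smul_sub]
      abel

theorem sl_ker (g : SS (A := A) (P := P) e) (hg : sl A P e g = 1) : ∃ k, iE he k = g := by
  have h1 : sL P g.1.1 e = 1 := congrArg Prod.fst hg
  have h2 : sR P g.1.1 e = 1 := congrArg Prod.snd hg
  have h3 := SS_cut g
  have hge : g.1.1 e = e := g.2.1
  rw [h2] at h3
  obtain ⟨b, hb, hb2⟩ := g.1.2.1.sL e
  rw [h1] at hb2
  have h4 := hb2 e hb.le le_rfl
  rw [hge, one_smul] at h4
  have h5 : g.1.1 b = b := by
    have h6 : g.1.1 b = e - (e - b) := eq_sub_of_add_eq h4.symm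
    rw [h6]
    abel
  refine ⟨⟨g.1, (mem_KE he).mpr ⟨max b 0, le_max_right _ _, max_lt hb he, fun x hx => ?_⟩⟩, rfl⟩
  rcases le_total x e with hxe | hxe
  · have h6 := hb2 x ((le_max_left _ _).trans hx) hxe
    rw [h6, h5, one_smul]
    abel
  · rw [← h3, cut_ge _ _ _ hxe, hge, one_smul]
    abel

theorem sl_iE (k : KE A P e) : sl A P e (iE he k) = 1 := by
  obtain ⟨t, ht0, hte, ht⟩ := (mem_KE he).mp k.2
  apply Prod.ext
  · apply sL_eq hte
    intro z hz1 hz2
    change k.1.1 z = k.1.1 t + (1 : P) • (z - t)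
    rw [ht z hz1, ht t le_rfl, one_smul]
    abel
  · apply sR_eq (lt_add_of_pos_right e he)
    intro z hz1 hz2
    change k.1.1 z = k.1.1 e + (1 : P) • (z - e)
    rw [ht z (hte.le.trans hz1), ht e hte.le, one_smul]
    abel

include hr in
/-- **Detection by the slopes and the truncation.** -/
theorem SS_inj (q : ℕ) : Function.Injective (hqMap ((sl A P e).prod (trunc he)) q) := by
  apply Pool.Agent.H651.Nov.lh (sl A P e) (trunc he) (iE he) (sl_surj he hr)
    (fun x y hxy => Subtype.ext (congrArg (fun z => z.1) hxy)) (sl_iE he)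
    (fun g hg => sl_ker he g hg)
  intro q
  rw [trunc_iE]
  exact (jE_bij hr he q).1

end Pool.Agent.H417.PL
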