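import Pool.Agent.H417.PL.Aff2
import Mathlib.Algebra.Category.Grp.Injective
import Mathlib.LinearAlgebra.Eigenspace.Minpoly

/-!
Fixed vectors in the rational homology of a torsion-free abelian group, in terms of determinants of
rational functionals.
-/

set_option autoImplicit false

namespace Pool.Agent.H417.PL

open Finsupp Pool.Agent.Y483 Pool.Agent.R942.NV Polynomial

section Det

variable {A : Type} [AddCommGroup A]

/-- The determinant of functionals. -/
noncomputable def detF {q : ℕ} (φ : Fin q → (A →+ ℚ)) : Frm A q :=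
  AlternatingMap.compLinearMap
    { toFun := fun M : Fin q → Fin q → ℚ => Matrix.detRowAlternating (n := Fin q) (R := ℚ) M
      map_update_add' := by
        intro inst M i x y
        obtain rfl : inst = instDecidableEqFin q := Subsingleton.elim _ _
        exact AlternatingMap.map_update_add (Matrix.detRowAlternating (n := Fin q) (R := ℚ)) M i x y
      map_update_smul' := by
        intro inst M i c x
        obtain rfl : inst = instDecidableEqFin q := Subsingleton.elim _ _
        rw [← Int.cast_smul_eq_zsmul ℚ c x, ← Int.cast_smul_eq_zsmul ℚ c]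
        exact AlternatingMap.map_update_smul (Matrix.detRowAlternating (n := Fin q) (R := ℚ)) M i
          (c : ℚ) x
      map_eq_zero_of_eq' := fun M i j h hij =>
        (Matrix.detRowAlternating (n := Fin q) (R := ℚ)).map_eq_zero_of_eq M h hij }
    (LinearMap.pi fun j => (φ j).toIntLinearMap)

theorem detF_apply {q : ℕ} (φ : Fin q → (A →+ ℚ)) (x : Fin q → A) :
    detF φ x = Matrix.det (Matrix.of fun i j => φ j (x i)) := rfl

theorem Wf_eq {E : Type*} : ∀ (q : ℕ) (v : Fin q → E) (x : Fin q → (E →₀ ℤ)),
    Wf q v x = Matrix.det (Matrix.of fun i j => ((x i (v j) : ℤ) : ℚ)) := by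
  intro q
  induction q with
  | zero =>
    intro v x
    rw [Matrix.det_fin_zero]
    rfl
  | succ q ih =>
    intro v x
    rw [Wf, wform_apply, Matrix.det_succ_column_zero]
    apply Finset.sum_congr rfl
    intro i _
    rw [ih, zsmul_eq_mul, zsmul_eq_mul, ← mul_assoc]
    push_cast
    rfl

theorem extend {B : Type} [AddCommGroup B] (ι : B →+ A) (hι : Function.Injective ι) (f : B →+ ℚ) :
    ∃ g : A →+ ℚ, ∀ x, g (ι x) = f x := by
  obtain ⟨g, hg⟩ := (Module.Baer.of_divisible ℚ).extension_property_addMonoidHom ι hι f
  exact ⟨g, fun x => DFunLike.congr_fun hg x⟩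

/-- **Detection.** A rational cycle of a torsion-free abelian group bounds, if all determinants of
functionals vanish on it. -/
theorem detectD [IsAddTorsionFree A] (q : ℕ) (z : T q (Multiplicative A) ℚ)
    (hz : Cyc (trivR (Multiplicative A) ℚ) q z)
    (h : ∀ φ : Fin q → (A →+ ℚ), ipair Multiplicative.toAdd q LinearMap.id (detF φ) z = 0) :
    z ∈ LinearMap.range (dd (trivR (Multiplicative A) ℚ) q) := by
  classical
  set S := entries z with hS
  set L : Subgroup (Multiplicative A) := Subgroup.closure (S : Set (Multiplicative A)) with hL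
  obtain ⟨z₀, hz₀⟩ := exists_sub L q z
    (fun x hx i => Subgroup.subset_closure (mem_entries z x hx i))
  have hc₀ : Cyc (trivR L ℚ) q z₀ := by
    apply cyc_of_mp (τ := trivR (Multiplicative A) ℚ) L.subtype LinearMap.id (fun _ _ => rfl)
      L.subtype_injective (fun _ _ h => h)
    rw [hz₀]
    exact hz
  obtain ⟨E, c, hc, hinj⟩ := exists_labels L ⟨_, rfl⟩
  have h1 : z₀ ∈ LinearMap.range (dd (trivR L ℚ) q) := by
    apply detectW c hc hinj q z₀ hc₀
    intro v
    -- the extensions of the coordinates
    have h2 : ∀ j : Fin q, ∃ g : A →+ ℚ, ∀ x : L, g (Multiplicative.toAdd (x : Multiplicative A)) =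
        ((c x (v j) : ℤ) : ℚ) := by
      intro j
      obtain ⟨g, hg⟩ := extend (A := A) (B := Additive L)
        { toFun := fun x => Multiplicative.toAdd (x.toMul : Multiplicative A)
          map_zero' := rfl
          map_add' := fun _ _ => rfl }
        (fun x y hxy => Additive.toMul.injective (Subtype.ext (Multiplicative.toAdd.injective hxy)))
        { toFun := fun x => ((c x.toMul (v j) : ℤ) : ℚ)
          map_zero' := by
            rw [toMul_zero, map_one_zero c hc]
            simp
          map_add' := fun x y => by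
            rw [toMul_add, hc, Finsupp.add_apply]
            push_cast
            rfl }
      exact ⟨g, fun x => hg (Additive.ofMul x)⟩
    choose φ hφ using h2
    have h3 := h φ
    rw [← hz₀, ipair_mp] at h3
    have h4 : ipair (Multiplicative.toAdd ∘ L.subtype) q ((LinearMap.id : ℚ →ₗ[ℚ] ℚ) ∘ₗ
        LinearMap.id) (detF φ) = ipair c q LinearMap.id (Wf q v) := by
      apply T_ext
      intro x r
      rw [ipair_single, ipair_single, Wf_eq, detF_apply]
      congr 3
      funext i j
      exact hφ j (x i)
    rw [h4] at h3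
    exact h3
  rw [← hz₀]
  exact range_mp (ρ := trivR L ℚ) (τ := trivR (Multiplicative A) ℚ) L.subtype LinearMap.id
    (fun _ _ => rfl) q _ h1

end Det

section Pol

variable (A : Type) {P : Type} [AddCommGroup A] [CommGroup P] [DistribMulAction P A] (r : P)

/-- In every positive degree some polynomial in `r⁻¹` with nonzero sum of coefficients kills the
determinants of functionals. -/
def PolK : Prop := ∀ q : ℕ, ∃ g : ℚ[X], g.eval 1 ≠ 0 ∧
  ∀ (φ : Fin (q + 1) → (A →+ ℚ)) (x : Fin (q + 1) → A),
    (g.sum fun k a => a * Matrix.det (Matrix.of fun i j => φ j ((r⁻¹) ^ k • x i))) = 0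

theorem scal_iter (k : ℕ) (x : Multiplicative A) :
    ((scal A r) ^[k]) x = Multiplicative.ofAdd ((r⁻¹) ^ k • x.toAdd) := by
  induction k generalizing x with
  | zero =>
    rw [pow_zero, one_smul]
    rfl
  | succ k ih =>
    rw [Function.iterate_succ_apply, ih, pow_succ, mul_smul]
    rfl

theorem aeval_sum {V : Type} [AddCommGroup V] [Module ℚ V] (S : Module.End ℚ V) (g : ℚ[X]) (v : V) :
    aeval S g v = g.sum fun k a => a • (S ^ k) v := by
  rw [aeval_def, eval₂_eq_sum, Polynomial.sum, Polynomial.sum, LinearMap.sum_apply]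
  rfl

omit [AddCommGroup A] in
theorem mp_pow (q : ℕ) (f : Multiplicative A → Multiplicative A) (k : ℕ)
    (z : T q (Multiplicative A) ℚ) :
    ((mp q f LinearMap.id : Module.End ℚ (T q (Multiplicative A) ℚ)) ^ k) z =
      mp q (f ^[k]) LinearMap.id z := by
  induction k generalizing z with
  | zero =>
    rw [pow_zero]
    exact (mp_id q z).symm
  | succ k ih =>
    rw [pow_succ, Module.End.mul_apply, ih, mp_mp]
    rfl

variable {A} {M : Type} [AddCommGroup M] [IsAddTorsionFree M] [DistribMulAction P M] (ι : M →+ A)
  (hι : Function.Injective ι) (hs : ∀ x, ι (r⁻¹ • x) = r⁻¹ • ι x)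
  (hinj : Function.Injective fun k : ℤ => r ^ k)

include hι hs hinj in
/-- The criterion for subgroups. -/
theorem nofix_of (h : PolK A r) : NoFix M r := by
  refine ⟨hinj, fun q y hy => ?_⟩
  obtain ⟨g, hg, hφ⟩ := h q
  refine ⟨g, hg, ?_⟩
  set S : Module.End ℚ (T (q + 1) (Multiplicative M) ℚ) := mp (q + 1) (scal M r) LinearMap.id with hS
  apply detectD
  · rw [cyc_succ] at hy ⊢
    apply aeval_mem S (LinearMap.ker (dd (trivR (Multiplicative M) ℚ) q)) _ g y hy
    intro w hw
    have h1 := cyc_mp (ρ := trivR (Multiplicative M) ℚ) (τ := trivR (Multiplicative M) ℚ)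
      (scal M r) LinearMap.id (fun _ _ => rfl) (q + 1) w ((cyc_succ _ _ _).mpr hw)
    exact (cyc_succ _ _ _).mp h1
  · intro φ'
    choose φ hφ' using fun j => extend ι hι (φ' j)
    have hsk : ∀ (k : ℕ) (x : M), ι ((r⁻¹) ^ k • x) = (r⁻¹) ^ k • ι x := by
      intro k
      induction k with
      | zero =>
        intro x
        rw [pow_zero, one_smul, one_smul]
      | succ k ih =>
        intro x
        rw [pow_succ, mul_smul, mul_smul, ih, hs]
    have h2 : (ipair Multiplicative.toAdd (q + 1) LinearMap.id (detF φ')) ∘ₗ (aeval S g) = 0 := by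
      apply T_ext
      intro x c
      rw [LinearMap.comp_apply, aeval_sum, Polynomial.sum, map_sum]
      have h3 := hφ φ (fun i => ι (x i).toAdd)
      rw [Polynomial.sum] at h3
      have h4 : ∀ k ∈ g.support, ipair Multiplicative.toAdd (q + 1) LinearMap.id (detF φ')
          (g.coeff k • (S ^ k) (single x c)) = (g.coeff k * Matrix.det (Matrix.of fun i j =>
            φ j ((r⁻¹) ^ k • ι (x i).toAdd))) * c := by
        intro k _
        rw [hS, mp_pow, mp_single, map_smul, ipair_single, detF_apply, smul_eq_mul, ← mul_assoc]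
        congr 4
        funext i j
        rw [Function.comp_apply, scal_iter, ← hφ' j, ← hsk]
        rfl
      rw [Finset.sum_congr rfl h4, ← Finset.sum_mul, h3, zero_mul]
      rfl
    exact DFunLike.congr_fun h2 y

end Pol

section Finite

variable {A : Type} {P : Type} [AddCommGroup A] [CommGroup P] [DistribMulAction P A] (r : P)

/-- A multilinear map which vanishes on the tuples of elements of `S`. -/
theorem multi_zero {n : ℕ} (S : Set A) (ω : Frm A n) (h : ∀ x : Fin n → A, (∀ i, x i ∈ S) → ω x = 0)
    (x : Fin n → A) (hx : ∀ i, x i ∈ AddSubgroup.closure S) : ω x = 0 := by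
  classical
  have key : ∀ (T : Finset (Fin n)) (x : Fin n → A), (∀ i ∈ T, x i ∈ AddSubgroup.closure S) →
      (∀ i, i ∉ T → x i ∈ S) → ω x = 0 := by
    intro T
    induction T using Finset.induction_on with
    | empty => exact fun x _ hx => h x fun i => hx i (Finset.notMem_empty i)
    | insert j T hj ih =>
      intro x hx1 hx2
      have h1 : ∀ a ∈ AddSubgroup.closure S, ω (Function.update x j a) = 0 := by
        intro a ha
        induction ha using AddSubgroup.closure_induction with
        | mem a ha =>
          apply ih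
          · intro i hi
            have hij : i ≠ j := fun h => hj (h ▸ hi)
            rw [Function.update_of_ne hij]
            exact hx1 i (Finset.mem_insert_of_mem hi)
          · intro i hi
            by_cases hij : i = j
            · subst hij
              rw [Function.update_self]
              exact ha
            · rw [Function.update_of_ne hij]
              exact hx2 i (fun h => by
                rcases Finset.mem_insert.mp h with h | h
                · exact hij h
                · exact hi h)
        | zero => exact ω.map_update_zero x j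
        | add a b _ _ ha hb => rw [ω.map_update_add, ha, hb, add_zero]
        | neg a _ ha => rw [ω.map_update_neg, ha, neg_zero]
      have h2 := h1 (x j) (hx1 j (Finset.mem_insert_self j T))
      rwa [Function.update_eq_self] at h2
  exact key Finset.univ x (fun i _ => hx i) (fun i hi => absurd (Finset.mem_univ i) hi)

/-- The pull back of forms. -/
noncomputable def pbF (q : ℕ) : Module.End ℚ (Frm A q) where
  toFun ω := ω.compLinearMap (DistribSMul.toAddMonoidHom A r⁻¹).toIntLinearMap
  map_add' _ _ := rfl
  map_smul' _ _ := rfl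

theorem pbF_pow (q k : ℕ) (ω : Frm A q) (x : Fin q → A) :
    ((pbF r q) ^ k) ω x = ω (fun i => (r⁻¹) ^ k • x i) := by
  induction k generalizing x with
  | zero =>
    rw [pow_zero]
    simp
  | succ k ih =>
    rw [pow_succ', Module.End.mul_apply]
    change ((pbF r q) ^ k) ω (fun i => r⁻¹ • x i) = _
    rw [ih]
    congr 1
    funext i
    rw [pow_succ, mul_smul]

theorem finite_frm (hA : ∃ S : Finset A, ∀ a : A, ∃ n : ℤ, n ≠ 0 ∧ n • a ∈
    AddSubgroup.closure (S : Set A)) (q : ℕ) : Module.Finite ℚ (Frm A q) := by
  obtain ⟨S, hS⟩ := hA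
  let ev : Frm A q →ₗ[ℚ] ((Fin q → S) → ℚ) :=
    { toFun := fun ω x => ω (fun i => (x i : A))
      map_add' := fun _ _ => rfl
      map_smul' := fun _ _ => rfl }
  apply Module.Finite.of_injective ev
  rw [injective_iff_map_eq_zero]
  intro ω hω
  apply AlternatingMap.ext
  intro x
  choose n hn hx using fun i => hS (x i)
  have h1 := multi_zero (S : Set A) ω (fun x hx => congrFun hω (fun i => ⟨x i, hx i⟩))
    (fun i => n i • x i) hx
  rw [ω.map_smul_univ, zsmul_eq_mul, mul_eq_zero] at h1
  rcases h1 with h1 | h1
  · exact absurd (by exact_mod_cast h1) (Finset.prod_ne_zero_iff.mpr fun i _ => hn i)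
  · exact h1

/-- **The criterion for groups of finite rank.** -/
theorem polK_finite (hA : ∃ S : Finset A, ∀ a : A, ∃ n : ℤ, n ≠ 0 ∧ n • a ∈
    AddSubgroup.closure (S : Set A))
    (hf : ∀ (q : ℕ) (ω : A [⋀^Fin (q + 1)]→ₗ[ℤ] ℚ), (∀ x, ω (fun i => r • x i) = ω x) → ω = 0) :
    PolK A r := by
  intro q
  have hfin := finite_frm hA (q + 1)
  refine ⟨minpoly ℚ (pbF r (q + 1) : Module.End ℚ (Frm A (q + 1))), ?_, ?_⟩
  · intro h1
    obtain ⟨ω, hω⟩ := (Module.End.hasEigenvalue_of_isRoot (f := pbF r (q + 1))
      (h := h1)).exists_hasEigenvector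
    apply hω.2
    apply hf
    intro x
    have h2 := hω.apply_eq_smul
    rw [one_smul] at h2
    conv_lhs => rw [← h2]
    change ω (fun i => r⁻¹ • r • x i) = ω x
    congr 1
    funext i
    rw [inv_smul_smul]
  · intro φ x
    have h1 := minpoly.aeval ℚ (pbF r (q + 1) : Module.End ℚ (Frm A (q + 1)))
    have h2 := congrArg (fun f : Module.End ℚ (Frm A (q + 1)) => f (detF φ) x) h1
    rw [aeval_sum, Polynomial.sum] at h2
    have h3 : ∀ (s : Finset ℕ) (f : ℕ → Frm A (q + 1)), (∑ k ∈ s, f k) x = ∑ k ∈ s, f k x := by
      intro s f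
      exact map_sum ({ toFun := fun ω => ω x, map_zero' := rfl, map_add' := fun _ _ => rfl } :
        Frm A (q + 1) →+ ℚ) f s
    rw [h3] at h2
    rw [Polynomial.sum]
    refine Eq.trans (Finset.sum_congr rfl fun k _ => ?_) h2
    rw [AlternatingMap.smul_apply, pbF_pow, detF_apply, smul_eq_mul]

end Finite

end Pool.Agent.H417.PL
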