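import Pool.Agent.H417.PL.Itv
import Pool.Graph.R_seed8.R615.KU.Gp

/-!
The pointwise stabilizers of finite sets in the groups of Bieri and Strebel, and semidirect products.
-/

set_option autoImplicit false
set_option linter.unusedSectionVars false

namespace Pool.Agent.H417.PL

open CategoryTheory Pool.Agent.Y483 Pool.Agent.R615.KU Pool.Agent.Y483.PW Pool.Agent.Y75.MQ

section Split

variable (A : AddSubgroup ℝ) (P : Subgroup ℝˣ) [BSData A P]

/-- The pointwise stabilizer of a finite set. -/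
def FS (I : Set ℝ) (σ : Finset ℝ) : Subgroup (ℝ ≃o ℝ) where
  carrier := {g | g ∈ BS A P I ∧ ∀ c ∈ σ, g c = c}
  one_mem' := ⟨one_mem _, fun _ _ => rfl⟩
  mul_mem' := fun {g h} hg hh => ⟨mul_mem hg.1 hh.1, fun c hc => by
    rw [mul_app, hh.2 c hc, hg.2 c hc]⟩
  inv_mem' := fun {g} hg => ⟨inv_mem hg.1, fun c hc => by
    conv_lhs => rw [← hg.2 c hc]
    exact inv_app g c⟩

variable {A P}

theorem glue_mem {g h : ℝ ≃o ℝ} {I J K : Set ℝ} {c : ℝ} (hc : c ∈ A) (H : g c = h c)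
    (hg : g ∈ BS A P I) (hh : h ∈ BS A P J) (hK : ∀ x, x ∉ K → glue g h c H x = x) :
    glue g h c H ∈ BS A P K := by
  classical
  obtain ⟨hg1, -, F, hF1, hF2⟩ := hg
  obtain ⟨hh1, -, F', hF'1, hF'2⟩ := hh
  refine ⟨fun x => ?_, hK, insert c (F ∪ F'), ?_, fun x y hxy hz => ?_⟩
  · rcases le_total x c with hx | hx
    · rw [glue_le H hx]
      exact hg1 x
    · rw [glue_ge H hx]
      exact hh1 x
  · intro z hz
    rcases Finset.mem_insert.mp hz with rfl | hz
    · exact hc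
    · rcases Finset.mem_union.mp hz with hz | hz
      · exact hF1 z hz
      · exact hF'1 z hz
  · rcases hz c (Finset.mem_insert_self _ _) with h1 | h1
    · obtain ⟨p, hp⟩ := hF'2 x y hxy (fun z hz' => hz z (Finset.mem_insert_of_mem
        (Finset.mem_union_right _ hz')))
      refine ⟨p, fun z hz1 hz2 => ?_⟩
      rw [glue_ge H (h1.trans hz1), glue_ge H h1]
      exact hp z hz1 hz2
    · obtain ⟨p, hp⟩ := hF2 x y hxy (fun z hz' => hz z (Finset.mem_insert_of_mem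
        (Finset.mem_union_left _ hz')))
      refine ⟨p, fun z hz1 hz2 => ?_⟩
      rw [glue_le H (hz2.trans h1), glue_le H (hxy.le.trans h1)]
      exact hp z hz1 hz2

/-- Elements with support in `(-∞, c)` fix the points from `c` on. -/
theorem fix_ge {g : ℝ ≃o ℝ} {I : Set ℝ} {c : ℝ} (hg : g ∈ BS A P (I ∩ Set.Iio c)) {x : ℝ}
    (hx : c ≤ x) : g x = x := hg.2.1 x (fun h => absurd h.2 (not_lt.mpr hx))

theorem fix_le {g : ℝ ≃o ℝ} {I : Set ℝ} {c : ℝ} (hg : g ∈ BS A P (I ∩ Set.Ioi c)) {x : ℝ}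
    (hx : x ≤ c) : g x = x := hg.2.1 x (fun h => absurd h.2 (not_lt.mpr hx))

theorem le_of_fix {g : ℝ ≃o ℝ} {c x : ℝ} (hc : g c = c) (hx : x ≤ c) : g x ≤ c := by
  have h := g.monotone hx
  rwa [hc] at h

theorem ge_of_fix {g : ℝ ≃o ℝ} {c x : ℝ} (hc : g c = c) (hx : c ≤ x) : c ≤ g x := by
  have h := g.monotone hx
  rwa [hc] at h

theorem comm_lr {g h : ℝ ≃o ℝ} {I : Set ℝ} {c : ℝ} (hg : g ∈ BS A P (I ∩ Set.Iio c))
    (hh : h ∈ BS A P (I ∩ Set.Ioi c)) : g * h = h * g := by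
  apply RelIso.ext
  intro x
  change g (h x) = h (g x)
  rcases le_total x c with hx | hx
  · rw [fix_le hh hx, fix_le hh (le_of_fix (fix_ge hg le_rfl) hx)]
  · rw [fix_ge hg hx, fix_ge hg (ge_of_fix (fix_le hh le_rfl) hx)]

/-- The product of the groups of the two sides. -/
noncomputable def splitH (I : Set ℝ) (σ : Finset ℝ) (c : ℝ) :
    FS A P (I ∩ Set.Iio c) (σ.filter (· < c)) × FS A P (I ∩ Set.Ioi c) (σ.filter (c < ·)) →*
      FS A P I σ where
  toFun w := ⟨w.1.1 * w.2.1, mul_mem (BS_mono Set.inter_subset_left w.1.2.1)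
    (BS_mono Set.inter_subset_left w.2.2.1), fun x hx => by
      rw [mul_app]
      rcases lt_trichotomy x c with h | h | h
      · rw [fix_le w.2.2.1 h.le]
        exact w.1.2.2 x (Finset.mem_filter.mpr ⟨hx, h⟩)
      · rw [fix_le w.2.2.1 h.le, fix_ge w.1.2.1 h.ge]
      · rw [w.2.2.2 x (Finset.mem_filter.mpr ⟨hx, h⟩), fix_ge w.1.2.1 h.le]⟩
  map_one' := rfl
  map_mul' v w := by
    apply Subtype.ext
    change (v.1.1 * w.1.1) * (v.2.1 * w.2.1) = (v.1.1 * v.2.1) * (w.1.1 * w.2.1)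
    rw [mul_assoc, mul_assoc, ← mul_assoc w.1.1 v.2.1, comm_lr w.1.2.1 v.2.2.1, mul_assoc]

theorem splitH_bij {I : Set ℝ} {σ : Finset ℝ} {c : ℝ} (hc : c ∈ A) (hσ : c ∈ σ) :
    Function.Bijective (splitH (A := A) (P := P) I σ c) := by
  constructor
  · rw [injective_iff_map_eq_one]
    intro w hw
    have h1 : ∀ x, w.1.1 (w.2.1 x) = x := fun x => by
      have h := congrArg (fun g : FS A P I σ => g.1 x) hw
      exact h
    have h2 : ∀ x, w.2.1 x = x := by
      intro x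
      rcases le_total x c with hx | hx
      · exact fix_le w.2.2.1 hx
      · have h3 := h1 x
        rwa [fix_ge w.1.2.1 (ge_of_fix (fix_le w.2.2.1 le_rfl) hx)] at h3
    apply Prod.ext
    · apply Subtype.ext
      apply RelIso.ext
      intro x
      have h3 := h1 x
      rw [h2] at h3
      exact h3
    · apply Subtype.ext
      apply RelIso.ext
      exact h2
  · rintro ⟨g, hg, hgσ⟩
    have H : g c = (1 : ℝ ≃o ℝ) c := hgσ c hσ
    have m1 : glue g 1 c H ∈ FS A P (I ∩ Set.Iio c) (σ.filter (· < c)) := by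
      refine ⟨glue_mem hc H hg (one_mem (BS A P I)) (fun x hx => ?_), fun x hx => ?_⟩
      · rcases lt_or_ge x c with h | h
        · rw [glue_le H h.le]
          exact hg.2.1 x (fun h' => hx ⟨h', h⟩)
        · rw [glue_ge H h]
          rfl
      · obtain ⟨h1, h2⟩ := Finset.mem_filter.mp hx
        rw [glue_le H h2.le]
        exact hgσ x h1
    have m2 : glue 1 g c H.symm ∈ FS A P (I ∩ Set.Ioi c) (σ.filter (c < ·)) := by
      refine ⟨glue_mem hc H.symm (one_mem (BS A P I)) hg (fun x hx => ?_), fun x hx => ?_⟩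
      · rcases lt_or_ge c x with h | h
        · rw [glue_ge H.symm h.le]
          exact hg.2.1 x (fun h' => hx ⟨h', h⟩)
        · rw [glue_le H.symm h]
          rfl
      · obtain ⟨h1, h2⟩ := Finset.mem_filter.mp hx
        rw [glue_ge H.symm h2.le]
        exact hgσ x h1
    refine ⟨⟨⟨_, m1⟩, ⟨_, m2⟩⟩, Subtype.ext (RelIso.ext fun x => ?_)⟩
    change glue g 1 c H (glue 1 g c H.symm x) = g x
    rcases le_total x c with hx | hx
    · rw [glue_le H.symm hx]
      change glue g 1 c H x = g x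
      rw [glue_le H hx]
    · rw [glue_ge H.symm hx, glue_ge H (ge_of_fix H hx)]
      rfl

variable {E : GrpCat.{0} ⥤ ModuleCat.{0} ℚ}

/-- **Stabilizers of finite sets.** -/
theorem det_FS {𝒥 : Set ℝ → Prop} (h1 : ∀ I, 𝒥 I → Det E (BS A P I))
    (h2 : ∀ I, 𝒥 I → ∀ c ∈ A, 𝒥 (I ∩ Set.Iio c) ∧ 𝒥 (I ∩ Set.Ioi c)) :
    ∀ (n : ℕ) (σ : Finset ℝ), σ.card = n → (∀ c ∈ σ, c ∈ A) → ∀ I, 𝒥 I →
      Det E (FS A P I σ) := by
  intro n
  induction n using Nat.strong_induction_on with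
  | _ n ih =>
    intro σ hn hσ I hI
    rcases σ.eq_empty_or_nonempty with h | ⟨c, hc⟩
    · have h3 : ∀ g : BS A P I, (g : ℝ ≃o ℝ) ∈ FS A P I σ := fun g => ⟨g.2, fun c hc => by
        rw [h] at hc
        exact absurd hc (Finset.notMem_empty c)⟩
      exact (h1 I hI).congr
        { toFun := fun g => ⟨g.1, g.2.1⟩
          invFun := fun g => ⟨g.1, h3 g⟩
          left_inv := fun _ => rfl
          right_inv := fun _ => rfl
          map_mul' := fun _ _ => rfl }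
    · have hcA := hσ c hc
      obtain ⟨j1, j2⟩ := h2 I hI c hcA
      have c1 : (σ.filter (· < c)).card < n := by
        rw [← hn]
        apply Finset.card_lt_card
        refine ⟨Finset.filter_subset _ _, fun hs => ?_⟩
        exact lt_irrefl c (Finset.mem_filter.mp (hs hc)).2
      have c2 : (σ.filter (c < ·)).card < n := by
        rw [← hn]
        apply Finset.card_lt_card
        refine ⟨Finset.filter_subset _ _, fun hs => ?_⟩
        exact lt_irrefl c (Finset.mem_filter.mp (hs hc)).2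
      have d1 := ih _ c1 (σ.filter (· < c)) rfl
        (fun z hz => hσ z (Finset.mem_filter.mp hz).1) _ j1
      have d2 := ih _ c2 (σ.filter (c < ·)) rfl
        (fun z hz => hσ z (Finset.mem_filter.mp hz).1) _ j2
      exact (d1.prod d2).congr (MulEquiv.ofBijective _ (splitH_bij hcA hc)).symm

end Split

/-- The point stabilizers of the action on `V` are the stabilizers of finite sets of elements
of `A`. -/
def Supported (A : AddSubgroup ℝ) (Γ : Subgroup (ℝ ≃o ℝ)) (V : Type) [MulAction Γ V] : Prop :=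
  ∀ v : V, ∃ F : Finset ℝ, (∀ z ∈ F, z ∈ A) ∧ ∀ g : Γ, g • v = v ↔ ∀ z ∈ F, g.1 z = z

section Act

variable {A : AddSubgroup ℝ} {P : Subgroup ℝˣ} [BSData A P] {I : Set ℝ}
  {E : GrpCat.{0} ⥤ ModuleCat.{0} ℚ}

/-- The stabilizers of all the finite sets of elements of `A` are detecting. -/
def DetFS (E : GrpCat.{0} ⥤ ModuleCat.{0} ℚ) (A : AddSubgroup ℝ) (P : Subgroup ℝˣ) [BSData A P]
    (I : Set ℝ) : Prop := ∀ σ : Finset ℝ, (∀ c ∈ σ, c ∈ A) → Det E (FS A P I σ)

theorem det_fixing (h : DetFS E A P I) {V : Type} [MulAction (BS A P I) V]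
    (hV : Supported A (BS A P I) V) (σ : Finset V) :
    Det E (fixingSubgroup (BS A P I) (σ : Set V)) := by
  classical
  choose F hF1 hF2 using hV
  have h1 := h (σ.biUnion F) (fun c hc => by
    obtain ⟨v, -, hv⟩ := Finset.mem_biUnion.mp hc
    exact hF1 v c hv)
  have key : ∀ g : BS A P I, g ∈ fixingSubgroup (BS A P I) (σ : Set V) ↔
      ∀ c ∈ σ.biUnion F, g.1 c = c := by
    intro g
    rw [mem_fixingSubgroup_iff]
    constructor
    · intro hg c hc
      obtain ⟨v, hv, hvc⟩ := Finset.mem_biUnion.mp hc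
      exact (hF2 v g).mp (hg v hv) c hvc
    · intro hg v hv
      exact (hF2 v g).mpr fun c hc => hg c (Finset.mem_biUnion.mpr ⟨v, hv, hc⟩)
  refine h1.congr
    { toFun := fun g => ⟨g.1.1, g.1.2, (key g.1).mp g.2⟩
      invFun := fun g => ⟨⟨g.1, g.2.1⟩, (key _).mpr g.2.2⟩
      left_inv := fun _ => rfl
      right_inv := fun _ => rfl
      map_mul' := fun _ _ => rfl }

/-- **Semidirect products.** -/
theorem det_sysBS (hE : HasPT E) (h : DetFS E A P I) {N V : Type} [Group N]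
    [MulAction (BS A P I) V] (hV : Supported A (BS A P I) V) (s : Sys (BS A P I) N V)
    (hfix : ∀ (σ : Finset V) (γ : BS A P I), (∀ v ∈ σ, γ • v = v) →
      ∀ n : N, s.φ γ (s.e (σ : Set V) n) = s.e (σ : Set V) n)
    (hN : ∀ σ : s.Cl, Det E (s.e (σ.1 : Set V)).range) : Det E s.G := by
  refine Det.sys_sep hE s fun σ => ?_
  have hid : ∀ n : (s.e (σ.1 : Set V)).range, s.e (σ.1 : Set V) n.1 = n.1 := by
    rintro ⟨_, n, rfl⟩
    change s.e (σ.1 : Set V) (s.e (σ.1 : Set V) n) = s.e (σ.1 : Set V) n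
    rw [s.inter, Set.inter_self]
  let f₁ : s.supG σ.1 →* (s.e (σ.1 : Set V)).range ×
      fixingSubgroup (BS A P I) ((σ.1 : Finset V) : Set V) :=
    { toFun := fun w => (⟨w.1.left, w.1.left, w.2.1⟩,
        ⟨w.1.right, (mem_fixingSubgroup_iff _).mpr w.2.2⟩)
      map_one' := rfl
      map_mul' := fun a b => by
        apply Prod.ext
        · apply Subtype.ext
          change a.1.left * s.φ a.1.right b.1.left = a.1.left * b.1.left
          have h1 := hfix σ.1 a.1.right a.2.2 b.1.left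
          rw [b.2.1] at h1
          rw [h1]
        · rfl }
  let f₂ : (s.e (σ.1 : Set V)).range × fixingSubgroup (BS A P I) ((σ.1 : Finset V) : Set V) →*
      s.supG σ.1 :=
    { toFun := fun w => ⟨⟨w.1.1, w.2.1⟩, hid w.1, (mem_fixingSubgroup_iff _).mp w.2.2⟩
      map_one' := rfl
      map_mul' := fun a b => by
        apply Subtype.ext
        apply SemidirectProduct.ext
        · change a.1.1 * b.1.1 = a.1.1 * s.φ a.2.1 b.1.1
          have h1 := hfix σ.1 a.2.1 ((mem_fixingSubgroup_iff _).mp a.2.2) b.1.1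
          rw [hid] at h1
          rw [h1]
        · rfl }
  exact ((hN σ).prod (det_fixing h hV σ.1)).of_retract f₁ f₂ rfl

/-- The stabilizers, for finitary functors. -/
theorem detFS_all (hE : HasPT E) (hF : Fty E) (hA : A ≠ ⊥)
    (hs : ∃ p ∈ P, ∃ s : ℚ, s ≠ 1 ∧ ((p : ℝˣ) : ℝ) = s) (hI : I.OrdConnected) :
    DetFS E A P I := by
  intro σ hσ
  refine det_FS (𝒥 := fun I => I.OrdConnected) (fun I hI => ?_) (fun I hI c _ => ?_) _ σ rfl hσ I hI
  · exact det_all hE hF A hA P (fun p hp => BSData.pos (A := A) p hp)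
      (fun p hp a ha => BSData.mul p hp a ha) hs I hI
  · exact ⟨hI.inter Set.ordConnected_Iio, hI.inter Set.ordConnected_Ioi⟩

theorem ie_cases (hE : HasPT E) (hP : Det E P) [Nontrivial A] {p : ℝˣ} (hp : p ∈ P) {s : ℚ}
    (hps : (p : ℝ) = s) (h1 : s ≠ 1) {b c : EReal} (hb : EndPt A b) (hc : EndPt A c) :
    Det E (BS A P (Ie b c)) := by
  by_cases hbc : b < c
  · exact det_BS A P hE hP hp hps h1 (isInt_Ie hb hc hbc)
  · have : Subsingleton (BS A P (Ie b c)) := by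
      refine ⟨fun g h => Subtype.ext (RelIso.ext fun x => ?_)⟩
      have hx : x ∉ Ie b c := fun hx => hbc (hx.1.trans hx.2)
      rw [g.2.2.1 x hx, h.2.2.1 x hx]
    exact det_sub

theorem ie_lt (b c : EReal) (d : ℝ) : Ie b c ∩ Set.Iio d = Ie b (min c d) := by
  ext x
  constructor
  · rintro ⟨⟨h1, h2⟩, h3⟩
    exact ⟨h1, lt_min h2 (EReal.coe_lt_coe_iff.mpr h3)⟩
  · rintro ⟨h1, h2⟩
    exact ⟨⟨h1, h2.trans_le (min_le_left _ _)⟩,
      EReal.coe_lt_coe_iff.mp (h2.trans_le (min_le_right _ _))⟩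

theorem ie_gt (b c : EReal) (d : ℝ) : Ie b c ∩ Set.Ioi d = Ie (max b d) c := by
  ext x
  constructor
  · rintro ⟨⟨h1, h2⟩, h3⟩
    exact ⟨max_lt h1 (EReal.coe_lt_coe_iff.mpr h3), h2⟩
  · rintro ⟨h1, h2⟩
    exact ⟨⟨(le_max_left _ _).trans_lt h1, h2⟩,
      EReal.coe_lt_coe_iff.mp ((le_max_right _ _).trans_lt h1)⟩

/-- The stabilizers, for all functors with transfers. -/
theorem detFS_int (hE : HasPT E) (hP : Det E P) (hA : A ≠ ⊥)
    (hs : ∃ p ∈ P, ∃ s : ℚ, s ≠ 1 ∧ ((p : ℝˣ) : ℝ) = s) (hI : IsInt A I) :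
    DetFS E A P I := by
  intro σ hσ
  have : Nontrivial A := (AddSubgroup.nontrivial_iff_ne_bot A).mpr hA
  obtain ⟨p, hp, s, h1, hps⟩ := hs
  refine det_FS (𝒥 := fun I => ∃ b c, EndPt A b ∧ EndPt A c ∧ I = Ie b c) ?_ ?_ _ σ rfl hσ I ?_
  · rintro _ ⟨b, c, hb, hc, rfl⟩
    exact ie_cases hE hP hp hps h1 hb hc
  · rintro _ ⟨b, c, hb, hc, rfl⟩ d hd
    have hd' : EndPt A (d : EReal) := Or.inr (Or.inr ⟨d, hd, rfl⟩)
    exact ⟨⟨b, _, hb, hc.min hd', ie_lt b c d⟩, ⟨_, c, hb.max hd', hc, ie_gt b c d⟩⟩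
  · rcases hI with rfl | ⟨b, hb, rfl⟩ | ⟨c, hc, rfl⟩ | ⟨b, hb, c, hc, -, rfl⟩
    · refine ⟨⊥, ⊤, Or.inl rfl, Or.inr (Or.inl rfl), ?_⟩
      ext x
      exact ⟨fun _ => ⟨EReal.bot_lt_coe x, EReal.coe_lt_top x⟩, fun _ => trivial⟩
    · refine ⟨b, ⊤, Or.inr (Or.inr ⟨b, hb, rfl⟩), Or.inr (Or.inl rfl), ?_⟩
      ext x
      exact ⟨fun h => ⟨EReal.coe_lt_coe_iff.mpr h, EReal.coe_lt_top x⟩,
        fun h => EReal.coe_lt_coe_iff.mp h.1⟩
    · refine ⟨⊥, c, Or.inl rfl, Or.inr (Or.inr ⟨c, hc, rfl⟩), ?_⟩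
      ext x
      exact ⟨fun h => ⟨EReal.bot_lt_coe x, EReal.coe_lt_coe_iff.mpr h⟩,
        fun h => EReal.coe_lt_coe_iff.mp h.2⟩
    · refine ⟨b, c, Or.inr (Or.inr ⟨b, hb, rfl⟩), Or.inr (Or.inr ⟨c, hc, rfl⟩), ?_⟩
      ext x
      exact ⟨fun h => ⟨EReal.coe_lt_coe_iff.mpr h.1, EReal.coe_lt_coe_iff.mpr h.2⟩,
        fun h => ⟨EReal.coe_lt_coe_iff.mp h.1, EReal.coe_lt_coe_iff.mp h.2⟩⟩

end Act

end Pool.Agent.H417.PL
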