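import Pool.Agent.H417.PL.Sup
import Pool.Graph.R_seed8.R615.KU.Wr2

/-!
Stabilizers in the groups of Bieri and Strebel, semidirect products, graph products and wreath
products: the statements.
-/

set_option autoImplicit false
set_option linter.unusedSectionVars false

namespace Pool.Agent.H417.PL

open CategoryTheory Monoid Pool.Agent.Y483 Pool.Agent.R615.KU Pool.Agent.Y483.PW
  Pool.Agent.Y75.MQ Pool.Agent.Y110.KW Pool.Agent.T6.H32.NC

section Wr

variable {K V Γ : Type} [Group K] [Group Γ] [MulAction Γ V]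

/-- The transfer from a wreath product to its base. -/
noncomputable def kW (K V Γ : Type) [Group K] [Group Γ] [MulAction Γ V] :
    FinPair (FW K V Γ) V K where
  σ := (MulAction.toPermHom Γ V).comp (SemidirectProduct.rightHom.comp (FW K V Γ).subtype)
  c w v := w.1.left (w.1.right • v)
  d _ _ := 1
  mul_c w x v := by
    change w.1.left ((w.1.right * x.1.right) • v) *
      x.1.left (w.1.right⁻¹ • (w.1.right * x.1.right) • v) = _
    rw [mul_smul, inv_smul_smul]
    rfl
  mul_d _ _ _ := (mul_one 1).symm
  fin w := by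
    refine (Set.Finite.preimage (MulAction.injective w.1.right).injOn w.2).subset ?_
    intro v hv h
    exact hv h

open Classical in
/-- The factor at `v`. -/
noncomputable def facW (Γ : Type) [Group Γ] [MulAction Γ V] (v : V) : K →* FW K V Γ where
  toFun k := ⟨SemidirectProduct.inl (Pi.mulSingle v k), by
    change (Function.mulSupport (Pi.mulSingle v k : V → K)).Finite
    exact (Set.finite_singleton v).subset Pi.mulSupport_mulSingle_subset⟩
  map_one' := by
    apply Subtype.ext
    change SemidirectProduct.inl (Pi.mulSingle v (1 : K)) = (1 : (V → K) ⋊[mulAutArrow] Γ)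
    rw [Pi.mulSingle_one, map_one]
  map_mul' k l := by
    apply Subtype.ext
    change SemidirectProduct.inl (Pi.mulSingle v (k * l)) =
      (SemidirectProduct.inl (Pi.mulSingle v k) * SemidirectProduct.inl (Pi.mulSingle v l) :
        (V → K) ⋊[mulAutArrow] Γ)
    rw [Pi.mulSingle_mul, map_mul]

theorem facW_inj (v : V) (q : ℕ) : Function.Injective (hqMap (facW (K := K) Γ v) q) := by
  classical
  rw [injective_iff_map_eq_zero]
  intro x hx
  cases q with
  | zero => exact hq_zero_injective _ x hx
  | succ q =>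
    have h1 := trH_fix (kW K V Γ) (facW (K := K) Γ v) {v} (fun _ => MonoidHom.id K) (fun _ => 1)
      (fun a ha g => by
        rw [Finset.mem_singleton] at ha
        subst ha
        refine ⟨?_, ?_, rfl⟩
        · change (1 : Γ) • a = a
          exact one_smul _ _
        · change g = (Pi.mulSingle a g : V → K) ((1 : Γ) • a)
          rw [one_smul, Pi.mulSingle_eq_same])
      (fun a ha g => by
        rw [Finset.mem_singleton] at ha
        change (Pi.mulSingle v g : V → K) ((1 : Γ) • a) = 1
        rw [one_smul, Pi.mulSingle_eq_of_ne ha]) (q + 1) x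
    rw [hx, map_zero, Finset.sum_singleton, hqMap_id, hqMap_one, sub_zero] at h1
    exact h1.symm

end Wr

/-- **Groups over the group `G = G(I; A, P)` of Bieri and Strebel.** -/
structure Over (E : GrpCat.{0} ⥤ ModuleCat.{0} ℚ) (A : AddSubgroup ℝ) (P : Subgroup ℝˣ)
    [BSData A P] (I : Set ℝ) : Prop where
  /-- the stabilizers of the finite subsets of `A` -/
  stab : ∀ σ : Finset ℝ, (∀ c ∈ σ, c ∈ A) → Det E (FS A P I σ)
  /-- restricted wreath products -/
  wreath : ∀ (V : Type) [MulAction (BS A P I) V] [Nonempty V], Supported A (BS A P I) V →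
    ∀ (K : Type) [Group K], Det E (FW K V (BS A P I)) ↔ Det E K
  /-- groups `N` with supports in `V`, extended by `G` -/
  supp : ∀ (V : Type) [MulAction (BS A P I) V], Supported A (BS A P I) V →
    ∀ (N : Type) [Group N] (s : Sys (BS A P I) N V),
      (∀ (σ : Finset V) (γ : BS A P I), (∀ v ∈ σ, γ • v = v) →
        ∀ n : N, s.φ γ (s.e (σ : Set V) n) = s.e (σ : Set V) n) →
      (∀ σ : Finset V, Det E (s.e (σ : Set V)).range) → Det E (N ⋊[s.φ] BS A P I)

variable {E : GrpCat.{0} ⥤ ModuleCat.{0} ℚ} {A : AddSubgroup ℝ} {P : Subgroup ℝˣ} [BSData A P]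
  {I : Set ℝ}

theorem over_of (hE : HasPT E) (h : DetFS E A P I) : Over E A P I where
  stab := h
  wreath V _ hne hV K _ := by
    refine ⟨fun h1 => ?_, fun h1 => Det.fw hE h1 (det_fixing h hV)⟩
    obtain ⟨v⟩ := hne
    exact Pool.Agent.H651.Nov.Det.of_hq_inj h1 (facW (K := K) (BS A P I) v) (facW_inj v)
  supp V _ hV N _ s hfix hN := det_sysBS hE h hV s hfix fun σ => hN σ.1

/-- **Graph products over the group `G = G(I; A, P)` of Bieri and Strebel.** -/
structure OverG (E : GrpCat.{0} ⥤ ModuleCat.{0} ℚ) (A : AddSubgroup ℝ) (P : Subgroup ℝˣ)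
    [BSData A P] (I : Set ℝ) : Prop where
  /-- the stabilizers of the finite subsets of `A` -/
  stab : ∀ σ : Finset ℝ, (∀ c ∈ σ, c ∈ A) → Det E (FS A P I σ)
  /-- graph products, extended by `G` -/
  graph : ∀ (V : Type) [MulAction (BS A P I) V], Supported A (BS A P I) V →
    ∀ (Q : V → Type) [∀ v, Group (Q v)] (Λ : SimpleGraph V) (ρ : BS A P I →* MulAut (CoprodI Q))
      (_ : Permutes ρ) (hI : Preserves ρ (graphRel (P := Q) Λ)), Rigid ρ → (∀ v, Det E (Q v)) →
      Det E (Pool.Agent.Y110.KW.GP Q Λ ⋊[qAct hI] BS A P I)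

theorem overG_of (hE : HasPT E) (h : DetFS E A P I) : OverG E A P I where
  stab := h
  graph V _ hV Q _ Λ ρ hP hI hρ hQ :=
    Det.gp Λ hP hI hρ hE hQ fun σ _ => det_fixing h hV σ

end Pool.Agent.H417.PL
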