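import Pool.Agent.H417.PL.SupAll

/-!
Groups with supports, extended by the stabilizers of the finite subsets of `A` in the groups of
Bieri and Strebel.
-/

set_option autoImplicit false

namespace Pool.Agent.H417.PL

open CategoryTheory Pool.Agent.Y483 Pool.Agent.R615.KU Pool.Agent.Y483.PW Pool.Agent.Y110.KW

variable {A : AddSubgroup ℝ} {P : Subgroup ℝˣ} [BSData A P] {I : Set ℝ}
  {E : GrpCat.{0} ⥤ ModuleCat.{0} ℚ}

theorem det_fixFS (h : DetFS E A P I) {τ : Finset ℝ} (hτ : ∀ c ∈ τ, c ∈ A) {V : Type}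
    [MulAction (FS A P I τ) V] (hV : Supported A (FS A P I τ) V) (σ : Finset V) :
    Det E (fixingSubgroup (FS A P I τ) (σ : Set V)) := by
  classical
  choose F hF1 hF2 using hV
  have h1 := h (τ ∪ σ.biUnion F) (fun c hc => by
    rcases Finset.mem_union.mp hc with hc | hc
    · exact hτ c hc
    · obtain ⟨v, -, hv⟩ := Finset.mem_biUnion.mp hc
      exact hF1 v c hv)
  have key : ∀ g : FS A P I τ, g ∈ fixingSubgroup (FS A P I τ) (σ : Set V) ↔
      ∀ c ∈ σ.biUnion F, g.1 c = c := by
    intro g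
    rw [mem_fixingSubgroup_iff]
    constructor
    · intro hg c hc
      obtain ⟨v, hv, hvc⟩ := Finset.mem_biUnion.mp hc
      exact (hF2 v g).mp (hg v hv) c hvc
    · intro hg v hv
      exact (hF2 v g).mpr fun c hc => hg c (Finset.mem_biUnion.mpr ⟨v, hv, hc⟩)
  refine h1.congr
    { toFun := fun g => ⟨g.1.1, g.1.2.1, fun c hc => by
        rcases Finset.mem_union.mp hc with hc | hc
        · exact g.1.2.2 c hc
        · exact (key g.1).mp g.2 c hc⟩
      invFun := fun g => ⟨⟨g.1, g.2.1, fun c hc => g.2.2 c (Finset.mem_union_left _ hc)⟩,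
        (key _).mpr fun c hc => g.2.2 c (Finset.mem_union_right _ hc)⟩
      left_inv := fun _ => rfl
      right_inv := fun _ => rfl
      map_mul' := fun _ _ => rfl }

/-- **Semidirect products with a stabilizer.** -/
theorem det_sysFS (hE : HasPT E) (h : DetFS E A P I) {τ : Finset ℝ} (hτ : ∀ c ∈ τ, c ∈ A)
    {N V : Type} [Group N] [MulAction (FS A P I τ) V] (hV : Supported A (FS A P I τ) V)
    (s : Sys (FS A P I τ) N V)
    (hfix : ∀ (σ : Finset V) (γ : FS A P I τ), (∀ v ∈ σ, γ • v = v) →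
      ∀ n : N, s.φ γ (s.e (σ : Set V) n) = s.e (σ : Set V) n)
    (hN : ∀ σ : Finset V, Det E (s.e (σ : Set V)).range) : Det E (N ⋊[s.φ] FS A P I τ) := by
  refine Det.sys_sep hE s fun σ => ?_
  have hid : ∀ n : (s.e (σ.1 : Set V)).range, s.e (σ.1 : Set V) n.1 = n.1 := by
    rintro ⟨_, n, rfl⟩
    change s.e (σ.1 : Set V) (s.e (σ.1 : Set V) n) = s.e (σ.1 : Set V) n
    rw [s.inter, Set.inter_self]
  let f₁ : s.supG σ.1 →* (s.e (σ.1 : Set V)).range ×
      fixingSubgroup (FS A P I τ) ((σ.1 : Finset V) : Set V) :=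
    { toFun := fun w => (⟨w.1.left, w.1.left, w.2.1⟩,
        ⟨w.1.right, (mem_fixingSubgroup_iff _).mpr w.2.2⟩)
      map_one' := rfl
      map_mul' := fun a b => by
        apply Prod.ext
        · apply Subtype.ext
          change a.1.left * s.φ a.1.right b.1.left = a.1.left * b.1.left
          have h1 := hfix σ.1 a.1.right a.2.2 b.1.left
          rw [b.2.1] at h1
          rw [h1]
        · rfl }
  let f₂ : (s.e (σ.1 : Set V)).range × fixingSubgroup (FS A P I τ) ((σ.1 : Finset V) : Set V) →*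
      s.supG σ.1 :=
    { toFun := fun w => ⟨⟨w.1.1, w.2.1⟩, hid w.1, (mem_fixingSubgroup_iff _).mp w.2.2⟩
      map_one' := rfl
      map_mul' := fun a b => by
        apply Subtype.ext
        apply SemidirectProduct.ext
        · change a.1.1 * b.1.1 = a.1.1 * s.φ a.2.1 b.1.1
          have h1 := hfix σ.1 a.2.1 ((mem_fixingSubgroup_iff _).mp a.2.2) b.1.1
          rw [hid] at h1
          rw [h1]
        · rfl }
  exact ((hN σ.1).prod (det_fixFS h hτ hV σ.1)).of_retract f₁ f₂ rfl

end Pool.Agent.H417.PL
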