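import Pool.Graph.R_pool_sql_team_seeded_47a924f7.T6.H32.NC.Tr

/-!
Transfers along pairs: change of the cocycles by a coboundary, and pairs whose labels telescope.
-/

set_option autoImplicit false

namespace Pool.Agent.H417.PL

open Finsupp Pool.Agent.Y483 Pool.Agent.T6.H32.NC

section FS

variable {G A V : Type} [AddCommGroup V] [Module ℚ V] {n : ℕ}

/-- The sum over `a` of the operators `Φ a`. -/
noncomputable def fsm (Φ : A → (T n G ℚ →ₗ[ℚ] V)) : T n G ℚ →ₗ[ℚ] V :=
  lsum ℚ fun x => LinearMap.toSpanSingleton ℚ V (∑ᶠ a, Φ a (single x 1))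

theorem fsm_single (Φ : A → (T n G ℚ →ₗ[ℚ] V)) (x : Fin n → G) (r : ℚ) :
    fsm Φ (single x r) = r • ∑ᶠ a, Φ a (single x 1) := by
  simp [fsm]

theorem fsm_eq (Φ : A → (T n G ℚ →ₗ[ℚ] V)) (x : Fin n → G) (Y : Finset A)
    (h : ∀ a, a ∉ Y → Φ a (single x 1) = 0) (r : ℚ) :
    fsm Φ (single x r) = ∑ a ∈ Y, Φ a (single x r) := by
  rw [fsm_single, finsum_eq_sum_of_support_subset (s := Y), Finset.smul_sum]
  · apply Finset.sum_congr rfl
    intro a _
    rw [← map_smul, smul_single, smul_eq_mul, mul_one]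
  · intro a ha
    by_contra hY
    exact ha (h a (fun h' => hY (Finset.mem_coe.mpr h')))

end FS

section Prism

variable {X Y : Type}

theorem prism_congr {f f' g g' : X → Y} {n : ℕ} (x : Fin n → X) (m : ℚ)
    (hf : ∀ i, f (x i) = f' (x i)) (hg : ∀ i, g (x i) = g' (x i)) :
    prism f g n (single x m) = prism f' g' n (single x m) := by
  have e : ∀ (f g : X → Y), prism f g n (single x m) =
      prism (f ∘ x) (g ∘ x) n (single (id : Fin n → Fin n) m) := by
    intro f g
    have h := prism_nat (f ∘ x) (g ∘ x) f g x (id : Y → Y) (LinearMap.id : ℚ →ₗ[ℚ] ℚ)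
      (fun _ => rfl) (fun _ => rfl) n (single (id : Fin n → Fin n) m)
    rw [mp_single, mp_id] at h
    exact h
  have h1 : f ∘ x = f' ∘ x := funext hf
  have h2 : g ∘ x = g' ∘ x := funext hg
  rw [e f g, e f' g', h1, h2]

end Prism

section Twist

variable {G A K : Type} [Group G] [Group K]

/-- The pair changed by a coboundary. -/
def twist (κ : FinPair G A K) (u : A → K) : FinPair G A K where
  σ := κ.σ
  c g a := (u (κ.σ g a))⁻¹ * κ.c g a * u a
  d g a := (u (κ.σ g a))⁻¹ * κ.d g a * u a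
  mul_c g h a := by
    rw [κ.mul_c, map_mul, Equiv.Perm.mul_apply]
    group
  mul_d g h a := by
    rw [κ.mul_d, map_mul, Equiv.Perm.mul_apply]
    group
  fin g := by
    refine (κ.fin g).subset ?_
    intro a ha h
    apply ha
    rw [h]

theorem pp_left {n : ℕ} (k : K) (f : Fin (n + 1) → K) (r : ℚ) :
    pp (tQ K) n (single (fun i => k * f i) r) = pp (tQ K) n (single f r) := by
  rw [← pp_tr (tQ K) n k (single f r)]
  unfold tr
  rw [mp_single]
  rfl

variable (κ : FinPair G A K) (u : A → K)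

theorem lab_twist_c (x : G) (a : A) : u a * lab (twist κ u).σ (twist κ u).c x a =
    lab κ.σ κ.c x a * u ((κ.σ x)⁻¹ a) := by
  change u a * ((u (κ.σ x ((κ.σ x)⁻¹ a)))⁻¹ * κ.c x ((κ.σ x)⁻¹ a) * u ((κ.σ x)⁻¹ a)) = _
  rw [perm_apply_inv]
  unfold lab
  group

theorem lab_twist_d (x : G) (a : A) : u a * lab (twist κ u).σ (twist κ u).d x a =
    lab κ.σ κ.d x a * u ((κ.σ x)⁻¹ a) := by
  change u a * ((u (κ.σ x ((κ.σ x)⁻¹ a)))⁻¹ * κ.d x ((κ.σ x)⁻¹ a) * u ((κ.σ x)⁻¹ a)) = _
  rw [perm_apply_inv]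
  unfold lab
  group

/-- The labels multiplied from the right by `u`. -/
def lu (σ : G →* Equiv.Perm A) (c : G → A → K) (u : A → K) (a : A) (x : G) : K :=
  lab σ c x a * u ((σ x)⁻¹ a)

theorem lu_mul {σ : G →* Equiv.Perm A} {c : G → A → K}
    (h : ∀ g h a, c (g * h) a = c g (σ h a) * c h a) (u : A → K) (g x : G) (a : A) :
    lu σ c u a (g * x) = lab σ c g a * lu σ c u ((σ g)⁻¹ a) x := by
  unfold lu
  rw [lab_mul h, map_mul, mul_inv_rev, Equiv.Perm.mul_apply, mul_assoc]

/-- The difference of the prism operators. -/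
noncomputable def dP (n : ℕ) (a : A) : T n G ℚ →ₗ[ℚ] T (n + 1) K ℚ :=
  prism (fun x => lab κ.σ κ.c x a) (lu κ.σ κ.c u a) n -
    prism (fun x => lab κ.σ κ.d x a) (lu κ.σ κ.d u a) n

/-- The difference of the maps given by the labels. -/
noncomputable def dM (n : ℕ) (a : A) : T n G ℚ →ₗ[ℚ] T n K ℚ :=
  mp n (fun x => lab κ.σ κ.c x a) LinearMap.id - mp n (fun x => lab κ.σ κ.d x a) LinearMap.id

/-- The difference of the maps given by the new labels. -/
noncomputable def dM' (n : ℕ) (a : A) : T n G ℚ →ₗ[ℚ] T n K ℚ :=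
  mp n (lu κ.σ κ.c u a) LinearMap.id - mp n (lu κ.σ κ.d u a) LinearMap.id

variable {κ}

theorem lab_eq_of_notMem {n : ℕ} {x : Fin n → G} {a : A} (ha : a ∉ dis κ n x) (i : Fin n) :
    lab κ.σ κ.c (x i) a = lab κ.σ κ.d (x i) a := by
  by_contra hi
  exact ha ⟨i, hi⟩

theorem dP_zero {n : ℕ} {x : Fin n → G} {a : A} (ha : a ∉ dis κ n x) (r : ℚ) :
    dP κ u n a (single x r) = 0 := by
  unfold dP
  rw [LinearMap.sub_apply, sub_eq_zero]
  apply prism_congr
  · exact fun i => lab_eq_of_notMem ha i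
  · intro i
    unfold lu
    rw [lab_eq_of_notMem ha i]

theorem dM_zero {n : ℕ} {x : Fin n → G} {a : A} (ha : a ∉ dis κ n x) (r : ℚ) :
    dM κ n a (single x r) = 0 := by
  unfold dM
  rw [LinearMap.sub_apply, sub_eq_zero, mp_single, mp_single]
  congr 1
  funext i
  exact lab_eq_of_notMem ha i

theorem dM'_zero {n : ℕ} {x : Fin n → G} {a : A} (ha : a ∉ dis κ n x) (r : ℚ) :
    dM' κ u n a (single x r) = 0 := by
  unfold dM'
  rw [LinearMap.sub_apply, sub_eq_zero, mp_single, mp_single]
  congr 1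
  funext i
  change lab _ _ _ _ * _ = lab _ _ _ _ * _
  rw [lab_eq_of_notMem ha i]

theorem dis_face {n : ℕ} (x : Fin (n + 1) → G) (i : Fin (n + 1)) :
    dis κ n (x ∘ i.succAbove) ⊆ dis κ (n + 1) x := by
  rintro a ⟨k, hk⟩
  exact ⟨i.succAbove k, hk⟩

theorem dP_bd (n : ℕ) (a : A) (z : T (n + 1) G ℚ) :
    bd (n + 1) (dP κ u (n + 1) a z) + dP κ u n a (bd n z) =
      dM' κ u (n + 1) a z - dM κ (n + 1) a z := by
  unfold dP dM dM'
  simp only [LinearMap.sub_apply, map_sub]
  have h1 := bd_prism_succ (fun x => lab κ.σ κ.c x a) (lu κ.σ κ.c u a) n z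
  have h2 := bd_prism_succ (fun x => lab κ.σ κ.d x a) (lu κ.σ κ.d u a) n z
  rw [sub_add_sub_comm, h1, h2]
  abel

theorem dP_tr (n : ℕ) (g : G) (a : A) (z : T n G ℚ) :
    pp (tQ K) n (dP κ u n a (tr (tQ G) n g z)) =
      pp (tQ K) n (dP κ u n ((κ.σ g)⁻¹ a) z) := by
  unfold dP
  rw [LinearMap.sub_apply, LinearMap.sub_apply, map_sub, map_sub]
  unfold tr
  have h1 := prism_nat (fun x => lab κ.σ κ.c x ((κ.σ g)⁻¹ a)) (lu κ.σ κ.c u ((κ.σ g)⁻¹ a))
    (fun x => lab κ.σ κ.c x a) (lu κ.σ κ.c u a) (fun x => g * x)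
    (fun y => lab κ.σ κ.c g a * y) (tQ G g) (fun x => lab_mul κ.mul_c g x a)
    (fun x => lu_mul κ.mul_c u g x a) n z
  have h2 := prism_nat (fun x => lab κ.σ κ.d x ((κ.σ g)⁻¹ a)) (lu κ.σ κ.d u ((κ.σ g)⁻¹ a))
    (fun x => lab κ.σ κ.d x a) (lu κ.σ κ.d u a) (fun x => g * x)
    (fun y => lab κ.σ κ.d g a * y) (tQ G g) (fun x => lab_mul κ.mul_d g x a)
    (fun x => lu_mul κ.mul_d u g x a) n z
  rw [h1, h2]
  have h3 := pp_tr (tQ K) n (lab κ.σ κ.c g a)
    (prism (fun x => lab κ.σ κ.c x ((κ.σ g)⁻¹ a)) (lu κ.σ κ.c u ((κ.σ g)⁻¹ a)) n z)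
  have h4 := pp_tr (tQ K) n (lab κ.σ κ.d g a)
    (prism (fun x => lab κ.σ κ.d x ((κ.σ g)⁻¹ a)) (lu κ.σ κ.d u ((κ.σ g)⁻¹ a)) n z)
  unfold tr at h3 h4
  exact congrArg₂ (· - ·) h3 h4

/-- The change by a coboundary does not change the transfer, on cycles, up to boundaries. -/
theorem Fc_twist (n : ℕ) (z : T n G ℚ) (hz : Cyc (tQ G) n z) :
    Fc (twist κ u) n z - Fc κ n z ∈ LinearMap.range (dd (tQ K) n) := by
  classical
  have key := descend (tQ G) (tQ K) (fun k => fsm (dM κ k)) (fun k => fsm (dM' κ u k))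
    (fun k => fsm (dP κ u k)) ?_ ?_ ?_ n z hz
  · refine ⟨_, key.trans ?_⟩
    have e1 : pp (tQ K) n (fsm (dM κ (n + 1)) (sg n z)) = Fc κ n z := by
      have h : (pp (tQ K) n) ∘ₗ (fsm (dM κ (n + 1))) ∘ₗ (sg n) = Fc κ n := by
        apply T_ext
        intro g r
        rw [LinearMap.comp_apply, LinearMap.comp_apply, sg_single, Fc_single, bv_eq]
        have hY : ∀ a, a ∉ (dis_finite κ (n + 1) (Fin.partialProd g)).toFinset →
            a ∉ dis κ (n + 1) (Fin.partialProd g) := by
          intro a ha h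
          exact ha ((Set.Finite.mem_toFinset _).mpr h)
        rw [fsm_eq _ _ (dis_finite κ (n + 1) (Fin.partialProd g)).toFinset
          (fun a ha => dM_zero (hY a ha) 1), hv_eq κ n _
          (dis_finite κ (n + 1) (Fin.partialProd g)).toFinset (by simp), map_sum,
          Finset.smul_sum]
        apply Finset.sum_congr rfl
        intro a _
        unfold dM hs
        rw [LinearMap.sub_apply, mp_single, mp_single, map_sub, smul_sub, ← map_smul, ← map_smul,
          smul_single, smul_single, smul_eq_mul, mul_one]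
        rfl
      exact DFunLike.congr_fun h z
    have e2 : pp (tQ K) n (fsm (dM' κ u (n + 1)) (sg n z)) = Fc (twist κ u) n z := by
      have h : (pp (tQ K) n) ∘ₗ (fsm (dM' κ u (n + 1))) ∘ₗ (sg n) = Fc (twist κ u) n := by
        apply T_ext
        intro g r
        rw [LinearMap.comp_apply, LinearMap.comp_apply, sg_single, Fc_single, bv_eq]
        have hY : ∀ a, a ∉ (dis_finite κ (n + 1) (Fin.partialProd g)).toFinset →
            a ∉ dis κ (n + 1) (Fin.partialProd g) := by
          intro a ha h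
          exact ha ((Set.Finite.mem_toFinset _).mpr h)
        have hY2 : dis (twist κ u) (n + 1) (Fin.partialProd g) ⊆
            ((dis_finite κ (n + 1) (Fin.partialProd g)).toFinset : Set A) := by
          rw [Set.Finite.coe_toFinset]
          rintro a ⟨i, hi⟩
          refine ⟨i, fun h => hi ?_⟩
          have h3 := lab_twist_c κ u (Fin.partialProd g i) a
          have h4 := lab_twist_d κ u (Fin.partialProd g i) a
          rw [h] at h3
          exact mul_left_cancel (h3.trans h4.symm)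
        rw [fsm_eq _ _ (dis_finite κ (n + 1) (Fin.partialProd g)).toFinset
          (fun a ha => dM'_zero u (hY a ha) 1), hv_eq (twist κ u) n _
          (dis_finite κ (n + 1) (Fin.partialProd g)).toFinset hY2, map_sum,
          Finset.smul_sum]
        apply Finset.sum_congr rfl
        intro a _
        unfold dM' hs
        rw [LinearMap.sub_apply, mp_single, mp_single, map_sub, smul_sub, ← map_smul, ← map_smul,
          smul_single, smul_single, smul_eq_mul, mul_one]
        rw [← pp_left (u a) (fun i => lab (twist κ u).σ (twist κ u).c (Fin.partialProd g i) a) r,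
          ← pp_left (u a) (fun i => lab (twist κ u).σ (twist κ u).d (Fin.partialProd g i) a) r]
        congr 2
        · congr 1
          funext i
          exact (lab_twist_c κ u _ a).symm
        · congr 1
          funext i
          exact (lab_twist_d κ u _ a).symm
      exact DFunLike.congr_fun h z
    rw [e1, e2]
  · apply T_ext
    intro x r
    rw [fsm_eq _ _ ∅ (fun a _ => by
      change dP κ u 0 a _ = 0
      exact dP_zero u (fun ⟨i, _⟩ => i.elim0) 1)]
    rfl
  · intro k w
    have h : (bd (k + 1)) ∘ₗ (fsm (dP κ u (k + 1))) + (fsm (dP κ u k)) ∘ₗ (bd k) =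
        fsm (dM' κ u (k + 1)) - fsm (dM κ (k + 1)) := by
      apply T_ext
      intro x r
      have hY : ∀ a, a ∉ (dis_finite κ (k + 1) x).toFinset → a ∉ dis κ (k + 1) x := by
        intro a ha h
        exact ha ((Set.Finite.mem_toFinset _).mpr h)
      rw [LinearMap.add_apply, LinearMap.sub_apply, LinearMap.comp_apply, LinearMap.comp_apply,
        fsm_eq _ _ (dis_finite κ (k + 1) x).toFinset (fun a ha => dP_zero u (hY a ha) 1),
        fsm_eq _ _ (dis_finite κ (k + 1) x).toFinset (fun a ha => dM_zero (hY a ha) 1),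
        fsm_eq _ _ (dis_finite κ (k + 1) x).toFinset (fun a ha => dM'_zero u (hY a ha) 1),
        map_sum]
      have e3 : fsm (dP κ u k) (bd k (single x r)) =
          ∑ a ∈ (dis_finite κ (k + 1) x).toFinset, dP κ u k a (bd k (single x r)) := by
        rw [bd_single, map_sum]
        simp only [map_sum, map_smul]
        rw [Finset.sum_comm]
        apply Finset.sum_congr rfl
        intro i _
        rw [← Finset.smul_sum]
        congr 1
        exact fsm_eq _ _ _ (fun a ha => dP_zero u (fun h => hY a ha (dis_face x i h)) 1) r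
      rw [e3, ← Finset.sum_add_distrib, ← Finset.sum_sub_distrib]
      apply Finset.sum_congr rfl
      intro a _
      exact dP_bd u k a _
    exact DFunLike.congr_fun h w
  · intro k g w
    have h : (pp (tQ K) (k + 1)) ∘ₗ (fsm (dP κ u (k + 1))) ∘ₗ (tr (tQ G) (k + 1) g) =
        (pp (tQ K) (k + 1)) ∘ₗ (fsm (dP κ u (k + 1))) := by
      apply T_ext
      intro x r
      rw [LinearMap.comp_apply, LinearMap.comp_apply, LinearMap.comp_apply]
      have e4 : tr (tQ G) (k + 1) g (single x r) = single (fun i => g * x i) r := by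
        unfold tr
        rw [mp_single]
        rfl
      set Y : Finset A := (dis_finite κ (k + 1) (fun i => g * x i)).toFinset ∪
        ((dis_finite κ (k + 1) x).toFinset).map (κ.σ g).toEmbedding with hYd
      have h1 : ∀ a, a ∉ Y → a ∉ dis κ (k + 1) (fun i => g * x i) := by
        intro a ha h
        exact ha (Finset.mem_union_left _ ((Set.Finite.mem_toFinset _).mpr h))
      have h2 : ∀ a, a ∉ Y.map (κ.σ g)⁻¹.toEmbedding → a ∉ dis κ (k + 1) x := by
        intro a ha h
        apply ha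
        rw [Finset.mem_map]
        refine ⟨κ.σ g a, Finset.mem_union_right _ ?_, ?_⟩
        · rw [Finset.mem_map]
          exact ⟨a, (Set.Finite.mem_toFinset _).mpr h, rfl⟩
        · exact (κ.σ g).symm_apply_apply a
      rw [e4, fsm_eq _ _ Y (fun a ha => dP_zero u (h1 a ha) 1),
        fsm_eq _ _ (Y.map (κ.σ g)⁻¹.toEmbedding) (fun a ha => dP_zero u (h2 a ha) 1),
        Finset.sum_map, map_sum, map_sum]
      apply Finset.sum_congr rfl
      intro a _
      rw [← e4]
      exact dP_tr u (k + 1) g a _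
    exact DFunLike.congr_fun h w

theorem trH_twist (n : ℕ) (y : HQ n G) : trH (twist κ u) n y = trH κ n y := by
  obtain ⟨z, hz⟩ := exists_rpr (Rep.trivial ℚ G ℚ) n y
  have h1 := (Rpr.trH (twist κ u) hz).sub (Rpr.trH κ hz)
  rw [← sub_eq_zero, h1.eq_zero_iff]
  exact Fc_twist u n z hz.cyc

end Twist

section PostComp

variable {G A K K' : Type} [Group G] [Group K] [Group K']

/-- The composite with a homomorphism of the groups of labels. -/
def compL (κ : FinPair G A K) (f : K →* K') : FinPair G A K' where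
  σ := κ.σ
  c g a := f (κ.c g a)
  d g a := f (κ.d g a)
  mul_c g h a := by rw [κ.mul_c, map_mul]
  mul_d g h a := by rw [κ.mul_d, map_mul]
  fin g := by
    refine (κ.fin g).subset ?_
    intro a ha h
    apply ha
    rw [h]

theorem Fc_compL (κ : FinPair G A K) (f : K →* K') (n : ℕ) (z : T n G ℚ) :
    Fc (compL κ f) n z = mp n f LinearMap.id (Fc κ n z) := by
  have h : Fc (compL κ f) n = (mp n f LinearMap.id) ∘ₗ (Fc κ n) := by
    apply T_ext
    intro g r
    have hfin : (Function.support fun a : A =>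
        (single (fun i => κ.c (g i) ((κ.σ (Fin.partialProd g i.succ))⁻¹ a)) (1 : ℚ) -
          single (fun i => κ.d (g i) ((κ.σ (Fin.partialProd g i.succ))⁻¹ a)) (1 : ℚ) :
            T n K ℚ)).Finite := by
      refine (dis_finite κ (n + 1) (Fin.partialProd g)).subset ?_
      intro a ha
      by_contra h
      apply ha
      change single _ (1 : ℚ) - single _ (1 : ℚ) = 0
      rw [← hs_partialProd κ.mul_c, ← hs_partialProd κ.mul_d, hs_eq_of_notMem κ n _ a h, sub_self]
    rw [LinearMap.comp_apply, Fc_single, Fc_single, map_smul]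
    congr 1
    unfold bv
    rw [map_finsum _ hfin]
    apply finsum_congr
    intro a
    rw [map_sub, mp_single, mp_single]
    rfl
  exact DFunLike.congr_fun h z

theorem trH_compL (κ : FinPair G A K) (f : K →* K') (n : ℕ) (y : HQ n G) :
    trH (compL κ f) n y = hqMap f n (trH κ n y) := by
  obtain ⟨z, hz⟩ := exists_rpr (Rep.trivial ℚ G ℚ) n y
  have h1 := Rpr.trH (compL κ f) hz
  rw [Fc_compL] at h1
  exact eq_of_rpr h1 ((Rpr.trH κ hz).hq f)

/-- The transfer along a pair of equal cocycles is zero. -/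
theorem trH_same (κ : FinPair G A K) (h : κ.c = κ.d) (n : ℕ) (y : HQ n G) : trH κ n y = 0 := by
  obtain ⟨z, hz⟩ := exists_rpr (Rep.trivial ℚ G ℚ) n y
  have h1 := Rpr.trH κ hz
  have h2 : Fc κ n z = 0 := by
    have h3 : Fc κ n = 0 := by
      apply T_ext
      intro g r
      rw [Fc_single]
      unfold bv
      rw [h]
      simp
    rw [h3]
    rfl
  rw [h2] at h1
  exact eq_of_rpr h1 Rpr.zero

end PostComp

section Telescope

/-- A telescoping sum over a finite subset of a linear order. -/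
theorem telescope {X M : Type} [LinearOrder X] [AddCommGroup M] (Lp Lm : X → M) (F : Finset X)
    (h1 : ∀ a b, a < b → (∀ c ∈ F, c ≤ a ∨ b ≤ c) → Lp a = Lm b) (m₀ : M)
    (h0 : ∀ a, (∀ c ∈ F, a ≤ c) → Lm a = m₀) (b : X) :
    ∑ a ∈ F.filter (· < b), (Lp a - Lm a) = Lm b - m₀ := by
  classical
  have key : ∀ (k : ℕ) (b : X), (F.filter (· < b)).card = k →
      ∑ a ∈ F.filter (· < b), (Lp a - Lm a) = Lm b - m₀ := by
    intro k
    induction k with
    | zero =>
      intro b hb
      rw [Finset.card_eq_zero] at hb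
      rw [hb, Finset.sum_empty, h0 b, sub_self]
      intro c hc
      by_contra hcb
      have : c ∈ F.filter (· < b) := Finset.mem_filter.mpr ⟨hc, not_le.mp hcb⟩
      rw [hb] at this
      exact absurd this (Finset.notMem_empty c)
    | succ k ih =>
      intro b hb
      have hne : (F.filter (· < b)).Nonempty := by
        rw [← Finset.card_pos, hb]
        omega
      set m := (F.filter (· < b)).max' hne with hm
      have hmem : m ∈ F.filter (· < b) := Finset.max'_mem _ _
      have hmF := (Finset.mem_filter.mp hmem).1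
      have hmb := (Finset.mem_filter.mp hmem).2
      have e : F.filter (· < b) = insert m (F.filter (· < m)) := by
        ext c
        rw [Finset.mem_insert, Finset.mem_filter, Finset.mem_filter]
        constructor
        · rintro ⟨hc, hcb⟩
          have h2 : c ≤ m := Finset.le_max' _ _ (Finset.mem_filter.mpr ⟨hc, hcb⟩)
          rcases h2.lt_or_eq with h3 | h3
          · exact Or.inr ⟨hc, h3⟩
          · exact Or.inl h3
        · rintro (rfl | ⟨hc, hcm⟩)
          · exact ⟨hmF, hmb⟩
          · exact ⟨hc, hcm.trans hmb⟩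
      have hnot : m ∉ F.filter (· < m) := by
        rw [Finset.mem_filter]
        rintro ⟨_, h⟩
        exact lt_irrefl _ h
      have hcard : (F.filter (· < m)).card = k := by
        rw [e, Finset.card_insert_of_notMem hnot] at hb
        omega
      rw [e, Finset.sum_insert hnot, ih m hcard, h1 m b hmb]
      · abel
      · intro c hc
        rcases lt_or_ge c b with h3 | h3
        · exact Or.inl (Finset.le_max' _ _ (Finset.mem_filter.mpr ⟨hc, h3⟩))
        · exact Or.inr h3
  exact key _ b rfl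

variable {G X : Type} [Group G] [LinearOrder X]

/-- The labels of a pair telescope. -/
structure Tele (κ : FinPair G X G) (ρ : G →* G) : Prop where
  top : ∀ a : X, ∃ b, a < b
  tel : ∀ g : G, ∃ F : Finset X, (∀ a b, a < b → (∀ c ∈ F, c ≤ a ∨ b ≤ c) →
      lab κ.σ κ.c g a = lab κ.σ κ.d g b) ∧
    (∀ a, (∀ c ∈ F, a ≤ c) → lab κ.σ κ.d g a = ρ g) ∧
    (∀ a, (∀ c ∈ F, c < a) → lab κ.σ κ.d g a = g) ∧
    (∀ a, a ∉ F → lab κ.σ κ.c g a = lab κ.σ κ.d g a)

variable [Nonempty X] {κ : FinPair G X G} {ρ : G →* G}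

theorem Tele.hv (h : Tele κ ρ) (n : ℕ) (x : Fin (n + 1) → G) :
    hv κ n x = pp (tQ G) n (single x 1) - pp (tQ G) n (single (fun i => ρ (x i)) 1) := by
  classical
  choose F h1 h2 h3 h4 using h.tel
  set Y : Finset X := Finset.univ.biUnion fun i => F (x i) with hY
  have hsub : ∀ i, F (x i) ⊆ Y := fun i => Finset.subset_biUnion_of_mem (fun i => F (x i))
    (Finset.mem_univ i)
  obtain ⟨b, hb⟩ : ∃ b : X, ∀ c ∈ Y, c < b := by
    obtain ⟨a₀⟩ := ‹Nonempty X›
    by_cases hne : Y.Nonempty
    · obtain ⟨b, hb⟩ := h.top (Y.max' hne)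
      exact ⟨b, fun c hc => (Finset.le_max' _ _ hc).trans_lt hb⟩
    · refine ⟨a₀, fun c hc => absurd ⟨c, hc⟩ hne⟩
  have hdis : dis κ (n + 1) x ⊆ (Y : Set X) := by
    rintro a ⟨i, hi⟩
    rw [Finset.mem_coe]
    by_contra ha
    exact hi (h4 (x i) a (fun h' => ha (hsub i h')))
  rw [hv_eq κ n x Y hdis]
  have e : Y = Y.filter (· < b) := by
    ext c
    rw [Finset.mem_filter]
    exact ⟨fun hc => ⟨hc, hb c hc⟩, fun hc => hc.1⟩
  rw [e, telescope (fun a => hs κ.σ κ.c n x a) (fun a => hs κ.σ κ.d n x a) Y ?_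
    (pp (tQ G) n (single (fun i => ρ (x i)) 1)) ?_ b]
  · congr 1
    unfold hs
    congr 2
    funext i
    exact h3 (x i) b (fun c hc => hb c (hsub i hc))
  · intro a c hac hF
    unfold hs
    congr 2
    funext i
    exact h1 (x i) a c hac (fun d hd => hF d (hsub i hd))
  · intro a hF
    unfold hs
    congr 2
    funext i
    exact h2 (x i) a (fun d hd => hF d (hsub i hd))

theorem Tele.Fc (h : Tele κ ρ) (n : ℕ) (z : T n G ℚ) :
    Fc κ n z = z - mp n ρ LinearMap.id z := by
  have e : Pool.Agent.T6.H32.NC.Fc κ n = LinearMap.id - mp n ρ LinearMap.id := by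
    apply T_ext
    intro g r
    rw [Fc_single, bv_eq, h.hv, LinearMap.sub_apply, LinearMap.id_apply, mp_single, smul_sub,
      ← map_smul, ← map_smul, smul_single, smul_single, smul_eq_mul, mul_one, ← sg_single, pp_sg]
    congr 1
    have e2 : (fun i => ρ (Fin.partialProd g i)) = Fin.partialProd (ρ ∘ g) := by
      funext i
      exact (map_partialProd ρ n g i).symm
    rw [e2, ← sg_single, pp_sg]
    rfl
  rw [e]
  rfl

/-- **The telescoping formula.** -/
theorem Tele.trH (h : Tele κ ρ) (n : ℕ) (y : HQ n G) : trH κ n y = y - hqMap ρ n y := by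
  obtain ⟨z, hz⟩ := exists_rpr (Rep.trivial ℚ G ℚ) n y
  have h1 := Rpr.trH κ hz
  rw [h.Fc] at h1
  exact eq_of_rpr h1 (hz.sub (hz.hq ρ))

end Telescope

end Pool.Agent.H417.PL
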