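import Pool.Agent.H417.PL.PLG

/-!
Germs at infinity of piecewise linear automorphisms, and existence of piecewise linear automorphisms
with given values.
-/

set_option autoImplicit false
set_option linter.unusedSectionVars false

namespace Pool.Agent.H417.PL

open Filter

section Germ

variable {A P : Type} [AddCommGroup A] [LinearOrder A] [IsOrderedAddMonoid A] [CommGroup P]
  [DistribMulAction P A] [Slopes A P]

/-- The germ of `g` along the filter `l` is the affine map `α`. -/
def Germ (l : Filter A) (g : A ≃o A) (α : Af A P) : Prop := ∀ᶠ x in l, g x = aff α x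

theorem af_unique {α β : Af A P} {x y : A} (hxy : x < y) (hx : aff α x = aff β x)
    (hy : aff α y = aff β y) : α = β := by
  rw [aff_apply, aff_apply] at hx hy
  have h1 : α.p • (y - x) = β.p • (y - x) := by
    rw [smul_sub, smul_sub]
    have e : α.p • y - α.p • x = (α.b + α.p • y) - (α.b + α.p • x) := by abel
    rw [e, hx, hy]
    abel
  have h2 := smul_cancel (sub_pos.mpr hxy) h1
  rw [h2] at hx
  exact Af.ext (add_right_cancel hx) h2

variable [Nontrivial A]

theorem Germ.unique_top {g : A ≃o A} {α β : Af A P} (h : Germ atTop g α) (h' : Germ atTop g β) :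
    α = β := by
  obtain ⟨e, he⟩ := exists_pos' (A := A)
  obtain ⟨N, hN⟩ := eventually_atTop.mp (h.and h')
  have h1 := hN N le_rfl
  have h2 := hN (N + e) (le_add_of_nonneg_right he.le)
  exact af_unique (lt_add_of_pos_right N he) (h1.1.symm.trans h1.2) (h2.1.symm.trans h2.2)

theorem Germ.unique_bot {g : A ≃o A} {α β : Af A P} (h : Germ atBot g α) (h' : Germ atBot g β) :
    α = β := by
  obtain ⟨e, he⟩ := exists_pos' (A := A)
  obtain ⟨N, hN⟩ := eventually_atBot.mp (h.and h')
  have h1 := hN N le_rfl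
  have h2 := hN (N - e) (sub_le_self N he.le)
  exact af_unique (sub_lt_self N he) (h2.1.symm.trans h2.2) (h1.1.symm.trans h1.2)

omit [Nontrivial A] in
theorem Germ.mul {l : Filter A} {g h : A ≃o A} {α β : Af A P} (hl : Tendsto h l l)
    (hg : Germ l g α) (hh : Germ l h β) : Germ l (g * h) (α * β) := by
  have h1 : ∀ᶠ x in l, g (h x) = aff α (h x) := hl.eventually hg
  filter_upwards [h1, hh] with x h2 h3
  rw [mul_app, h2, h3, map_mul, mul_app]

omit [Nontrivial A] in
theorem Germ.one (l : Filter A) : Germ l (1 : A ≃o A) (1 : Af A P) :=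
  Eventually.of_forall fun x => by rw [map_one]

/-- Beyond a point to the right of the breaks the map is affine. -/
theorem aff_beyond {g : A ≃o A} {F : Finset A}
    (hF : ∀ x y, x < y → (∀ z ∈ F, z ≤ x ∨ y ≤ z) → ∃ p : P, AffOn g p x y) (N : A)
    (hN : ∀ z ∈ F, z ≤ N) : ∃ p : P, ∀ y, AffOn g p N y := by
  obtain ⟨e, he⟩ := exists_pos' (A := A)
  obtain ⟨p, hp⟩ := hF N (N + e) (lt_add_of_pos_right N he) (fun z hz => Or.inl (hN z hz))
  refine ⟨p, fun y z hz1 hz2 => ?_⟩
  have h1 : N < max z (N + e) := (lt_add_of_pos_right N he).trans_le (le_max_right _ _)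
  obtain ⟨q, hq⟩ := hF N (max z (N + e)) h1 (fun z hz => Or.inl (hN z hz))
  have h2 : q = p := AffOn.unique_right h1 (lt_add_of_pos_right N he) hq hp
  rw [← h2]
  exact hq z hz1 (le_max_left _ _)

/-- Before a point to the left of the breaks the map is affine. -/
theorem aff_before {g : A ≃o A} {F : Finset A}
    (hF : ∀ x y, x < y → (∀ z ∈ F, z ≤ x ∨ y ≤ z) → ∃ p : P, AffOn g p x y) (N : A)
    (hN : ∀ z ∈ F, N ≤ z) : ∃ p : P, ∀ y, AffOn g p y N := by
  obtain ⟨e, he⟩ := exists_pos' (A := A)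
  obtain ⟨p, hp⟩ := hF (N - e) N (sub_lt_self N he) (fun z hz => Or.inr (hN z hz))
  refine ⟨p, fun y => ?_⟩
  have h1 : min y (N - e) < N := (min_le_right _ _).trans_lt (sub_lt_self N he)
  obtain ⟨q, hq⟩ := hF (min y (N - e)) N h1 (fun z hz => Or.inr (hN z hz))
  have h2 : q = p := AffOn.unique_left h1 (sub_lt_self N he) hq hp
  rw [← h2]
  exact hq.sub (min_le_left _ _) le_rfl

theorem exists_ub (F : Finset A) (a : A) : ∃ N, a ≤ N ∧ ∀ z ∈ F, z ≤ N := by
  classical
  refine ⟨(insert a F).max' ⟨a, Finset.mem_insert_self _ _⟩, Finset.le_max' _ _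
    (Finset.mem_insert_self _ _), fun z hz => Finset.le_max' _ _ (Finset.mem_insert_of_mem hz)⟩

theorem exists_lb (F : Finset A) (a : A) : ∃ N, N ≤ a ∧ ∀ z ∈ F, N ≤ z := by
  classical
  refine ⟨(insert a F).min' ⟨a, Finset.mem_insert_self _ _⟩, Finset.min'_le _ _
    (Finset.mem_insert_self _ _), fun z hz => Finset.min'_le _ _ (Finset.mem_insert_of_mem hz)⟩

theorem IsPL.germ_top {g : A ≃o A} (hg : IsPL P g) : ∃ α : Af A P, Germ atTop g α := by
  obtain ⟨F, hF⟩ := hg
  obtain ⟨N, -, hN⟩ := exists_ub F 0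
  obtain ⟨p, hp⟩ := aff_beyond hF N hN
  refine ⟨⟨g N - p • N, p⟩, eventually_atTop.mpr ⟨N, fun x hx => ?_⟩⟩
  rw [hp x x hx le_rfl, aff_apply, smul_sub]
  change g N + (p • x - p • N) = g N - p • N + p • x
  abel

theorem IsPL.germ_bot {g : A ≃o A} (hg : IsPL P g) : ∃ α : Af A P, Germ atBot g α := by
  obtain ⟨F, hF⟩ := hg
  obtain ⟨N, -, hN⟩ := exists_lb F 0
  obtain ⟨p, hp⟩ := aff_before hF N hN
  refine ⟨⟨g N - p • N, p⟩, eventually_atBot.mpr ⟨N, fun x hx => ?_⟩⟩
  have h1 := hp x N hx le_rfl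
  have h2 : g x = g N - p • (N - x) := by
    rw [h1]
    abel
  rw [h2, aff_apply, smul_sub]
  change g N - (p • N - p • x) = g N - p • N + p • x
  abel

end Germ

section Groups

variable (A P : Type) [AddCommGroup A] [LinearOrder A] [CommGroup P]
  [DistribMulAction P A]

/-- The group of all piecewise linear automorphisms of `A`. -/
def PLine : Subgroup (A ≃o A) where
  carrier := {g | IsPL P g}
  one_mem' := IsPL.one
  mul_mem' := IsPL.mul
  inv_mem' := IsPL.inv

/-- The group of the piecewise linear automorphisms of `A` which are the identity on the negative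
elements. -/
def GP : Subgroup (A ≃o A) where
  carrier := {g | IsPL P g ∧ ∀ x ≤ 0, g x = x}
  one_mem' := ⟨IsPL.one, fun _ _ => rfl⟩
  mul_mem' := fun {g h} hg hh => ⟨hg.1.mul hh.1, fun x hx => by
    rw [mul_app, hh.2 x hx, hg.2 x hx]⟩
  inv_mem' := fun {g} hg => ⟨hg.1.inv, fun x hx => by
    conv_lhs => rw [← hg.2 x hx]
    exact inv_app g x⟩

/-- The group of the piecewise linear automorphisms of `A` which are the identity outside of the
interval `[0, e]`. -/
def GI (e : A) : Subgroup (A ≃o A) where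
  carrier := {g | IsPL P g ∧ (∀ x ≤ 0, g x = x) ∧ ∀ x, e ≤ x → g x = x}
  one_mem' := ⟨IsPL.one, fun _ _ => rfl, fun _ _ => rfl⟩
  mul_mem' := fun {g h} hg hh => ⟨hg.1.mul hh.1, fun x hx => by
    rw [mul_app, hh.2.1 x hx, hg.2.1 x hx], fun x hx => by
    rw [mul_app, hh.2.2 x hx, hg.2.2 x hx]⟩
  inv_mem' := fun {g} hg => ⟨hg.1.inv, fun x hx => by
    conv_lhs => rw [← hg.2.1 x hx]
    exact inv_app g x, fun x hx => by
    conv_lhs => rw [← hg.2.2 x hx]
    exact inv_app g x⟩

end Groups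

section IPA

variable (A P : Type) [AddCommGroup A] [CommGroup P] [DistribMulAction P A]

/-- The subgroup generated by the elements `p a - a`. -/
def IPA : AddSubgroup A := AddSubgroup.closure {x | ∃ (p : P) (a : A), x = p • a - a}

variable {A P}

theorem mem_IPA (p : P) (a : A) : p • a - a ∈ IPA A P :=
  AddSubgroup.subset_closure ⟨p, a, rfl⟩

theorem smul_mem_IPA (p : P) {x : A} (hx : x ∈ IPA A P) : p • x ∈ IPA A P := by
  have h := add_mem (mem_IPA p x) hx
  rwa [sub_add_cancel] at h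

instance : DistribMulAction P (IPA A P) where
  smul p x := ⟨p • x.1, smul_mem_IPA p x.2⟩
  one_smul x := Subtype.ext (one_smul P x.1)
  mul_smul p q x := Subtype.ext (mul_smul p q x.1)
  smul_zero p := Subtype.ext (smul_zero p)
  smul_add p x y := Subtype.ext (smul_add p x.1 y.1)

theorem IPA_smul (p : P) (x : IPA A P) : (p • x).1 = p • x.1 := rfl

end IPA

section Diff

variable {A P : Type} [AddCommGroup A] [LinearOrder A] [CommGroup P] [DistribMulAction P A]

/-- A piecewise linear automorphism moves all points by the same amount modulo `IPA`. -/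
theorem IsPL.diff {g : A ≃o A} (hg : IsPL P g) (x y : A) :
    (g y - y) - (g x - x) ∈ IPA A P := by
  classical
  obtain ⟨F, hF⟩ := hg
  have key : ∀ (n : ℕ) (x y : A), x < y → (F.filter (fun z => x < z ∧ z < y)).card = n →
      (g y - y) - (g x - x) ∈ IPA A P := by
    intro n
    induction n using Nat.strong_induction_on with
    | _ n ih =>
      intro x y hxy hn
      rcases (F.filter (fun z => x < z ∧ z < y)).eq_empty_or_nonempty with h | ⟨z, hz⟩
      · obtain ⟨p, hp⟩ := hF x y hxy (fun z hz => by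
          by_contra hc
          rw [not_or, not_le, not_le] at hc
          have h1 : z ∈ F.filter (fun z => x < z ∧ z < y) := Finset.mem_filter.mpr ⟨hz, hc⟩
          rw [h] at h1
          exact absurd h1 (Finset.notMem_empty z))
        have h1 := hp y hxy.le le_rfl
        have h2 : (g y - y) - (g x - x) = p • (y - x) - (y - x) := by
          rw [h1]
          abel
        rw [h2]
        exact mem_IPA p _
      · obtain ⟨hzF, hxz, hzy⟩ := Finset.mem_filter.mp hz
        have h1 := ih _ (by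
          rw [← hn]
          apply Finset.card_lt_card
          refine ⟨fun w hw => ?_, fun hs => ?_⟩
          · obtain ⟨hw1, hw2, hw3⟩ := Finset.mem_filter.mp hw
            exact Finset.mem_filter.mpr ⟨hw1, hw2, hw3.trans hzy⟩
          · exact lt_irrefl z (Finset.mem_filter.mp (hs hz)).2.2) x z hxz rfl
        have h2 := ih _ (by
          rw [← hn]
          apply Finset.card_lt_card
          refine ⟨fun w hw => ?_, fun hs => ?_⟩
          · obtain ⟨hw1, hw2, hw3⟩ := Finset.mem_filter.mp hw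
            exact Finset.mem_filter.mpr ⟨hw1, hxz.trans hw2, hw3⟩
          · exact lt_irrefl z (Finset.mem_filter.mp (hs hz)).2.1) z y hzy rfl
        have h3 := add_mem h1 h2
        have h4 : (g z - z) - (g x - x) + ((g y - y) - (g z - z)) = (g y - y) - (g x - x) := by
          abel
        rwa [h4] at h3
  rcases lt_trichotomy x y with h | h | h
  · exact key _ x y h rfl
  · rw [h, sub_self]
    exact zero_mem _
  · have h1 := neg_mem (key _ y x h rfl)
    rwa [neg_sub] at h1

theorem GP.diff {g : A ≃o A} (hg : g ∈ GP A P) (x : A) : g x - x ∈ IPA A P := by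
  have h := hg.1.diff 0 x
  rwa [hg.2 0 le_rfl, sub_self, sub_zero] at h

end Diff

/-- The multiples of a positive element by the powers of `r` are unbounded. -/
def Arch (A : Type) {P : Type} [AddCommGroup A] [LinearOrder A] [CommGroup P]
    [DistribMulAction P A] (r : P) : Prop := ∀ a b : A, 0 < a → ∃ k : ℕ, b < r ^ k • a

section Trans

variable {A P : Type} [AddCommGroup A] [LinearOrder A] [IsOrderedAddMonoid A] [CommGroup P]
  [DistribMulAction P A] [Slopes A P] {r : P} (hr : Arch A r)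

include hr in
theorem Arch.lt {a : A} (ha : 0 < a) : a < r • a := by
  by_contra h
  have h1 := not_lt.mp h
  have h2 : ∀ j : ℕ, r ^ j • a ≤ a := by
    intro j
    induction j with
    | zero => rw [pow_zero, one_smul]
    | succ j ih =>
      rw [pow_succ, mul_smul]
      exact (smul_le (r ^ j) h1).trans ih
  obtain ⟨j, hj⟩ := hr a a ha
  exact absurd hj (not_lt.mpr (h2 j))

include hr in
theorem Arch.inv_lt {a : A} (ha : 0 < a) : r⁻¹ • a < a := by
  have h1 := hr.lt (Slopes.pos r⁻¹ a ha)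
  rwa [smul_inv_smul] at h1

include hr in
theorem Arch.small {a b : A} (ha : 0 < a) : ∃ k : ℕ, (r ^ k)⁻¹ • b < a := by
  obtain ⟨k, hk⟩ := hr a b ha
  refine ⟨k, ?_⟩
  have h1 := smul_lt (r ^ k)⁻¹ hk
  rwa [inv_smul_smul] at h1

include hr in
theorem Arch.between {t e : A} (h : t < e) : ∃ c, t < c ∧ c < e := by
  have h0 := sub_pos.mpr h
  refine ⟨t + r⁻¹ • (e - t), lt_add_of_pos_right _ (Slopes.pos _ _ h0), ?_⟩
  have h1 := add_lt_add_right (hr.inv_lt h0) t
  rwa [add_sub_cancel] at h1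

include hr in
/-- Large elements `p l - l`. -/
theorem Arch.large (x : A) {l : A} (hl : 0 < l) : ∃ p : P, x < p • l - l := by
  obtain ⟨k, hk⟩ := hr l (x + l) hl
  exact ⟨r ^ k, lt_sub_iff_add_lt.mpr hk⟩

include hr in
/-- The cosets of `IPA` are dense. -/
theorem Arch.dense (x : A) {s : A} (hs : 0 < s) : ∃ y, 0 < y ∧ y < s ∧ y - x ∈ IPA A P := by
  obtain ⟨p, hp⟩ := hr.large (-x) hs
  set y₀ := x + (p • s - s) with hy₀
  have h0 : 0 < y₀ := by
    have h1 := add_lt_add_right hp x
    rwa [add_neg_cancel] at h1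
  obtain ⟨k, hk⟩ := hr.small hs (b := y₀)
  refine ⟨(r ^ k)⁻¹ • y₀, Slopes.pos _ _ h0, hk, ?_⟩
  have h1 : (r ^ k)⁻¹ • y₀ - x = ((r ^ k)⁻¹ • y₀ - y₀) + (p • s - s) := by
    rw [hy₀]
    abel
  rw [h1]
  exact add_mem (mem_IPA _ _) (mem_IPA _ _)

/-- Some piecewise linear automorphism fixes zero and moves `a` to `b`. -/
def Rel (P : Type) [CommGroup P] [DistribMulAction P A] (a b : A) : Prop :=
  ∃ φ : A ≃o A, IsPL P φ ∧ φ 0 = 0 ∧ φ a = b

omit [IsOrderedAddMonoid A] [Slopes A P] in
theorem Rel.refl (a : A) : Rel P a a := ⟨1, IsPL.one, rfl, rfl⟩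

omit [IsOrderedAddMonoid A] [Slopes A P] in
theorem Rel.symm {a b : A} (h : Rel P a b) : Rel P b a := by
  obtain ⟨φ, h1, h2, h3⟩ := h
  refine ⟨φ⁻¹, h1.inv, ?_, ?_⟩
  · conv_lhs => rw [← h2]
    exact inv_app φ 0
  · rw [← h3]
    exact inv_app φ a

omit [IsOrderedAddMonoid A] [Slopes A P] in
theorem Rel.trans {a b c : A} (h : Rel P a b) (h' : Rel P b c) : Rel P a c := by
  obtain ⟨φ, h1, h2, h3⟩ := h
  obtain ⟨ψ, h4, h5, h6⟩ := h'
  exact ⟨ψ * φ, h4.mul h1, by rw [mul_app, h2, h5], by rw [mul_app, h3, h6]⟩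

theorem Rel.smul (p : P) (a : A) : Rel P a (p • a) := by
  refine ⟨aff (⟨0, p⟩ : Af A P), IsPL.aff _, ?_, ?_⟩
  · change (0 : A) + p • (0 : A) = 0
    rw [smul_zero, add_zero]
  · change (0 : A) + p • a = p • a
    rw [zero_add]

theorem Rel.cut (p : P) {a l : A} (hl : 0 ≤ l) (hla : l ≤ a) : Rel P a (a + (p • l - l)) := by
  refine ⟨Pool.Agent.H417.PL.cut 1 (a - l) p, IsPL.one.cut _ _, ?_, ?_⟩
  · rw [cut_le _ _ _ (sub_nonneg.mpr hla)]
    rfl
  · rw [cut_ge _ _ _ (sub_le_self _ hl)]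
    change (a - l) + p • (a - (a - l)) = _
    rw [sub_sub_cancel]
    abel

theorem Rel.add {a b : A} (h : Rel P a b) (ha : 0 ≤ a) {z : A} (hz : 0 ≤ z) :
    Rel P (a + z) (b + z) := by
  obtain ⟨φ, h1, h2, h3⟩ := h
  have H : φ a = aff (⟨b - a, 1⟩ : Af A P) a := by
    rw [aff_apply, h3]
    change b = b - a + (1 : P) • a
    rw [one_smul, sub_add_cancel]
  refine ⟨glue φ (aff (⟨b - a, 1⟩ : Af A P)) a H, h1.glue (IsPL.aff _) _ _, ?_, ?_⟩
  · rw [glue_le H ha, h2]
  · rw [glue_ge H (le_add_of_nonneg_right hz), aff_apply]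
    change b - a + (1 : P) • (a + z) = b + z
    rw [one_smul]
    abel

include hr in
theorem rel_neutral (p : P) {c l : A} (hc : 0 < c) (hl : 0 < l) (hz : 0 ≤ p • l - l) :
    Rel P c (c + (p • l - l)) := by
  obtain ⟨k, hk⟩ := hr c l hc
  have h1 := Rel.smul (r ^ k) c
  have h2 := Rel.cut p hl.le hk.le
  exact h1.trans (h2.trans (h1.add hc.le hz).symm)

/-- The differences of related elements. -/
def Nr (A P : Type) [AddCommGroup A] [LinearOrder A] [CommGroup P] [DistribMulAction P A] :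
    Set A := {x | ∀ c, 0 < c → 0 < c + x → Rel P c (c + x)}

omit [IsOrderedAddMonoid A] [Slopes A P] in
theorem Nr.neg {x : A} (h : x ∈ Nr A P) : -x ∈ Nr A P := by
  intro c hc hcx
  have h1 := h (c + -x) hcx (by rwa [neg_add_cancel_right])
  rw [neg_add_cancel_right] at h1
  exact h1.symm

include hr in
theorem Nr.add {x y : A} (hx : x ∈ Nr A P) (hy : y ∈ Nr A P) : x + y ∈ Nr A P := by
  intro c hc hcxy
  obtain ⟨p, hp⟩ := hr.large (max (-x) 0) hc
  have hz0 : 0 < p • c - c := (le_max_right _ _).trans_lt hp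
  have hzx : 0 < (p • c - c) + x := by
    have h1 := add_lt_add_left ((le_max_left _ _).trans_lt hp) x
    rwa [neg_add_cancel] at h1
  set z := p • c - c with hz
  have h1 := rel_neutral hr p hc hc hz0.le
  have h2 := hx (c + z) (add_pos hc hz0) (by
    rw [add_assoc]
    exact add_pos hc hzx)
  have h3 := hy (c + z + x) (by
    rw [add_assoc]
    exact add_pos hc hzx) (by
    have h4 : c + z + x + y = (c + (x + y)) + z := by abel
    rw [h4]
    exact add_pos hcxy hz0)
  have h4 : c + z + x + y = (c + (x + y)) + z := by abel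
  rw [h4] at h3
  have h5 := rel_neutral hr p hcxy hc hz0.le
  exact h1.trans (h2.trans (h3.trans h5.symm))

include hr in
theorem Nr.of_pos (p : P) {a : A} (ha : 0 < a) : p • a - a ∈ Nr A P := by
  intro c hc hcx
  rcases le_total 0 (p • a - a) with h | h
  · exact rel_neutral hr p hc ha h
  · have h1 := rel_neutral hr p⁻¹ (l := p • a) hcx (Slopes.pos p a ha) (by
      rw [inv_smul_smul]
      rwa [← neg_nonneg, neg_sub] at h)
    rw [inv_smul_smul] at h1
    have h2 : c + (p • a - a) + (a - p • a) = c := by abel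
    rw [h2] at h1
    exact h1.symm

include hr in
theorem IPA_Nr {x : A} (hx : x ∈ IPA A P) : x ∈ Nr A P := by
  induction hx using AddSubgroup.closure_induction with
  | mem x hx =>
    obtain ⟨p, a, rfl⟩ := hx
    rcases lt_trichotomy 0 a with h | h | h
    · exact Nr.of_pos hr p h
    · rw [← h, smul_zero, sub_zero]
      intro c hc _
      rw [add_zero]
      exact Rel.refl c
    · have h1 := Nr.neg (Nr.of_pos hr p (neg_pos.mpr h))
      rwa [smul_neg p a, neg_sub_neg, neg_sub] at h1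
  | zero =>
    intro c hc _
    rw [add_zero]
    exact Rel.refl c
  | add x y _ _ hx hy => exact Nr.add hr hx hy
  | neg x _ hx => exact Nr.neg hx

include hr in
/-- **Transitivity** on the positive elements of a coset of `IPA`. -/
theorem trans_pos {a b : A} (ha : 0 < a) (hb : 0 < b) (hab : b - a ∈ IPA A P) :
    ∃ φ : A ≃o A, IsPL P φ ∧ φ 0 = 0 ∧ φ a = b := by
  have h := IPA_Nr hr hab a ha (by rwa [add_sub_cancel])
  rwa [add_sub_cancel] at h

include hr in
theorem trans_two {x y x' y' : A} (hx : x < y) (hx' : x' < y')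
    (h : (y' - x') - (y - x) ∈ IPA A P) :
    ∃ φ : A ≃o A, IsPL P φ ∧ φ x = x' ∧ φ y = y' := by
  obtain ⟨φ, h1, h2, h3⟩ := trans_pos hr (sub_pos.mpr hx) (sub_pos.mpr hx') h
  refine ⟨aff (⟨x', 1⟩ : Af A P) * φ * aff (⟨-x, 1⟩ : Af A P), ((IsPL.aff _).mul h1).mul
    (IsPL.aff _), ?_, ?_⟩
  · rw [mul_app, mul_app, aff_apply]
    change (aff _) (φ (-x + (1 : P) • x)) = x'
    rw [one_smul, neg_add_cancel, h2, aff_apply]
    change x' + (1 : P) • (0 : A) = x'
    rw [smul_zero, add_zero]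
  · rw [mul_app, mul_app, aff_apply]
    change (aff _) (φ (-x + (1 : P) • y)) = y'
    rw [one_smul, neg_add_eq_sub, h3, aff_apply]
    change x' + (1 : P) • (y' - x') = y'
    rw [one_smul, add_sub_cancel]

include hr in
/-- Translations to the right of `e`. -/
theorem exists_n {e a : A} (he : 0 < e) (ha : 0 < a) (hae : a - e ∈ IPA A P) :
    ∃ g ∈ GP A P, g e = a ∧ ∀ x, e ≤ x → g x = a + (x - e) := by
  obtain ⟨φ, h1, h2, h3⟩ := trans_pos hr he ha hae
  have H1 : φ e = aff (⟨a - e, 1⟩ : Af A P) e := by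
    rw [aff_apply, h3]
    change a = a - e + (1 : P) • e
    rw [one_smul, sub_add_cancel]
  have H2 : (1 : A ≃o A) 0 = glue φ (aff (⟨a - e, 1⟩ : Af A P)) e H1 0 := by
    rw [glue_le H1 he.le, h2]
    rfl
  refine ⟨glue 1 (glue φ (aff (⟨a - e, 1⟩ : Af A P)) e H1) 0 H2, ⟨?_, ?_⟩, ?_, ?_⟩
  · exact IsPL.one.glue (h1.glue (IsPL.aff _) _ _) _ _
  · intro x hx
    rw [glue_le H2 hx]
    rfl
  · rw [glue_ge H2 he.le, glue_le H1 le_rfl, h3]
  · intro x hx
    rw [glue_ge H2 (he.le.trans hx), glue_ge H1 hx, aff_apply]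
    change a - e + (1 : P) • x = a + (x - e)
    rw [one_smul]
    abel

include hr in
theorem exists_germ (e : A) (he : 0 < e) (α : Af A P) (hα : α.b ∈ IPA A P) :
    ∃ g ∈ GP A P, ∃ c, ∀ x, c ≤ x → g x = aff α x := by
  set c := α.p⁻¹ • |α.b| + e with hc
  have h0 : (0 : A) ≤ α.p⁻¹ • |α.b| := by
    have h1 := smul_le α.p⁻¹ (abs_nonneg α.b)
    rwa [smul_zero] at h1
  have hc0 : 0 < c := add_pos_of_nonneg_of_pos h0 he
  have hαc : 0 < aff α c := by
    rw [aff_apply, hc, smul_add, smul_inv_smul, ← add_assoc]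
    apply add_pos_of_nonneg_of_pos
    · have h1 := neg_abs_le α.b
      rw [add_comm]
      exact (neg_le_iff_add_nonneg').mp h1
    · exact Slopes.pos _ _ he
  obtain ⟨φ, h1, h2, h3⟩ := trans_pos hr hc0 hαc (by
    have h4 : aff α c - c = α.b + (α.p • c - c) := by
      rw [aff_apply]
      abel
    rw [h4]
    exact add_mem hα (mem_IPA _ _))
  have H2 : (1 : A ≃o A) 0 = glue φ (aff α) c h3 0 := by
    rw [glue_le h3 hc0.le, h2]
    rfl
  refine ⟨glue 1 (glue φ (aff α) c h3) 0 H2, ⟨?_, ?_⟩, c, ?_⟩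
  · exact IsPL.one.glue (h1.glue (IsPL.aff _) _ _) _ _
  · intro x hx
    rw [glue_le H2 hx]
    rfl
  · intro x hx
    rw [glue_ge H2 (hc0.le.trans hx), glue_ge h3 hx]

include hr in
/-- The element which agrees with `g` to the left of `t` and is trivial near infinity. -/
theorem exists_loc {e : A} (he : 0 < e) {g : A ≃o A} (hg : g ∈ GP A P) {t : A} (ht : 0 ≤ t) :
    ∃ k ∈ GP A P, (∀ x, x ≤ t → k x = g x) ∧ ∃ T, ∀ x, T ≤ x → k x = x := by
  set T := max t (g t) + e with hT
  have h1 : t < T := (le_max_left _ _).trans_lt (lt_add_of_pos_right _ he)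
  have h2 : g t < T := (le_max_right _ _).trans_lt (lt_add_of_pos_right _ he)
  obtain ⟨φ, h3, h4, h5⟩ := trans_two hr h1 h2 (by
    have h6 : (T - g t) - (T - t) = -(g t - t) := by abel
    rw [h6]
    exact neg_mem (GP.diff hg t))
  have H1 : φ T = (1 : A ≃o A) T := h5
  have H2 : g t = glue φ 1 T H1 t := by
    rw [glue_le H1 h1.le, h4]
  refine ⟨glue g (glue φ 1 T H1) t H2, ⟨hg.1.glue (h3.glue IsPL.one _ _) _ _, fun x hx => ?_⟩,
    fun x hx => glue_le H2 hx, T, fun x hx => ?_⟩
  · rw [glue_le H2 (hx.trans ht), hg.2 x hx]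
  · rw [glue_ge H2 (h1.le.trans hx), glue_ge H1 hx]
    rfl

include hr in
/-- An element which fixes `[0, t]` and moves `T` to a point smaller than `e`. -/
theorem exists_h {t e : A} (ht : 0 ≤ t) (hte : t < e) (T : A) :
    ∃ h ∈ GP A P, (∀ x, x ≤ t → h x = x) ∧ h T < e ∧ ∃ T', ∀ x, T' ≤ x → h x = x := by
  have he : 0 < e := ht.trans_lt hte
  set T₁ := max T e + e with hT₁
  obtain ⟨y, hy0, hy1, hy2⟩ := hr.dense (T₁ - t) (sub_pos.mpr hte)
  set c := t + y with hc
  have hc1 : t < c := lt_add_of_pos_right _ hy0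
  have hc2 : c < e := by
    have h1 := add_lt_add_right hy1 t
    rwa [add_sub_cancel] at h1
  have hcT : c - T₁ ∈ IPA A P := by
    have h1 : c - T₁ = y - (T₁ - t) := by
      rw [hc]
      abel
    rw [h1]
    exact hy2
  have h1 : t < T₁ := hte.trans ((le_max_right _ _).trans_lt (lt_add_of_pos_right _ he))
  set T₂ := T₁ + e with hT₂
  have h2 : T₁ < T₂ := lt_add_of_pos_right _ he
  have h3 : c < T₂ := hc2.trans (((le_max_right _ _).trans_lt (lt_add_of_pos_right _ he)).trans h2)
  obtain ⟨φ, h4, h5, h6⟩ := trans_two hr h1 hc1 (by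
    have h7 : (c - t) - (T₁ - t) = c - T₁ := by abel
    rw [h7]
    exact hcT)
  obtain ⟨ψ, h7, h8, h9⟩ := trans_two hr h2 h3 (by
    have h10 : (T₂ - c) - (T₂ - T₁) = -(c - T₁) := by abel
    rw [h10]
    exact neg_mem hcT)
  have H1 : ψ T₂ = (1 : A ≃o A) T₂ := h9
  have H2 : φ T₁ = glue ψ 1 T₂ H1 T₁ := by
    rw [glue_le H1 h2.le, h6, h8]
  have H3 : (1 : A ≃o A) t = glue φ (glue ψ 1 T₂ H1) T₁ H2 t := by
    rw [glue_le H2 h1.le, h5]
    rfl
  refine ⟨glue 1 (glue φ (glue ψ 1 T₂ H1) T₁ H2) t H3, ⟨IsPL.one.glue (h4.glue (h7.glue IsPL.one _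
    _) _ _) _ _, fun x hx => ?_⟩, fun x hx => glue_le H3 hx, ?_, T₂, fun x hx => ?_⟩
  · rw [glue_le H3 (hx.trans ht)]
    rfl
  · have h10 : T ≤ T₁ := (le_max_left _ _).trans (le_add_of_nonneg_right he.le)
    refine lt_of_le_of_lt (OrderIso.monotone _ h10) ?_
    rw [glue_ge H3 h1.le, glue_le H2 le_rfl, h6]
    exact hc2
  · rw [glue_ge H3 (h1.le.trans (h2.le.trans hx)), glue_ge H2 (h2.le.trans hx), glue_ge H1 hx]
    rfl

end Trans

end Pool.Agent.H417.PL
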