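import Pool.Graph.R_seed8.R942.NV.Cmp

/-!
Let `N` be a normal subgroup of `G` on which every element of `G` acts on every finite subset like an
element of `N`. If `M` is a rational representation of `Q = G / N` such that `H_n(Q; M) = 0` for all
`n` then `H_n(G; M) = 0` for all `n`.
-/

set_option autoImplicit false

namespace Pool.Agent.H417.PL

open Finsupp Pool.Agent.Y483 Pool.Agent.R942.NV

section Basics

variable {X Y : Type} {L M V : Type} [AddCommGroup L] [Module ℚ L] [AddCommGroup M] [Module ℚ M]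
  [AddCommGroup V] [Module ℚ V]

theorem mp_congr {n : ℕ} (f f' : X → Y) (φ : M →ₗ[ℚ] V) (z : T n X M)
    (h : ∀ x ∈ z.support, ∀ i, f (x i) = f' (x i)) : mp n f φ z = mp n f' φ z := by
  have e : ∀ f : X → Y, mp n f φ z = ∑ x ∈ z.support, single (f ∘ x) (φ (z x)) := by
    intro f
    conv_lhs => rw [← Finsupp.sum_single z]
    rw [Finsupp.sum, map_sum]
    apply Finset.sum_congr rfl
    intro x _
    rw [mp_single]
  rw [e, e]
  apply Finset.sum_congr rfl
  intro x hx
  congr 1
  funext i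
  exact h x hx i

theorem mp_add_coef {n : ℕ} (f : X → Y) (φ ψ : M →ₗ[ℚ] V) (z : T n X M) :
    mp n f (φ + ψ) z = mp n f φ z + mp n f ψ z := by
  have h : mp n f (φ + ψ) = mp n f φ + mp n f ψ := by
    apply T_ext
    intro x m
    rw [LinearMap.add_apply, mp_single, mp_single, mp_single, LinearMap.add_apply, single_add]
  rw [h]
  rfl

theorem mp_sub_coef' {n : ℕ} (f : X → Y) (φ ψ : M →ₗ[ℚ] V) (z : T n X M) :
    mp n f (φ - ψ) z = mp n f φ z - mp n f ψ z := by
  have h : mp n f (φ - ψ) = mp n f φ - mp n f ψ := by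
    apply T_ext
    intro x m
    rw [LinearMap.sub_apply, mp_single, mp_single, mp_single, LinearMap.sub_apply, single_sub]
  rw [h]
  rfl

/-- Decomposition with respect to a basis of the coefficients. -/
theorem decomp {B : Type} {n : ℕ} (w : T n X (B →₀ M)) : ∃ S : Finset B,
    w = ∑ b ∈ S, mp n id (lsingle b) (mp n id (lapply b : (B →₀ M) →ₗ[ℚ] M) w) := by
  classical
  have key : ∀ w : T n X (B →₀ M), ∃ S : Finset B, ∀ S', S ⊆ S' →
      w = ∑ b ∈ S', mp n id (lsingle b) (mp n id (lapply b : (B →₀ M) →ₗ[ℚ] M) w) := by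
    intro w
    induction w using Finsupp.induction_linear with
    | zero => exact ⟨∅, fun S' _ => by simp⟩
    | add w w' h h' =>
      obtain ⟨S, hS⟩ := h
      obtain ⟨S', hS'⟩ := h'
      refine ⟨S ∪ S', fun S'' hs => ?_⟩
      conv_lhs => rw [hS S'' (Finset.subset_union_left.trans hs),
        hS' S'' (Finset.subset_union_right.trans hs), ← Finset.sum_add_distrib]
      apply Finset.sum_congr rfl
      intro b _
      rw [map_add, map_add]
    | single x p =>
      refine ⟨p.support, fun S' hS => ?_⟩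
      have e : ∀ b, mp n id (lsingle b) (mp n id (lapply b : (B →₀ M) →ₗ[ℚ] M)
          (single x p : T n X (B →₀ M))) = single x (single b (p b)) := by
        intro b
        rw [mp_single, mp_single]
        rfl
      rw [Finset.sum_congr rfl fun b _ => e b, ← Finsupp.single_finsetSum]
      congr 1
      conv_lhs => rw [← Finsupp.sum_single p]
      rw [Finsupp.sum]
      apply Finset.sum_subset hS
      intro b _ hb
      rw [Finsupp.notMem_support_iff.mp hb, single_zero]
  obtain ⟨S, hS⟩ := key w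
  exact ⟨S, hS S subset_rfl⟩

/-- A pseudo-inverse of a linear map. -/
theorem exists_pinv (σ : L →ₗ[ℚ] M) : ∃ s : M →ₗ[ℚ] L, ∀ x, σ (s (σ x)) = σ x := by
  obtain ⟨r, hr⟩ := σ.rangeRestrict.exists_rightInverse_of_surjective (LinearMap.range_rangeRestrict σ)
  obtain ⟨s, hs⟩ := LinearMap.exists_extend r
  refine ⟨s, fun x => ?_⟩
  have h1 : s (σ x) = r ⟨σ x, ⟨x, rfl⟩⟩ := by
    rw [← hs]
    rfl
  have h2 := DFunLike.congr_fun hr ⟨σ x, ⟨x, rfl⟩⟩
  rw [h1]
  exact congrArg Subtype.val h2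

end Basics

section Rep

variable {G Q : Type} [Group G] [Group Q] {L M : Type} [AddCommGroup L] [Module ℚ L]
  [AddCommGroup M] [Module ℚ M]

theorem dd_id {ρ : Representation ℚ G L} {τ : Representation ℚ G M} (φ : L →ₗ[ℚ] M)
    (hφ : ∀ g m, φ (ρ g m) = τ g (φ m)) (n : ℕ) (z : T (n + 1) G L) :
    dd τ n (mp (n + 1) id φ z) = mp n id φ (dd ρ n z) :=
  dd_mp (MonoidHom.id G) φ hφ n z

theorem range_id {ρ : Representation ℚ G L} {τ : Representation ℚ G M} (φ : L →ₗ[ℚ] M)
    (hφ : ∀ g m, φ (ρ g m) = τ g (φ m)) (n : ℕ) (z : T n G L)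
    (hz : z ∈ LinearMap.range (dd ρ n)) : mp n id φ z ∈ LinearMap.range (dd τ n) :=
  range_mp (MonoidHom.id G) φ hφ n z hz

theorem cyc_id {ρ : Representation ℚ G L} {τ : Representation ℚ G M} (φ : L →ₗ[ℚ] M)
    (hφ : ∀ g m, φ (ρ g m) = τ g (φ m)) (n : ℕ) (z : T n G L)
    (hz : Cyc ρ n z) : Cyc τ n (mp n id φ z) :=
  cyc_mp (MonoidHom.id G) φ hφ n z hz

theorem cyc_add {ρ : Representation ℚ G L} {n : ℕ} {z z' : T n G L} (h : Cyc ρ n z)
    (h' : Cyc ρ n z') : Cyc ρ n (z + z') := by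
  cases n with
  | zero => exact Cyc.zero _ _
  | succ n =>
    rw [cyc_succ] at *
    rw [map_add, h, h', add_zero]

theorem cyc_sub {ρ : Representation ℚ G L} {n : ℕ} {z z' : T n G L} (h : Cyc ρ n z)
    (h' : Cyc ρ n z') : Cyc ρ n (z - z') := by
  cases n with
  | zero => exact Cyc.zero _ _
  | succ n =>
    rw [cyc_succ] at *
    rw [map_sub, h, h', sub_zero]

theorem cyc_of_range {ρ : Representation ℚ G L} {n : ℕ} {z : T n G L}
    (h : z ∈ LinearMap.range (dd ρ n)) : Cyc ρ n z := by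
  obtain ⟨w, rfl⟩ := h
  exact cyc_dd ρ n w

/-- `H_n(G; M) = 0` for all `n ≥ 1`. -/
def AcycPos (ρ : Representation ℚ G M) : Prop :=
  ∀ (k : ℕ) (z : T (k + 1) G M), dd ρ k z = 0 → z ∈ LinearMap.range (dd ρ (k + 1))

/-- The first differential, with values in the module. -/
noncomputable def D1 (ρ : Representation ℚ G M) : T 1 G M →ₗ[ℚ] M :=
  (lapply default : T 0 G M →ₗ[ℚ] M) ∘ₗ (dd ρ 0)

theorem D1_single (ρ : Representation ℚ G M) (x : Fin 1 → G) (m : M) :
    D1 ρ (single x m) = ρ (x 0)⁻¹ m - m := by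
  unfold D1
  rw [LinearMap.comp_apply, dd_single, map_add, map_sum, Fin.sum_univ_one, map_smul, lapply_apply,
    lapply_apply, Finsupp.single_apply, Finsupp.single_apply, if_pos (Subsingleton.elim _ _),
    if_pos (Subsingleton.elim _ _)]
  simp [sub_eq_add_neg]

omit [Module ℚ M] in
theorem T0_eq {X : Type} (z : T 0 X M) : single default (z default) = z :=
  (Finsupp.unique_single z).symm

theorem dd_zero_eq (ρ : Representation ℚ G M) (z : T 1 G M) :
    dd ρ 0 z = single default (D1 ρ z) := by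
  unfold D1
  rw [LinearMap.comp_apply, lapply_apply, T0_eq]

/-- The map `x ⊗ m ↦ x⁻¹ m`. -/
noncomputable def eps (ρ : Representation ℚ Q M) : (Q →₀ M) →ₗ[ℚ] M :=
  lsum ℚ fun x => ρ x⁻¹

theorem eps_single (ρ : Representation ℚ Q M) (x : Q) (m : M) :
    eps ρ (single x m) = ρ x⁻¹ m := by
  simp [eps]

end Rep

section Shap

variable {G N Q : Type} [Group G] [Group N] [Group Q] {M : Type} [AddCommGroup M] [Module ℚ M]

/-- Shapiro's lemma, surjectivity. -/
theorem sh_sur (π : G →* Q) (i : N →* G) (hπ : Function.Surjective π) (hi : Function.Injective i)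
    (hk : ∀ k, π (i k) = 1) (hx : ∀ g, π g = 1 → ∃ k, i k = g) (ρ : Representation ℚ Q M)
    (q : ℕ) (z : T q G (Q →₀ M)) (hz : Cyc ((indRep ρ).comp π) q z) :
    ∃ y : T q N M, Cyc (trivR N M) q y ∧
      z - mp q i (lsingle (1 : Q)) y ∈ LinearMap.range (dd ((indRep ρ).comp π) q) := by
  classical
  choose t ht using hπ
  let F : Q → G → G := fun x h => h * t ((π h)⁻¹ * x)
  have hF : ∀ x h, π (F x h) = x := by
    intro x h
    simp only [F, map_mul, ht]
    group
  have hFeq : ∀ g x h, F (π g * x) (g * h) = g * F x h := by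
    intro g x h
    simp only [F, map_mul, mul_inv_rev, mul_assoc]
    congr 3
    group
  let κ : G → N := fun h => if hh : π h = 1 then (hx h hh).choose else 1
  have hκ : ∀ h, π h = 1 → i (κ h) = h := by
    intro h hh
    simp only [κ, dif_pos hh]
    exact (hx h hh).choose_spec
  let Y : T q G (Q →₀ M) →ₗ[ℚ] T q N M := lsum ℚ fun w => lsum ℚ fun x =>
    (lsingle (fun j : Fin q => κ ((F x (Fin.partialProd w j.castSucc))⁻¹ *
      F x (Fin.partialProd w j.succ)))) ∘ₗ (ρ x⁻¹)
  have hact : ∀ g x m, ((indRep ρ).comp π) g (single x m) = single (π g * x) (ρ (π g) m) :=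
    fun g x m => indRep_single ρ (π g) x m
  have h := family (G := G) (H := G) (τ := (indRep ρ).comp π) ((indRep ρ).comp π)
    (fun g x => π g * x) (fun g => ρ (π g)) hact (MonoidHom.id G)
    (fun x h => F x h) (fun _ h => h) (fun x => lsingle x)
    (fun g x h => hFeq g x h) (fun g x h => rfl)
    (fun g x m => (hact g x m).symm) q z hz
  have e : pp ((indRep ρ).comp π) q (comb (q + 1)
      (fun x => mp (q + 1) (fun h : G => h) (lsingle x)) (sg q z)) = z := by
    have e1 : comb (q + 1) (fun x : Q => mp (M := M) (q + 1) (fun h : G => h) (lsingle x)) =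
        LinearMap.id := by
      apply TI_ext
      intro x a m
      rw [comb_single, mp_single]
      rfl
    rw [e1, LinearMap.id_apply, pp_sg]
  have e2 : pp ((indRep ρ).comp π) q (comb (q + 1)
      (fun x => mp (q + 1) (fun h : G => F x h) (lsingle x)) (sg q z)) =
        mp q i (lsingle (1 : Q)) (Y z) := by
    have h2 : (pp ((indRep ρ).comp π) q) ∘ₗ (comb (q + 1)
      (fun x => mp (q + 1) (fun h : G => F x h) (lsingle x))) ∘ₗ (sg q) =
        (mp q i (lsingle (1 : Q))) ∘ₗ Y := by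
      apply TI_ext
      intro w x m
      have e3 : Y (single w (single x m)) = single (fun j : Fin q =>
          κ ((F x (Fin.partialProd w j.castSucc))⁻¹ * F x (Fin.partialProd w j.succ)))
            (ρ x⁻¹ m) := by
        simp only [Y]
        rw [Finsupp.lsum_single, Finsupp.lsum_single]
        rfl
      rw [LinearMap.comp_apply, LinearMap.comp_apply, LinearMap.comp_apply, sg_single, comb_single,
        mp_single, pp_single, e3, mp_single, lsingle_apply, lsingle_apply, hact]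
      have e4 : π (((fun h : G => F x h) ∘ Fin.partialProd w) 0)⁻¹ = x⁻¹ := by
        rw [map_inv]
        exact congrArg _ (hF x _)
      rw [e4, inv_mul_cancel]
      congr 1
      funext j
      simp only [Function.comp_apply]
      rw [hκ]
      rw [map_mul, map_inv, hF, hF, inv_mul_cancel]
    exact DFunLike.congr_fun h2 z
  rw [e, e2] at h
  refine ⟨Y z, ?_, h⟩
  cases q with
  | zero => exact Cyc.zero _ _
  | succ q =>
    rw [cyc_succ] at *
    apply mp_injective (M := M) (N := Q →₀ M) q hi (φ := lsingle (1 : Q))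
      (Finsupp.single_injective (1 : Q))
    rw [← dd_mp (ρ := trivR N M) (τ := (indRep ρ).comp π) i (lsingle (1 : Q)) (fun g m => by
      rw [lsingle_apply, lsingle_apply, hact, hk, map_one, one_mul]; rfl), map_zero]
    obtain ⟨v, hv⟩ := h
    have h3 : mp (q + 1) i (lsingle (1 : Q)) (Y z) = z - dd ((indRep ρ).comp π) (q + 1) v := by
      rw [hv, sub_sub_cancel]
    rw [h3, map_sub, hz, dd_dd, sub_self]

/-- Shapiro's lemma, injectivity. -/
theorem sh_inj (π : G →* Q) (i : N →* G) (hπ : Function.Surjective π) (hi : Function.Injective i)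
    (hk : ∀ k, π (i k) = 1) (hx : ∀ g, π g = 1 → ∃ k, i k = g) (ρ : Representation ℚ Q M)
    (q : ℕ) (y : T q N M)
    (h : mp q i (lsingle (1 : Q)) y ∈ LinearMap.range (dd ((indRep ρ).comp π) q)) :
    y ∈ LinearMap.range (dd (trivR N M) q) := by
  classical
  obtain ⟨t, ht, ht1⟩ : ∃ t : Q → G, (∀ x, π (t x) = x) ∧ t 1 = 1 := by
    choose s hs using hπ
    refine ⟨fun x => if x = 1 then 1 else s x, fun x => ?_, by simp⟩
    by_cases hx1 : x = 1
    · subst hx1
      simp
    · simp only [if_neg hx1]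
      exact hs x
  let κ : G → N := fun h => if hh : π h = 1 then (hx h hh).choose else 1
  have hκ : ∀ h, π h = 1 → i (κ h) = h := by
    intro h hh
    simp only [κ, dif_pos hh]
    exact (hx h hh).choose_spec
  let u : G → N := fun h => κ (h * t (π h)⁻¹)
  have hst : ∀ h, π (h * t (π h)⁻¹) = 1 := by
    intro h
    rw [map_mul, ht, mul_inv_cancel]
  have hiu : ∀ h, i (u h) = h * t (π h)⁻¹ := fun h => hκ _ (hst h)
  have hu : ∀ k h, u (i k * h) = k * u h := by
    intro k h
    apply hi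
    rw [map_mul, hiu, hiu, map_mul, hk, one_mul, mul_assoc]
  have hu1 : u 1 = 1 := by
    apply hi
    rw [hiu, map_one, map_one, inv_one, ht1, mul_one]
  have hact : ∀ g x m, ((indRep ρ).comp π) g (single x m) = single (π g * x) (ρ (π g) m) :=
    fun g x m => indRep_single ρ (π g) x m
  let U : ∀ n : ℕ, T (n + 1) G (Q →₀ M) →ₗ[ℚ] T n N M := fun n =>
    pp (trivR N M) n ∘ₗ comb (n + 1) (fun x => mp (n + 1) (fun y : G => u ((t x)⁻¹ * y)) (ρ x⁻¹))
  have hU : ∀ n g z, U n (tr ((indRep ρ).comp π) (n + 1) g z) = U n z := by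
    intro n g z
    have h1 : (U n) ∘ₗ (tr ((indRep ρ).comp π) (n + 1) g) = U n := by
      apply TI_ext
      intro x a r
      obtain ⟨k, hk'⟩ := hx ((t (π g * a))⁻¹ * g * t a) (by
        rw [map_mul, map_mul, map_inv, ht, ht]
        group)
      have e1 : ∀ y, u ((t (π g * a))⁻¹ * (g * y)) = k * u ((t a)⁻¹ * y) := by
        intro y
        rw [← hu, hk']
        congr 1
        group
      have e0 : ρ (π g * a)⁻¹ (ρ (π g) r) = ρ a⁻¹ r := by
        rw [← Module.End.mul_apply, ← map_mul]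
        congr 2
        group
      simp only [U, LinearMap.comp_apply, tr, mp_single, hact, comb_single]
      rw [e0]
      have e2 : (single ((fun x => u ((t (π g * a))⁻¹ * x)) ∘ (fun x => g * x) ∘ x) (ρ a⁻¹ r) :
          T (n + 1) N M) =
          tr (trivR N M) (n + 1) k (single ((fun y => u ((t a)⁻¹ * y)) ∘ x) (ρ a⁻¹ r)) := by
        rw [tr, mp_single]
        congr 1
        funext j
        exact e1 (x j)
      rw [e2, pp_tr]
    exact DFunLike.congr_fun h1 z
  have hbd : ∀ n z, U n (bd (n + 1) z) = dd (trivR N M) n (U (n + 1) z) := by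
    intro n z
    simp only [U, LinearMap.comp_apply]
    rw [comb_bd, ← pp_bd]
    congr 1
    rw [comb_comp]
    congr 1
    congr 1
    funext a
    apply LinearMap.ext
    intro w
    rw [LinearMap.comp_apply, LinearMap.comp_apply, bd_mp]
  have hSh : ∀ n z, U n (sg n (dd ((indRep ρ).comp π) n z)) =
      dd (trivR N M) n (U (n + 1) (sg (n + 1) z)) := by
    intro n z
    have h := factor ((indRep ρ).comp π) n (U n) (hU n) (bd (n + 1) (sg (n + 1) z))
    rw [pp_bd, pp_sg] at h
    rw [← hbd, h]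
  have hy : ∀ n (y : T n N M), U n (sg n (mp n i (lsingle (1 : Q)) y)) = y := by
    intro n y
    have h1 : (U n) ∘ₗ (sg n) ∘ₗ (mp n i (lsingle (1 : Q))) = LinearMap.id := by
      apply T_ext
      intro x r
      have hP : ∀ j, (Fin.partialProd (i ∘ x) j) = i (Fin.partialProd x j) := by
        intro j
        induction j using Fin.induction with
        | zero => simp
        | succ j ih => rw [Fin.partialProd_succ, Fin.partialProd_succ, ih, map_mul]; rfl
      have e1 : (fun z : G => u ((t 1)⁻¹ * z)) ∘ (Fin.partialProd (i ∘ x)) =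
          Fin.partialProd x := by
        funext j
        rw [Function.comp_apply, hP, ht1, inv_one, one_mul]
        have e2 := hu (Fin.partialProd x j) 1
        rw [mul_one, hu1, mul_one] at e2
        exact e2
      change U n (sg n (mp n i (lsingle (1 : Q)) (single x r))) = single x r
      rw [mp_single, lsingle_apply, sg_single]
      simp only [U, LinearMap.comp_apply, comb_single, mp_single]
      rw [e1, inv_one, map_one, Module.End.one_apply, ← sg_single, pp_sg]
    exact DFunLike.congr_fun h1 y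
  obtain ⟨v, hv⟩ := h
  refine ⟨U (q + 1) (sg (q + 1) v), ?_⟩
  rw [← hSh, hv, hy]

end Shap

section Acyc

variable {Q : Type} [Group Q] {M : Type} [AddCommGroup M] [Module ℚ M] (ρ : Representation ℚ Q M)

theorem ind_acyc : AcycPos (indRep ρ) := by
  intro k z hz
  obtain ⟨y, hy, hyz⟩ := sh_sur (N := PUnit.{1}) (MonoidHom.id Q) 1 (fun x => ⟨x, rfl⟩)
    (fun _ _ _ => rfl) (fun _ => rfl) (fun g hg => ⟨1, hg.symm⟩) ρ (k + 1) z
    ((cyc_succ _ _ _).mpr hz)
  have h1 : y ∈ LinearMap.range (dd (trivR PUnit.{1} M) (k + 1)) := by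
    have h2 := one_range (H := PUnit.{1}) (trivR PUnit.{1} M) (fun _ => rfl) (trivR PUnit.{1} M)
      (fun _ => rfl) k y ((cyc_succ _ _ _).mp hy)
    have e : (fun _ : PUnit.{1} => (1 : PUnit.{1})) = id := by
      funext x
      exact Subsingleton.elim _ _
    rw [e, mp_id] at h2
    exact h2
  have h2 : mp (k + 1) (1 : PUnit.{1} →* Q) (lsingle (1 : Q)) y ∈
      LinearMap.range (dd ((indRep ρ).comp (MonoidHom.id Q)) (k + 1)) := by
    apply range_mp (ρ := trivR PUnit.{1} M) (τ := (indRep ρ).comp (MonoidHom.id Q)) _ _ _ _ _ h1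
    intro g m
    change single 1 m = indRep ρ 1 (single 1 m)
    rw [map_one]
    rfl
  have h3 := Submodule.add_mem _ hyz h2
  rw [sub_add_cancel] at h3
  exact h3

theorem sub_eqv (g : Q) (p : Ker Q M) : (Ker Q M).subtype (kerRep ρ g p) =
    indRep ρ g ((Ker Q M).subtype p) := rfl

variable {ρ}

/-- The connecting homomorphism is injective. -/
theorem ker_lift (h : AcycPos ρ) (k : ℕ) (y : T k Q (Ker Q M))
    (hy : mp k id (Ker Q M).subtype y ∈ LinearMap.range (dd (indRep ρ) k)) :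
    y ∈ LinearMap.range (dd (kerRep ρ) k) := by
  obtain ⟨u, hu⟩ := hy
  have haug : ∀ (n : ℕ) (y : T n Q (Ker Q M)),
      mp n id (augM Q M) (mp n id (Ker Q M).subtype y) = 0 := by
    intro n y
    rw [mp_mp]
    have e : (augM Q M) ∘ₗ (Ker Q M).subtype = 0 := by
      apply LinearMap.ext
      intro p
      exact p.2
    rw [e]
    exact mp_zero_coef _ _ _
  have h1 : dd ρ k (mp (k + 1) id (augM Q M) u) = 0 := by
    rw [dd_id (ρ := indRep ρ) (τ := ρ) (augM Q M) (augM_ind ρ), hu, haug]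
  obtain ⟨v, hv⟩ := h k _ h1
  set v' := mp (k + 2) (id : Q → Q) (lsingle (1 : Q)) v with hv'
  have hv1 : mp (k + 2) id (augM Q M) v' = v := by
    rw [hv', mp_mp]
    have e : (augM Q M) ∘ₗ (lsingle (1 : Q)) = LinearMap.id := by
      apply LinearMap.ext
      intro m
      exact augM_single _ _
    rw [e]
    exact mp_id _ _
  have h2 : mp (k + 1) id (augM Q M) (u - dd (indRep ρ) (k + 1) v') = 0 := by
    rw [map_sub, ← dd_id (ρ := indRep ρ) (τ := ρ) (augM Q M) (augM_ind ρ), hv1, hv, sub_self]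
  have h3 := lift_ker (k + 1) _ h2
  refine ⟨mp (k + 1) id (retr Q M) (u - dd (indRep ρ) (k + 1) v'), ?_⟩
  apply mp_injective (M := Ker Q M) k (f := (id : Q → Q)) (fun _ _ h => h)
    (φ := (Ker Q M).subtype) (Subtype.val_injective)
  rw [← dd_id (ρ := kerRep ρ) (τ := indRep ρ) (Ker Q M).subtype (sub_eqv ρ), h3, map_sub, dd_dd,
    sub_zero, hu]

theorem AcycPos.ker (h : AcycPos ρ) : AcycPos (kerRep ρ) := by
  intro k z hz
  apply ker_lift h
  apply ind_acyc
  rw [dd_id (ρ := kerRep ρ) (τ := indRep ρ) (Ker Q M).subtype (sub_eqv ρ), hz, map_zero]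

/-- The elements of the kernel of the augmentation which vanish in the coinvariants. -/
theorem ker_D1 (h : AcycPos ρ) (p : Ker Q M) (hp : eps ρ p.1 = 0) :
    ∃ u, D1 (kerRep ρ) u = p := by
  have h1 : ∀ q : Q →₀ M, ∃ u, dd (indRep ρ) 0 u =
      single default (single 1 (eps ρ q)) - single default q := by
    intro q
    induction q using Finsupp.induction_linear with
    | zero => exact ⟨0, by simp⟩
    | add q q' h h' =>
      obtain ⟨u, hu⟩ := h
      obtain ⟨u', hu'⟩ := h'
      refine ⟨u + u', ?_⟩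
      rw [map_add, hu, hu', map_add, single_add, single_add, single_add]
      abel
    | single x m =>
      refine ⟨single (fun _ => x) (single x m), ?_⟩
      rw [dd_zero_eq, D1_single, indRep_single, inv_mul_cancel, eps_single, single_sub]
  obtain ⟨u, hu⟩ := h1 p.1
  have h2 : (single default p : T 0 Q (Ker Q M)) ∈ LinearMap.range (dd (kerRep ρ) 0) := by
    apply ker_lift h
    refine ⟨-u, ?_⟩
    rw [map_neg, hu, hp, single_zero, single_zero, zero_sub, neg_neg, mp_single]
    congr 1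
  obtain ⟨v, hv⟩ := h2
  refine ⟨v, ?_⟩
  rw [dd_zero_eq] at hv
  exact Finsupp.single_injective _ hv

end Acyc

section Main

variable {G N Q : Type} [Group G] [Group N] [Group Q] {M : Type} [AddCommGroup M] [Module ℚ M]

/-- The elements of `G` act on the finite subsets of `N` like elements of `N`. -/
def LocInner (i : N →* G) : Prop :=
  ∀ (g : G) (S : Finset N), ∃ k : N, ∀ s ∈ S, g * i s * g⁻¹ = i (k * s * k⁻¹)

variable (π : G →* Q) (i : N →* G) (hπ : Function.Surjective π) (hi : Function.Injective i)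
    (hk : ∀ k, π (i k) = 1) (hx : ∀ g, π g = 1 → ∃ k, i k = g) (hl : LocInner i)

include hπ hk hl in
theorem locA (ρ : Representation ℚ Q M) (n : ℕ) (z : T n N M) (hz : Cyc (trivR N M) n z) (s : Q) :
    mp n i (ρ s) z - mp n i LinearMap.id z ∈ LinearMap.range (dd (ρ.comp π) n) := by
  classical
  obtain ⟨g, rfl⟩ := hπ s
  obtain ⟨k, hk'⟩ := hl g (z.support.biUnion fun x => Finset.univ.image x)
  have h1 := plain (ρ := trivR N M) (τ := ρ.comp π) i LinearMap.id (fun g m => by
    change m = ρ (π (i g)) m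
    rw [hk, map_one]
    rfl) g⁻¹ n z hz
  have h2 := plain (ρ := trivR N M) (τ := trivR N M) (MonoidHom.id N) (ρ (π g)) (fun _ _ => rfl)
    k⁻¹ n z hz
  have h3 := range_mp (ρ := trivR N M) (τ := ρ.comp π) i LinearMap.id (fun g m => by
    change m = ρ (π (i g)) m
    rw [hk, map_one]
    rfl) n _ h2
  have e : mp n (fun x => (g⁻¹)⁻¹ * i x * g⁻¹) ((ρ.comp π) (g⁻¹)⁻¹ ∘ₗ LinearMap.id) z =
      mp n i LinearMap.id (mp n (fun x => (k⁻¹)⁻¹ * (MonoidHom.id N) x * k⁻¹)
        ((trivR N M) (k⁻¹)⁻¹ ∘ₗ ρ (π g)) z) := by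
    rw [mp_mp, inv_inv, inv_inv]
    apply mp_congr
    intro x hx i'
    exact hk' (x i') (Finset.mem_biUnion.mpr ⟨x, hx, Finset.mem_image_of_mem _
      (Finset.mem_univ _)⟩)
  rw [map_sub, ← e] at h3
  have h4 := Submodule.sub_mem _ h1 h3
  have e2 : mp n i LinearMap.id (mp n (MonoidHom.id N) (ρ (π g)) z) = mp n i (ρ (π g)) z := by
    rw [mp_mp]
    rfl
  rw [e2] at h4
  have e3 : mp n (fun x => (g⁻¹)⁻¹ * i x * g⁻¹) ((ρ.comp π) (g⁻¹)⁻¹ ∘ₗ LinearMap.id) z -
      mp n i LinearMap.id z - (mp n (fun x => (g⁻¹)⁻¹ * i x * g⁻¹)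
        ((ρ.comp π) (g⁻¹)⁻¹ ∘ₗ LinearMap.id) z - mp n i (ρ (π g)) z) =
      mp n i (ρ (π g)) z - mp n i LinearMap.id z := by abel
  rw [e3] at h4
  exact h4

include hπ hk hl in
theorem locB (ρ : Representation ℚ Q M) (n : ℕ) (w : T n N (T 1 Q M))
    (hw : Cyc (trivR N (T 1 Q M)) n w) :
    mp n i (D1 ρ) w ∈ LinearMap.range (dd (ρ.comp π) n) := by
  obtain ⟨S, hS⟩ := decomp w
  rw [hS, map_sum]
  apply Submodule.sum_mem
  intro b _
  have h1 : Cyc (trivR N M) n (mp n id (lapply b : T 1 Q M →ₗ[ℚ] M) w) :=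
    cyc_id (ρ := trivR N (T 1 Q M)) (τ := trivR N M) _ (fun _ _ => rfl) n w hw
  have h2 := locA π i hπ hk hl ρ n _ h1 (b 0)⁻¹
  rw [← mp_sub_coef'] at h2
  rw [mp_mp]
  have e : (D1 ρ) ∘ₗ (lsingle b) = ρ (b 0)⁻¹ - LinearMap.id := by
    apply LinearMap.ext
    intro m
    exact D1_single ρ b m
  rw [e]
  exact h2

include hπ hk hl in
theorem locC (ρ : Representation ℚ Q M) (n : ℕ) (w : T n N (Q →₀ M))
    (hw : Cyc (trivR N (Q →₀ M)) n w) :
    mp n i ((lsingle (1 : Q)) ∘ₗ (eps ρ)) w - mp n i LinearMap.id w ∈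
      LinearMap.range (dd ((indRep ρ).comp π) n) := by
  obtain ⟨S, hS⟩ := decomp w
  rw [hS, map_sum, map_sum, ← Finset.sum_sub_distrib]
  apply Submodule.sum_mem
  intro b _
  have h1 : Cyc (trivR N M) n (mp n id (lapply b : (Q →₀ M) →ₗ[ℚ] M) w) :=
    cyc_id (ρ := trivR N (Q →₀ M)) (τ := trivR N M) _ (fun _ _ => rfl) n w hw
  have h2 : Cyc (trivR N (Q →₀ M)) n (mp n id (lsingle b)
      (mp n id (lapply b : (Q →₀ M) →ₗ[ℚ] M) w)) :=
    cyc_id (ρ := trivR N M) (τ := trivR N (Q →₀ M)) _ (fun _ _ => rfl) n _ h1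
  have h3 := locA π i hπ hk hl (indRep ρ) n _ h2 b⁻¹
  rw [mp_mp] at h3
  rw [mp_mp]
  have e : ((lsingle (1 : Q)) ∘ₗ (eps ρ)) ∘ₗ (lsingle b) = (indRep ρ b⁻¹) ∘ₗ (lsingle b) := by
    apply LinearMap.ext
    intro m
    change single 1 (eps ρ (single b m)) = indRep ρ b⁻¹ (single b m)
    rw [indRep_single, eps_single, inv_mul_cancel]
  rw [e]
  exact h3

/-- Injectivity of the connecting homomorphism in degree `n`, for `M`. -/
def PP (n : ℕ) (ρ : Representation ℚ Q M) : Prop :=
  ∀ y : T n G (Ker Q M), Cyc ((kerRep ρ).comp π) n y →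
    mp n id (Ker Q M).subtype y ∈ LinearMap.range (dd ((indRep ρ).comp π) n) →
      y ∈ LinearMap.range (dd ((kerRep ρ).comp π) n)

include hπ hi hk hx in
theorem stepOne (ρ : Representation ℚ Q M) (n : ℕ) (hP : ∀ k, k + 1 = n → PP π k ρ)
    (y : T n G M) (hy : Cyc (ρ.comp π) n y) : ∃ w : T n N M, Cyc (trivR N M) n w ∧
      y - mp n i LinearMap.id w ∈ LinearMap.range (dd (ρ.comp π) n) := by
  cases n with
  | zero =>
    refine ⟨single default (y default), Cyc.zero _ _, ?_⟩
    rw [mp_single]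
    have e : (single ((i : N → G) ∘ default) ((LinearMap.id : M →ₗ[ℚ] M) (y default)) :
        T 0 G M) = y := by
      conv_rhs => rw [← T0_eq y]
      congr 1
      exact Subsingleton.elim _ _
    rw [e, sub_self]
    exact Submodule.zero_mem _
  | succ k =>
    rw [cyc_succ] at hy
    have haug : ∀ g p, augM Q M (((indRep ρ).comp π) g p) = (ρ.comp π) g (augM Q M p) :=
      fun g p => augM_ind ρ (π g) p
    have haug1 : (augM Q M) ∘ₗ (lsingle (1 : Q)) = LinearMap.id := by
      apply LinearMap.ext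
      intro m
      exact augM_single _ _
    have hsub : ∀ (n : ℕ) (y : T n G (Ker Q M)),
        mp n id (augM Q M) (mp n id (Ker Q M).subtype y) = 0 := by
      intro n y
      rw [mp_mp]
      have e : (augM Q M) ∘ₗ (Ker Q M).subtype = 0 := by
        apply LinearMap.ext
        intro p
        exact p.2
      rw [e]
      exact mp_zero_coef _ _ _
    set y1 := mp (k + 1) (id : G → G) (lsingle (1 : Q)) y with hy1
    have hy1' : mp (k + 1) id (augM Q M) y1 = y := by
      rw [hy1, mp_mp, haug1]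
      exact mp_id _ _
    have h1 : mp k id (augM Q M) (dd ((indRep ρ).comp π) k y1) = 0 := by
      rw [← dd_id (ρ := (indRep ρ).comp π) (τ := ρ.comp π) (augM Q M) haug, hy1', hy]
    have h2 := lift_ker k _ h1
    set y2 := mp k (id : G → G) (retr Q M) (dd ((indRep ρ).comp π) k y1) with hy2
    have hc : Cyc ((kerRep ρ).comp π) k y2 := by
      apply cyc_of_mp (τ := (indRep ρ).comp π) (MonoidHom.id G) (Ker Q M).subtype
        (fun g p => rfl) (fun _ _ h => h) Subtype.val_injective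
      have h3 : mp k (MonoidHom.id G) (Ker Q M).subtype y2 = dd ((indRep ρ).comp π) k y1 := h2
      rw [h3]
      exact cyc_dd _ _ _
    obtain ⟨y3, hy3⟩ := hP k rfl y2 hc ⟨y1, h2.symm⟩
    have hζ : Cyc ((indRep ρ).comp π) (k + 1) (y1 - mp (k + 1) id (Ker Q M).subtype y3) := by
      rw [cyc_succ, map_sub, dd_id (ρ := (kerRep ρ).comp π) (τ := (indRep ρ).comp π)
        (Ker Q M).subtype (fun g p => rfl), hy3, h2, sub_self]
    obtain ⟨w, hw, v, hv⟩ := sh_sur π i hπ hi hk hx ρ (k + 1) _ hζ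
    refine ⟨w, hw, mp (k + 2) id (augM Q M) v, ?_⟩
    rw [dd_id (ρ := (indRep ρ).comp π) (τ := ρ.comp π) (augM Q M) haug, hv, map_sub, map_sub,
      hy1', hsub, sub_zero, mp_mp, haug1]
    rfl

include hπ hi hk hx hl in
theorem core (n : ℕ) (M : Type) [AddCommGroup M] [Module ℚ M] (ρ : Representation ℚ Q M)
    (hρ : AcycPos ρ) (hP : ∀ k, k + 1 = n → PP π k (kerRep ρ)) (y : T n G (Ker Q M))
    (hy : Cyc ((kerRep ρ).comp π) n y)
    (hyr : mp n id (Ker Q M).subtype y ∈ LinearMap.range (dd ((indRep ρ).comp π) n)) :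
    y ∈ LinearMap.range (dd ((kerRep ρ).comp π) n) := by
  obtain ⟨w, hw, hyw⟩ := stepOne π i hπ hi hk hx (kerRep ρ) n hP y hy
  -- the image of `w` in the induced module
  have h1 := range_id (ρ := (kerRep ρ).comp π) (τ := (indRep ρ).comp π) (Ker Q M).subtype
    (fun g p => rfl) n _ hyw
  rw [map_sub] at h1
  have h2 := Submodule.sub_mem _ hyr h1
  rw [sub_sub_cancel, mp_mp] at h2
  have hw' : Cyc (trivR N (Q →₀ M)) n (mp n id (Ker Q M).subtype w) :=
    cyc_id (ρ := trivR N (Ker Q M)) (τ := trivR N (Q →₀ M)) _ (fun _ _ => rfl) n w hw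
  have h3 := locC π i hπ hk hl ρ n _ hw'
  have e1 : mp n i LinearMap.id (mp n id (Ker Q M).subtype w) =
      mp n (id ∘ i) ((Ker Q M).subtype ∘ₗ LinearMap.id) w := by
    rw [mp_mp]
    rfl
  rw [e1] at h3
  have h4 := Submodule.add_mem _ h3 h2
  rw [sub_add_cancel] at h4
  have e2 : mp n i ((lsingle (1 : Q)) ∘ₗ (eps ρ)) (mp n id (Ker Q M).subtype w) =
      mp n i (lsingle (1 : Q)) (mp n id ((eps ρ) ∘ₗ (Ker Q M).subtype) w) := by
    rw [mp_mp, mp_mp]
    rfl
  rw [e2] at h4
  have h5 := sh_inj π i hπ hi hk hx ρ n _ h4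
  -- the decomposition of `w`
  set σ := (eps ρ) ∘ₗ (Ker Q M).subtype with hσ
  obtain ⟨s, hs⟩ := exists_pinv σ
  obtain ⟨s', hs'⟩ := exists_pinv (D1 (kerRep ρ))
  have e3 : (LinearMap.id : Ker Q M →ₗ[ℚ] Ker Q M) =
      (D1 (kerRep ρ)) ∘ₗ (s' ∘ₗ (LinearMap.id - s ∘ₗ σ)) + s ∘ₗ σ := by
    apply LinearMap.ext
    intro p
    have h6 : eps ρ (p - s (σ p)).1 = 0 := by
      change σ (p - s (σ p)) = 0
      rw [map_sub, hs, sub_self]
    obtain ⟨u, hu⟩ := ker_D1 hρ (p - s (σ p)) h6
    change p = D1 (kerRep ρ) (s' (p - s (σ p))) + s (σ p)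
    rw [← hu, hs', hu, sub_add_cancel]
  have h6 : mp n i LinearMap.id w ∈ LinearMap.range (dd ((kerRep ρ).comp π) n) := by
    rw [e3, mp_add_coef]
    apply Submodule.add_mem
    · have h7 := locB π i hπ hk hl (kerRep ρ) n (mp n id (s' ∘ₗ (LinearMap.id - s ∘ₗ σ)) w)
        (cyc_id (ρ := trivR N (Ker Q M)) (τ := trivR N (T 1 Q (Ker Q M))) _ (fun _ _ => rfl) n w
          hw)
      rw [mp_mp] at h7
      exact h7
    · have h7 := range_mp (ρ := trivR N M) (τ := (kerRep ρ).comp π) i s (fun g m => by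
        change s m = kerRep ρ (π (i g)) (s m)
        rw [hk, map_one]
        rfl) n _ h5
      rw [mp_mp] at h7
      exact h7
  have h7 := Submodule.add_mem _ hyw h6
  rw [sub_add_cancel] at h7
  exact h7

include hπ hi hk hx hl in
theorem all_PP (n : ℕ) : ∀ (M : Type) [AddCommGroup M] [Module ℚ M] (ρ : Representation ℚ Q M),
    AcycPos ρ → PP π n ρ := by
  induction n with
  | zero =>
    intro M _ _ ρ hρ y hy hyr
    exact core π i hπ hi hk hx hl 0 M ρ hρ (fun k hk => absurd hk (by omega)) y hy hyr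
  | succ n ih =>
    intro M _ _ ρ hρ y hy hyr
    exact core π i hπ hi hk hx hl (n + 1) M ρ hρ (fun k hk => by
      obtain rfl : k = n := by omega
      exact ih (Ker Q M) (kerRep ρ) hρ.ker) y hy hyr

include hπ hi hk hx hl in
/-- **Vanishing.** -/
theorem vanish (ρ : Representation ℚ Q M) (hρ : AcycPos ρ) (h0 : ∀ m, ∃ u, D1 ρ u = m) (n : ℕ)
    (y : T n G M) (hy : Cyc (ρ.comp π) n y) : y ∈ LinearMap.range (dd (ρ.comp π) n) := by
  obtain ⟨w, hw, hyw⟩ := stepOne π i hπ hi hk hx ρ n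
    (fun k _ => all_PP π i hπ hi hk hx hl k M ρ hρ) y hy
  obtain ⟨s', hs'⟩ := exists_pinv (D1 ρ)
  have e : (LinearMap.id : M →ₗ[ℚ] M) = (D1 ρ) ∘ₗ s' := by
    apply LinearMap.ext
    intro m
    obtain ⟨u, rfl⟩ := h0 m
    exact (hs' u).symm
  have h6 : mp n i LinearMap.id w ∈ LinearMap.range (dd (ρ.comp π) n) := by
    rw [e]
    have h7 := locB π i hπ hk hl ρ n (mp n id s' w)
      (cyc_id (ρ := trivR N M) (τ := trivR N (T 1 Q M)) _ (fun _ _ => rfl) n w hw)
    rw [mp_mp] at h7
    exact h7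
  have h7 := Submodule.add_mem _ hyw h6
  rw [sub_add_cancel] at h7
  exact h7

end Main

end Pool.Agent.H417.PL
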