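import Pool.Agent.H417.PL.Van
import Pool.Graph.R_seed8.R942.NV.Abl

/-!
Weights on the rational homology of torsion-free abelian groups, and the rational homology of
extensions of the integers by them.
-/

set_option autoImplicit false

namespace Pool.Agent.H417.PL

open Finsupp Pool.Agent.Y483 Pool.Agent.R942.NV

section Sub

variable {G : Type} [Group G] {M : Type} [AddCommGroup M] [Module ℚ M]

/-- A chain whose entries are in a subgroup. -/
theorem exists_sub (H : Subgroup G) (n : ℕ) (z : T n G M) (h : ∀ x ∈ z.support, ∀ i, x i ∈ H) :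
    ∃ z' : T n H M, mp n H.subtype LinearMap.id z' = z := by
  classical
  refine ⟨mp n (fun g : G => if hg : g ∈ H then (⟨g, hg⟩ : H) else 1) LinearMap.id z, ?_⟩
  rw [mp_mp]
  conv_rhs => rw [← mp_id n z]
  apply mp_congr
  intro x hx i
  rw [Function.comp_apply, dif_pos (h x hx i)]
  rfl

/-- The entries of a chain. -/
noncomputable def entries {X : Type} [DecidableEq X] {n : ℕ} (z : T n X M) : Finset X :=
  z.support.biUnion fun x => Finset.univ.image x

omit [Module ℚ M] in
theorem mem_entries {X : Type} [DecidableEq X] {n : ℕ} (z : T n X M) (x : Fin n → X)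
    (hx : x ∈ z.support) (i : Fin n) : x i ∈ entries z :=
  Finset.mem_biUnion.mpr ⟨x, hx, Finset.mem_image_of_mem _ (Finset.mem_univ _)⟩

end Sub

section Weight

theorem exists_labels {K : Type} [CommGroup K] [IsMulTorsionFree K] (L : Subgroup K) (h : L.FG) :
    ∃ (E : Type) (c : L → (E →₀ ℤ)), (∀ g h, c (g * h) = c g + c h) ∧ Function.Injective c := by
  have h1 : Group.FG L := (Group.fg_iff_subgroup_fg L).mpr h
  have h2 : AddGroup.FG (Additive L) := inferInstance
  have h3 : Module.Finite ℤ (Additive L) := Module.Finite.iff_addGroup_fg.mpr h2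
  have h4 : IsMulTorsionFree L := inferInstance
  have h5 : Module.IsTorsionFree ℤ (Additive L) := inferInstance
  have h6 : Module.Free ℤ (Additive L) := inferInstance
  let b := Module.Free.chooseBasis ℤ (Additive L)
  refine ⟨_, fun g => b.repr (Additive.ofMul g), ?_, ?_⟩
  · intro g h
    change b.repr (Additive.ofMul (g * h)) = _
    rw [ofMul_mul, map_add]
  · intro g h hgh
    exact Additive.ofMul.injective (b.repr.injective hgh)

/-- An endomorphism `s` with `s(x) ^ a = x ^ b` acts on the homology of degree `q` by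
`(b / a) ^ q`. -/
theorem weight {K : Type} [CommGroup K] [IsMulTorsionFree K] (s : K →* K) (a b : ℕ) (ha : a ≠ 0)
    (hs : ∀ x, (s x) ^ a = x ^ b) (q : ℕ) (y : T q K ℚ) (hy : Cyc (trivR K ℚ) q y) :
    mp q s LinearMap.id y - ((b / a : ℚ) ^ q) • y ∈ LinearMap.range (dd (trivR K ℚ) q) := by
  classical
  set S := entries y with hS
  set L₀ : Subgroup K := Subgroup.closure (S : Set K) with hL₀
  set L : Subgroup K := Subgroup.closure ((S ∪ S.image s : Finset K) : Set K) with hL
  have hle : L₀ ≤ L := Subgroup.closure_mono (by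
    rw [Finset.coe_union]
    exact Set.subset_union_left)
  have hle2 : L₀ ≤ L.comap s := by
    rw [hL₀, Subgroup.closure_le]
    intro x hx
    apply Subgroup.subset_closure
    rw [Finset.coe_union]
    right
    rw [Finset.coe_image]
    exact ⟨x, hx, rfl⟩
  let inc : L₀ →* L := Subgroup.inclusion hle
  let s' : L₀ →* L := (s.comp L₀.subtype).codRestrict L fun x => hle2 x.2
  obtain ⟨y₀, hy₀⟩ := exists_sub L₀ q y
    (fun x hx i => Subgroup.subset_closure (mem_entries y x hx i))
  have hc₀ : Cyc (trivR L₀ ℚ) q y₀ := by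
    apply cyc_of_mp (τ := trivR K ℚ) L₀.subtype LinearMap.id (fun _ _ => rfl)
      L₀.subtype_injective (fun _ _ h => h)
    rw [hy₀]
    exact hy
  obtain ⟨E, c, hc, hinj⟩ := exists_labels L ⟨_, rfl⟩
  have hpow : ∀ (g : L) (k : ℕ), c (g ^ k) = (k : ℤ) • c g := by
    intro g k
    rw [lab_pow c hc, natCast_zsmul]
  have hcs : ∀ x : L₀, (a : ℤ) • c (s' x) = (b : ℤ) • c (inc x) := by
    intro x
    rw [← hpow, ← hpow]
    congr 1
    exact Subtype.ext (hs x.1)
  have hρ : (a : ℚ) ≠ 0 := Nat.cast_ne_zero.mpr ha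
  have key : mp q s' LinearMap.id y₀ - ((b / a : ℚ) ^ q) • mp q inc LinearMap.id y₀ ∈
      LinearMap.range (dd (trivR L ℚ) q) := by
    apply detect c hc hinj
    · apply cyc_sub
      · exact cyc_mp (ρ := trivR L₀ ℚ) (τ := trivR L ℚ) s' LinearMap.id (fun _ _ => rfl) q y₀ hc₀
      · have h1 := cyc_mp (ρ := trivR L₀ ℚ) (τ := trivR L ℚ) inc LinearMap.id (fun _ _ => rfl) q
          y₀ hc₀
        cases q with
        | zero => exact Cyc.zero _ _
        | succ q =>
          rw [cyc_succ] at *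
          rw [map_smul, h1, smul_zero]
    · intro ω
      rw [map_sub, map_smul, ipair_mp, ipair_mp, sub_eq_zero]
      have h : ipair (c ∘ s') q ((LinearMap.id : ℚ →ₗ[ℚ] ℚ) ∘ₗ LinearMap.id) ω =
          ((b / a : ℚ) ^ q) • ipair (c ∘ inc) q ((LinearMap.id : ℚ →ₗ[ℚ] ℚ) ∘ₗ LinearMap.id) ω := by
        apply T_ext
        intro x r
        rw [LinearMap.smul_apply, ipair_single, ipair_single, smul_eq_mul, ← mul_assoc]
        congr 1
        have h2 := ω.map_smul_univ (fun _ : Fin q => (a : ℤ)) (fun i => c (s' (x i)))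
        have h3 := ω.map_smul_univ (fun _ : Fin q => (b : ℤ)) (fun i => c (inc (x i)))
        have h4 : (fun i => (a : ℤ) • c (s' (x i))) = fun i => (b : ℤ) • c (inc (x i)) :=
          funext fun i => hcs (x i)
        rw [h4, h3, Finset.prod_const, Finset.prod_const, Finset.card_univ, Fintype.card_fin,
          zsmul_eq_mul, zsmul_eq_mul] at h2
        push_cast at h2
        change ω (fun i => c (s' (x i))) = _ * ω (fun i => c (inc (x i)))
        rw [div_pow, div_mul_eq_mul_div, h2, mul_div_cancel_left₀]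
        exact pow_ne_zero _ hρ
      exact DFunLike.congr_fun h y₀
  have h5 := range_mp (ρ := trivR L ℚ) (τ := trivR K ℚ) L.subtype LinearMap.id (fun _ _ => rfl) q _
    key
  rw [map_sub, map_smul, mp_mp, mp_mp] at h5
  have e1 : mp q (L.subtype ∘ s') ((LinearMap.id : ℚ →ₗ[ℚ] ℚ) ∘ₗ LinearMap.id) y₀ =
      mp q s LinearMap.id y := by
    rw [← hy₀, mp_mp]
    rfl
  have e2 : mp q (L.subtype ∘ inc) ((LinearMap.id : ℚ →ₗ[ℚ] ℚ) ∘ₗ LinearMap.id) y₀ = y := by
    conv_rhs => rw [← hy₀]
    rfl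
  rw [e1, e2] at h5
  exact h5

end Weight

section Wang

variable {B K : Type} [Group B] [Group K] (l : B → ℤ) (hl : ∀ g h, l (g * h) = l g + l h)

/-- The action on `ℤ` through a homomorphism to `ℤ`. -/
def zA : B →* Equiv.Perm ℤ where
  toFun k := Equiv.addLeft (l k)
  map_one' := by
    ext a
    simp [map_one_zero l hl]
  map_mul' g h := by
    ext a
    simp [hl]

theorem zA_apply (k : B) (a : ℤ) : zA l hl k a = l k + a := rfl

variable (t : B) (ht : l t = 1) (i : K →* B) (hi : Function.Injective i) (hik : ∀ k, l (i k) = 0)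
  (hex : ∀ g, l g = 0 → ∃ k, i k = g) (s : K →* K) (hs : ∀ k, t⁻¹ * i k * t = i (s k))
  (hw : ∀ (q : ℕ), ∃ c : ℚ, c ≠ 1 ∧ ∀ y : T (q + 1) K ℚ, Cyc (trivR K ℚ) (q + 1) y →
    mp (q + 1) s LinearMap.id y - c • y ∈ LinearMap.range (dd (trivR K ℚ) (q + 1)))

theorem sh_comm (g : B) (m : ℤ →₀ ℚ) : DZ (permRep (zA l hl) g m) =
    permRep (zA l hl) g (DZ m) := by
  have h : DZ ∘ₗ (permRep (zA l hl) g) = (permRep (zA l hl) g) ∘ₗ DZ := by
    apply lhom_ext
    intro a r
    rw [LinearMap.comp_apply, LinearMap.comp_apply, permRep_single, DZ, LinearMap.sub_apply,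
      LinearMap.sub_apply, shZ_single, shZ_single, LinearMap.id_apply, LinearMap.id_apply, map_sub,
      permRep_single, permRep_single, zA_apply, zA_apply, add_assoc]
  exact DFunLike.congr_fun h m

include ht in
theorem zA_trans : ∀ a : ℤ, ∃ h : B, zA l hl h 0 = a := by
  intro a
  have hpow : ∀ n : ℕ, l (t ^ n) = n := by
    intro n
    induction n with
    | zero => rw [pow_zero, map_one_zero l hl]; rfl
    | succ n ih => rw [pow_succ, hl, ih, ht]; push_cast; ring
  rcases le_or_gt 0 a with h | h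
  · refine ⟨t ^ a.toNat, ?_⟩
    rw [zA_apply, hpow, add_zero]
    omega
  · refine ⟨(t ^ (-a).toNat)⁻¹, ?_⟩
    rw [zA_apply, map_inv_neg l hl, hpow, add_zero]
    omega

include ht hi hik hex hs hw in
/-- The difference operator acts on the homology of the induced module by a nonzero scalar. -/
theorem DZ_scalar (q : ℕ) : ∃ c : ℚ, c ≠ 0 ∧ ∀ z : T (q + 1) B (ℤ →₀ ℚ),
    Cyc (permRep (zA l hl)) (q + 1) z →
      mp (q + 1) id DZ z - c • z ∈ LinearMap.range (dd (permRep (zA l hl)) (q + 1)) := by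
  obtain ⟨c, hc, hcy⟩ := hw q
  refine ⟨c - 1, sub_ne_zero.mpr hc, fun z hz => ?_⟩
  have hstab : ∀ k, zA l hl (i k) 0 = 0 := by
    intro k
    rw [zA_apply, hik, zero_add]
  have hex' : ∀ h, zA l hl h 0 = 0 → ∃ k, i k = h := by
    intro h hh
    rw [zA_apply, add_zero] at hh
    exact hex h hh
  obtain ⟨y, hy, hyz⟩ := shapiro (zA l hl) 0 (zA_trans l hl t ht) i hi hstab hex' (trivR K ℚ)
    (fun _ => rfl) (q + 1) z hz
  have h1 := range_id (ρ := permRep (zA l hl)) (τ := permRep (zA l hl)) DZ (sh_comm l hl) (q + 1) _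
    hyz
  rw [map_sub, mp_mp] at h1
  have hφ : ∀ (a : ℤ) (g : K) (m : ℚ), (lsingle a : ℚ →ₗ[ℚ] (ℤ →₀ ℚ)) (trivR K ℚ g m) =
      permRep (zA l hl) (i g) ((lsingle a : ℚ →ₗ[ℚ] (ℤ →₀ ℚ)) m) := by
    intro a g m
    rw [lsingle_apply, lsingle_apply, permRep_single, zA_apply, hik, zero_add]
    rfl
  have h2 := plain (ρ := trivR K ℚ) (τ := permRep (zA l hl)) i (lsingle (1 : ℤ)) (hφ 1) t (q + 1)
    y hy
  have e1 : mp (q + 1) (fun x => t⁻¹ * i x * t) ((permRep (zA l hl) t⁻¹) ∘ₗ (lsingle (1 : ℤ))) y =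
      mp (q + 1) i (lsingle (0 : ℤ)) (mp (q + 1) s LinearMap.id y) := by
    rw [mp_mp]
    have e2 : (permRep (zA l hl) t⁻¹) ∘ₗ (lsingle (1 : ℤ)) = lsingle (0 : ℤ) := by
      apply LinearMap.ext
      intro m
      rw [LinearMap.comp_apply, lsingle_apply, permRep_single, zA_apply, map_inv_neg l hl, ht]
      rfl
    rw [e2]
    congr 2
    funext k
    exact hs k
  rw [e1] at h2
  have h3 := range_mp (ρ := trivR K ℚ) (τ := permRep (zA l hl)) i (lsingle (0 : ℤ)) (hφ 0) (q + 1)
    _ (hcy y hy)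
  rw [map_sub, map_smul] at h3
  -- combine
  have e3 : mp (q + 1) (id ∘ i) (DZ ∘ₗ (lsingle (0 : ℤ))) y =
      mp (q + 1) i (lsingle (1 : ℤ)) y - mp (q + 1) i (lsingle (0 : ℤ)) y := by
    rw [← mp_sub_coef']
    congr 2
    apply LinearMap.ext
    intro m
    change DZ (single 0 m) = single 1 m - single 0 m
    rw [DZ, LinearMap.sub_apply, shZ_single]
    rfl
  rw [e3] at h1
  have h4 := Submodule.add_mem _ (Submodule.sub_mem _ h1 h2) h3
  have h5 := Submodule.smul_mem _ (c - 1) hyz
  have h6 := Submodule.sub_mem _ h4 h5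
  have e4 : mp (q + 1) id DZ z - (mp (q + 1) i (lsingle (1 : ℤ)) y -
      mp (q + 1) i (lsingle (0 : ℤ)) y) - (mp (q + 1) i (lsingle (0 : ℤ))
        (mp (q + 1) s LinearMap.id y) - mp (q + 1) i (lsingle (1 : ℤ)) y) +
      (mp (q + 1) i (lsingle (0 : ℤ)) (mp (q + 1) s LinearMap.id y) -
        c • mp (q + 1) i (lsingle (0 : ℤ)) y) -
      (c - 1) • (z - mp (q + 1) i (lsingle (0 : ℤ)) y) = mp (q + 1) id DZ z - (c - 1) • z := by
    rw [smul_sub, sub_smul (M := T (q + 1) B (ℤ →₀ ℚ)) c 1 (mp (q + 1) i (lsingle (0 : ℤ)) y),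
      one_smul]
    abel
  rw [e4] at h6
  exact h6

/-- The sum of the values of `l` at the first entries. -/
noncomputable def lam (q : ℕ) : T (q + 1) B ℚ →ₗ[ℚ] ℚ :=
  lsum ℚ fun x => (l (x 0) : ℚ) • LinearMap.id

omit [Group B] in
theorem lam_single (q : ℕ) (x : Fin (q + 1) → B) (r : ℚ) :
    lam l q (single x r) = (l (x 0) : ℚ) * r := by
  simp [lam]

include ht in
/-- The chains of degree `0` with coefficients in `ℚ[ℤ]`. -/
theorem zero_range (u : T 0 B (ℤ →₀ ℚ)) (hu : sumC ℤ (u default) = 0) :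
    u ∈ LinearMap.range (dd (permRep (zA l hl)) 0) := by
  have h1 : ∀ p : ℤ →₀ ℚ, (single default (p - single 0 (sumC ℤ p)) : T 0 B (ℤ →₀ ℚ)) ∈
      LinearMap.range (dd (permRep (zA l hl)) 0) := by
    intro p
    induction p using Finsupp.induction_linear with
    | zero => simp
    | add p q hp hq =>
      have h2 := Submodule.add_mem _ hp hq
      rw [← single_add] at h2
      have e : p + q - single 0 (sumC ℤ (p + q)) =
          p - single 0 (sumC ℤ p) + (q - single 0 (sumC ℤ q)) := by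
        rw [map_add, single_add]
        abel
      rw [e]
      exact h2
    | single a r =>
      obtain ⟨g, hg⟩ := zA_trans l hl t ht a
      refine ⟨single (fun _ => g⁻¹) (single 0 r), ?_⟩
      rw [dd_zero_eq, D1_single, permRep_single, inv_inv, hg, sumC_single]
  have h2 := h1 (u default)
  rw [hu, single_zero, sub_zero, T0_eq] at h2
  exact h2

theorem sum_RZ (p : ℤ →₀ ℚ) : sumC ℤ (RZ p) = p.sum fun a r => (a : ℚ) * r := by
  have hr : ∀ a : ℤ, sumC ℤ (rZ a) = (a : ℚ) := by
    intro a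
    induction a using Int.induction_on with
    | zero => rw [rZ_zero, map_zero]; rfl
    | succ n ih =>
      rw [rZ_succ, map_add, ih, sumC_single]
      push_cast
      ring
    | pred n ih =>
      have h := rZ_succ (-(n : ℤ) - 1)
      have e : -(n : ℤ) - 1 + 1 = -n := by ring
      rw [e] at h
      have h2 : rZ (-(n : ℤ) - 1) = rZ (-n) - single (-(n : ℤ) - 1) 1 := by rw [h]; abel
      rw [h2, map_sub, ih, sumC_single]
      push_cast
      ring
  induction p using Finsupp.induction_linear with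
  | zero => simp
  | add p q hp hq =>
    rw [map_add, map_add, hp, hq, Finsupp.sum_add_index' (fun _ => mul_zero _)
      (fun _ _ _ => mul_add _ _ _)]
  | single a r =>
    rw [RZ_single, map_smul, hr, Finsupp.sum_single_index (mul_zero _), smul_eq_mul, mul_comm]

include hl ht hi hik hex hs hw in
/-- A cycle of positive degree, of degree one only if the homomorphism vanishes on it, bounds. -/
theorem wangB (q : ℕ) (z : T (q + 1) B ℚ) (hz : dd (trivR B ℚ) q z = 0)
    (h0 : q = 0 → lam l q z = 0) : z ∈ LinearMap.range (dd (trivR B ℚ) (q + 1)) := by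
  have haug : ∀ (g : B) (m : ℤ →₀ ℚ), sumC ℤ (permRep (zA l hl) g m) =
      trivR B ℚ g (sumC ℤ m) := by
    intro g m
    rw [sumC_permRep]; rfl
  set zt := mp (q + 1) (id : B → B) (lsingle (0 : ℤ)) z with hzt
  have hzt' : mp (q + 1) (id : B → B) (sumC ℤ) zt = z := by
    rw [hzt, mp_mp]
    have e : (sumC ℤ) ∘ₗ (lsingle (0 : ℤ)) = LinearMap.id := by
      apply LinearMap.ext
      intro r
      simp
    rw [e]
    exact mp_id _ _
  set k := dd (permRep (zA l hl)) q zt with hk
  have hk0 : mp q (id : B → B) (sumC ℤ) k = 0 := by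
    rw [hk, ← dd_id (ρ := permRep (zA l hl)) (τ := trivR B ℚ) (sumC ℤ) haug, hzt', hz]
  set u := mp q (id : B → B) RZ k with hu
  have hDu : mp q (id : B → B) DZ u = k := by
    rw [hu, mp_mp]
    have e : DZ ∘ₗ RZ = LinearMap.id - (lsingle 0) ∘ₗ (sumC ℤ) := by
      apply LinearMap.ext
      intro m
      exact DZ_RZ m
    rw [e]
    have e2 : mp q ((id : B → B) ∘ id) (LinearMap.id - (lsingle (0 : ℤ)) ∘ₗ (sumC ℤ)) k =
        mp q (id : B → B) LinearMap.id k - mp q (id : B → B) ((lsingle (0 : ℤ)) ∘ₗ (sumC ℤ)) k :=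
      mp_sub_coef _ _ _ _
    rw [e2, mp_id]
    have e3 : mp q (id : B → B) ((lsingle (0 : ℤ)) ∘ₗ (sumC ℤ)) k =
        mp q (id : B → B) (lsingle (0 : ℤ)) (mp q (id : B → B) (sumC ℤ) k) := by
      rw [mp_mp]; rfl
    rw [e3, hk0, map_zero, sub_zero]
  have hkc : Cyc (permRep (zA l hl)) q k := cyc_dd _ _ _
  have huc : Cyc (permRep (zA l hl)) q u := by
    apply cyc_of_mp (τ := permRep (zA l hl)) (MonoidHom.id B) DZ (sh_comm l hl) (fun _ _ h => h)
      DZ_injective
    have : mp q (MonoidHom.id B) DZ u = k := hDu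
    rw [this]
    exact hkc
  have hur : u ∈ LinearMap.range (dd (permRep (zA l hl)) q) := by
    cases q with
    | zero =>
      apply zero_range l hl t ht
      have h1 := h0 rfl
      have h2 : ∀ w : T 1 B ℚ, sumC ℤ ((mp 0 (id : B → B) RZ (dd (permRep (zA l hl)) 0
          (mp 1 (id : B → B) (lsingle (0 : ℤ)) w))) default) = - lam l 0 w := by
        intro w
        have h : (sumC ℤ) ∘ₗ (lapply default : T 0 B (ℤ →₀ ℚ) →ₗ[ℚ] (ℤ →₀ ℚ)) ∘ₗ
            (mp 0 (id : B → B) RZ) ∘ₗ (dd (permRep (zA l hl)) 0) ∘ₗ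
              (mp 1 (id : B → B) (lsingle (0 : ℤ))) = - lam l 0 := by
          apply T_ext
          intro x r
          rw [LinearMap.comp_apply, LinearMap.comp_apply, LinearMap.comp_apply,
            LinearMap.comp_apply, mp_single, dd_zero_eq, mp_single, D1_single, lapply_apply]
          have e5 : ((id : B → B) ∘ (default : Fin 0 → B)) = default := Subsingleton.elim _ _
          rw [e5, Finsupp.single_eq_same, sum_RZ, lsingle_apply, permRep_single, zA_apply,
            map_inv_neg l hl, LinearMap.neg_apply, lam_single, Finsupp.sum_sub_index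
              (fun _ _ _ => mul_sub _ _ _), Finsupp.sum_single_index (mul_zero _),
            Finsupp.sum_single_index (mul_zero _)]
          simp
        exact DFunLike.congr_fun h w
      rw [hu, hk, hzt, h2, h1, neg_zero]
    | succ q =>
      obtain ⟨c, hc, hcz⟩ := DZ_scalar l hl t ht i hi hik hex s hs hw q
      have h1 := hcz u huc
      rw [hDu] at h1
      have h2 : c • u ∈ LinearMap.range (dd (permRep (zA l hl)) (q + 1)) := by
        have h3 := Submodule.sub_mem _ (⟨zt, rfl⟩ : k ∈ LinearMap.range _) h1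
        rwa [sub_sub_cancel] at h3
      have h3 := Submodule.smul_mem _ c⁻¹ h2
      rwa [smul_smul, inv_mul_cancel₀ hc, one_smul] at h3
  obtain ⟨v, hv⟩ := hur
  set ζ := zt - mp (q + 1) (id : B → B) DZ v with hζ
  have hζc : Cyc (permRep (zA l hl)) (q + 1) ζ := by
    rw [cyc_succ, hζ, map_sub, dd_id (ρ := permRep (zA l hl)) (τ := permRep (zA l hl)) DZ
      (sh_comm l hl), hv, hDu, ← hk, sub_self]
  obtain ⟨c, hc, hcz⟩ := DZ_scalar l hl t ht i hi hik hex s hs hw q
  have h1 := range_id (ρ := permRep (zA l hl)) (τ := trivR B ℚ) (sumC ℤ) haug (q + 1) _ (hcz ζ hζc)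
  have hsD : ∀ w : T (q + 1) B (ℤ →₀ ℚ), mp (q + 1) (id : B → B) (sumC ℤ)
      (mp (q + 1) (id : B → B) DZ w) = 0 := by
    intro w
    rw [mp_mp]
    have e : (sumC ℤ) ∘ₗ DZ = 0 := by
      apply lhom_ext
      intro a r
      simp [DZ]
    rw [e]
    exact mp_zero_coef _ _ _
  rw [map_sub, map_smul, hsD, zero_sub] at h1
  have h2 : mp (q + 1) (id : B → B) (sumC ℤ) ζ = z := by
    rw [hζ, map_sub, hzt', hsD, sub_zero]
  rw [h2] at h1
  have h3 := Submodule.smul_mem _ (-c⁻¹) h1
  rwa [smul_neg, neg_smul, neg_neg, smul_smul, inv_mul_cancel₀ hc, one_smul] at h3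

end Wang

end Pool.Agent.H417.PL
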